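import Pool.Agent.LibNB97.Defs

/-! # Basic facts about systems -/

open MeasureTheory Set Filter Topology
open scoped ENNReal

namespace Pool.Agent.LibNB97

/-- the positions as integers (for `decide`) -/
def gz : Fin 8 → ℤ := ![0, 4, 68, 92, 164, 172, 204, 220]

lemma gp_eq (a : Fin 8) : gp a = (gz a : ℝ) := by
  fin_cases a <;> simp [gp, gz]

/-- exchange of the quantifiers `almost every ω` and `almost every z` -/
lemma ae_swap {Ω : Type*} [MeasurableSpace Ω] (μ : Measure Ω) [SFinite μ] {P : Ω → ℝ → Prop}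
    (hm : MeasurableSet {p : Ω × ℝ | P p.1 p.2}) (h : ∀ᵐ z : ℝ, ∀ᵐ ω ∂μ, P ω z) :
    ∀ᵐ ω ∂μ, ∀ᵐ z : ℝ, P ω z := by
  have h3 : ∀ᵐ p ∂((volume : Measure ℝ).prod μ), P p.2 p.1 :=
    (Measure.ae_prod_iff_ae_ae (hm.preimage measurable_swap)).mpr h
  have h4 : ∀ᵐ p ∂(μ.prod (volume : Measure ℝ)), P p.1 p.2 := by
    have h5 := (Measure.measurePreserving_swap (μ := μ) (ν := (volume : Measure ℝ))).quasiMeasurePreserving.ae h3
    simpa using h5
  exact Measure.ae_ae_of_ae_prod h4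

namespace Sys

variable (S : Sys)

lemma T_neg (k : ℤ) (ω : S.Ω) : S.T (-k) (S.T k ω) = ω := by
  rw [← S.T_add, neg_add_cancel, S.T_zero]

lemma T_neg' (k : ℤ) (ω : S.Ω) : S.T k (S.T (-k) ω) = ω := by
  rw [← S.T_add, add_neg_cancel, S.T_zero]

@[fun_prop] lemma T_meas (k : ℤ) : Measurable (S.T k) := (S.T_mp k).measurable

lemma T_prod_mp (k : ℤ) : MeasurePreserving (fun p : S.Ω × ℝ => (S.T k p.1, p.2))
    (S.μ.prod (volume : Measure ℝ)) (S.μ.prod volume) :=
  (S.T_mp k).prod (MeasurePreserving.id _)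

/-- membership in the content of block `k` at a measurable point -/
lemma meas_K {α : Type*} [MeasurableSpace α] {f : α → S.Ω} {g : α → ℝ} (hf : Measurable f)
    (hg : Measurable g) : MeasurableSet {a | g a ∈ S.K (f a)} :=
  S.K_meas.preimage (hf.prodMk hg)

lemma meas_reg {α : Type*} [MeasurableSpace α] {f : α → S.Ω} {g : α → ℝ} (a : Fin 8)
    (hf : Measurable f) (hg : Measurable g) : MeasurableSet {x | g x ∈ S.reg a (f x)} := by
  have h1 : MeasurableSet {x | g x ∈ Icc (0:ℝ) 1} := hg measurableSet_Icc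
  exact h1.inter (S.meas_K hf (by fun_prop))

lemma meas_X {α : Type*} [MeasurableSpace α] {f : α → S.Ω} {g : α → ℝ}
    (hf : Measurable f) (hg : Measurable g) : MeasurableSet {x | g x ∈ S.X (f x)} := by
  have h1 : {x | g x ∈ S.X (f x)} = ⋃ k : ℤ, {x | g x - 884 * k ∈ S.K (S.T k (f x))} := by
    ext x
    simp [X]
  rw [h1]
  exact MeasurableSet.iUnion fun k => S.meas_K ((S.T_meas k).comp hf) (by fun_prop)

lemma X_shift (k : ℤ) (ω : S.Ω) (y : ℝ) : y ∈ S.X (S.T k ω) ↔ y + 884 * k ∈ S.X ω := by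
  constructor
  · rintro ⟨l, hl⟩
    refine ⟨l + k, ?_⟩
    rw [S.T_add]
    convert hl using 1
    push_cast
    ring
  · rintro ⟨l, hl⟩
    refine ⟨l - k, ?_⟩
    have e : S.T l ω = S.T (l - k) (S.T k ω) := by rw [← S.T_add, sub_add_cancel]
    rw [← e]
    convert hl using 1
    push_cast
    ring

/-- in the fundamental period only block `0` matters -/
lemma mem_X_iff {ω : S.Ω} {y : ℝ} (k : ℤ) (hy : y - 884 * k ∈ Ioo (-663:ℝ) 884) :
    y ∈ S.X ω ↔ y - 884 * k ∈ S.K (S.T k ω) := by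
  constructor
  · rintro ⟨l, hl⟩
    have h1 := S.K_sub _ hl
    have h2 : l = k := by
      have ha : ((l - k : ℤ) : ℝ) < 1 := by
        push_cast
        have := h1.1
        have := hy.2
        nlinarith
      have hb : (-1 : ℝ) < ((l - k : ℤ) : ℝ) := by
        push_cast
        have := h1.2
        have := hy.1
        nlinarith
      have ha' : l - k < 1 := by exact_mod_cast ha
      have hb' : -1 < l - k := by exact_mod_cast hb
      omega
    rw [← h2]
    exact hl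
  · intro h
    exact ⟨k, h⟩

lemma corr_nonneg (k : ℤ) (s : ℝ) : 0 ≤ S.corr k s := measureReal_nonneg

lemma pp_nonneg (k : ℤ) (x y : ℝ) : 0 ≤ S.pp k x y := measureReal_nonneg

lemma R_nonneg (a b : Fin 8) (k : ℤ) (z y : ℝ) : 0 ≤ S.R a b k z y := measureReal_nonneg

lemma R_le_one (a b : Fin 8) (k : ℤ) (z y : ℝ) : S.R a b k z y ≤ 1 := measureReal_le_one

section NB97_BAS1

lemma bas1_meas (k : ℤ) (s : ℝ) :
    MeasurableSet {p : S.Ω × ℝ | p.2 ∈ S.K p.1 ∧ p.2 + s ∈ S.K (S.T k p.1)} :=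
  (S.meas_K measurable_fst measurable_snd).inter
    (S.meas_K ((S.T_meas k).comp measurable_fst) (measurable_snd.add_const s))

/-- general form: mass of a measurable set over a bounded interval -/
lemma bas1_real_prod {Ω : Type*} [MeasurableSpace Ω] (μ : Measure Ω) [IsProbabilityMeasure μ]
    {B : Set (Ω × ℝ)} (hB : MeasurableSet B) {a b : ℝ} (hb : ∀ p ∈ B, p.2 ∈ Icc a b) :
    (μ.prod volume).real B = ∫ y, μ.real {ω | (ω, y) ∈ B} := by
  have hfin : ∀ y, μ {ω | (ω, y) ∈ B} ≠ ⊤ := fun y => measure_ne_top _ _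
  have hm : Measurable fun y => μ {ω | (ω, y) ∈ B} := measurable_measure_prodMk_right hB
  rw [measureReal_def, Measure.prod_apply_symm hB]
  have e : ∀ y, μ.real {ω | (ω, y) ∈ B} = (μ {ω | (ω, y) ∈ B}).toReal := fun y => rfl
  simp_rw [e]
  rw [integral_toReal hm.aemeasurable (Eventually.of_forall fun y => (hfin y).lt_top)]
  rfl

theorem corr_eq_integral (k : ℤ) (s : ℝ) : S.corr k s = ∫ y, S.pp k y (y + s) := by
  unfold corr pp
  exact bas1_real_prod S.μ (S.bas1_meas k s) (fun p hp => S.K_sub _ hp.1)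

theorem corr_eq_zero {k : ℤ} {s : ℝ} (h : 221 < |s|) : S.corr k s = 0 := by
  unfold corr
  have e : {p : S.Ω × ℝ | p.2 ∈ S.K p.1 ∧ p.2 + s ∈ S.K (S.T k p.1)} = ∅ := by
    ext p
    simp only [mem_ofPred_eq, mem_empty_iff_false, iff_false, not_and]
    intro h1 h2
    have h3 := S.K_sub _ h1
    have h4 := S.K_sub _ h2
    have h5 : |s| ≤ 221 := abs_le.mpr ⟨by linarith [h3.1, h3.2, h4.1, h4.2], by linarith [h3.1, h3.2, h4.1, h4.2]⟩
    linarith
  rw [e]
  simp

theorem measurable_pp (k : ℤ) : Measurable fun p : ℝ × ℝ => S.pp k p.1 p.2 := by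
  unfold pp
  have h : MeasurableSet {q : (ℝ × ℝ) × S.Ω | q.1.1 ∈ S.K q.2 ∧ q.1.2 ∈ S.K (S.T k q.2)} :=
    (S.meas_K measurable_snd (by fun_prop)).inter
      (S.meas_K ((S.T_meas k).comp measurable_snd) (by fun_prop))
  exact (measurable_measure_prodMk_left h).ennreal_toReal

theorem measurable_R (a b : Fin 8) (k : ℤ) : Measurable fun p : ℝ × ℝ => S.R a b k p.1 p.2 := by
  unfold R
  have h : MeasurableSet {q : (ℝ × ℝ) × S.Ω | q.1.1 ∈ S.reg a q.2 ∧ q.1.2 ∈ S.reg b (S.T k q.2)} :=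
    (S.meas_reg a measurable_snd (by fun_prop)).inter
      (S.meas_reg b ((S.T_meas k).comp measurable_snd) (by fun_prop))
  exact (measurable_measure_prodMk_left h).ennreal_toReal

theorem R_eq_pp (a b : Fin 8) (k : ℤ) {z y : ℝ} (hz : z ∈ Icc (0:ℝ) 1) (hy : y ∈ Icc (0:ℝ) 1) :
    S.R a b k z y = S.pp k (gp a + z) (gp b + y) := by
  unfold R pp reg
  congr 1
  ext ω
  simp only [mem_ofPred_eq]
  tauto

theorem R_eq_zero (a b : Fin 8) (k : ℤ) {z y : ℝ} (h : z ∉ Icc (0:ℝ) 1 ∨ y ∉ Icc (0:ℝ) 1) :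
    S.R a b k z y = 0 := by
  unfold R reg
  have e : {ω | z ∈ {z | z ∈ Icc (0:ℝ) 1 ∧ gp a + z ∈ S.K ω} ∧
      y ∈ {z | z ∈ Icc (0:ℝ) 1 ∧ gp b + z ∈ S.K (S.T k ω)}} = ∅ := by
    ext ω
    simp only [mem_ofPred_eq, mem_empty_iff_false, iff_false]
    tauto
  rw [e]
  simp

theorem R_shift (a b : Fin 8) (k n : ℤ) (z y : ℝ) :
    S.μ.real {ω | z ∈ S.reg a (S.T n ω) ∧ y ∈ S.reg b (S.T (n + k) ω)} = S.R a b k z y := by
  unfold R
  have hm : MeasurableSet {ω | z ∈ S.reg a ω ∧ y ∈ S.reg b (S.T k ω)} :=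
    (S.meas_reg a measurable_id measurable_const).inter
      (S.meas_reg b (S.T_meas k) measurable_const)
  have h := (S.T_mp n).measureReal_preimage hm.nullMeasurableSet
  rw [← h]
  congr 1
  ext ω
  simp only [mem_ofPred_eq, mem_preimage]
  rw [add_comm n k, S.T_add]

theorem cov_eq_corr (k : ℤ) {s : ℝ} (hs : |s| ≤ 442) :
    S.cov (884 * k + s) = S.corr k s / 884 := by
  unfold cov corr
  congr 2
  ext p
  simp only [mem_ofPred_eq]
  have hs' := abs_le.mp hs
  constructor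
  · rintro ⟨h1, h2, h3⟩
    have h4 : p.2 ∈ S.K p.1 := by
      have := (S.mem_X_iff (ω := p.1) (y := p.2) 0 (by
        simp only [Int.cast_zero, mul_zero, sub_zero]
        exact ⟨by linarith [h1.1], h1.2⟩)).mp h2
      simpa [S.T_zero] using this
    refine ⟨h4, ?_⟩
    have h5 := S.K_sub _ h4
    have := (S.mem_X_iff (ω := p.1) (y := p.2 + (884 * k + s)) k (by
      constructor <;> linarith [h5.1, h5.2])).mp h3
    convert this using 1
    ring
  · rintro ⟨h1, h2⟩
    have h5 := S.K_sub _ h1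
    refine ⟨⟨h5.1, by linarith [h5.2]⟩, ⟨0, by simpa [S.T_zero] using h1⟩, ⟨k, ?_⟩⟩
    convert h2 using 1
    ring

theorem cov_congr {S S' : Sys} (h : ∀ k s, S.corr k s = S'.corr k s) : S.cov = S'.cov := by
  funext t
  set k : ℤ := round (t / 884) with hk
  have h1 : |t / 884 - k| ≤ 1 / 2 := abs_sub_round _
  have h2 : |t - 884 * k| ≤ 442 := by
    have e : t - 884 * k = 884 * (t / 884 - k) := by ring
    rw [e, abs_mul, abs_of_pos (by norm_num : (0:ℝ) < 884)]
    linarith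
  have e : t = 884 * k + (t - 884 * k) := by ring
  rw [e, cov_eq_corr S k h2, cov_eq_corr S' k h2, h]

end NB97_BAS1









end Sys
end Pool.Agent.LibNB97
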