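import Pool.Agent.LibNB97.Defs

/-! # Moduli and index sets -/

open MeasureTheory Set Filter Topology
open scoped ENNReal

namespace Pool.Agent.LibNB97

variable {nx : ℕ → Fin 2 → ℕ}

section NB97_MDL

/-- task MDL: coprimality and disjointness of index sets -/
theorem md_pos (Q : Finset ℕ) : 0 < md Q := by
  unfold md
  exact Finset.prod_pos fun q _ => by have := three_le_u q; omega

theorem two_le_md {Q : Finset ℕ} (hQ : Q.Nonempty) : 2 ≤ md Q := by
  obtain ⟨q, hq⟩ := hQ
  have h1 : u q ∣ md Q := Finset.dvd_prod_of_mem u hq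
  have h2 := Nat.le_of_dvd (md_pos Q) h1
  have h3 := three_le_u q
  omega

theorem coprime_md {Q Q' : Finset ℕ} (h : Disjoint Q Q') : (md Q).Coprime (md Q') := by
  unfold md
  refine Nat.Coprime.prod_left fun q hq => Nat.Coprime.prod_right fun q' hq' => ?_
  refine coprime_u ?_
  rintro rfl
  exact Finset.disjoint_left.1 h hq hq'

theorem md_gcd (Q Q' : Finset ℕ) : Nat.gcd (md Q) (md Q') = md (Q ∩ Q') := by
  have h1 : md Q = md (Q ∩ Q') * md (Q \ Q') := by
    unfold md
    rw [Finset.prod_inter_mul_prod_sdiff]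
  have h2 : md Q' = md (Q ∩ Q') * md (Q' \ Q) := by
    unfold md
    rw [Finset.inter_comm, Finset.prod_inter_mul_prod_sdiff]
  have h3 : Nat.gcd (md (Q \ Q')) (md (Q' \ Q)) = 1 := by
    refine coprime_md ?_
    rw [Finset.disjoint_left]
    intro q hq hq'
    exact (Finset.mem_sdiff.1 hq).2 (Finset.mem_sdiff.1 hq').1
  rw [h1, h2, Nat.gcd_mul_left, h3, mul_one]

theorem qs_inter (κ κ' : ℕ) (h : κ ≠ κ') : Disjoint (qs κ) (qs κ') := by
  rw [Finset.disjoint_left]
  intro q hq hq'
  simp only [qs, Finset.mem_insert, Finset.mem_singleton] at hq hq'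
  omega

theorem lk_inter (hnx : Next nx) (σ σ' : ℕ × Fin 2) (h : σ ≠ σ') :
    Disjoint (lk nx σ) (lk nx σ') := by
  rw [Finset.disjoint_left]
  intro q hq hq'
  simp only [lk, qA, qB, Finset.mem_insert, Finset.mem_singleton] at hq hq'
  obtain ⟨κ, i⟩ := σ
  obtain ⟨κ', i'⟩ := σ'
  simp only at hq hq'
  have hi := i.2
  have hi' := i'.2
  apply h
  rcases hq with hq | hq <;> rcases hq' with hq' | hq'
  · have h1 : κ = κ' := by omega
    have h2 : (i : ℕ) = i' := by omega
    rw [h1, Fin.ext h2]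
  · omega
  · omega
  · have h2 : (i : ℕ) = i' := by omega
    have h3 : i = i' := Fin.ext h2
    subst h3
    have h4 : nx κ i = nx κ' i := by omega
    have h5 : κ = κ' := hnx.inj i h4
    rw [h5]

theorem qs_inj {κ κ' : ℕ} (h : qs κ = qs κ') : κ = κ' := by
  by_contra hne
  have h1 := qs_inter κ κ' hne
  rw [h, disjoint_self] at h1
  have h2 : 4 * κ' ∈ qs κ' := by simp [qs]
  rw [h1] at h2
  exact absurd h2 (Finset.notMem_empty _)

theorem lk_inj (hnx : Next nx) {σ σ' : ℕ × Fin 2} (h : lk nx σ = lk nx σ') : σ = σ' := by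
  by_contra hne
  have h1 := lk_inter hnx σ σ' hne
  rw [h, disjoint_self] at h1
  have h2 : qB σ' ∈ lk nx σ' := by simp [lk]
  rw [h1] at h2
  exact absurd h2 (Finset.notMem_empty _)

/-- intersections of index sets -/
theorem inter_qs_lk (hnx : Next nx) (κ κ' : ℕ) (σ σ' : ℕ × Fin 2)
    (h : (qs κ, lk nx σ) ≠ (qs κ', lk nx σ')) :
    Disjoint (qs κ ∩ lk nx σ) (qs κ' ∩ lk nx σ') := by
  by_cases hκ : κ = κ'
  · by_cases hσ : σ = σ'
    · exact absurd (by rw [hκ, hσ]) h
    · exact (lk_inter hnx σ σ' hσ).mono Finset.inter_subset_right Finset.inter_subset_right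
  · exact (qs_inter κ κ' hκ).mono Finset.inter_subset_left Finset.inter_subset_left

end NB97_MDL









end Pool.Agent.LibNB97
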