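import Pool.Agent.LibNB97.Basic
import Pool.Agent.LibNB97.Md

/-! # Comparison of the pair probabilities of two systems of clocks -/

open MeasureTheory Set Filter Topology
open scoped ENNReal

namespace Pool.Agent.LibNB97

section NB97_CMP1

lemma cmp1_periodic {f : ℤ → ℝ} {N : ℕ} (hper : ∀ k, f (k + N) = f k) {k k' : ℤ}
    (h : (N : ℤ) ∣ k - k') : f k = f k' := by
  have hp : Function.Periodic f (N : ℤ) := hper
  obtain ⟨m, hm⟩ := h
  have h1 : k = k' + m * (N : ℤ) := by linarith
  rw [h1]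
  exact (hp.int_mul m) k'

lemma cmp1_sum_zmod (N : ℕ) [NeZero N] (F : ℕ → ℝ) :
    ∑ l ∈ Finset.range N, F l = ∑ x : ZMod N, F x.val := by
  refine Finset.sum_nbij' (fun l => (l : ZMod N)) (fun x => x.val) ?_ ?_ ?_ ?_ ?_
  · intro l _
    exact Finset.mem_univ _
  · intro x _
    exact Finset.mem_range.2 (ZMod.val_lt x)
  · intro l hl
    exact ZMod.val_natCast_of_lt (Finset.mem_range.1 hl)
  · intro x _
    exact ZMod.natCast_zmod_val x
  · intro l hl
    rw [ZMod.val_natCast_of_lt (Finset.mem_range.1 hl)]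

lemma cmp1_sum_shift {f : ℤ → ℝ} {N : ℕ} (hN : 0 < N) (hper : ∀ k, f (k + N) = f k) {a : ℕ}
    (ha : a.Coprime N) (k : ℤ) :
    ∑ l ∈ Finset.range N, f (k + a * l) = ∑ l ∈ Finset.range N, f l := by
  have : NeZero N := ⟨hN.ne'⟩
  rw [cmp1_sum_zmod N (fun l => f (k + a * l)), cmp1_sum_zmod N (fun l => f l)]
  let v := ZMod.unitOfCoprime a ha
  have hv : ((v : (ZMod N)ˣ) : ZMod N) = (a : ZMod N) := ZMod.coe_unitOfCoprime a ha
  have hbij : Function.Bijective (fun x : ZMod N => (k : ZMod N) + (v : ZMod N) * x) := by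
    refine (Equiv.bijective ((Units.mulLeft v).trans (Equiv.addLeft (k : ZMod N))))
  rw [← hbij.sum_comp (fun x : ZMod N => f x.val)]
  refine Finset.sum_congr rfl fun x _ => ?_
  apply cmp1_periodic hper
  rw [← ZMod.intCast_zmod_eq_zero_iff_dvd]
  push_cast
  rw [ZMod.natCast_zmod_val, ZMod.natCast_zmod_val, hv]
  ring

lemma cmp1_sum_zero {f : ℤ → ℝ} {N : ℕ} (hN : 0 < N) (hper : ∀ k, f (k + N) = f k) {a : ℕ}
    (ha : a.Coprime N) (hmean : ∑ k ∈ Finset.range N, f k = 0) (m : ℕ) (k : ℤ) :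
    ∑ l ∈ Finset.range (N * m), f (k + a * l) = 0 := by
  induction m with
  | zero => simp
  | succ m ih =>
    rw [Nat.mul_succ, Finset.sum_range_add, ih, zero_add]
    have h1 := cmp1_sum_shift hN hper ha (k + a * (N * m))
    rw [hmean] at h1
    rw [← h1]
    refine Finset.sum_congr rfl fun l _ => ?_
    congr 1
    push_cast
    ring

theorem decomp {ι : Type*} (g : ι → ℕ) (hg : ∀ i, 0 < g i)
    (hco : ∀ i i', i ≠ i' → (g i).Coprime (g i')) (φ : ι → ℤ → ℝ) (c : ι → ℝ) (hc : Summable c)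
    (hb : ∀ i k, |φ i k| ≤ c i) (hper : ∀ i k, φ i (k + g i) = φ i k)
    (hmean : ∀ i, ∑ k ∈ Finset.range (g i), φ i k = 0) (hsum : ∀ k, ∑' i, φ i k = 0) (i : ι)
    (k : ℤ) : φ i k = 0 := by
  classical
  have hc0 : ∀ j, 0 ≤ c j := fun j => (abs_nonneg _).trans (hb j 0)
  have hs : ∀ k, Summable (fun j => φ j k) := fun k =>
    Summable.of_norm_bounded hc (fun j => by rw [Real.norm_eq_abs]; exact hb j k)
  have hmain : ∀ ε > 0, |φ i k| ≤ ε := by
    intro ε hε
    have h1 := hc.hasSum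
    rw [HasSum] at h1
    have h2 := (Metric.tendsto_atTop.1 h1) ε hε
    obtain ⟨F0, hF0⟩ := h2
    set F := F0.erase i with hF
    set G := insert i F with hG
    have hG0 : F0 ⊆ G := by
      intro j hj
      rw [hG, hF, Finset.mem_insert, Finset.mem_erase]
      by_cases hji : j = i
      · exact Or.inl hji
      · exact Or.inr ⟨hji, hj⟩
    have hiF : i ∉ F := by rw [hF]; simp
    have htail : ∑' j : {j // j ∉ G}, c j ≤ ε := by
      have h3 := hF0 G hG0
      have h4 := hc.sum_add_tsum_subtype_compl G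
      rw [Real.dist_eq] at h3
      have h5 := (abs_lt.1 h3).1
      linarith
    have hT : ∀ k', |∑' j : {j // j ∉ G}, φ j k'| ≤ ε := by
      intro k'
      refine le_trans ?_ htail
      rw [← Real.norm_eq_abs]
      refine tsum_of_norm_bounded ((hc.subtype _).hasSum) ?_
      intro j
      rw [Real.norm_eq_abs]
      exact hb _ _
    set L := ∏ j ∈ F, g j with hL
    have hLpos : 0 < L := Finset.prod_pos fun j _ => hg j
    have hz : ∀ j ∈ F, ∑ l ∈ Finset.range L, φ j (k + g i * l) = 0 := by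
      intro j hj
      have hd : L = g j * (∏ j' ∈ F.erase j, g j') := by
        rw [hL, Finset.mul_prod_erase F g hj]
      rw [hd]
      have hne : i ≠ j := fun h => hiF (h ▸ hj)
      exact cmp1_sum_zero (hg j) (hper j) (hco i j hne) (hmean j) _ k
    have hall : ∑ l ∈ Finset.range L, (φ i (k + g i * l) +
        ∑ j ∈ F, φ j (k + g i * l) + ∑' j : {j // j ∉ G}, φ j (k + g i * l)) = 0 := by
      apply Finset.sum_eq_zero
      intro l _
      have h6 := (hs (k + g i * l)).sum_add_tsum_subtype_compl G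
      rw [hsum, hG, Finset.sum_insert hiF] at h6
      exact h6
    rw [Finset.sum_add_distrib, Finset.sum_add_distrib, Finset.sum_comm,
      Finset.sum_eq_zero hz, add_zero] at hall
    have hconst : ∀ l ∈ Finset.range L, φ i (k + g i * l) = φ i k := by
      intro l _
      apply cmp1_periodic (hper i)
      exact ⟨l, by ring⟩
    rw [Finset.sum_congr rfl hconst, Finset.sum_const, Finset.card_range, nsmul_eq_mul] at hall
    have h7 : |∑ l ∈ Finset.range L, ∑' j : {j // j ∉ G}, φ j (k + g i * l)| ≤ L * ε := by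
      refine (Finset.abs_sum_le_sum_abs _ _).trans ?_
      calc ∑ l ∈ Finset.range L, |∑' j : {j // j ∉ G}, φ j (k + g i * l)|
          ≤ ∑ _l ∈ Finset.range L, ε := Finset.sum_le_sum fun l _ => hT _
        _ = L * ε := by rw [Finset.sum_const, Finset.card_range, nsmul_eq_mul]
    have h8 : (L : ℝ) * φ i k = - ∑ l ∈ Finset.range L, ∑' j : {j // j ∉ G}, φ j (k + g i * l) := by
      linarith
    have h9 : (L : ℝ) * |φ i k| ≤ L * ε := by
      rw [← abs_of_pos (show (0:ℝ) < L by exact_mod_cast hLpos), ← abs_mul, h8, abs_neg,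
        abs_of_pos (show (0:ℝ) < L by exact_mod_cast hLpos)]
      exact h7
    exact le_of_mul_le_mul_left h9 (by exact_mod_cast hLpos)
  have h10 : |φ i k| ≤ 0 := le_of_forall_pos_le_add (fun ε hε => by rw [zero_add]; exact hmain ε hε)
  exact abs_nonpos_iff.1 h10

end NB97_CMP1

section NB97_CMP2

lemma cmp2_one {N : ℕ} (hN : 0 < N) (p : ℤ) (P : ℤ → Prop) [DecidablePred P]
    (h : ∀ k : ℤ, P k ↔ (N : ℤ) ∣ k - p) :
    ∑ k ∈ Finset.range N, (if P (k : ℤ) then (1:ℝ) else 0) = 1 := by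
  have hN' : (0:ℤ) < N := by exact_mod_cast hN
  have h0 : 0 ≤ p % N := Int.emod_nonneg _ hN'.ne'
  have h1 : p % N < N := Int.emod_lt_of_pos _ hN'
  rw [Finset.sum_eq_single (p % N).toNat]
  · rw [if_pos]
    rw [h, Int.toNat_of_nonneg h0]
    have := Int.emod_emod_of_dvd p (dvd_refl (N : ℤ))
    exact Int.dvd_of_emod_eq_zero (Int.emod_eq_emod_iff_emod_sub_eq_zero.1 (by rw [this]))
  · intro k hk hne
    rw [if_neg]
    intro hP
    rw [h] at hP
    apply hne
    have h2 : (k : ℤ) % N = p % N := Int.emod_eq_emod_iff_emod_sub_eq_zero.2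
      (Int.emod_eq_zero_of_dvd hP)
    have h3 : (k : ℤ) % N = k := Int.emod_eq_of_lt (by positivity)
      (by exact_mod_cast Finset.mem_range.1 hk)
    rw [h3] at h2
    rw [← h2]
    simp
  · intro hcon
    exfalso
    apply hcon
    rw [Finset.mem_range]
    omega

/-- Partition of a set by the phases of a clock. -/
lemma cmp2_part (S : Sys) (b : Fin 8) (y : ℝ) {M : ℕ} (hM : 0 < M) (hy : S.IsClock b y M)
    (E : Set S.Ω) (hE : MeasurableSet E) :
    ∑ k ∈ Finset.range M, S.μ.real {ω | ω ∈ E ∧ y ∈ S.reg b (S.T (k : ℤ) ω)} = S.μ.real E := by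
  classical
  have hm : ∀ k : ℤ, MeasurableSet {ω | ω ∈ E ∧ y ∈ S.reg b (S.T k ω)} := fun k =>
    hE.inter (S.meas_reg b (S.T_meas k) measurable_const)
  have h1 : ∀ k : ℤ, S.μ.real {ω | ω ∈ E ∧ y ∈ S.reg b (S.T k ω)} =
      ∫ ω, ({ω | ω ∈ E ∧ y ∈ S.reg b (S.T k ω)}.indicator (1 : S.Ω → ℝ)) ω ∂S.μ := fun k =>
    (integral_indicator_one (hm k)).symm
  simp only [h1]
  have hint : ∀ k : ℤ, Integrable (fun ω => ({ω | ω ∈ E ∧ y ∈ S.reg b (S.T k ω)}.indicator
      (1 : S.Ω → ℝ)) ω) S.μ := fun k => (integrable_const (1:ℝ)).indicator (hm k)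
  rw [← integral_finsetSum (Finset.range M) (fun (k : ℕ) _ => hint (k : ℤ)), ← integral_indicator_one hE]
  apply integral_congr_ae
  filter_upwards [hy] with ω hω
  obtain ⟨p, hp⟩ := hω
  by_cases hωE : ω ∈ E
  · rw [Set.indicator_of_mem hωE]
    have h2 := cmp2_one hM p (fun k => y ∈ S.reg b (S.T k ω)) hp
    rw [Pi.one_apply, ← h2]
    refine Finset.sum_congr rfl fun k _ => ?_
    by_cases hk : y ∈ S.reg b (S.T (k : ℤ) ω)
    · rw [if_pos hk, Set.indicator_of_mem (by exact ⟨hωE, hk⟩)]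
      rfl
    · rw [if_neg hk, Set.indicator_of_notMem (by exact fun hc => hk hc.2)]
  · rw [Set.indicator_of_notMem hωE]
    apply Finset.sum_eq_zero
    intro k _
    exact Set.indicator_of_notMem (by exact fun hc => hωE hc.1) _

theorem clock_mean (S : Sys) (a : Fin 8) (z : ℝ) {N : ℕ} (hN : 0 < N) (hz : S.IsClock a z N)
    (B : Set S.Ω) (hB : MeasurableSet B) (hT : ∀ k ω, S.T k ω ∈ B ↔ ω ∈ B) (k : ℤ) :
    S.μ.real {ω | ω ∈ B ∧ z ∈ S.reg a (S.T k ω)} = S.μ.real B / N := by
  have hm : MeasurableSet {ω | ω ∈ B ∧ z ∈ S.reg a ω} :=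
    hB.inter (S.meas_reg a measurable_id measurable_const)
  have hconst : ∀ k : ℤ, S.μ.real {ω | ω ∈ B ∧ z ∈ S.reg a (S.T k ω)} =
      S.μ.real {ω | ω ∈ B ∧ z ∈ S.reg a ω} := by
    intro k
    rw [← (S.T_mp k).measureReal_preimage hm.nullMeasurableSet]
    congr 1
    ext ω
    simp only [mem_ofPred_eq, mem_preimage, hT]
  have h1 := cmp2_part S a z hN hz B hB
  simp only [hconst] at h1
  rw [Finset.sum_const, Finset.card_range, nsmul_eq_mul] at h1
  rw [hconst, eq_div_iff (by exact_mod_cast hN.ne'), mul_comm]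
  exact h1

lemma cmp2_mean (S : Sys) (a : Fin 8) (z : ℝ) {N : ℕ} (hN : 0 < N) (hz : S.IsClock a z N) :
    S.μ.real {ω | z ∈ S.reg a ω} = 1 / N := by
  have h := clock_mean S a z hN hz Set.univ MeasurableSet.univ (fun _ _ => by simp) 0
  simpa [S.T_zero] using h

theorem clock_self (S : Sys) (a : Fin 8) (z : ℝ) {N : ℕ} (hN : 0 < N) (hz : S.IsClock a z N)
    (k : ℤ) : S.R a a k z z = if (N : ℤ) ∣ k then ((N : ℝ))⁻¹ else 0 := by
  split_ifs with hk
  · rw [Sys.R, ← one_div, ← cmp2_mean S a z hN hz]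
    apply measureReal_congr
    filter_upwards [hz] with ω hω
    obtain ⟨p, hp⟩ := hω
    have h0 := hp 0
    rw [S.T_zero] at h0
    apply propext
    change (z ∈ S.reg a ω ∧ z ∈ S.reg a (S.T k ω)) ↔ z ∈ S.reg a ω
    rw [hp k, h0]
    constructor
    · exact fun h => h.1
    · intro h
      refine ⟨h, ?_⟩
      have : k - p = k + (0 - p) := by ring
      rw [this]
      exact dvd_add hk h
  · rw [Sys.R, measureReal_eq_zero_iff]
    have h3 : ∀ᵐ ω ∂S.μ, ¬ (z ∈ S.reg a ω ∧ z ∈ S.reg a (S.T k ω)) := by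
      filter_upwards [hz] with ω hω hcon
      obtain ⟨p, hp⟩ := hω
      have h0 := hp 0
      rw [S.T_zero] at h0
      apply hk
      have h1 := (h0.1 hcon.1)
      have h2 := (hp k).1 hcon.2
      have : k = (k - p) - (0 - p) := by ring
      rw [this]
      exact dvd_sub h2 h1
    rw [ae_iff] at h3
    simpa using h3

theorem clock_pair (S : Sys) (a b : Fin 8) (z y : ℝ) {N M : ℕ} (hN : 0 < N) (hM : 0 < M)
    (hz : S.IsClock a z N) (hy : S.IsClock b y M) :
    (∀ k : ℤ, S.R a b (k + Nat.gcd N M) z y = S.R a b k z y) ∧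
      ∑ k ∈ Finset.range (Nat.gcd N M), S.R a b (k : ℤ) z y = (Nat.gcd N M : ℝ) / (N * M) := by
  have hper : ∀ k : ℤ, S.R a b (k + Nat.gcd N M) z y = S.R a b k z y := by
    intro k
    rw [← S.R_shift a b k (N * Nat.gcdA N M) z y, Sys.R]
    apply measureReal_congr
    filter_upwards [hz, hy] with ω hω hω'
    obtain ⟨p, hp⟩ := hω
    obtain ⟨q, hq⟩ := hω'
    have h0 := hp 0
    rw [S.T_zero] at h0
    apply propext
    change (z ∈ S.reg a ω ∧ y ∈ S.reg b (S.T (k + Nat.gcd N M) ω)) ↔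
      (z ∈ S.reg a (S.T (N * Nat.gcdA N M) ω) ∧ y ∈ S.reg b (S.T (N * Nat.gcdA N M + k) ω))
    rw [h0, hp, hq, hq, Nat.gcd_eq_gcd_ab N M]
    refine and_congr ?_ ?_
    · rw [show (N : ℤ) * Nat.gcdA N M - p = (0 - p) + N * Nat.gcdA N M by ring]
      exact (dvd_add_left (Dvd.intro _ rfl)).symm
    · rw [show k + ((N : ℤ) * Nat.gcdA N M + M * Nat.gcdB N M) - q =
        (N * Nat.gcdA N M + k - q) + M * Nat.gcdB N M by ring]
      exact dvd_add_left (Dvd.intro _ rfl)
  refine ⟨hper, ?_⟩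
  set g := Nat.gcd N M with hg
  have hgpos : 0 < g := Nat.gcd_pos_of_pos_left _ hN
  obtain ⟨m, hm⟩ := Nat.gcd_dvd_right N M
  rw [← hg] at hm
  -- the sum over a full period
  have h1 : ∑ k ∈ Finset.range M, S.R a b (k : ℤ) z y = 1 / N := by
    have h2 := cmp2_part S b y hM hy {ω | z ∈ S.reg a ω}
      (S.meas_reg a measurable_id measurable_const)
    rw [cmp2_mean S a z hN hz] at h2
    exact h2
  have h3 : ∀ m : ℕ, ∑ k ∈ Finset.range (g * m), S.R a b (k : ℤ) z y =
      m * ∑ k ∈ Finset.range g, S.R a b (k : ℤ) z y := by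
    intro m
    induction m with
    | zero => simp
    | succ m ih =>
      rw [Nat.mul_succ, Finset.sum_range_add, ih]
      have h4 : ∀ k ∈ Finset.range g, S.R a b ((g * m + k : ℕ) : ℤ) z y = S.R a b (k : ℤ) z y := by
        intro k _
        have hp : Function.Periodic (fun k : ℤ => S.R a b k z y) (g : ℤ) := hper
        have h5 := (hp.int_mul (m : ℤ)) (k : ℤ)
        rw [← h5]
        congr 1
        push_cast
        ring
      rw [Finset.sum_congr rfl h4]
      push_cast
      ring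
  rw [hm, h3] at h1
  have hm0 : (m : ℝ) ≠ 0 := by
    intro h0
    have : m = 0 := by exact_mod_cast h0
    rw [this, mul_zero] at hm
    omega
  have hN0 : (N : ℝ) ≠ 0 := by exact_mod_cast hN.ne'
  have hg0 : (g : ℝ) ≠ 0 := by exact_mod_cast hgpos.ne'
  have hMr : (M : ℝ) = g * m := by exact_mod_cast hm
  rw [hMr]
  field_simp
  field_simp at h1
  linarith

end NB97_CMP2



section NB97_CMP3

/-- almost every pair gives almost every `v` and almost every `z` -/
theorem cmp3_shear {P : ℝ → ℝ → Prop} (h : ∀ᵐ p : ℝ × ℝ, P p.1 p.2) :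
    ∀ᵐ v : ℝ, ∀ᵐ z : ℝ, P z (z + v) := by
  have h1 : MeasurePreserving (fun z : ℝ × ℝ => (z.1, z.1 + z.2))
      ((volume : Measure ℝ).prod volume) ((volume : Measure ℝ).prod volume) :=
    measurePreserving_prod_add volume volume
  have h2 : ∀ᵐ p : ℝ × ℝ ∂((volume : Measure ℝ).prod volume), P p.1 (p.1 + p.2) :=
    h1.quasiMeasurePreserving.ae h
  have h3 := (Measure.measurePreserving_swap (μ := (volume : Measure ℝ))
    (ν := (volume : Measure ℝ))).quasiMeasurePreserving.ae h2
  exact Measure.ae_ae_of_ae_prod h3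

theorem cmp3_trans {P : ℝ → Prop} (h : ∀ᵐ z : ℝ, P z) (v : ℝ) : ∀ᵐ z : ℝ, P (z + v) :=
  (measurePreserving_add_right (volume : Measure ℝ) v).quasiMeasurePreserving.ae h

theorem cmp3_integrable (S : Sys) (a b : Fin 8) (k : ℤ) (v : ℝ) :
    Integrable (fun z => S.R a b k z (z + v)) := by
  have hm : Measurable (fun z => S.R a b k z (z + v)) :=
    (S.measurable_R a b k).comp (measurable_id.prodMk (measurable_id.add_const v))
  have h1 : (fun z => S.R a b k z (z + v)) =
      (Icc (0:ℝ) 1).indicator (fun z => S.R a b k z (z + v)) := by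
    ext z
    by_cases hz : z ∈ Icc (0:ℝ) 1
    · rw [indicator_of_mem hz]
    · rw [indicator_of_notMem hz]
      exact S.R_eq_zero a b k (Or.inl hz)
  rw [h1, integrable_indicator_iff measurableSet_Icc]
  refine Measure.integrableOn_of_bounded (M := 1) (by simp) hm.aestronglyMeasurable
    (Eventually.of_forall fun z => ?_)
  rw [Real.norm_eq_abs, abs_of_nonneg (S.R_nonneg a b k z _)]
  exact S.R_le_one a b k z _

/-- task CMP3: comparison in a window -/
theorem window_cmp (S D : Sys) (a b : Fin 8) (ca cb : ℝ → Option (Finset ℕ))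
    (hca : ∀ o, MeasurableSet {z | ca z = o}) (hcb : ∀ o, MeasurableSet {z | cb z = o})
    (ha : ∀ᵐ z : ℝ, ∀ Q, ca z = some Q → z ∈ Icc (0:ℝ) 1 ∧ S.IsClock a z (md Q) ∧ D.IsClock a z (md Q))
    (hb : ∀ᵐ z : ℝ, ∀ Q, cb z = some Q → z ∈ Icc (0:ℝ) 1 ∧ S.IsClock b z (md Q) ∧ D.IsClock b z (md Q))
    (hnone : ∀ᵐ p : ℝ × ℝ, (ca p.1 = none ∨ cb p.2 = none) → ∀ k,
      S.R a b k p.1 p.2 = D.R a b k p.1 p.2)
    (hdisj : ∀ z y z' y' Q Q' P P', ca z = some Q → cb y = some Q' → ca z' = some P →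
      cb y' = some P' → (Q, Q') ≠ (P, P') → Disjoint (Q ∩ Q') (P ∩ P'))
    (hrc : ∀ k u, S.rc a b k u = D.rc a b k u) (Q Q' : Finset ℕ) :
    ∀ᵐ v : ℝ, ∀ k : ℤ, ∫ z in {z | ca z = some Q ∧ cb (z + v) = some Q'}, S.R a b k z (z + v) =
      ∫ z in {z | ca z = some Q ∧ cb (z + v) = some Q'}, D.R a b k z (z + v) := by
  classical
  filter_upwards [cmp3_shear (P := fun z y => (ca z = none ∨ cb y = none) → ∀ k,
      S.R a b k z y = D.R a b k z y) hnone] with v hv
  have hbv := cmp3_trans hb v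
  -- the index set
  let ι := {q : Finset ℕ × Finset ℕ // (∃ z, ca z = some q.1) ∧ ∃ y, cb y = some q.2}
  let C : ι → Set ℝ := fun i => {z | ca z = some i.1.1 ∧ cb (z + v) = some i.1.2}
  have hCm : ∀ i, MeasurableSet (C i) := by
    intro i
    refine (hca _).inter ?_
    exact (hcb (some i.1.2)).preimage (measurable_id.add_const v)
  have hCd : Pairwise (Function.onFun Disjoint C) := by
    intro i i' hi
    refine Set.disjoint_left.2 fun z h1 h2 => hi ?_
    apply Subtype.ext
    have e1 : i.1.1 = i'.1.1 := Option.some_injective _ (h1.1.symm.trans h2.1)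
    have e2 : i.1.2 = i'.1.2 := Option.some_injective _ (h1.2.symm.trans h2.2)
    exact Prod.ext e1 e2
  let h : ℤ → ℝ → ℝ := fun k z => S.R a b k z (z + v) - D.R a b k z (z + v)
  have hSi := fun k => cmp3_integrable S a b k v
  have hDi := fun k => cmp3_integrable D a b k v
  have hi : ∀ k, Integrable (h k) := fun k => (hSi k).sub (hDi k)
  let φ : ι → ℤ → ℝ := fun i k => ∫ z in C i, h k z
  let g : ι → ℕ := fun i => md (i.1.1 ∩ i.1.2)
  have hg : ∀ i, g i = Nat.gcd (md i.1.1) (md i.1.2) := fun i => (md_gcd _ _).symm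
  let c : ι → ℝ := fun i => volume.real (C i ∩ Icc (0:ℝ) 1)
  have hfin : volume (⋃ i, C i ∩ Icc (0:ℝ) 1) ≠ ∞ := by
    refine ne_top_of_le_ne_top (b := volume (Icc (0:ℝ) 1)) (by simp) (measure_mono ?_)
    exact iUnion_subset fun i => inter_subset_right
  have hcsum : Summable c := by
    have h1 : volume (⋃ i, C i ∩ Icc (0:ℝ) 1) = ∑' i, volume (C i ∩ Icc (0:ℝ) 1) := by
      refine measure_iUnion ?_ fun i => (hCm i).inter measurableSet_Icc
      intro i i' hi
      exact (hCd hi).mono inter_subset_left inter_subset_left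
    rw [h1] at hfin
    exact ENNReal.summable_toReal hfin
  have hbound : ∀ i k, |φ i k| ≤ c i := by
    intro i k
    have h1 : φ i k = ∫ z in C i ∩ Icc (0:ℝ) 1, h k z := by
      refine setIntegral_eq_of_subset_of_forall_sdiff_eq_zero (hCm i) inter_subset_left ?_
      intro z hz
      have hz2 : z ∉ Icc (0:ℝ) 1 := fun h' => hz.2 ⟨hz.1, h'⟩
      change S.R a b k z (z + v) - D.R a b k z (z + v) = 0
      rw [S.R_eq_zero a b k (Or.inl hz2), D.R_eq_zero a b k (Or.inl hz2), sub_zero]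
    rw [h1, ← Real.norm_eq_abs]
    have h2 : volume (C i ∩ Icc (0:ℝ) 1) < ∞ :=
      lt_of_le_of_lt (measure_mono inter_subset_right) (by simp)
    have h3 := norm_setIntegral_le_of_norm_le_const (C := 1) (f := h k) h2 (fun z _ => by
      change ‖S.R a b k z (z + v) - D.R a b k z (z + v)‖ ≤ 1
      have e1 := S.R_nonneg a b k z (z + v)
      have e2 := S.R_le_one a b k z (z + v)
      have e3 := D.R_nonneg a b k z (z + v)
      have e4 := D.R_le_one a b k z (z + v)
      rw [Real.norm_eq_abs, abs_le]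
      constructor <;> linarith)
    rw [one_mul] at h3
    exact h3
  have hclk : ∀ i, ∀ᵐ z : ℝ, z ∈ C i →
      (S.IsClock a z (md i.1.1) ∧ S.IsClock b (z + v) (md i.1.2)) ∧
      (D.IsClock a z (md i.1.1) ∧ D.IsClock b (z + v) (md i.1.2)) := by
    intro i
    filter_upwards [ha, hbv] with z h1 h2 hz
    have e1 := h1 _ hz.1
    have e2 := h2 _ hz.2
    exact ⟨⟨e1.2.1, e2.2.1⟩, ⟨e1.2.2, e2.2.2⟩⟩
  have hper : ∀ i k, φ i (k + g i) = φ i k := by
    intro i k
    refine setIntegral_congr_ae (hCm i) ?_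
    filter_upwards [hclk i] with z hz hzC
    obtain ⟨⟨s1, s2⟩, ⟨d1, d2⟩⟩ := hz hzC
    have e1 := (clock_pair S a b z (z + v) (md_pos _) (md_pos _) s1 s2).1 k
    have e2 := (clock_pair D a b z (z + v) (md_pos _) (md_pos _) d1 d2).1 k
    change S.R a b (k + g i) z (z + v) - D.R a b (k + g i) z (z + v) =
      S.R a b k z (z + v) - D.R a b k z (z + v)
    rw [hg i, e1, e2]
  have hmean : ∀ i, ∑ k ∈ Finset.range (g i), φ i k = 0 := by
    intro i
    have h0 : ∑ k ∈ Finset.range (g i), φ i (k : ℤ) =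
        ∫ z in C i, ∑ k ∈ Finset.range (g i), h (k : ℤ) z :=
      (integral_finsetSum (f := fun (k : ℕ) z => h (k : ℤ) z) (Finset.range (g i))
        fun k _ => (hi (k : ℤ)).integrableOn).symm
    rw [h0]
    have h1 : ∫ z in C i, ∑ k ∈ Finset.range (g i), h (k : ℤ) z = ∫ z in C i, (0 : ℝ) := by
      refine setIntegral_congr_ae (hCm i) ?_
      filter_upwards [hclk i] with z hz hzC
      obtain ⟨⟨s1, s2⟩, ⟨d1, d2⟩⟩ := hz hzC
      have e1 := (clock_pair S a b z (z + v) (md_pos _) (md_pos _) s1 s2).2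
      have e2 := (clock_pair D a b z (z + v) (md_pos _) (md_pos _) d1 d2).2
      change ∑ k ∈ Finset.range (g i),
        (S.R a b (k : ℤ) z (z + v) - D.R a b (k : ℤ) z (z + v)) = 0
      rw [Finset.sum_sub_distrib, hg i, e1, e2, sub_self]
    rw [h1, integral_zero]
  have hsum : ∀ k, ∑' i, φ i k = 0 := by
    intro k
    have h1 : ∫ z in ⋃ i, C i, h k z = ∑' i, ∫ z in C i, h k z :=
      integral_iUnion hCm hCd (hi k).integrableOn
    change ∑' i, ∫ z in C i, h k z = 0
    rw [← h1]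
    have h2 : ∫ z in ⋃ i, C i, h k z = ∫ z, h k z := by
      refine setIntegral_eq_integral_of_ae_compl_eq_zero ?_
      filter_upwards [hv] with z hz hzC
      have h3 : ca z = none ∨ cb (z + v) = none := by
        by_contra hcon
        push Not at hcon
        obtain ⟨P, hP⟩ := Option.ne_none_iff_exists'.1 hcon.1
        obtain ⟨P', hP'⟩ := Option.ne_none_iff_exists'.1 hcon.2
        exact hzC (mem_iUnion.2 ⟨⟨(P, P'), ⟨z, hP⟩, ⟨z + v, hP'⟩⟩, hP, hP'⟩)
      change S.R a b k z (z + v) - D.R a b k z (z + v) = 0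
      rw [hz h3 k, sub_self]
    rw [h2]
    have h3 : ∫ z, h k z = S.rc a b k v - D.rc a b k v := integral_sub (hSi k) (hDi k)
    rw [h3, hrc, sub_self]
  have hco : ∀ i i', i ≠ i' → (g i).Coprime (g i') := by
    intro i i' hii
    obtain ⟨⟨q1, q2⟩, ⟨z, hz⟩, ⟨y, hy⟩⟩ := i
    obtain ⟨⟨p1, p2⟩, ⟨z', hz'⟩, ⟨y', hy'⟩⟩ := i'
    refine coprime_md (hdisj z y z' y' q1 q2 p1 p2 hz hy hz' hy' fun e => hii ?_)
    exact Subtype.ext e
  have hres := decomp g (fun i => md_pos _) hco φ c hcsum hbound hper hmean hsum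
  intro k
  by_cases hocc : (∃ z, ca z = some Q) ∧ ∃ y, cb y = some Q'
  · have h1 := hres ⟨(Q, Q'), hocc⟩ k
    have h2 : ∫ z in {z | ca z = some Q ∧ cb (z + v) = some Q'},
        (S.R a b k z (z + v) - D.R a b k z (z + v)) = 0 := h1
    rw [integral_sub (hSi k).integrableOn (hDi k).integrableOn] at h2
    exact sub_eq_zero.1 h2
  · have h1 : {z | ca z = some Q ∧ cb (z + v) = some Q'} = ∅ := by
      ext z
      simp only [mem_ofPred_eq, mem_empty_iff_false, iff_false]
      intro hz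
      exact hocc ⟨⟨z, hz.1⟩, ⟨z + v, hz.2⟩⟩
    rw [h1]
    simp

end NB97_CMP3

section NB97_CMP4

lemma cmp4_meas (D : Sys) (a b : Fin 8) (ca cb : ℝ → Option (Finset ℕ))
    (hca : ∀ o, MeasurableSet {z | ca z = o}) (hcb : ∀ o, MeasurableSet {z | cb z = o}) (Q Q' : Finset ℕ)
    (k : ℤ) : Measurable fun v : ℝ => ∫ z in {z | ca z = some Q ∧ cb (z + v) = some Q'},
      D.R a b k z (z + v) := by
  classical
  have hE : MeasurableSet {p : ℝ × ℝ | ca p.2 = some Q ∧ cb (p.2 + p.1) = some Q'} := by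
    have h1 : MeasurableSet {p : ℝ × ℝ | ca p.2 = some Q} := (hca (some Q)).preimage measurable_snd
    have h2 : MeasurableSet {p : ℝ × ℝ | cb (p.2 + p.1) = some Q'} :=
      (hcb (some Q')).preimage (measurable_snd.add measurable_fst)
    exact h1.inter h2
  have hR : Measurable fun p : ℝ × ℝ => D.R a b k p.2 (p.2 + p.1) :=
    (D.measurable_R a b k).comp (measurable_snd.prodMk (measurable_snd.add measurable_fst))
  have h3 : (fun v : ℝ => ∫ z in {z | ca z = some Q ∧ cb (z + v) = some Q'}, D.R a b k z (z + v)) =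
      fun v : ℝ => ∫ z, ({p : ℝ × ℝ | ca p.2 = some Q ∧ cb (p.2 + p.1) = some Q'}.indicator
        (fun p : ℝ × ℝ => D.R a b k p.2 (p.2 + p.1))) (v, z) := by
    funext v
    have hEv : MeasurableSet {z | ca z = some Q ∧ cb (z + v) = some Q'} :=
      hE.preimage (measurable_const.prodMk measurable_id : Measurable fun z : ℝ => (v, z))
    rw [← integral_indicator hEv]
    congr 1
  rw [h3]
  have h4 : StronglyMeasurable ({p : ℝ × ℝ | ca p.2 = some Q ∧ cb (p.2 + p.1) = some Q'}.indicator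
        (fun p : ℝ × ℝ => D.R a b k p.2 (p.2 + p.1))) := (hR.indicator hE).stronglyMeasurable
  exact (h4.integral_prod_right' (ν := (volume : Measure ℝ))).measurable

theorem zero_transfer (S D : Sys) (a b : Fin 8) (ca cb : ℝ → Option (Finset ℕ))
    (hca : ∀ o, MeasurableSet {z | ca z = o}) (hcb : ∀ o, MeasurableSet {z | cb z = o}) (Q Q' : Finset ℕ)
    (h : ∀ᵐ v : ℝ, ∀ k : ℤ, ∫ z in {z | ca z = some Q ∧ cb (z + v) = some Q'}, S.R a b k z (z + v) =
      ∫ z in {z | ca z = some Q ∧ cb (z + v) = some Q'}, D.R a b k z (z + v)) :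
    ∀ᵐ p : ℝ × ℝ, ca p.1 = some Q → cb p.2 = some Q' → ∀ k : ℤ,
      (∀ z' y', ca z' = some Q → cb y' = some Q' → y' - z' = p.2 - p.1 →
        D.R a b k z' y' = 0) → S.R a b k p.1 p.2 = 0 := by
  classical
  have key : ∀ k : ℤ, ∀ᵐ p : ℝ × ℝ, ca p.1 = some Q → cb p.2 = some Q' →
      (∫ z in {z | ca z = some Q ∧ cb (z + (p.2 - p.1)) = some Q'},
        D.R a b k z (z + (p.2 - p.1))) = 0 → S.R a b k p.1 p.2 = 0 := by
    intro k
    have hG : MeasurableSet {p : ℝ × ℝ | ca p.1 = some Q → cb p.2 = some Q' →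
      (∫ z in {z | ca z = some Q ∧ cb (z + (p.2 - p.1)) = some Q'},
        D.R a b k z (z + (p.2 - p.1))) = 0 → S.R a b k p.1 p.2 = 0} := by
      have m1 : MeasurableSet {p : ℝ × ℝ | ca p.1 = some Q} := (hca (some Q)).preimage measurable_fst
      have m2 : MeasurableSet {p : ℝ × ℝ | cb p.2 = some Q'} := (hcb (some Q')).preimage measurable_snd
      have m3 : MeasurableSet {p : ℝ × ℝ | (∫ z in {z | ca z = some Q ∧ cb (z + (p.2 - p.1)) = some Q'},
        D.R a b k z (z + (p.2 - p.1))) = 0} :=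
        ((cmp4_meas D a b ca cb hca hcb Q Q' k).comp (measurable_snd.sub measurable_fst))
          (measurableSet_singleton 0)
      have m4 : MeasurableSet {p : ℝ × ℝ | S.R a b k p.1 p.2 = 0} :=
        (S.measurable_R a b k) (measurableSet_singleton 0)
      exact (m1.imp (m2.imp (m3.imp m4)))
    have hmp : MeasurePreserving (fun z : ℝ × ℝ => (z.2, z.2 + z.1))
        ((volume : Measure ℝ).prod (volume : Measure ℝ)) ((volume : Measure ℝ).prod (volume : Measure ℝ)) :=
      measurePreserving_prod_add_swap volume volume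
    have h5 : ∀ᵐ p ∂((volume : Measure ℝ).prod (volume : Measure ℝ)), ca p.1 = some Q → cb p.2 = some Q' →
      (∫ z in {z | ca z = some Q ∧ cb (z + (p.2 - p.1)) = some Q'},
        D.R a b k z (z + (p.2 - p.1))) = 0 → S.R a b k p.1 p.2 = 0 := by
      rw [← hmp.map_eq, ae_map_iff hmp.measurable.aemeasurable hG]
      have hG' := hmp.measurable hG
      refine (Measure.ae_prod_iff_ae_ae hG').mpr ?_
      filter_upwards [h] with v hv
      have hEv : MeasurableSet {z | ca z = some Q ∧ cb (z + v) = some Q'} := by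
        have h1 : MeasurableSet {z : ℝ | cb (z + v) = some Q'} :=
          (hcb (some Q')).preimage (measurable_id.add_const v)
        exact (hca (some Q)).inter h1
      by_cases hD : (∫ z in {z | ca z = some Q ∧ cb (z + v) = some Q'}, D.R a b k z (z + v)) = 0
      · have h6 := (hv k).trans hD
        have hmeas : Measurable fun z : ℝ => S.R a b k z (z + v) :=
          (S.measurable_R a b k).comp (measurable_id.prodMk (measurable_id.add_const v))
        have hint : Integrable (fun z : ℝ => S.R a b k z (z + v)) := by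
          have h7 : IntegrableOn (fun z : ℝ => S.R a b k z (z + v)) (Icc 0 1) := by
            refine Integrable.of_bound (C := 1) hmeas.aestronglyMeasurable ?_
            refine Eventually.of_forall fun z => ?_
            rw [Real.norm_eq_abs, abs_of_nonneg (S.R_nonneg a b k _ _)]
            exact S.R_le_one a b k _ _
          have h8 : (Icc (0:ℝ) 1).indicator (fun z : ℝ => S.R a b k z (z + v)) =
              fun z : ℝ => S.R a b k z (z + v) := by
            funext z
            by_cases hz : z ∈ Icc (0:ℝ) 1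
            · rw [indicator_of_mem hz]
            · rw [indicator_of_notMem hz, S.R_eq_zero a b k (Or.inl hz)]
          rw [← h8]
          exact (integrable_indicator_iff measurableSet_Icc).mpr h7
        have h9 := (setIntegral_eq_zero_iff_of_nonneg_ae
          (Eventually.of_forall fun z => S.R_nonneg a b k z (z + v)) hint.integrableOn).mp h6
        rw [Filter.EventuallyEq, ae_restrict_iff' hEv] at h9
        filter_upwards [h9] with z hz h10 h11 _
        exact hz ⟨h10, h11⟩
      · refine Eventually.of_forall fun z h10 h11 h12 => ?_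
        exfalso
        apply hD
        have e : z + v - z = v := by ring
        simp only [e] at h12
        exact h12
    exact h5
  filter_upwards [ae_all_iff.2 key] with p hp hQ hQ' k hz
  refine hp k hQ hQ' ?_
  refine setIntegral_eq_zero_of_forall_eq_zero fun z hz' => ?_
  exact hz z _ hz'.1 hz'.2 (by ring)

end NB97_CMP4

end Pool.Agent.LibNB97
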