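import Pool.Agent.LibNB97.Defs

/-! # The cells inside the unit regions -/

open MeasureTheory Set Filter Topology
open scoped ENNReal

namespace Pool.Agent.LibNB97

/-- The geometry: in `[0,1]` there are the sets `W i` (one for every region `i`), the cells
`O κ r` (`r < md (qs κ)`) of the gadgets and the cells `C σ` of the links. -/
structure Geo (j : ℕ → ℕ) (nx : ℕ → Fin 2 → ℕ) where
  /-- the white parts -/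
  W : ℕ → Set ℝ
  /-- the accessible points of the white parts -/
  W' : ℕ → Set ℝ
  /-- the cells of the gadgets -/
  O : ℕ → ℕ → Set ℝ
  /-- the cells of the links -/
  C : ℕ × Fin 2 → Set ℝ
  W_closed : ∀ i, IsClosed (W i)
  O_closed : ∀ κ r, IsClosed (O κ r)
  C_closed : ∀ σ, IsClosed (C σ)
  W_sub : ∀ i, W i ⊆ Ioc 0 1
  O_sub : ∀ κ r, O κ r ⊆ Ioc 0 1
  C_sub : ∀ σ, C σ ⊆ Ioc 0 1
  O_out : ∀ κ r, md (qs κ) ≤ r → O κ r = ∅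
  WO_disj : ∀ i κ r, Disjoint (W i) (O κ r)
  O_disj : ∀ p p' : ℕ × ℕ, p ≠ p' → Disjoint (O p.1 p.2) (O p'.1 p'.2)
  C_disj : ∀ σ σ', σ ≠ σ' → Disjoint (C σ) (C σ')
  fam1 : ∀ P : Set (ℕ × ℕ), IsClosed (({0} ∪ ⋃ i, W i) ∪ ⋃ p ∈ P, O p.1 p.2)
  fam2 : ∀ P : Set (ℕ × ℕ), (∀ i, {κ | j κ = i ∧ ∃ r, (κ, r) ∈ P}.Finite) →
    (∀ p ∈ P, p.2 < md (qs p.1)) → IsClosed ({0} ∪ ⋃ p ∈ P, O p.1 p.2)
  fam3 : ∀ P : Set (ℕ × Fin 2), IsClosed ({0} ∪ ⋃ σ ∈ P, C σ)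
  diffO : ∀ κ r r' r₁ r₁' x y x' y', x ∈ O κ r → y ∈ O κ r' → x' ∈ O κ r₁ → y' ∈ O κ r₁' →
    y - x = y' - x' → (r' : ℤ) - r = r₁' - r₁
  diffC : ∀ (σ : ℕ × Fin 2) κ, (κ = σ.1 ∨ κ = nx σ.1 σ.2) → ∀ r r₁ x x' y y', x ∈ O κ r →
    x' ∈ O κ r₁ → y ∈ C σ → y' ∈ C σ → y - x = y' - x' → r = r₁
  posO : ∀ κ r, r < md (qs κ) → 0 < volume (O κ r)
  posC : ∀ σ, 0 < volume (C σ)
  W'_sub : ∀ i, W' i ⊆ W i
  W'_pos : ∀ i, 0 < volume (W' i)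
  acc : ∀ i (P : Set ℕ), P.Infinite → (∀ κ ∈ P, j κ = i) → ∀ r : ℕ → ℕ,
    (∀ κ ∈ P, r κ < md (qs κ)) → ∀ x ∈ W' i, ∀ ε > 0,
      ∃ κ ∈ P, 0 < volume (O κ (r κ) ∩ Ioo (x - ε) (x + ε))

end Pool.Agent.LibNB97
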