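import Pool.Agent.LibNB97.Basic
import Pool.Agent.LibNB97.GeoDef

/-! # Core: a rigid system with closed contents determines a good assignment -/

open MeasureTheory Set Filter Topology
open scoped ENNReal

namespace Pool.Agent.LibNB97

variable {j : ℕ → ℕ} {nx : ℕ → Fin 2 → ℕ}

/-- what the two-point data tell about a system -/
structure Rigid (G : Geo j nx) (s : ℕ → Fin 2 → Bool) (S : Sys) (A : Set S.Ω) : Prop where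
  A_meas : MeasurableSet A
  A_pos : 0 < S.μ A
  white : ∀ i, ∀ᵐ z : ℝ, z ∈ G.W i → ∀ᵐ ω ∂S.μ, ω ∈ A → z ∉ S.reg 3 ω
  clockO : ∀ κ r, ∀ᵐ z : ℝ, z ∈ G.O κ r → S.IsClock 3 z (md (qs κ))
  clockC : ∀ σ, ∀ᵐ z : ℝ, z ∈ G.C σ → S.IsClock 5 z (md (lk nx σ)) ∧ S.IsClock 6 z (md (lk nx σ))
  pairO : ∀ κ r r', ∀ᵐ p : ℝ × ℝ, p.1 ∈ G.O κ r → p.2 ∈ G.O κ r' → ∀ k : ℤ,
    (¬ ∃ η : Fin 2 → Bool, ∀ q ∈ qs κ, (u q : ℤ) ∣ k + ((r' : ℤ) - r) * b2i (η (col q))) →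
      S.R 3 3 k p.1 p.2 = 0
  pairC0 : ∀ (σ : ℕ × Fin 2) κ q, (κ = σ.1 ∧ q = qB σ) ∨ (κ = nx σ.1 σ.2 ∧ q = qA nx σ) →
    ∀ᵐ p : ℝ × ℝ, p.1 ∈ G.O κ 0 → p.2 ∈ G.C σ → ∀ k : ℤ, ¬ (u q : ℤ) ∣ k → S.R 3 5 k p.1 p.2 = 0
  pairC1 : ∀ (σ : ℕ × Fin 2) κ q, (κ = σ.1 ∧ q = qB σ) ∨ (κ = nx σ.1 σ.2 ∧ q = qA nx σ) →
    ∀ᵐ p : ℝ × ℝ, p.1 ∈ G.O κ 1 → p.2 ∈ G.C σ → ∀ k : ℤ, ¬ (u q : ℤ) ∣ k → S.R 3 6 k p.1 p.2 = 0
  pairCC : ∀ σ : ℕ × Fin 2, ∀ᵐ p : ℝ × ℝ, p.1 ∈ G.C σ → p.2 ∈ G.C σ → ∀ k : ℤ,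
    (¬ ∃ η : Bool, (u (qB σ) : ℤ) ∣ k + b2i η ∧
      (u (qA nx σ) : ℤ) ∣ k + b2i (xor η (s σ.1 σ.2))) → S.R 5 6 k p.1 p.2 = 0

/-- integer phases: the point `z` is covered exactly at the times `k ≡ p mod N` -/
def Ph (S : Sys) (a : Fin 8) (z : ℝ) (N : ℕ) (ω : S.Ω) (p : ℤ) : Prop :=
  ∀ k : ℤ, (z ∈ S.reg a (S.T k ω) ↔ (N : ℤ) ∣ k - p)

section tasks

section NB97_COR1

theorem phase_diff (S : Sys) (a b : Fin 8) (z y : ℝ) (N M : ℕ) (Al : ℤ → Prop)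
    (h : ∀ k, ¬ Al k → S.R a b k z y = 0) :
    ∀ᵐ ω ∂S.μ, ∀ p p', Ph S a z N ω p → Ph S b y M ω p' → Al (p' - p) := by
  have h1 : ∀ k n : ℤ, ¬ Al k → ∀ᵐ ω ∂S.μ, ¬ (z ∈ S.reg a (S.T n ω) ∧ y ∈ S.reg b (S.T (n + k) ω)) := by
    intro k n hk
    have h2 := S.R_shift a b k n z y
    rw [h k hk, measureReal_eq_zero_iff] at h2
    rw [ae_iff]
    simpa using h2
  have h3 : ∀ᵐ ω ∂S.μ, ∀ k n : ℤ, ¬ Al k → ¬ (z ∈ S.reg a (S.T n ω) ∧ y ∈ S.reg b (S.T (n + k) ω)) := by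
    rw [ae_all_iff]
    intro k
    rw [ae_all_iff]
    intro n
    by_cases hk : Al k
    · exact Eventually.of_forall fun ω hh => absurd hk hh
    · filter_upwards [h1 k n hk] with ω hω _
      exact hω
  filter_upwards [h3] with ω hω p p' hp hp'
  by_contra hcon
  refine hω (p' - p) p hcon ⟨(hp p).mpr (by simp), ?_⟩
  have e : p + (p' - p) = p' := by ring
  rw [e]
  exact (hp' p').mpr (by simp)

lemma cor2_small {m : ℕ} (hm : 3 ≤ m) {x : ℤ} (hx : (m : ℤ) ∣ x) (h1 : -2 ≤ x) (h2 : x ≤ 2) : x = 0 := by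
  obtain ⟨c, rfl⟩ := hx
  have : (3:ℤ) ≤ m := by exact_mod_cast hm
  have hc : c = 0 := by
    by_contra hc
    rcases lt_or_gt_of_ne hc with h | h
    · nlinarith
    · nlinarith
  simp [hc]

lemma cor2_key {m : ℕ} (hm : 3 ≤ m) (r d0 d1 e : ℤ) (a b c : Bool)
    (h01 : (m : ℤ) ∣ e + b2i c) (h0 : (m : ℤ) ∣ d0 + r * b2i a) (h1 : (m : ℤ) ∣ d1 + (r - 1) * b2i b)
    (hd : d0 = d1 + e) : (m : ℤ) ∣ d0 + r * b2i c := by
  subst hd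
  cases a <;> cases b <;> cases c <;> simp only [b2i, if_true, if_false, Bool.false_eq_true, mul_one, mul_zero, add_zero] at *
  · exact h0
  · -- a = b = false, c = true: m | 1
    exfalso
    have h2 : (m : ℤ) ∣ (e + 1) + d1 - (d1 + e) := dvd_sub (dvd_add h01 h1) h0
    have h3 : (e + 1) + d1 - (d1 + e) = 1 := by ring
    rw [h3] at h2
    have := cor2_small hm h2 (by norm_num) (by norm_num)
    norm_num at this
  · exact h0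
  · have h2 : (m : ℤ) ∣ (e + 1) + (d1 + (r - 1)) := dvd_add h01 h1
    have h3 : (e + 1) + (d1 + (r - 1)) = d1 + e + r := by ring
    rw [h3] at h2
    exact h2
  · exact dvd_add h1 h01
  · exact h0
  · exfalso
    have h2 : (m : ℤ) ∣ (d1 + e + r) - (e + (d1 + (r - 1))) := dvd_sub h0 (dvd_add h01 h1)
    have h3 : (d1 + e + r) - (e + (d1 + (r - 1))) = 1 := by ring
    rw [h3] at h2
    have := cor2_small hm h2 (by norm_num) (by norm_num)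
    norm_num at this
  · exact h0

theorem gadget_arith (κ : ℕ) (r : ℕ) (p0 p1 p : ℤ) (η : Fin 2 → Bool)
    (h01 : ∀ q ∈ qs κ, (u q : ℤ) ∣ (p1 - p0) + b2i (η (col q)))
    (h0 : ∃ θ : Fin 2 → Bool, ∀ q ∈ qs κ, (u q : ℤ) ∣ (p - p0) + ((r : ℤ) - 0) * b2i (θ (col q)))
    (h1 : ∃ θ : Fin 2 → Bool, ∀ q ∈ qs κ, (u q : ℤ) ∣ (p - p1) + ((r : ℤ) - 1) * b2i (θ (col q))) :
    ∀ q ∈ qs κ, (u q : ℤ) ∣ (p - p0) + (r : ℤ) * b2i (η (col q)) := by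
  intro q hq
  obtain ⟨θ, hθ⟩ := h0
  obtain ⟨θ', hθ'⟩ := h1
  have a0 := hθ q hq
  rw [sub_zero] at a0
  exact cor2_key (three_le_u q) r (p - p0) (p - p1) (p1 - p0) (θ (col q)) (θ' (col q)) (η (col q))
    (h01 q hq) a0 (hθ' q hq) (by ring)

lemma cor2_bool {m : ℕ} (hm : 3 ≤ m) (x : ℤ) (a b : Bool) (h1 : (m : ℤ) ∣ x + b2i a)
    (h2 : (m : ℤ) ∣ x + b2i b) : a = b := by
  have h3 : (m : ℤ) ∣ b2i a - b2i b := by
    have := dvd_sub h1 h2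
    have e : x + b2i a - (x + b2i b) = b2i a - b2i b := by ring
    rwa [e] at this
  have h4 := cor2_small hm h3 (by cases a <;> cases b <;> simp [b2i]) (by cases a <;> cases b <;> simp [b2i])
  cases a <;> cases b <;> simp [b2i] at h4 ⊢

theorem link_arith (σ : ℕ × Fin 2) (nx : ℕ → Fin 2 → ℕ) (P0 P1 P0' P1' y0 y1 : ℤ) (η η' : Bool)
    (s : Bool) (h1 : (u (qB σ) : ℤ) ∣ (P1 - P0) + b2i η)
    (h2 : (u (qA nx σ) : ℤ) ∣ (P1' - P0') + b2i η')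
    (h3 : (u (qB σ) : ℤ) ∣ y0 - P0) (h4 : (u (qA nx σ) : ℤ) ∣ y0 - P0')
    (h5 : (u (qB σ) : ℤ) ∣ y1 - P1) (h6 : (u (qA nx σ) : ℤ) ∣ y1 - P1')
    (h7 : ∃ θ : Bool, (u (qB σ) : ℤ) ∣ (y1 - y0) + b2i θ ∧
      (u (qA nx σ) : ℤ) ∣ (y1 - y0) + b2i (xor θ s)) : η' = xor η s := by
  obtain ⟨θ, ha, hb⟩ := h7
  have e1 : (u (qB σ) : ℤ) ∣ (y1 - y0) + b2i η := by
    have := dvd_sub (dvd_add h1 h5) h3
    have e : P1 - P0 + b2i η + (y1 - P1) - (y0 - P0) = (y1 - y0) + b2i η := by ring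
    rwa [e] at this
  have e2 : (u (qA nx σ) : ℤ) ∣ (y1 - y0) + b2i η' := by
    have := dvd_sub (dvd_add h2 h6) h4
    have e : P1' - P0' + b2i η' + (y1 - P1') - (y0 - P0') = (y1 - y0) + b2i η' := by ring
    rwa [e] at this
  have f1 := cor2_bool (three_le_u _) _ _ _ ha e1
  have f2 := cor2_bool (three_le_u _) _ _ _ hb e2
  rw [← f2, f1]

end NB97_COR1



section NB97_COR4

lemma cor4_pick {A : Set ℝ} (hA : 0 < volume A) {P : ℝ → Prop} (h : ∀ᵐ z : ℝ, z ∈ A → P z) :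
    ∃ z, z ∈ A ∧ P z := by
  by_contra hno
  push Not at hno
  refine hA.ne' (measure_mono_null ?_ (ae_iff.mp h))
  intro z hz
  simp only [mem_ofPred_eq]
  intro hcon
  exact hno z hz (hcon hz)

lemma cor4_prod {P : ℝ → ℝ → Prop} (h : ∀ᵐ p : ℝ × ℝ, P p.1 p.2) : ∀ᵐ z : ℝ, ∀ᵐ y : ℝ, P z y := by
  rw [Measure.volume_eq_prod] at h
  exact Measure.ae_ae_of_ae_prod h

/-- the relation of slots, links and indices -/
def cor4_lnk (nx : ℕ → Fin 2 → ℕ) (σ : ℕ × Fin 2) (κ q : ℕ) : Prop :=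
  (κ = σ.1 ∧ q = qB σ) ∨ (κ = nx σ.1 σ.2 ∧ q = qA nx σ)

lemma cor4_z0 (G : Geo j nx) (s : ℕ → Fin 2 → Bool) (S : Sys) (A : Set S.Ω)
    (h : Rigid G s S A) (κ : ℕ) :
    ∃ z, z ∈ G.O κ 0 ∧ (S.IsClock 3 z (md (qs κ)) ∧
      (∀ r', ∀ᵐ y : ℝ, y ∈ G.O κ r' → ∀ k : ℤ,
        (¬ ∃ η : Fin 2 → Bool, ∀ q ∈ qs κ, (u q : ℤ) ∣ k + ((r' : ℤ) - (0:ℕ)) * b2i (η (col q))) →
          S.R 3 3 k z y = 0) ∧
      (∀ (σ : ℕ × Fin 2) q, cor4_lnk nx σ κ q → ∀ᵐ y : ℝ, y ∈ G.C σ → ∀ k : ℤ, ¬ (u q : ℤ) ∣ k →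
        S.R 3 5 k z y = 0)) := by
  refine cor4_pick (G.posO κ 0 (Finset.prod_pos fun q _ => by have := three_le_u q; omega)) ?_
  have h1 : ∀ᵐ z : ℝ, ∀ r', ∀ᵐ y : ℝ, z ∈ G.O κ 0 → y ∈ G.O κ r' → ∀ k : ℤ,
        (¬ ∃ η : Fin 2 → Bool, ∀ q ∈ qs κ, (u q : ℤ) ∣ k + ((r' : ℤ) - (0:ℕ)) * b2i (η (col q))) →
          S.R 3 3 k z y = 0 := by
    rw [ae_all_iff]
    intro r'
    exact cor4_prod (h.pairO κ 0 r')
  have h2 : ∀ᵐ z : ℝ, ∀ (σ : ℕ × Fin 2) q, cor4_lnk nx σ κ q → ∀ᵐ y : ℝ, z ∈ G.O κ 0 → y ∈ G.C σ →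
      ∀ k : ℤ, ¬ (u q : ℤ) ∣ k → S.R 3 5 k z y = 0 := by
    rw [ae_all_iff]
    intro σ
    rw [ae_all_iff]
    intro q
    by_cases hq : cor4_lnk nx σ κ q
    · filter_upwards [cor4_prod (P := fun z y => z ∈ G.O κ 0 → y ∈ G.C σ → ∀ k : ℤ, ¬ (u q : ℤ) ∣ k →
        S.R 3 5 k z y = 0) (h.pairC0 σ κ q hq)] with z hz _
      exact hz
    · exact Eventually.of_forall fun z hh => absurd hh hq
  filter_upwards [h.clockO κ 0, h1, h2] with z hz1 hz2 hz3 hzO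
  refine ⟨hz1 hzO, ?_, ?_⟩
  · intro r'
    filter_upwards [hz2 r'] with y hy
    exact hy hzO
  · intro σ q hq
    filter_upwards [hz3 σ q hq] with y hy
    exact hy hzO

lemma cor4_z1 (G : Geo j nx) (s : ℕ → Fin 2 → Bool) (S : Sys) (A : Set S.Ω)
    (h : Rigid G s S A) (κ : ℕ) (P : ℝ → Prop) (hP : ∀ᵐ z : ℝ, z ∈ G.O κ 1 → P z) :
    ∃ z, z ∈ G.O κ 1 ∧ (S.IsClock 3 z (md (qs κ)) ∧ P z ∧
      (∀ r', ∀ᵐ y : ℝ, y ∈ G.O κ r' → ∀ k : ℤ,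
        (¬ ∃ η : Fin 2 → Bool, ∀ q ∈ qs κ, (u q : ℤ) ∣ k + ((r' : ℤ) - (1:ℕ)) * b2i (η (col q))) →
          S.R 3 3 k z y = 0) ∧
      (∀ (σ : ℕ × Fin 2) q, cor4_lnk nx σ κ q → ∀ᵐ y : ℝ, y ∈ G.C σ → ∀ k : ℤ, ¬ (u q : ℤ) ∣ k →
        S.R 3 6 k z y = 0)) := by
  have hmd : 1 < md (qs κ) := by
    have h3 : u (4 * κ) ∣ md (qs κ) := Finset.dvd_prod_of_mem _ (by simp [qs])
    have h4 : 0 < md (qs κ) := Finset.prod_pos fun q _ => by have := three_le_u q; omega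
    have := Nat.le_of_dvd h4 h3
    have := three_le_u (4 * κ)
    omega
  refine cor4_pick (G.posO κ 1 hmd) ?_
  have h1 : ∀ᵐ z : ℝ, ∀ r', ∀ᵐ y : ℝ, z ∈ G.O κ 1 → y ∈ G.O κ r' → ∀ k : ℤ,
        (¬ ∃ η : Fin 2 → Bool, ∀ q ∈ qs κ, (u q : ℤ) ∣ k + ((r' : ℤ) - (1:ℕ)) * b2i (η (col q))) →
          S.R 3 3 k z y = 0 := by
    rw [ae_all_iff]
    intro r'
    exact cor4_prod (h.pairO κ 1 r')
  have h2 : ∀ᵐ z : ℝ, ∀ (σ : ℕ × Fin 2) q, cor4_lnk nx σ κ q → ∀ᵐ y : ℝ, z ∈ G.O κ 1 → y ∈ G.C σ →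
      ∀ k : ℤ, ¬ (u q : ℤ) ∣ k → S.R 3 6 k z y = 0 := by
    rw [ae_all_iff]
    intro σ
    rw [ae_all_iff]
    intro q
    by_cases hq : cor4_lnk nx σ κ q
    · filter_upwards [cor4_prod (P := fun z y => z ∈ G.O κ 1 → y ∈ G.C σ → ∀ k : ℤ, ¬ (u q : ℤ) ∣ k →
        S.R 3 6 k z y = 0) (h.pairC1 σ κ q hq)] with z hz _
      exact hz
    · exact Eventually.of_forall fun z hh => absurd hh hq
  filter_upwards [h.clockO κ 1, h1, h2, hP] with z hz1 hz2 hz3 hz4 hzO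
  refine ⟨hz1 hzO, hz4 hzO, ?_, ?_⟩
  · intro r'
    filter_upwards [hz2 r'] with y hy
    exact hy hzO
  · intro σ q hq
    filter_upwards [hz3 σ q hq] with y hy
    exact hy hzO

theorem generic_points (G : Geo j nx) (s : ℕ → Fin 2 → Bool) (S : Sys) (A : Set S.Ω)
    (h : Rigid G s S A) :
    ∃ (z0 z1 : ℕ → ℝ) (y0 y1 : ℕ × Fin 2 → ℝ),
      (∀ κ, S.IsClock 3 (z0 κ) (md (qs κ)) ∧ S.IsClock 3 (z1 κ) (md (qs κ))) ∧
      (∀ σ, S.IsClock 5 (y0 σ) (md (lk nx σ)) ∧ S.IsClock 6 (y1 σ) (md (lk nx σ))) ∧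
      (∀ κ k, (¬ ∃ η : Fin 2 → Bool, ∀ q ∈ qs κ, (u q : ℤ) ∣ k + b2i (η (col q))) →
        S.R 3 3 k (z0 κ) (z1 κ) = 0) ∧
      (∀ κ r, ∀ᵐ z : ℝ, z ∈ G.O κ r → ∀ k : ℤ,
        ((¬ ∃ η : Fin 2 → Bool, ∀ q ∈ qs κ, (u q : ℤ) ∣ k + ((r : ℤ) - 0) * b2i (η (col q))) →
          S.R 3 3 k (z0 κ) z = 0) ∧
        ((¬ ∃ η : Fin 2 → Bool, ∀ q ∈ qs κ, (u q : ℤ) ∣ k + ((r : ℤ) - 1) * b2i (η (col q))) →
          S.R 3 3 k (z1 κ) z = 0)) ∧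
      (∀ (σ : ℕ × Fin 2) κ q, (κ = σ.1 ∧ q = qB σ) ∨ (κ = nx σ.1 σ.2 ∧ q = qA nx σ) →
        ∀ k : ℤ, ¬ (u q : ℤ) ∣ k → S.R 3 5 k (z0 κ) (y0 σ) = 0 ∧ S.R 3 6 k (z1 κ) (y1 σ) = 0) ∧
      (∀ σ : ℕ × Fin 2, ∀ k : ℤ, (¬ ∃ η : Bool, (u (qB σ) : ℤ) ∣ k + b2i η ∧
        (u (qA nx σ) : ℤ) ∣ k + b2i (xor η (s σ.1 σ.2))) → S.R 5 6 k (y0 σ) (y1 σ) = 0) := by
  choose z0 hz0O hz0c hz0O' hz0C using cor4_z0 G s S A h
  have hz1 : ∀ κ, ∃ z, z ∈ G.O κ 1 ∧ (S.IsClock 3 z (md (qs κ)) ∧ (∀ k : ℤ,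
        (¬ ∃ η : Fin 2 → Bool, ∀ q ∈ qs κ, (u q : ℤ) ∣ k + (((1:ℕ) : ℤ) - (0:ℕ)) * b2i (η (col q))) →
          S.R 3 3 k (z0 κ) z = 0) ∧
      (∀ r', ∀ᵐ y : ℝ, y ∈ G.O κ r' → ∀ k : ℤ,
        (¬ ∃ η : Fin 2 → Bool, ∀ q ∈ qs κ, (u q : ℤ) ∣ k + ((r' : ℤ) - (1:ℕ)) * b2i (η (col q))) →
          S.R 3 3 k z y = 0) ∧
      (∀ (σ : ℕ × Fin 2) q, cor4_lnk nx σ κ q → ∀ᵐ y : ℝ, y ∈ G.C σ → ∀ k : ℤ, ¬ (u q : ℤ) ∣ k →
        S.R 3 6 k z y = 0)) := by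
    intro κ
    exact cor4_z1 G s S A h κ _ (hz0O' κ 1)
  choose z1 hz1O hz1c hz01 hz1O' hz1C using hz1
  have hy0 : ∀ σ : ℕ × Fin 2, ∃ y, y ∈ G.C σ ∧ (S.IsClock 5 y (md (lk nx σ)) ∧
      (∀ κ q, cor4_lnk nx σ κ q → ∀ k : ℤ, ¬ (u q : ℤ) ∣ k → S.R 3 5 k (z0 κ) y = 0) ∧
      (∀ᵐ y' : ℝ, y' ∈ G.C σ → ∀ k : ℤ, (¬ ∃ η : Bool, (u (qB σ) : ℤ) ∣ k + b2i η ∧
        (u (qA nx σ) : ℤ) ∣ k + b2i (xor η (s σ.1 σ.2))) → S.R 5 6 k y y' = 0)) := by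
    intro σ
    refine cor4_pick (G.posC σ) ?_
    have h1 : ∀ᵐ y : ℝ, ∀ κ q, cor4_lnk nx σ κ q → y ∈ G.C σ → ∀ k : ℤ, ¬ (u q : ℤ) ∣ k →
        S.R 3 5 k (z0 κ) y = 0 := by
      rw [ae_all_iff]
      intro κ
      rw [ae_all_iff]
      intro q
      by_cases hq : cor4_lnk nx σ κ q
      · filter_upwards [hz0C κ σ q hq] with y hy _
        exact hy
      · exact Eventually.of_forall fun z hh => absurd hh hq
    filter_upwards [h.clockC σ, h1, cor4_prod (P := fun y y' => y ∈ G.C σ → y' ∈ G.C σ → ∀ k : ℤ,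
      (¬ ∃ η : Bool, (u (qB σ) : ℤ) ∣ k + b2i η ∧ (u (qA nx σ) : ℤ) ∣ k + b2i (xor η (s σ.1 σ.2))) →
        S.R 5 6 k y y' = 0) (h.pairCC σ)] with y hy1 hy2 hy3 hyC
    refine ⟨(hy1 hyC).1, fun κ q hq => hy2 κ q hq hyC, ?_⟩
    filter_upwards [hy3] with y' hy'
    exact hy' hyC
  choose y0 hy0C hy0c hy0z hy0y using hy0
  have hy1 : ∀ σ : ℕ × Fin 2, ∃ y, y ∈ G.C σ ∧ (S.IsClock 6 y (md (lk nx σ)) ∧
      (∀ κ q, cor4_lnk nx σ κ q → ∀ k : ℤ, ¬ (u q : ℤ) ∣ k → S.R 3 6 k (z1 κ) y = 0) ∧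
      (∀ k : ℤ, (¬ ∃ η : Bool, (u (qB σ) : ℤ) ∣ k + b2i η ∧
        (u (qA nx σ) : ℤ) ∣ k + b2i (xor η (s σ.1 σ.2))) → S.R 5 6 k (y0 σ) y = 0)) := by
    intro σ
    refine cor4_pick (G.posC σ) ?_
    have h1 : ∀ᵐ y : ℝ, ∀ κ q, cor4_lnk nx σ κ q → y ∈ G.C σ → ∀ k : ℤ, ¬ (u q : ℤ) ∣ k →
        S.R 3 6 k (z1 κ) y = 0 := by
      rw [ae_all_iff]
      intro κ
      rw [ae_all_iff]
      intro q
      by_cases hq : cor4_lnk nx σ κ q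
      · filter_upwards [hz1C κ σ q hq] with y hy _
        exact hy
      · exact Eventually.of_forall fun z hh => absurd hh hq
    filter_upwards [h.clockC σ, h1, hy0y σ] with y hy1 hy2 hy3 hyC
    exact ⟨(hy1 hyC).2, fun κ q hq => hy2 κ q hq hyC, hy3 hyC⟩
  choose y1 hy1C hy1c hy1z hy1y using hy1
  refine ⟨z0, z1, y0, y1, fun κ => ⟨hz0c κ, hz1c κ⟩, fun σ => ⟨hy0c σ, hy1c σ⟩, ?_, ?_, ?_, ?_⟩
  · intro κ k hk
    refine hz01 κ k ?_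
    simpa using hk
  · intro κ r
    filter_upwards [hz0O' κ r, hz1O' κ r] with z ha hb hz k
    refine ⟨fun hk => ha hz k (by simpa using hk), fun hk => hb hz k (by simpa using hk)⟩
  · intro σ κ q hq k hk
    exact ⟨hy0z σ κ q hq k hk, hy1z σ κ q hq k hk⟩
  · intro σ k hk
    exact hy1y σ k hk

end NB97_COR4

section NB97_COR5

lemma cor5_meas_Ph (S : Sys) (a : Fin 8) (N : ℕ) (p : ℤ) {α : Type*} [MeasurableSpace α]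
    {f : α → S.Ω} {g : α → ℝ} (hf : Measurable f) (hg : Measurable g) :
    MeasurableSet {x | Ph S a (g x) N (f x) p} := by
  have e : {x | Ph S a (g x) N (f x) p} = ⋂ k : ℤ, {x | g x ∈ S.reg a (S.T k (f x)) ↔ (N : ℤ) ∣ k - p} := by
    ext x
    simp [Ph]
  rw [e]
  refine MeasurableSet.iInter fun k => ?_
  have h1 : MeasurableSet {x | g x ∈ S.reg a (S.T k (f x))} := S.meas_reg a ((S.T_meas k).comp hf) hg
  by_cases hk : (N : ℤ) ∣ k - p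
  · simp only [hk, iff_true]
    exact h1
  · simp only [hk, iff_false]
    exact h1.compl

/-- exchange of quantifiers for the phase relation of a fixed point with the points of a set -/
lemma cor5_rel (S : Sys) (a b : Fin 8) (z0 : ℝ) (N M : ℕ) (O : Set ℝ) (hO : MeasurableSet O)
    (Al : ℤ → Prop) (h : ∀ᵐ z : ℝ, z ∈ O → ∀ k, ¬ Al k → S.R a b k z0 z = 0) :
    ∀ᵐ ω ∂S.μ, ∀ᵐ z : ℝ, z ∈ O → ∀ p p', Ph S a z0 N ω p → Ph S b z M ω p' → Al (p' - p) := by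
  have key : ∀ p p' : ℤ, ¬ Al (p' - p) → ∀ᵐ ω ∂S.μ, ∀ᵐ z : ℝ, z ∈ O →
      ¬ (Ph S a z0 N ω p ∧ Ph S b z M ω p') := by
    intro p p' hp
    refine ae_swap S.μ (P := fun ω z => z ∈ O → ¬ (Ph S a z0 N ω p ∧ Ph S b z M ω p')) ?_ ?_
    · have m1 : MeasurableSet {q : S.Ω × ℝ | q.2 ∈ O} := measurable_snd hO
      have m2 : MeasurableSet {q : S.Ω × ℝ | Ph S a z0 N q.1 p} :=
        cor5_meas_Ph S a N p measurable_fst measurable_const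
      have m3 : MeasurableSet {q : S.Ω × ℝ | Ph S b q.2 M q.1 p'} :=
        cor5_meas_Ph S b M p' measurable_fst measurable_snd
      have e : {q : S.Ω × ℝ | q.2 ∈ O → ¬ (Ph S a z0 N q.1 p ∧ Ph S b q.2 M q.1 p')} =
          {q : S.Ω × ℝ | q.2 ∈ O}ᶜ ∪ ({q : S.Ω × ℝ | Ph S a z0 N q.1 p} ∩
            {q : S.Ω × ℝ | Ph S b q.2 M q.1 p'})ᶜ := by
        ext q
        simp only [mem_ofPred_eq, mem_union, mem_compl_iff, mem_inter_iff]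
        tauto
      rw [e]
      exact m1.compl.union (m2.inter m3).compl
    · filter_upwards [h] with z hz
      by_cases hzO : z ∈ O
      · filter_upwards [phase_diff S a b z0 z N M Al (hz hzO)] with ω hω _ hh
        exact hp (hω p p' hh.1 hh.2)
      · exact Eventually.of_forall fun ω hh => absurd hh hzO
  have h2 : ∀ᵐ ω ∂S.μ, ∀ p p' : ℤ, ¬ Al (p' - p) → ∀ᵐ z : ℝ, z ∈ O →
      ¬ (Ph S a z0 N ω p ∧ Ph S b z M ω p') := by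
    rw [ae_all_iff]
    intro p
    rw [ae_all_iff]
    intro p'
    by_cases hp : Al (p' - p)
    · exact Eventually.of_forall fun ω hh => absurd hp hh
    · filter_upwards [key p p' hp] with ω hω _
      exact hω
  filter_upwards [h2] with ω hω
  have h3 : ∀ᵐ z : ℝ, ∀ p p' : ℤ, ¬ Al (p' - p) → z ∈ O →
      ¬ (Ph S a z0 N ω p ∧ Ph S b z M ω p') := by
    rw [ae_all_iff]
    intro p
    rw [ae_all_iff]
    intro p'
    by_cases hp : Al (p' - p)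
    · exact Eventually.of_forall fun z hh => absurd hp hh
    · filter_upwards [hω p p' hp] with z hz _
      exact hz
  filter_upwards [h3] with z hz hzO p p' hp hp'
  by_contra hcon
  exact hz p p' hcon hzO ⟨hp, hp'⟩

lemma cor5_clock (S : Sys) (a : Fin 8) (N : ℕ) (O : Set ℝ) (hO : MeasurableSet O)
    (h : ∀ᵐ z : ℝ, z ∈ O → S.IsClock a z N) :
    ∀ᵐ ω ∂S.μ, ∀ᵐ z : ℝ, z ∈ O → ∃ p, Ph S a z N ω p := by
  refine ae_swap S.μ (P := fun ω z => z ∈ O → ∃ p, Ph S a z N ω p) ?_ ?_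
  · have m1 : MeasurableSet {q : S.Ω × ℝ | q.2 ∈ O} := measurable_snd hO
    have m2 : MeasurableSet {q : S.Ω × ℝ | ∃ p, Ph S a q.2 N q.1 p} := by
      have e : {q : S.Ω × ℝ | ∃ p, Ph S a q.2 N q.1 p} = ⋃ p : ℤ, {q : S.Ω × ℝ | Ph S a q.2 N q.1 p} := by
        ext q
        simp
      rw [e]
      exact MeasurableSet.iUnion fun p => cor5_meas_Ph S a N p measurable_fst measurable_snd
    have e : {q : S.Ω × ℝ | q.2 ∈ O → ∃ p, Ph S a q.2 N q.1 p} =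
        {q : S.Ω × ℝ | q.2 ∈ O}ᶜ ∪ {q : S.Ω × ℝ | ∃ p, Ph S a q.2 N q.1 p} := by
      ext q
      simp only [mem_ofPred_eq, mem_union, mem_compl_iff]
      tauto
    rw [e]
    exact m1.compl.union m2
  · filter_upwards [h] with z hz
    by_cases hzO : z ∈ O
    · filter_upwards [hz hzO] with ω hω _
      exact hω
    · exact Eventually.of_forall fun ω hh => absurd hh hzO

lemma cor5_qB_mem (σ : ℕ × Fin 2) : qB σ ∈ qs σ.1 ∧ col (qB σ) = σ.2 := by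
  obtain ⟨κ, i⟩ := σ
  fin_cases i
  · refine ⟨by simp [qB, qs], ?_⟩
    apply Fin.ext
    simp [qB, col]
    omega
  · refine ⟨by simp [qB, qs], ?_⟩
    apply Fin.ext
    simp [qB, col]
    omega

lemma cor5_qA_mem (nx : ℕ → Fin 2 → ℕ) (σ : ℕ × Fin 2) :
    qA nx σ ∈ qs (nx σ.1 σ.2) ∧ col (qA nx σ) = σ.2 := by
  obtain ⟨κ, i⟩ := σ
  fin_cases i
  · refine ⟨by simp [qA, qs], ?_⟩
    apply Fin.ext
    simp [qA, col]
    omega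
  · refine ⟨by simp [qA, qs], ?_⟩
    apply Fin.ext
    simp [qA, col]
    omega

theorem typical (G : Geo j nx) (s : ℕ → Fin 2 → Bool) (S : Sys) (A : Set S.Ω)
    (h : Rigid G s S A) :
    ∀ᵐ ω ∂S.μ, ∃ t : ℕ → Fin 2 → Bool, Links nx s t ∧ ∃ P : ℕ → ℤ,
      ∀ κ r, ∀ᵐ z : ℝ, z ∈ G.O κ r → ∃ p : ℤ, Ph S 3 z (md (qs κ)) ω p ∧
        ∀ q ∈ qs κ, (u q : ℤ) ∣ (p - P κ) + (r : ℤ) * b2i (t κ (col q)) := by
  obtain ⟨z0, z1, y0, y1, hz, hy, h01, hO, hC, hCC⟩ := generic_points G s S A h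
  have a1 : ∀ᵐ ω ∂S.μ, ∀ κ, (∃ p, Ph S 3 (z0 κ) (md (qs κ)) ω p) ∧ ∃ p, Ph S 3 (z1 κ) (md (qs κ)) ω p := by
    rw [ae_all_iff]
    intro κ
    filter_upwards [(hz κ).1, (hz κ).2] with ω ha hb
    exact ⟨ha, hb⟩
  have a2 : ∀ᵐ ω ∂S.μ, ∀ σ, (∃ p, Ph S 5 (y0 σ) (md (lk nx σ)) ω p) ∧
      ∃ p, Ph S 6 (y1 σ) (md (lk nx σ)) ω p := by
    rw [ae_all_iff]
    intro σ
    filter_upwards [(hy σ).1, (hy σ).2] with ω ha hb
    exact ⟨ha, hb⟩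
  have a3 : ∀ᵐ ω ∂S.μ, ∀ κ, ∀ p p', Ph S 3 (z0 κ) (md (qs κ)) ω p → Ph S 3 (z1 κ) (md (qs κ)) ω p' →
      ∃ η : Fin 2 → Bool, ∀ q ∈ qs κ, (u q : ℤ) ∣ (p' - p) + b2i (η (col q)) := by
    rw [ae_all_iff]
    intro κ
    exact phase_diff S 3 3 (z0 κ) (z1 κ) _ _
      (fun k => ∃ η : Fin 2 → Bool, ∀ q ∈ qs κ, (u q : ℤ) ∣ k + b2i (η (col q))) (h01 κ)
  have a4 : ∀ᵐ ω ∂S.μ, ∀ σ : ℕ × Fin 2,
      (∀ p p', Ph S 3 (z0 σ.1) (md (qs σ.1)) ω p → Ph S 5 (y0 σ) (md (lk nx σ)) ω p' →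
        (u (qB σ) : ℤ) ∣ p' - p) ∧
      (∀ p p', Ph S 3 (z0 (nx σ.1 σ.2)) (md (qs (nx σ.1 σ.2))) ω p → Ph S 5 (y0 σ) (md (lk nx σ)) ω p' →
        (u (qA nx σ) : ℤ) ∣ p' - p) ∧
      (∀ p p', Ph S 3 (z1 σ.1) (md (qs σ.1)) ω p → Ph S 6 (y1 σ) (md (lk nx σ)) ω p' →
        (u (qB σ) : ℤ) ∣ p' - p) ∧
      (∀ p p', Ph S 3 (z1 (nx σ.1 σ.2)) (md (qs (nx σ.1 σ.2))) ω p → Ph S 6 (y1 σ) (md (lk nx σ)) ω p' →
        (u (qA nx σ) : ℤ) ∣ p' - p) ∧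
      (∀ p p', Ph S 5 (y0 σ) (md (lk nx σ)) ω p → Ph S 6 (y1 σ) (md (lk nx σ)) ω p' →
        ∃ η : Bool, (u (qB σ) : ℤ) ∣ (p' - p) + b2i η ∧
          (u (qA nx σ) : ℤ) ∣ (p' - p) + b2i (xor η (s σ.1 σ.2))) := by
    rw [ae_all_iff]
    intro σ
    filter_upwards [
      phase_diff S 3 5 (z0 σ.1) (y0 σ) (md (qs σ.1)) (md (lk nx σ)) (fun k => (u (qB σ) : ℤ) ∣ k)
        (fun k hk => (hC σ σ.1 (qB σ) (Or.inl ⟨rfl, rfl⟩) k hk).1),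
      phase_diff S 3 5 (z0 (nx σ.1 σ.2)) (y0 σ) (md (qs (nx σ.1 σ.2))) (md (lk nx σ))
        (fun k => (u (qA nx σ) : ℤ) ∣ k)
        (fun k hk => (hC σ _ (qA nx σ) (Or.inr ⟨rfl, rfl⟩) k hk).1),
      phase_diff S 3 6 (z1 σ.1) (y1 σ) (md (qs σ.1)) (md (lk nx σ)) (fun k => (u (qB σ) : ℤ) ∣ k)
        (fun k hk => (hC σ σ.1 (qB σ) (Or.inl ⟨rfl, rfl⟩) k hk).2),
      phase_diff S 3 6 (z1 (nx σ.1 σ.2)) (y1 σ) (md (qs (nx σ.1 σ.2))) (md (lk nx σ))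
        (fun k => (u (qA nx σ) : ℤ) ∣ k)
        (fun k hk => (hC σ _ (qA nx σ) (Or.inr ⟨rfl, rfl⟩) k hk).2),
      phase_diff S 5 6 (y0 σ) (y1 σ) (md (lk nx σ)) (md (lk nx σ))
        (fun k => ∃ η : Bool, (u (qB σ) : ℤ) ∣ k + b2i η ∧
          (u (qA nx σ) : ℤ) ∣ k + b2i (xor η (s σ.1 σ.2))) (hCC σ)] with ω b1 b2 b3 b4 b5
    exact ⟨b1, b2, b3, b4, b5⟩
  have a5 : ∀ᵐ ω ∂S.μ, ∀ κ r, ∀ᵐ z : ℝ, z ∈ G.O κ r → (∃ p, Ph S 3 z (md (qs κ)) ω p) ∧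
      (∀ p p', Ph S 3 (z0 κ) (md (qs κ)) ω p → Ph S 3 z (md (qs κ)) ω p' →
        ∃ η : Fin 2 → Bool, ∀ q ∈ qs κ, (u q : ℤ) ∣ (p' - p) + ((r : ℤ) - 0) * b2i (η (col q))) ∧
      (∀ p p', Ph S 3 (z1 κ) (md (qs κ)) ω p → Ph S 3 z (md (qs κ)) ω p' →
        ∃ η : Fin 2 → Bool, ∀ q ∈ qs κ, (u q : ℤ) ∣ (p' - p) + ((r : ℤ) - 1) * b2i (η (col q))) := by
    rw [ae_all_iff]
    intro κ
    rw [ae_all_iff]
    intro r
    have hm := (G.O_closed κ r).measurableSet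
    filter_upwards [cor5_clock S 3 (md (qs κ)) _ hm (h.clockO κ r),
      cor5_rel S 3 3 (z0 κ) (md (qs κ)) (md (qs κ)) _ hm
        (fun k => ∃ η : Fin 2 → Bool, ∀ q ∈ qs κ, (u q : ℤ) ∣ k + ((r : ℤ) - 0) * b2i (η (col q)))
        (by filter_upwards [hO κ r] with z hz' hzO k hk; exact (hz' hzO k).1 hk),
      cor5_rel S 3 3 (z1 κ) (md (qs κ)) (md (qs κ)) _ hm
        (fun k => ∃ η : Fin 2 → Bool, ∀ q ∈ qs κ, (u q : ℤ) ∣ k + ((r : ℤ) - 1) * b2i (η (col q)))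
        (by filter_upwards [hO κ r] with z hz' hzO k hk; exact (hz' hzO k).2 hk)] with ω b1 b2 b3
    filter_upwards [b1, b2, b3] with z c1 c2 c3 hzO
    exact ⟨c1 hzO, c2 hzO, c3 hzO⟩
  filter_upwards [a1, a2, a3, a4, a5] with ω b1 b2 b3 b4 b5
  choose P0 hP0 using fun κ => (b1 κ).1
  choose P1 hP1 using fun κ => (b1 κ).2
  choose Y0 hY0 using fun σ => (b2 σ).1
  choose Y1 hY1 using fun σ => (b2 σ).2
  choose t ht using fun κ => b3 κ (P0 κ) (P1 κ) (hP0 κ) (hP1 κ)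
  refine ⟨t, ?_, P0, ?_⟩
  · intro κ i
    obtain ⟨c1, c2, c3, c4, c5⟩ := b4 (κ, i)
    have d1 := ht κ (qB (κ, i)) (cor5_qB_mem (κ, i)).1
    rw [(cor5_qB_mem (κ, i)).2] at d1
    have d2 := ht (nx κ i) (qA nx (κ, i)) (cor5_qA_mem nx (κ, i)).1
    rw [(cor5_qA_mem nx (κ, i)).2] at d2
    exact link_arith (κ, i) nx (P0 κ) (P1 κ) (P0 (nx κ i)) (P1 (nx κ i)) (Y0 (κ, i)) (Y1 (κ, i))
      (t κ i) (t (nx κ i) i) (s κ i) d1 d2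
      (c1 _ _ (hP0 _) (hY0 _)) (c2 _ _ (hP0 _) (hY0 _))
      (c3 _ _ (hP1 _) (hY1 _)) (c4 _ _ (hP1 _) (hY1 _))
      (c5 _ _ (hY0 _) (hY1 _))
  · intro κ r
    filter_upwards [b5 κ r] with z hz' hzO
    obtain ⟨⟨p, hp⟩, e0, e1⟩ := hz' hzO
    exact ⟨p, hp, gadget_arith κ r (P0 κ) (P1 κ) p (t κ) (ht κ)
      (e0 _ _ (hP0 κ) hp) (e1 _ _ (hP1 κ) hp)⟩

end NB97_COR5

section NB97_COR6

lemma cor6_md_dvd (Q : Finset ℕ) (x : ℤ) (h : ∀ q ∈ Q, (u q : ℤ) ∣ x) : (md Q : ℤ) ∣ x := by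
  unfold md
  push_cast
  refine Finset.prod_dvd_of_coprime ?_ h
  intro a _ b _ hab
  exact Nat.isCoprime_iff_coprime.mpr (coprime_u hab)

lemma cor6_md_pos (Q : Finset ℕ) : 0 < md Q :=
  Finset.prod_pos fun q _ => by have := three_le_u q; omega

theorem active_of_true (G : Geo j nx) (S : Sys) (ω : S.Ω) (κ : ℕ) (t : Fin 2 → Bool) (P : ℤ)
    (ht : t 0 = true ∧ t 1 = true)
    (h : ∀ r, ∀ᵐ z : ℝ, z ∈ G.O κ r → ∃ p : ℤ, Ph S 3 z (md (qs κ)) ω p ∧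
        ∀ q ∈ qs κ, (u q : ℤ) ∣ (p - P) + (r : ℤ) * b2i (t (col q))) :
    ∃ r, r < md (qs κ) ∧ ∀ᵐ z : ℝ, z ∈ G.O κ r → z ∈ S.reg 3 ω := by
  have hpos : (0:ℤ) < (md (qs κ) : ℤ) := by exact_mod_cast cor6_md_pos _
  have hne : (md (qs κ) : ℤ) ≠ 0 := hpos.ne'
  refine ⟨(P % (md (qs κ) : ℤ)).toNat, ?_, ?_⟩
  · have h1 := Int.emod_lt_of_pos P hpos
    have h2 := Int.emod_nonneg P hne
    omega
  · filter_upwards [h (P % (md (qs κ) : ℤ)).toNat] with z hz hzO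
    obtain ⟨p, hp, hq⟩ := hz hzO
    have hr : (((P % (md (qs κ) : ℤ)).toNat : ℕ) : ℤ) = P % (md (qs κ) : ℤ) :=
      Int.toNat_of_nonneg (Int.emod_nonneg P hne)
    have ht' : ∀ i : Fin 2, t i = true := by
      intro i
      fin_cases i
      · exact ht.1
      · exact ht.2
    have h3 : (md (qs κ) : ℤ) ∣ p := by
      apply cor6_md_dvd
      intro q hqm
      have h4 := hq q hqm
      rw [ht', hr] at h4
      simp only [b2i, if_true, mul_one] at h4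
      have h5 : (u q : ℤ) ∣ P - P % (md (qs κ) : ℤ) := by
        have h6 : (u q : ℤ) ∣ (md (qs κ) : ℤ) := by
          exact_mod_cast Finset.dvd_prod_of_mem u hqm
        exact h6.trans (Int.dvd_self_sub_emod)
      have h7 := dvd_add h4 h5
      have e : p - P + P % (md (qs κ) : ℤ) + (P - P % (md (qs κ) : ℤ)) = p := by ring
      rwa [e] at h7
    have h8 := (hp 0).mpr (by
      rw [zero_sub]
      exact (dvd_neg).mpr h3)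
    rwa [S.T_zero] at h8

theorem good_of_closed (G : Geo j nx) (F : Set ℝ) (hF : IsClosed F) (t : ℕ → Fin 2 → Bool)
    (hW : ∀ i, ∀ᵐ z : ℝ, z ∈ G.W i → z ∉ F)
    (hO : ∀ κ, t κ 0 = true ∧ t κ 1 = true → ∃ r, r < md (qs κ) ∧ ∀ᵐ z : ℝ, z ∈ G.O κ r → z ∈ F) :
    Good j t := by
  classical
  intro i
  by_contra hinf
  set P : Set ℕ := {κ | j κ = i ∧ t κ 0 = true ∧ t κ 1 = true} with hP
  have hPinf : P.Infinite := hinf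
  choose! r hr hrF using hO
  have hsub : G.W' i ⊆ F := by
    intro x hx
    rw [← hF.closure_eq]
    rw [Metric.mem_closure_iff]
    intro ε hε
    obtain ⟨κ, hκ, hpos⟩ := G.acc i P hPinf (fun κ hκ => hκ.1) r (fun κ hκ => hr κ hκ.2) x hx ε hε
    have h1 : ∀ᵐ z ∂(volume.restrict (G.O κ (r κ) ∩ Ioo (x - ε) (x + ε))), z ∈ F := by
      rw [ae_restrict_iff' ((G.O_closed κ _).measurableSet.inter measurableSet_Ioo)]
      filter_upwards [hrF κ hκ.2] with z hz hz'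
      exact hz hz'.1
    have h2 : ∃ z, z ∈ F ∧ z ∈ G.O κ (r κ) ∩ Ioo (x - ε) (x + ε) := by
      by_contra hno
      push Not at hno
      have h3 : volume (G.O κ (r κ) ∩ Ioo (x - ε) (x + ε)) = 0 := by
        rw [ae_restrict_iff' ((G.O_closed κ _).measurableSet.inter measurableSet_Ioo)] at h1
        refine measure_mono_null ?_ (ae_iff.mp h1)
        intro z hz
        simp only [mem_ofPred_eq]
        intro hcon
        exact hno z (hcon hz) hz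
      exact hpos.ne' h3
    obtain ⟨z, hzF, hz⟩ := h2
    refine ⟨z, hzF, ?_⟩
    rw [Real.dist_eq, abs_lt]
    constructor <;> linarith [hz.2.1, hz.2.2]
  have h5 : volume (G.W' i) = 0 := by
    refine measure_mono_null ?_ (ae_iff.mp (hW i))
    intro x hx
    simp only [mem_ofPred_eq]
    intro hcon
    exact hcon (G.W'_sub i hx) (hsub hx)
  exact (G.W'_pos i).ne' h5

end NB97_COR6


end tasks

lemma isClosed_reg (S : Sys) (a : Fin 8) (ω : S.Ω) (h : IsClosed (S.K ω)) :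
    IsClosed (S.reg a ω) := by
  have h1 : IsClosed {z : ℝ | gp a + z ∈ S.K ω} := h.preimage (by fun_prop)
  exact isClosed_Icc.inter h1

theorem core (G : Geo j nx) (s : ℕ → Fin 2 → Bool) (S : Sys) (hcl : ∀ ω, IsClosed (S.K ω))
    (A : Set S.Ω) (h : Rigid G s S A) : ∃ t, Links nx s t ∧ Good j t := by
  have hW : ∀ᵐ ω ∂S.μ, ω ∈ A → ∀ i, ∀ᵐ z : ℝ, z ∈ G.W i → z ∉ S.reg 3 ω := by
    have h1 : ∀ i, ∀ᵐ ω ∂S.μ, ω ∈ A → ∀ᵐ z : ℝ, z ∈ G.W i → z ∉ S.reg 3 ω := by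
      intro i
      have hms : MeasurableSet {p : S.Ω × ℝ | p.1 ∈ A → p.2 ∈ G.W i → p.2 ∉ S.reg 3 p.1} := by
        have m1 : MeasurableSet {p : S.Ω × ℝ | p.1 ∈ A} := measurable_fst h.A_meas
        have m2 : MeasurableSet {p : S.Ω × ℝ | p.2 ∈ G.W i} :=
          measurable_snd (G.W_closed i).measurableSet
        have m3 : MeasurableSet {p : S.Ω × ℝ | p.2 ∈ S.reg 3 p.1} :=
          S.meas_reg 3 measurable_fst measurable_snd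
        have e : {p : S.Ω × ℝ | p.1 ∈ A → p.2 ∈ G.W i → p.2 ∉ S.reg 3 p.1} =
            {p : S.Ω × ℝ | p.1 ∈ A}ᶜ ∪ ({p : S.Ω × ℝ | p.2 ∈ G.W i}ᶜ ∪
              {p : S.Ω × ℝ | p.2 ∈ S.reg 3 p.1}ᶜ) := by
          ext p
          simp only [mem_ofPred_eq, mem_union, mem_compl_iff]
          tauto
        rw [e]
        exact m1.compl.union (m2.compl.union m3.compl)
      have h2 : ∀ᵐ z : ℝ, ∀ᵐ ω ∂S.μ, ω ∈ A → z ∈ G.W i → z ∉ S.reg 3 ω := by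
        filter_upwards [h.white i] with z hz
        by_cases hzw : z ∈ G.W i
        · filter_upwards [hz hzw] with ω hω ha _
          exact hω ha
        · exact Eventually.of_forall fun ω _ hh => absurd hh hzw
      have h5 := ae_swap S.μ (P := fun ω z => ω ∈ A → z ∈ G.W i → z ∉ S.reg 3 ω) hms h2
      filter_upwards [h5] with ω hω ha
      filter_upwards [hω] with z hz
      exact hz ha
    have h6 := ae_all_iff.mpr h1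
    filter_upwards [h6] with ω hω ha i
    exact hω i ha
  have h7 : ∀ᵐ ω ∂S.μ, ω ∈ A → ∃ t, Links nx s t ∧ Good j t := by
    filter_upwards [hW, typical G s S A h] with ω hw ⟨t, ht, P, hP⟩ ha
    refine ⟨t, ht, good_of_closed G (S.reg 3 ω) (isClosed_reg S 3 ω (hcl ω)) t (hw ha) ?_⟩
    intro κ hκ
    exact active_of_true G S ω κ (t κ) (P κ) hκ (hP κ)
  by_contra hcon
  have h8 : ∀ᵐ ω ∂S.μ, ω ∉ A := by
    filter_upwards [h7] with ω hω ha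
    exact hcon (hω ha)
  have h9 : S.μ A = 0 := by
    rw [ae_iff] at h8
    simpa using h8
  exact absurd h9 h.A_pos.ne'

end Pool.Agent.LibNB97
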