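import Pool.Agent.LibNB97.GeoDef

/-! # The design -/

open MeasureTheory Set Filter Topology
open scoped ENNReal

namespace Pool.Agent.LibNB97

/-- the sample space of the design: two hidden bits and the positions of the clocks -/
abbrev DΩ : Type := (Fin 2 → Bool) × (∀ q : ℕ, ZMod (u q))

/-- the uniform law on `ZMod (u q)` -/
noncomputable def unifZ (q : ℕ) : Measure (ZMod (u q)) :=
  (PMF.uniformOfFintype (ZMod (u q))).toMeasure

instance (q : ℕ) : IsProbabilityMeasure (unifZ q) := by unfold unifZ; infer_instance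

/-- the uniform law of the hidden bits -/
noncomputable def unifW : Measure (Fin 2 → Bool) :=
  (PMF.uniformOfFintype (Fin 2 → Bool)).toMeasure

instance : IsProbabilityMeasure unifW := by unfold unifW; infer_instance

/-- the law of the sample point -/
noncomputable def Dμ : Measure DΩ := unifW.prod (Measure.infinitePi unifZ)

instance : IsProbabilityMeasure Dμ := by unfold Dμ; infer_instance

/-- all clocks advance -/
def DT (k : ℤ) (ω : DΩ) : DΩ := (ω.1, fun q => ω.2 q + (k : ZMod (u q)))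

/-- the truth value of the literal of index `q` -/
def et (t : ℕ → Fin 2 → Bool) (q : ℕ) (w : Fin 2 → Bool) : ℤ :=
  b2i (xor (t (gad q) (col q)) (w (col q)))

/-- the event that a cell with index set `Q` and phase `r` is active -/
def Ev (t : ℕ → Fin 2 → Bool) (Q : Finset ℕ) (r : ℕ) (ω : DΩ) : Prop :=
  ∀ q ∈ Q, ω.2 q + ((r * et t q ω.1 : ℤ) : ZMod (u q)) = 0

variable {j : ℕ → ℕ} {nx : ℕ → Fin 2 → ℕ}

/-- the hidden state is `0` -/
def w0 (ω : DΩ) : Prop := ∀ i, ω.1 i = false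

instance (ω : DΩ) : Decidable (w0 ω) := by unfold w0; infer_instance

/-- content of the regions `3` and `4` -/
def JF (G : Geo j nx) (t : ℕ → Fin 2 → Bool) (ω : DΩ) : Set ℝ :=
  {0} ∪ (if w0 ω then ∅ else ⋃ i, G.W i) ∪ ⋃ p ∈ {p : ℕ × ℕ | Ev t (qs p.1) p.2 ω}, G.O p.1 p.2

/-- content of the regions `5` (`r = 0`) and `6` (`r = 1`) -/
def CF (G : Geo j nx) (t : ℕ → Fin 2 → Bool) (r : ℕ) (ω : DΩ) : Set ℝ :=
  {0} ∪ ⋃ σ ∈ {σ : ℕ × Fin 2 | Ev t (lk nx σ) r ω}, G.C σ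

/-- contents of the eight regions -/
def FF (G : Geo j nx) (t : ℕ → Fin 2 → Bool) (a : Fin 8) (ω : DΩ) : Set ℝ :=
  match a with
  | 0 => Icc 0 1
  | 1 => if w0 ω then Icc 0 1 else ∅
  | 2 => if w0 ω then ∅ else Icc 0 1
  | 3 => JF G t ω
  | 4 => JF G t ω
  | 5 => CF G t 0 ω
  | 6 => CF G t 1 ω
  | 7 => Icc 0 1

/-- the content of a block -/
def DK (G : Geo j nx) (t : ℕ → Fin 2 → Bool) (ω : DΩ) : Set ℝ :=
  {x | ∃ a, x - gp a ∈ FF G t a ω}

section tasks

section NB97_DES1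

lemma des1_unif {α : Type} [Fintype α] [Nonempty α] [MeasurableSpace α]
    [MeasurableSingletonClass α] (e : α ≃ α) :
    (PMF.uniformOfFintype α).toMeasure.map e = (PMF.uniformOfFintype α).toMeasure := by
  have hm : Measurable e := measurable_of_countable _
  refine Measure.ext_of_singleton fun a => ?_
  rw [Measure.map_apply hm (measurableSet_singleton a)]
  have h1 : e ⁻¹' {a} = {e.symm a} := by
    ext x
    simp only [Set.mem_preimage, Set.mem_singleton_iff]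
    exact ⟨fun h => by rw [← h, Equiv.symm_apply_apply], fun h => by rw [h, Equiv.apply_symm_apply]⟩
  rw [h1, PMF.toMeasure_apply_singleton _ _ (measurableSet_singleton _),
    PMF.toMeasure_apply_singleton _ _ (measurableSet_singleton _),
    PMF.uniformOfFintype_apply, PMF.uniformOfFintype_apply]

lemma des1_unifZ (q : ℕ) (c : ZMod (u q)) :
    (unifZ q).map (fun x => x + c) = unifZ q :=
  des1_unif (Equiv.addRight c)

/-- task DES1 -/
theorem DT_mp (k : ℤ) : MeasurePreserving (DT k) Dμ Dμ := by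
  have h1 : MeasurePreserving (fun (x : ∀ q : ℕ, ZMod (u q)) q => x q + (k : ZMod (u q)))
      (Measure.infinitePi unifZ) (Measure.infinitePi unifZ) := by
    constructor
    · fun_prop
    · have h2 := Measure.infinitePi_map_pi unifZ (f := fun q x => x + (k : ZMod (u q)))
        (fun q => measurable_of_countable _)
      rw [h2]
      congr 1
      ext1 q
      exact des1_unifZ q _
  exact (MeasurePreserving.id unifW).prod h1

theorem measurableSet_Ev (t : ℕ → Fin 2 → Bool) (Q : Finset ℕ) (r : ℕ) :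
    MeasurableSet {ω : DΩ | Ev t Q r ω} := by
  have h1 : {ω : DΩ | Ev t Q r ω} = ⋂ q ∈ Q,
      (fun ω : DΩ => ω.2 q + ((r * et t q ω.1 : ℤ) : ZMod (u q))) ⁻¹' {0} := by
    ext ω
    simp [Ev]
  rw [h1]
  refine MeasurableSet.biInter Q.countable_toSet fun q _ => ?_
  have h2 : Measurable fun ω : DΩ => ω.2 q + ((r * et t q ω.1 : ℤ) : ZMod (u q)) := by
    have h3 : Measurable fun w : Fin 2 → Bool => ((r * et t q w : ℤ) : ZMod (u q)) :=
      measurable_of_countable _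
    have h4 : Measurable fun ω : DΩ => ((r * et t q ω.1 : ℤ) : ZMod (u q)) :=
      h3.comp measurable_fst
    have h5 : Measurable fun ω : DΩ => ω.2 q := by fun_prop
    exact h5.add h4
  exact h2 (measurableSet_singleton 0)

theorem FF_sub (G : Geo j nx) (t : ℕ → Fin 2 → Bool) (a : Fin 8) (ω : DΩ) :
    FF G t a ω ⊆ Icc 0 1 := by
  have hJ : JF G t ω ⊆ Icc 0 1 := by
    rintro z ((h | h) | h)
    · have h0 : z = 0 := h
      rw [h0]
      exact ⟨le_rfl, zero_le_one⟩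
    · by_cases hw : w0 ω
      · rw [if_pos hw] at h
        exact absurd h (Set.notMem_empty z)
      · rw [if_neg hw] at h
        obtain ⟨i, hi⟩ := Set.mem_iUnion.1 h
        exact Ioc_subset_Icc_self (G.W_sub i hi)
    · obtain ⟨p, _, hzp⟩ := Set.mem_iUnion₂.1 h
      exact Ioc_subset_Icc_self (G.O_sub _ _ hzp)
  have hC : ∀ r, CF G t r ω ⊆ Icc 0 1 := by
    rintro r z (h | h)
    · have h0 : z = 0 := h
      rw [h0]
      exact ⟨le_rfl, zero_le_one⟩
    · obtain ⟨σ, _, hzσ⟩ := Set.mem_iUnion₂.1 h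
      exact Ioc_subset_Icc_self (G.C_sub _ hzσ)
  have a0 : ∀ a : Fin 8, a = 0 ∨ a = 1 ∨ a = 2 ∨ a = 3 ∨ a = 4 ∨ a = 5 ∨ a = 6 ∨ a = 7 := by decide
  rcases a0 a with h | h | h | h | h | h | h | h <;> subst h
  · exact Subset.rfl
  · show (if w0 ω then Icc 0 1 else ∅ : Set ℝ) ⊆ Icc 0 1
    split_ifs
    · exact Subset.rfl
    · exact Set.empty_subset _
  · show (if w0 ω then ∅ else Icc 0 1 : Set ℝ) ⊆ Icc 0 1
    split_ifs
    · exact Set.empty_subset _
    · exact Subset.rfl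
  · exact hJ
  · exact hJ
  · exact hC 0
  · exact hC 1
  · exact Subset.rfl

theorem DK_meas (G : Geo j nx) (t : ℕ → Fin 2 → Bool) :
    MeasurableSet {p : DΩ × ℝ | p.2 ∈ DK G t p.1} := by
  have hw : MeasurableSet {ω : DΩ | w0 ω} := by
    have h1 : MeasurableSet {w : Fin 2 → Bool | ∀ i, w i = false} :=
      (Set.toFinite _).measurableSet
    exact h1.preimage measurable_fst
  have hwp : MeasurableSet {p : DΩ × ℝ | w0 p.1} := hw.preimage measurable_fst
  have hE : ∀ Q r, MeasurableSet {p : DΩ × ℝ | Ev t Q r p.1} := fun Q r =>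
    (measurableSet_Ev t Q r).preimage measurable_fst
  have hI : MeasurableSet {p : DΩ × ℝ | p.2 ∈ Icc (0:ℝ) 1} := measurableSet_Icc.preimage measurable_snd
  have h0 : MeasurableSet {p : DΩ × ℝ | p.2 = 0} :=
    (measurableSet_singleton (0:ℝ)).preimage measurable_snd
  have hJ : MeasurableSet {p : DΩ × ℝ | p.2 ∈ JF G t p.1} := by
    have h1 : {p : DΩ × ℝ | p.2 ∈ JF G t p.1} = ({p : DΩ × ℝ | p.2 = 0} ∪
        ({p : DΩ × ℝ | w0 p.1}ᶜ ∩ {p : DΩ × ℝ | p.2 ∈ ⋃ i, G.W i})) ∪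
        ⋃ q : ℕ × ℕ, {p : DΩ × ℝ | Ev t (qs q.1) q.2 p.1} ∩ {p : DΩ × ℝ | p.2 ∈ G.O q.1 q.2} := by
      ext p
      constructor
      · rintro ((h | h) | h)
        · exact Or.inl (Or.inl h)
        · by_cases hw : w0 p.1
          · rw [if_pos hw] at h
            exact absurd h (Set.notMem_empty _)
          · rw [if_neg hw] at h
            exact Or.inl (Or.inr ⟨hw, h⟩)
        · obtain ⟨q, hq, hzq⟩ := Set.mem_iUnion₂.1 h
          exact Or.inr (Set.mem_iUnion.2 ⟨q, hq, hzq⟩)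
      · rintro ((h | ⟨hw, h⟩) | h)
        · exact Or.inl (Or.inl h)
        · refine Or.inl (Or.inr ?_)
          have hw' : ¬ w0 p.1 := hw
          rw [if_neg hw']
          exact h
        · obtain ⟨q, hq, hzq⟩ := Set.mem_iUnion.1 h
          exact Or.inr (Set.mem_iUnion₂.2 ⟨q, hq, hzq⟩)
    rw [h1]
    refine (h0.union (hwp.compl.inter ?_)).union (MeasurableSet.iUnion fun q => (hE _ _).inter ?_)
    · exact (MeasurableSet.iUnion fun i => (G.W_closed i).measurableSet).preimage measurable_snd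
    · exact (G.O_closed q.1 q.2).measurableSet.preimage measurable_snd
  have hC : ∀ r, MeasurableSet {p : DΩ × ℝ | p.2 ∈ CF G t r p.1} := by
    intro r
    have h1 : {p : DΩ × ℝ | p.2 ∈ CF G t r p.1} = {p : DΩ × ℝ | p.2 = 0} ∪
        ⋃ σ : ℕ × Fin 2, {p : DΩ × ℝ | Ev t (lk nx σ) r p.1} ∩ {p : DΩ × ℝ | p.2 ∈ G.C σ} := by
      ext p
      constructor
      · rintro (h | h)
        · exact Or.inl h
        · obtain ⟨q, hq, hzq⟩ := Set.mem_iUnion₂.1 h
          exact Or.inr (Set.mem_iUnion.2 ⟨q, hq, hzq⟩)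
      · rintro (h | h)
        · exact Or.inl h
        · obtain ⟨q, hq, hzq⟩ := Set.mem_iUnion.1 h
          exact Or.inr (Set.mem_iUnion₂.2 ⟨q, hq, hzq⟩)
    rw [h1]
    exact h0.union (MeasurableSet.iUnion fun σ =>
      (hE _ _).inter ((G.C_closed σ).measurableSet.preimage measurable_snd))
  have hF : ∀ a, MeasurableSet {p : DΩ × ℝ | p.2 ∈ FF G t a p.1} := by
    intro a
    have a0 : ∀ a : Fin 8, a = 0 ∨ a = 1 ∨ a = 2 ∨ a = 3 ∨ a = 4 ∨ a = 5 ∨ a = 6 ∨ a = 7 := by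
      decide
    rcases a0 a with h | h | h | h | h | h | h | h <;> subst h
    · exact hI
    · have h1 : {p : DΩ × ℝ | p.2 ∈ FF G t 1 p.1} =
          {p : DΩ × ℝ | w0 p.1} ∩ {p : DΩ × ℝ | p.2 ∈ Icc (0:ℝ) 1} := by
        ext p
        show p.2 ∈ (if w0 p.1 then Icc 0 1 else ∅ : Set ℝ) ↔ _
        by_cases hw : w0 p.1
        · rw [if_pos hw]
          exact ⟨fun h => ⟨hw, h⟩, fun h => h.2⟩
        · rw [if_neg hw]
          exact ⟨fun h => absurd h (Set.notMem_empty _), fun h => absurd h.1 hw⟩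
      rw [h1]
      exact hwp.inter hI
    · have h1 : {p : DΩ × ℝ | p.2 ∈ FF G t 2 p.1} =
          {p : DΩ × ℝ | w0 p.1}ᶜ ∩ {p : DΩ × ℝ | p.2 ∈ Icc (0:ℝ) 1} := by
        ext p
        show p.2 ∈ (if w0 p.1 then ∅ else Icc 0 1 : Set ℝ) ↔ _
        by_cases hw : w0 p.1
        · rw [if_pos hw]
          exact ⟨fun h => absurd h (Set.notMem_empty _), fun h => absurd hw h.1⟩
        · rw [if_neg hw]
          exact ⟨fun h => ⟨hw, h⟩, fun h => h.2⟩
      rw [h1]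
      exact hwp.compl.inter hI
    · exact hJ
    · exact hJ
    · exact hC 0
    · exact hC 1
    · exact hI
  have h1 : {p : DΩ × ℝ | p.2 ∈ DK G t p.1} =
      ⋃ a, (fun p : DΩ × ℝ => (p.1, p.2 - gp a)) ⁻¹' {p : DΩ × ℝ | p.2 ∈ FF G t a p.1} := by
    ext p
    simp only [DK, Set.mem_iUnion, Set.mem_preimage]
    exact Iff.rfl
  rw [h1]
  exact MeasurableSet.iUnion fun a => (hF a).preimage (by fun_prop)

theorem DK_sub (G : Geo j nx) (t : ℕ → Fin 2 → Bool) (ω : DΩ) : DK G t ω ⊆ Icc 0 221 := by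
  rintro x ⟨a, ha⟩
  have h1 := FF_sub G t a ω ha
  have h2 : 0 ≤ gp a ∧ gp a ≤ 220 := by
    fin_cases a <;> simp [gp] <;> norm_num
  constructor
  · linarith [h1.1, h2.1]
  · linarith [h1.2, h2.2]

end NB97_DES1





end tasks

/-- the design as a system -/
noncomputable def Dsys (G : Geo j nx) (t : ℕ → Fin 2 → Bool) : Sys where
  Ω := DΩ
  μ := Dμ
  T := DT
  T_zero ω := by simp [DT]
  T_add k l ω := by simp [DT, add_assoc, add_comm]
  T_mp := DT_mp
  K := DK G t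
  K_meas := DK_meas G t
  K_sub := DK_sub G t

section NB97_DES2

lemma des2_gp_val (a : Fin 8) : gp a = ((![0, 4, 68, 92, 164, 172, 204, 220] : Fin 8 → ℤ) a : ℝ) := by
  fin_cases a <;> simp [gp]

lemma des2_gp_inj (a b : Fin 8) (h : |gp a - gp b| ≤ 1) : a = b := by
  have key : ∀ a b : Fin 8, a ≠ b →
      2 ≤ |(![0, 4, 68, 92, 164, 172, 204, 220] : Fin 8 → ℤ) a -
        (![0, 4, 68, 92, 164, 172, 204, 220] : Fin 8 → ℤ) b| := by decide
  by_contra hab
  have h1 := key a b hab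
  rw [des2_gp_val, des2_gp_val, ← Int.cast_sub, ← Int.cast_abs] at h
  have h2 : |(![0, 4, 68, 92, 164, 172, 204, 220] : Fin 8 → ℤ) a -
        (![0, 4, 68, 92, 164, 172, 204, 220] : Fin 8 → ℤ) b| ≤ 1 := by exact_mod_cast h
  omega

/-- task DES2 -/
theorem reg_Dsys (G : Geo j nx) (t : ℕ → Fin 2 → Bool) (a : Fin 8) (ω : DΩ) :
    (Dsys G t).reg a ω = FF G t a ω := by
  ext z
  constructor
  · rintro ⟨hz, a', ha'⟩
    have h1 := FF_sub G t a' ω ha'
    have h2 : a = a' := by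
      apply des2_gp_inj
      rw [abs_le]
      constructor
      · linarith [h1.1, h1.2, hz.1, hz.2]
      · linarith [h1.1, h1.2, hz.1, hz.2]
    subst h2
    have h3 : gp a + z - gp a = z := by ring
    rw [h3] at ha'
    exact ha'
  · intro hz
    refine ⟨FF_sub G t a ω hz, a, ?_⟩
    have h3 : gp a + z - gp a = z := by ring
    rw [h3]
    exact hz

theorem isReg_Dsys (G : Geo j nx) (t : ℕ → Fin 2 → Bool) : (Dsys G t).IsReg := by
  refine Eventually.of_forall fun p hp => ?_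
  obtain ⟨a, ha⟩ := hp
  exact ⟨a, FF_sub G t a p.1 ha⟩

end NB97_DES2


/-- the possible events `z ∈ FF G t a ω` for a fixed point `z` -/
inductive Kind
  | all : Kind
  | none : Kind
  | w : Kind
  | nw : Kind
  | cell (Q : Finset ℕ) (r : ℕ) : Kind

/-- the event of a kind -/
def Kind.sat (t : ℕ → Fin 2 → Bool) (ω : DΩ) : Kind → Prop
  | .all => True
  | .none => False
  | .w => w0 ω
  | .nw => ¬ w0 ω
  | .cell Q r => Ev t Q r ω

section NB97_DES3

/-- membership for the points of the cells -/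
theorem des3_mem_JF_of_O (G : Geo j nx) (t : ℕ → Fin 2 → Bool) {κ r : ℕ} {z : ℝ} (hz : z ∈ G.O κ r)
    (ω : DΩ) : z ∈ JF G t ω ↔ Ev t (qs κ) r ω := by
  have h0 : z ≠ 0 := (G.O_sub κ r hz).1.ne'
  have hW : ∀ i, z ∉ G.W i := fun i h => Set.disjoint_left.1 (G.WO_disj i κ r) h hz
  have hO : ∀ p : ℕ × ℕ, z ∈ G.O p.1 p.2 → p = (κ, r) := by
    intro p hp
    by_contra h
    exact Set.disjoint_left.1 (G.O_disj p (κ, r) h) hp hz
  unfold JF
  constructor
  · rintro ((h | h) | h)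
    · exact absurd h h0
    · by_cases hw : w0 ω
      · rw [if_pos hw] at h
        exact absurd h (Set.notMem_empty z)
      · rw [if_neg hw] at h
        obtain ⟨i, hi⟩ := Set.mem_iUnion.1 h
        exact absurd hi (hW i)
    · obtain ⟨p, hp, hzp⟩ := Set.mem_iUnion₂.1 h
      have h1 := hO p hzp
      rw [h1] at hp
      exact hp
  · intro h
    exact Or.inr (Set.mem_iUnion₂.2 ⟨(κ, r), h, hz⟩)

theorem des3_mem_JF_of_W (G : Geo j nx) (t : ℕ → Fin 2 → Bool) {i : ℕ} {z : ℝ} (hz : z ∈ G.W i)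
    (ω : DΩ) : z ∈ JF G t ω ↔ ¬ w0 ω := by
  have h0 : z ≠ 0 := (G.W_sub i hz).1.ne'
  unfold JF
  constructor
  · rintro ((h | h) | h)
    · exact absurd h h0
    · intro hw
      rw [if_pos hw] at h
      exact absurd h (Set.notMem_empty z)
    · obtain ⟨p, _, hzp⟩ := Set.mem_iUnion₂.1 h
      exact absurd hzp fun h => Set.disjoint_left.1 (G.WO_disj i p.1 p.2) hz h
  · intro hw
    refine Or.inl (Or.inr ?_)
    rw [if_neg hw]
    exact Set.mem_iUnion.2 ⟨i, hz⟩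

theorem des3_mem_JF_of_not (G : Geo j nx) (t : ℕ → Fin 2 → Bool) {z : ℝ} (h0 : z ≠ 0)
    (hW : ∀ i, z ∉ G.W i) (hO : ∀ κ r, z ∉ G.O κ r) (ω : DΩ) : z ∉ JF G t ω := by
  unfold JF
  rintro ((h | h) | h)
  · exact h0 h
  · by_cases hw : w0 ω
    · rw [if_pos hw] at h
      exact absurd h (Set.notMem_empty z)
    · rw [if_neg hw] at h
      obtain ⟨i, hi⟩ := Set.mem_iUnion.1 h
      exact hW i hi
  · obtain ⟨p, _, hzp⟩ := Set.mem_iUnion₂.1 h
    exact hO p.1 p.2 hzp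

theorem des3_mem_CF_of_C (G : Geo j nx) (t : ℕ → Fin 2 → Bool) {σ : ℕ × Fin 2} {z : ℝ}
    (hz : z ∈ G.C σ) (r : ℕ) (ω : DΩ) : z ∈ CF G t r ω ↔ Ev t (lk nx σ) r ω := by
  have h0 : z ≠ 0 := (G.C_sub σ hz).1.ne'
  have hC : ∀ σ', z ∈ G.C σ' → σ' = σ := by
    intro σ' h'
    by_contra h
    exact Set.disjoint_left.1 (G.C_disj σ' σ h) h' hz
  unfold CF
  constructor
  · rintro (h | h)
    · exact absurd h h0
    · obtain ⟨σ', hσ', hzσ⟩ := Set.mem_iUnion₂.1 h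
      rw [hC σ' hzσ] at hσ'
      exact hσ'
  · intro h
    exact Or.inr (Set.mem_iUnion₂.2 ⟨σ, h, hz⟩)

theorem des3_mem_CF_of_not (G : Geo j nx) (t : ℕ → Fin 2 → Bool) {z : ℝ} (h0 : z ≠ 0)
    (hC : ∀ σ, z ∉ G.C σ) (r : ℕ) (ω : DΩ) : z ∉ CF G t r ω := by
  unfold CF
  rintro (h | h)
  · exact h0 h
  · obtain ⟨σ, _, hzσ⟩ := Set.mem_iUnion₂.1 h
    exact hC σ hzσ


/-- task DES3: every point has a kind -/
theorem exists_kind (G : Geo j nx) (a : Fin 8) (z : ℝ) :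
    ∃ K : Kind, (∀ t ω, z ∈ FF G t a ω ↔ K.sat t ω) ∧
      (∀ Q r, K = .cell Q r → ((a = 3 ∨ a = 4) ∧ ∃ κ, Q = qs κ ∧ z ∈ G.O κ r) ∨
        (a = 5 ∧ r = 0 ∧ ∃ σ, Q = lk nx σ ∧ z ∈ G.C σ) ∨
        (a = 6 ∧ r = 1 ∧ ∃ σ, Q = lk nx σ ∧ z ∈ G.C σ)) := by
  have hI : ∃ K : Kind, (∀ (t : ℕ → Fin 2 → Bool) (ω : DΩ), z ∈ Icc (0:ℝ) 1 ↔ K.sat t ω) ∧
      (∀ Q r, K ≠ .cell Q r) := by
    by_cases h : z ∈ Icc (0:ℝ) 1
    · exact ⟨.all, fun t ω => by simp only [h, Kind.sat], fun _ _ h => by cases h⟩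
    · exact ⟨.none, fun t ω => by simp only [h, Kind.sat], fun _ _ h => by cases h⟩
  have hJ : ∃ K : Kind, (∀ (t : ℕ → Fin 2 → Bool) (ω : DΩ), z ∈ JF G t ω ↔ K.sat t ω) ∧
      (∀ Q r, K = .cell Q r → ∃ κ, Q = qs κ ∧ z ∈ G.O κ r) := by
    by_cases h0 : z = 0
    · refine ⟨.all, fun t ω => ?_, fun _ _ h => by cases h⟩
      simp only [Kind.sat, iff_true]
      rw [h0]
      exact Or.inl (Or.inl rfl)
    by_cases hW : ∃ i, z ∈ G.W i
    · obtain ⟨i, hi⟩ := hW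
      exact ⟨.nw, fun t ω => des3_mem_JF_of_W G t hi ω, fun _ _ h => by cases h⟩
    by_cases hO : ∃ κ r, z ∈ G.O κ r
    · obtain ⟨κ, r, hκ⟩ := hO
      refine ⟨.cell (qs κ) r, fun t ω => des3_mem_JF_of_O G t hκ ω, fun Q r' h => ?_⟩
      cases h
      exact ⟨κ, rfl, hκ⟩
    · push Not at hW hO
      refine ⟨.none, fun t ω => ?_, fun _ _ h => by cases h⟩
      simp only [Kind.sat, iff_false]
      exact des3_mem_JF_of_not G t h0 hW hO ω
  have hC : ∀ r0 : ℕ, ∃ K : Kind, (∀ (t : ℕ → Fin 2 → Bool) (ω : DΩ), z ∈ CF G t r0 ω ↔ K.sat t ω) ∧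
      (∀ Q r, K = .cell Q r → r = r0 ∧ ∃ σ, Q = lk nx σ ∧ z ∈ G.C σ) := by
    intro r0
    by_cases h0 : z = 0
    · refine ⟨.all, fun t ω => ?_, fun _ _ h => by cases h⟩
      simp only [Kind.sat, iff_true]
      rw [h0]
      exact Or.inl rfl
    by_cases hC : ∃ σ, z ∈ G.C σ
    · obtain ⟨σ, hσ⟩ := hC
      refine ⟨.cell (lk nx σ) r0, fun t ω => des3_mem_CF_of_C G t hσ r0 ω, fun Q r' h => ?_⟩
      cases h
      exact ⟨rfl, σ, rfl, hσ⟩
    · push Not at hC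
      refine ⟨.none, fun t ω => ?_, fun _ _ h => by cases h⟩
      simp only [Kind.sat, iff_false]
      exact des3_mem_CF_of_not G t h0 hC r0 ω
  have a0 : ∀ a : Fin 8, a = 0 ∨ a = 1 ∨ a = 2 ∨ a = 3 ∨ a = 4 ∨ a = 5 ∨ a = 6 ∨ a = 7 := by decide
  rcases a0 a with h | h | h | h | h | h | h | h
  · subst h
    obtain ⟨K, h1, h2⟩ := hI
    exact ⟨K, h1, fun Q r h => absurd h (h2 Q r)⟩
  · subst h
    by_cases hz : z ∈ Icc (0:ℝ) 1
    · refine ⟨.w, fun t ω => ?_, fun _ _ h => by cases h⟩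
      show z ∈ (if w0 ω then Icc 0 1 else ∅ : Set ℝ) ↔ w0 ω
      by_cases hw : w0 ω
      · rw [if_pos hw]
        exact ⟨fun _ => hw, fun _ => hz⟩
      · rw [if_neg hw]
        exact ⟨fun h => absurd h (Set.notMem_empty z), fun h => absurd h hw⟩
    · refine ⟨.none, fun t ω => ?_, fun _ _ h => by cases h⟩
      show z ∈ (if w0 ω then Icc 0 1 else ∅ : Set ℝ) ↔ False
      by_cases hw : w0 ω
      · rw [if_pos hw]
        exact ⟨hz, False.elim⟩
      · rw [if_neg hw]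
        exact ⟨Set.notMem_empty z, False.elim⟩
  · subst h
    by_cases hz : z ∈ Icc (0:ℝ) 1
    · refine ⟨.nw, fun t ω => ?_, fun _ _ h => by cases h⟩
      show z ∈ (if w0 ω then ∅ else Icc 0 1 : Set ℝ) ↔ ¬ w0 ω
      by_cases hw : w0 ω
      · rw [if_pos hw]
        exact ⟨fun h => absurd h (Set.notMem_empty z), fun h => absurd hw h⟩
      · rw [if_neg hw]
        exact ⟨fun _ => hw, fun _ => hz⟩
    · refine ⟨.none, fun t ω => ?_, fun _ _ h => by cases h⟩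
      show z ∈ (if w0 ω then ∅ else Icc 0 1 : Set ℝ) ↔ False
      by_cases hw : w0 ω
      · rw [if_pos hw]
        exact ⟨Set.notMem_empty z, False.elim⟩
      · rw [if_neg hw]
        exact ⟨hz, False.elim⟩
  · subst h
    obtain ⟨K, h1, h2⟩ := hJ
    exact ⟨K, h1, fun Q r h => Or.inl ⟨Or.inl rfl, h2 Q r h⟩⟩
  · subst h
    obtain ⟨K, h1, h2⟩ := hJ
    exact ⟨K, h1, fun Q r h => Or.inl ⟨Or.inr rfl, h2 Q r h⟩⟩
  · subst h
    obtain ⟨K, h1, h2⟩ := hC 0
    exact ⟨K, h1, fun Q r h => Or.inr (Or.inl ⟨rfl, h2 Q r h⟩)⟩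
  · subst h
    obtain ⟨K, h1, h2⟩ := hC 1
    exact ⟨K, h1, fun Q r h => Or.inr (Or.inr ⟨rfl, h2 Q r h⟩)⟩
  · subst h
    obtain ⟨K, h1, h2⟩ := hI
    exact ⟨K, h1, fun Q r h => absurd h (h2 Q r)⟩

end NB97_DES3

section NB97_DES4

/-- membership for the points of the cells -/
theorem mem_JF_of_O (G : Geo j nx) (t : ℕ → Fin 2 → Bool) {κ r : ℕ} {z : ℝ} (hz : z ∈ G.O κ r)
    (ω : DΩ) : z ∈ JF G t ω ↔ Ev t (qs κ) r ω := by
  have h0 : z ≠ 0 := (G.O_sub κ r hz).1.ne'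
  have hW : ∀ i, z ∉ G.W i := fun i h => Set.disjoint_left.1 (G.WO_disj i κ r) h hz
  have hO : ∀ p : ℕ × ℕ, z ∈ G.O p.1 p.2 → p = (κ, r) := by
    intro p hp
    by_contra h
    exact Set.disjoint_left.1 (G.O_disj p (κ, r) h) hp hz
  unfold JF
  constructor
  · rintro ((h | h) | h)
    · exact absurd h h0
    · by_cases hw : w0 ω
      · rw [if_pos hw] at h
        exact absurd h (Set.notMem_empty z)
      · rw [if_neg hw] at h
        obtain ⟨i, hi⟩ := Set.mem_iUnion.1 h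
        exact absurd hi (hW i)
    · obtain ⟨p, hp, hzp⟩ := Set.mem_iUnion₂.1 h
      have h1 := hO p hzp
      rw [h1] at hp
      exact hp
  · intro h
    exact Or.inr (Set.mem_iUnion₂.2 ⟨(κ, r), h, hz⟩)

theorem mem_JF_of_W (G : Geo j nx) (t : ℕ → Fin 2 → Bool) {i : ℕ} {z : ℝ} (hz : z ∈ G.W i)
    (ω : DΩ) : z ∈ JF G t ω ↔ ¬ w0 ω := by
  have h0 : z ≠ 0 := (G.W_sub i hz).1.ne'
  unfold JF
  constructor
  · rintro ((h | h) | h)
    · exact absurd h h0
    · intro hw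
      rw [if_pos hw] at h
      exact absurd h (Set.notMem_empty z)
    · obtain ⟨p, _, hzp⟩ := Set.mem_iUnion₂.1 h
      exact absurd hzp fun h => Set.disjoint_left.1 (G.WO_disj i p.1 p.2) hz h
  · intro hw
    refine Or.inl (Or.inr ?_)
    rw [if_neg hw]
    exact Set.mem_iUnion.2 ⟨i, hz⟩

theorem mem_JF_of_not (G : Geo j nx) (t : ℕ → Fin 2 → Bool) {z : ℝ} (h0 : z ≠ 0)
    (hW : ∀ i, z ∉ G.W i) (hO : ∀ κ r, z ∉ G.O κ r) (ω : DΩ) : z ∉ JF G t ω := by
  unfold JF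
  rintro ((h | h) | h)
  · exact h0 h
  · by_cases hw : w0 ω
    · rw [if_pos hw] at h
      exact absurd h (Set.notMem_empty z)
    · rw [if_neg hw] at h
      obtain ⟨i, hi⟩ := Set.mem_iUnion.1 h
      exact hW i hi
  · obtain ⟨p, _, hzp⟩ := Set.mem_iUnion₂.1 h
    exact hO p.1 p.2 hzp

theorem mem_CF_of_C (G : Geo j nx) (t : ℕ → Fin 2 → Bool) {σ : ℕ × Fin 2} {z : ℝ}
    (hz : z ∈ G.C σ) (r : ℕ) (ω : DΩ) : z ∈ CF G t r ω ↔ Ev t (lk nx σ) r ω := by
  have h0 : z ≠ 0 := (G.C_sub σ hz).1.ne'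
  have hC : ∀ σ', z ∈ G.C σ' → σ' = σ := by
    intro σ' h'
    by_contra h
    exact Set.disjoint_left.1 (G.C_disj σ' σ h) h' hz
  unfold CF
  constructor
  · rintro (h | h)
    · exact absurd h h0
    · obtain ⟨σ', hσ', hzσ⟩ := Set.mem_iUnion₂.1 h
      rw [hC σ' hzσ] at hσ'
      exact hσ'
  · intro h
    exact Or.inr (Set.mem_iUnion₂.2 ⟨σ, h, hz⟩)

theorem mem_CF_of_not (G : Geo j nx) (t : ℕ → Fin 2 → Bool) {z : ℝ} (h0 : z ≠ 0)
    (hC : ∀ σ, z ∉ G.C σ) (r : ℕ) (ω : DΩ) : z ∉ CF G t r ω := by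
  unfold CF
  rintro (h | h)
  · exact h0 h
  · obtain ⟨σ, _, hzσ⟩ := Set.mem_iUnion₂.1 h
    exact hC σ hzσ

end NB97_DES4





end Pool.Agent.LibNB97
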