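import Pool.Agent.LibNB97.Basic
import Pool.Agent.LibNB97.Design
import Pool.Agent.LibNB97.Md

/-! # The design is a system of clocks -/

open MeasureTheory Set Filter Topology
open scoped ENNReal

namespace Pool.Agent.LibNB97

variable {j : ℕ → ℕ} {nx : ℕ → Fin 2 → ℕ}

section NB97_DCL1

lemma dcl1_crt (Q : Finset ℕ) (c : ℕ → ℤ) :
    ∃ p : ℤ, ∀ k : ℤ, ((∀ q ∈ Q, (u q : ℤ) ∣ k - c q) ↔ (md Q : ℤ) ∣ k - p) := by
  classical
  induction Q using Finset.induction_on with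
  | empty => exact ⟨0, fun k => by simp [md]⟩
  | insert q0 Q' hq ih =>
    obtain ⟨p', hp'⟩ := ih
    have hcop : IsCoprime (u q0 : ℤ) (md Q' : ℤ) := by
      apply Nat.isCoprime_iff_coprime.2
      unfold md
      exact Nat.Coprime.prod_right fun i hi => coprime_u fun h => hq (h ▸ hi)
    have hmd : (md (insert q0 Q') : ℤ) = (u q0 : ℤ) * (md Q' : ℤ) := by
      unfold md
      rw [Finset.prod_insert hq]
      push_cast
      ring
    obtain ⟨a, b, hab⟩ := id hcop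
    refine ⟨c q0 * b * md Q' + p' * a * u q0, fun k => ?_⟩
    have e1 : (u q0 : ℤ) ∣ (c q0 * b * md Q' + p' * a * u q0) - c q0 := by
      refine ⟨-c q0 * a + p' * a, ?_⟩
      linear_combination (c q0) * hab
    have e2 : (md Q' : ℤ) ∣ (c q0 * b * md Q' + p' * a * u q0) - p' := by
      refine ⟨c q0 * b - p' * b, ?_⟩
      linear_combination p' * hab
    rw [hmd]
    constructor
    · intro h
      have h1 : (u q0 : ℤ) ∣ k - (c q0 * b * md Q' + p' * a * u q0) := by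
        have h2 := h q0 (Finset.mem_insert_self _ _)
        have h3 := dvd_sub h2 e1
        have h4 : k - c q0 - ((c q0 * b * md Q' + p' * a * u q0) - c q0) =
          k - (c q0 * b * md Q' + p' * a * u q0) := by ring
        rwa [h4] at h3
      have h2 : (md Q' : ℤ) ∣ k - (c q0 * b * md Q' + p' * a * u q0) := by
        have h2 := (hp' k).1 fun q hq => h q (Finset.mem_insert_of_mem hq)
        have h3 := dvd_sub h2 e2
        have h4 : k - p' - ((c q0 * b * md Q' + p' * a * u q0) - p') =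
          k - (c q0 * b * md Q' + p' * a * u q0) := by ring
        rwa [h4] at h3
      exact hcop.mul_dvd h1 h2
    · intro h q hq
      rcases Finset.mem_insert.1 hq with h1 | h1
      · subst h1
        have h2 := (dvd_mul_right _ _).trans h
        have h3 := dvd_add h2 e1
        have h4 : k - (c q * b * md Q' + p' * a * u q) +
          ((c q * b * md Q' + p' * a * u q) - c q) = k - c q := by ring
        rwa [h4] at h3
      · refine (hp' k).2 ?_ q h1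
        have h2 := (dvd_mul_left (md Q' : ℤ) (u q0 : ℤ)).trans h
        have h3 := dvd_add h2 e2
        have h4 : k - (c q0 * b * md Q' + p' * a * u q0) +
          ((c q0 * b * md Q' + p' * a * u q0) - p') = k - p' := by ring
        rwa [h4] at h3

/-- task DCL1: an active cell is a clock (Chinese remainder theorem) -/
theorem Ev_clock (t : ℕ → Fin 2 → Bool) (Q : Finset ℕ) (r : ℕ) (ω : DΩ) :
    ∃ p : ℤ, ∀ k : ℤ, (Ev t Q r (DT k ω) ↔ (md Q : ℤ) ∣ k - p) := by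
  obtain ⟨p, hp⟩ := dcl1_crt Q (fun q => -((ω.2 q).val : ℤ) - r * et t q ω.1)
  refine ⟨p, fun k => ?_⟩
  rw [← hp k]
  refine forall₂_congr fun q _ => ?_
  rw [← ZMod.intCast_zmod_eq_zero_iff_dvd]
  have h1 : ((k - (-((ω.2 q).val : ℤ) - r * et t q ω.1) : ℤ) : ZMod (u q)) =
      (DT k ω).2 q + ((r * et t q (DT k ω).1 : ℤ) : ZMod (u q)) := by
    have h2 : (((ω.2 q).val : ℕ) : ZMod (u q)) = ω.2 q := ZMod.natCast_zmod_val _
    show _ = (ω.2 q + (k : ZMod (u q))) + ((r * et t q ω.1 : ℤ) : ZMod (u q))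
    push_cast
    rw [h2]
    ring
  rw [h1]

/-- task DCL3: the law of the hidden state -/
theorem D_w0 : Dμ.real {ω : DΩ | w0 ω} = 1 / 4 := by
  have h1 : {ω : DΩ | w0 ω} = ({fun _ => false} : Set (Fin 2 → Bool)) ×ˢ Set.univ := by
    ext ω
    simp only [Set.mem_prod, Set.mem_singleton_iff, Set.mem_univ, and_true]
    exact ⟨fun h => funext h, fun h i => by rw [h]⟩
  unfold Measure.real Dμ
  rw [h1, Measure.prod_prod, measure_univ, mul_one]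
  unfold unifW
  rw [PMF.toMeasure_apply_singleton _ _ (measurableSet_singleton _), PMF.uniformOfFintype_apply]
  simp

theorem measurableSet_w0 : MeasurableSet {ω : DΩ | w0 ω} := by
  have h1 : MeasurableSet {w : Fin 2 → Bool | ∀ i, w i = false} :=
    (Set.toFinite _).measurableSet
  exact h1.preimage measurable_fst

end NB97_DCL1

theorem Dclk_O (G : Geo j nx) (t : ℕ → Fin 2 → Bool) {κ r : ℕ} {z : ℝ} (hz : z ∈ G.O κ r) :
    (Dsys G t).IsClock 3 z (md (qs κ)) ∧ (Dsys G t).IsClock 4 z (md (qs κ)) := by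
  have key : ∀ ω : DΩ, ∃ p : ℤ, ∀ k : ℤ, (z ∈ JF G t (DT k ω) ↔ (md (qs κ) : ℤ) ∣ k - p) := by
    intro ω
    obtain ⟨p, hp⟩ := Ev_clock t (qs κ) r ω
    exact ⟨p, fun k => (mem_JF_of_O G t hz _).trans (hp k)⟩
  constructor
  · refine Eventually.of_forall fun ω => ?_
    obtain ⟨p, hp⟩ := key ω
    exact ⟨p, fun k => by rw [reg_Dsys]; exact hp k⟩
  · refine Eventually.of_forall fun ω => ?_
    obtain ⟨p, hp⟩ := key ω
    exact ⟨p, fun k => by rw [reg_Dsys]; exact hp k⟩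

theorem Dclk_C (G : Geo j nx) (t : ℕ → Fin 2 → Bool) {σ : ℕ × Fin 2} {z : ℝ} (hz : z ∈ G.C σ) :
    (Dsys G t).IsClock 5 z (md (lk nx σ)) ∧ (Dsys G t).IsClock 6 z (md (lk nx σ)) := by
  have key : ∀ (r : ℕ) (ω : DΩ), ∃ p : ℤ, ∀ k : ℤ,
      (z ∈ CF G t r (DT k ω) ↔ (md (lk nx σ) : ℤ) ∣ k - p) := by
    intro r ω
    obtain ⟨p, hp⟩ := Ev_clock t (lk nx σ) r ω
    exact ⟨p, fun k => (mem_CF_of_C G t hz _ _).trans (hp k)⟩
  constructor
  · refine Eventually.of_forall fun ω => ?_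
    obtain ⟨p, hp⟩ := key 0 ω
    exact ⟨p, fun k => by rw [reg_Dsys]; exact hp k⟩
  · refine Eventually.of_forall fun ω => ?_
    obtain ⟨p, hp⟩ := key 1 ω
    exact ⟨p, fun k => by rw [reg_Dsys]; exact hp k⟩

section NB97_DCL2

lemma dcl2_gad_qB (σ : ℕ × Fin 2) : gad (qB σ) = σ.1 := by
  have := σ.2.isLt
  unfold gad qB
  omega

lemma dcl2_col_qB (σ : ℕ × Fin 2) : col (qB σ) = σ.2 := by
  have := σ.2.isLt
  apply Fin.ext
  unfold col qB
  simp only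
  omega

lemma dcl2_gad_qA (σ : ℕ × Fin 2) : gad (qA nx σ) = nx σ.1 σ.2 := by
  have := σ.2.isLt
  unfold gad qA
  omega

lemma dcl2_col_qA (σ : ℕ × Fin 2) : col (qA nx σ) = σ.2 := by
  have := σ.2.isLt
  apply Fin.ext
  unfold col qA
  simp only
  omega

lemma dcl2_qB_mem (σ : ℕ × Fin 2) : qB σ ∈ qs σ.1 := by
  have := σ.2.isLt
  unfold qB qs
  simp only [Finset.mem_insert, Finset.mem_singleton]
  omega

lemma dcl2_qA_mem (σ : ℕ × Fin 2) : qA nx σ ∈ qs (nx σ.1 σ.2) := by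
  have := σ.2.isLt
  unfold qA qs
  simp only [Finset.mem_insert, Finset.mem_singleton]
  omega

lemma dcl2_gad_qs {κ q : ℕ} (h : q ∈ qs κ) : gad q = κ := by
  unfold qs at h
  simp only [Finset.mem_insert, Finset.mem_singleton] at h
  unfold gad
  omega

lemma dcl2_dvd {t : ℕ → Fin 2 → Bool} {q r r' : ℕ} {ω : DΩ} {k : ℤ}
    (h1 : ω.2 q + ((r * et t q ω.1 : ℤ) : ZMod (u q)) = 0)
    (h2 : (DT k ω).2 q + ((r' * et t q (DT k ω).1 : ℤ) : ZMod (u q)) = 0) :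
    (u q : ℤ) ∣ k + ((r' : ℤ) - r) * et t q ω.1 := by
  rw [← ZMod.intCast_zmod_eq_zero_iff_dvd]
  have h3 : (DT k ω).2 q + ((r' * et t q (DT k ω).1 : ℤ) : ZMod (u q)) -
      (ω.2 q + ((r * et t q ω.1 : ℤ) : ZMod (u q))) = 0 := by rw [h1, h2, sub_zero]
  rw [← h3]
  show _ = (ω.2 q + (k : ZMod (u q))) + ((r' * et t q ω.1 : ℤ) : ZMod (u q)) -
      (ω.2 q + ((r * et t q ω.1 : ℤ) : ZMod (u q)))
  push_cast
  ring

lemma dcl2_zero (G : Geo j nx) (t : ℕ → Fin 2 → Bool) (a b : Fin 8) (k : ℤ) (z y : ℝ)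
    (h : ∀ ω : DΩ, z ∈ FF G t a ω → y ∈ FF G t b (DT k ω) → False) :
    (Dsys G t).R a b k z y = 0 := by
  unfold Sys.R
  have h1 : {ω | z ∈ (Dsys G t).reg a ω ∧ y ∈ (Dsys G t).reg b ((Dsys G t).T k ω)} = ∅ := by
    refine Set.eq_empty_iff_forall_notMem.2 fun ω hω => ?_
    obtain ⟨h2, h3⟩ := hω
    rw [reg_Dsys] at h2 h3
    exact h ω h2 h3
  rw [h1, measureReal_empty]

/-- task DCL2: the vanishing pair probabilities of the design -/
theorem D_zero_O (G : Geo j nx) (t : ℕ → Fin 2 → Bool) {κ r r' : ℕ} {z y : ℝ} (hz : z ∈ G.O κ r)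
    (hy : y ∈ G.O κ r') (k : ℤ)
    (h : ¬ ∃ η : Fin 2 → Bool, ∀ q ∈ qs κ, (u q : ℤ) ∣ k + ((r' : ℤ) - r) * b2i (η (col q))) :
    (Dsys G t).R 3 4 k z y = 0 := by
  refine dcl2_zero G t 3 4 k z y fun ω h1 h2 => h ?_
  have h3 : Ev t (qs κ) r ω := (mem_JF_of_O G t hz ω).1 h1
  have h4 : Ev t (qs κ) r' (DT k ω) := (mem_JF_of_O G t hy _).1 h2
  refine ⟨fun i => xor (t κ i) (ω.1 i), fun q hq => ?_⟩
  have h5 := dcl2_dvd (h3 q hq) (h4 q hq)
  unfold et at h5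
  rw [dcl2_gad_qs hq] at h5
  exact h5

theorem D_zero_C0 (G : Geo j nx) (t : ℕ → Fin 2 → Bool) (σ : ℕ × Fin 2) (κ q : ℕ)
    (hq : (κ = σ.1 ∧ q = qB σ) ∨ (κ = nx σ.1 σ.2 ∧ q = qA nx σ)) {z y : ℝ} (hz : z ∈ G.O κ 0)
    (hy : y ∈ G.C σ) (k : ℤ) (h : ¬ (u q : ℤ) ∣ k) : (Dsys G t).R 3 5 k z y = 0 := by
  refine dcl2_zero G t 3 5 k z y fun ω h1 h2 => h ?_
  have h3 : Ev t (qs κ) 0 ω := (mem_JF_of_O G t hz ω).1 h1
  have h4 : Ev t (lk nx σ) 0 (DT k ω) := (mem_CF_of_C G t hy 0 _).1 h2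
  have hm : q ∈ qs κ ∧ q ∈ lk nx σ := by
    rcases hq with ⟨h5, h6⟩ | ⟨h5, h6⟩
    · subst h5; subst h6
      exact ⟨dcl2_qB_mem σ, by simp [lk]⟩
    · subst h5; subst h6
      exact ⟨dcl2_qA_mem σ, by simp [lk]⟩
  have h5 := dcl2_dvd (h3 q hm.1) (h4 q hm.2)
  simpa using h5

theorem D_zero_C1 (G : Geo j nx) (t : ℕ → Fin 2 → Bool) (σ : ℕ × Fin 2) (κ q : ℕ)
    (hq : (κ = σ.1 ∧ q = qB σ) ∨ (κ = nx σ.1 σ.2 ∧ q = qA nx σ)) {z y : ℝ} (hz : z ∈ G.O κ 1)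
    (hy : y ∈ G.C σ) (k : ℤ) (h : ¬ (u q : ℤ) ∣ k) : (Dsys G t).R 3 6 k z y = 0 := by
  refine dcl2_zero G t 3 6 k z y fun ω h1 h2 => h ?_
  have h3 : Ev t (qs κ) 1 ω := (mem_JF_of_O G t hz ω).1 h1
  have h4 : Ev t (lk nx σ) 1 (DT k ω) := (mem_CF_of_C G t hy 1 _).1 h2
  have hm : q ∈ qs κ ∧ q ∈ lk nx σ := by
    rcases hq with ⟨h5, h6⟩ | ⟨h5, h6⟩
    · subst h5; subst h6
      exact ⟨dcl2_qB_mem σ, by simp [lk]⟩
    · subst h5; subst h6
      exact ⟨dcl2_qA_mem σ, by simp [lk]⟩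
  have h5 := dcl2_dvd (h3 q hm.1) (h4 q hm.2)
  simpa using h5

theorem D_zero_CC (G : Geo j nx) (s t : ℕ → Fin 2 → Bool) (ht : Links nx s t) (σ : ℕ × Fin 2)
    {z y : ℝ} (hz : z ∈ G.C σ) (hy : y ∈ G.C σ) (k : ℤ)
    (h : ¬ ∃ η : Bool, (u (qB σ) : ℤ) ∣ k + b2i η ∧
      (u (qA nx σ) : ℤ) ∣ k + b2i (xor η (s σ.1 σ.2))) : (Dsys G t).R 5 6 k z y = 0 := by
  refine dcl2_zero G t 5 6 k z y fun ω h1 h2 => h ?_
  have h3 : Ev t (lk nx σ) 0 ω := (mem_CF_of_C G t hz 0 ω).1 h1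
  have h4 : Ev t (lk nx σ) 1 (DT k ω) := (mem_CF_of_C G t hy 1 _).1 h2
  refine ⟨xor (t σ.1 σ.2) (ω.1 σ.2), ?_, ?_⟩
  · have hm : qB σ ∈ lk nx σ := by simp [lk]
    have h5 := dcl2_dvd (h3 _ hm) (h4 _ hm)
    unfold et at h5
    rw [dcl2_gad_qB, dcl2_col_qB] at h5
    simpa using h5
  · have hm : qA nx σ ∈ lk nx σ := by simp [lk]
    have h5 := dcl2_dvd (h3 _ hm) (h4 _ hm)
    unfold et at h5
    rw [dcl2_gad_qA, dcl2_col_qA, ht σ.1 σ.2] at h5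
    have h6 : xor (xor (t σ.1 σ.2) (ω.1 σ.2)) (s σ.1 σ.2) =
        xor (xor (t σ.1 σ.2) (s σ.1 σ.2)) (ω.1 σ.2) := by
      cases t σ.1 σ.2 <;> cases ω.1 σ.2 <;> cases s σ.1 σ.2 <;> rfl
    rw [h6]
    simpa using h5

end NB97_DCL2






end Pool.Agent.LibNB97
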