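import Pool.Agent.LibNB97.Basic
import Pool.Agent.LibRCS.Avg

/-! # Suspension: a system with closed contents gives a stationary random closed set -/

open MeasureTheory Set Filter Topology
open scoped ENNReal

namespace Pool.Agent.LibNB97

open Pool.Agent.LibRCS

namespace Sys

variable (S : Sys)

/-- probability that `X + θ` comes within distance `r` of a point -/
noncomputable def hitp (r : ℝ) : ℝ :=
  (S.μ.prod volume).real {p | p.2 ∈ Ico (0:ℝ) 884 ∧ ∃ x ∈ S.X p.1, |x - p.2| ≤ r} / 884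

section NB97_SUS1

/-- task SUS1 -/
theorem isClosed_X {ω : S.Ω} (h : ∀ k, IsClosed (S.K (S.T k ω))) : IsClosed (S.X ω) := by
  have h1 : S.X ω = ⋃ k : ℤ, {y : ℝ | y - 884 * k ∈ S.K (S.T k ω)} := by
    ext y
    simp [X]
  rw [h1]
  apply LocallyFinite.isClosed_iUnion
  · intro y
    refine ⟨Ioo (y - 1) (y + 1), Ioo_mem_nhds (by linarith) (by linarith), ?_⟩
    apply (Set.finite_Icc ⌊(y - 222) / 884⌋ ⌈(y + 1) / 884⌉).subset
    rintro k ⟨z, hz, hzy⟩
    have h2 := S.K_sub _ hz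
    rw [mem_Icc] at h2 ⊢
    rw [mem_Ioo] at hzy
    constructor
    · rw [← Int.cast_le (R := ℝ)]
      refine (Int.floor_le _).trans ?_
      rw [div_le_iff₀ (by norm_num)]
      linarith [h2.2, hzy.1]
    · rw [← Int.cast_le (R := ℝ)]
      refine le_trans ?_ (Int.le_ceil _)
      rw [le_div_iff₀ (by norm_num)]
      linarith [h2.1, hzy.2]
  · intro k
    exact (h k).preimage (by fun_prop)

theorem meas_near (r : ℝ) (h : MeasurableSet {p : S.Ω × ℝ | ∃ x ∈ S.K p.1, |x - p.2| ≤ r}) :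
    MeasurableSet {p : S.Ω × ℝ | ∃ x ∈ S.X p.1, |x - p.2| ≤ r} := by
  have h1 : {p : S.Ω × ℝ | ∃ x ∈ S.X p.1, |x - p.2| ≤ r} =
      ⋃ k : ℤ, (fun p : S.Ω × ℝ => (S.T k p.1, p.2 - 884 * k)) ⁻¹'
        {p : S.Ω × ℝ | ∃ x ∈ S.K p.1, |x - p.2| ≤ r} := by
    ext p
    simp only [mem_iUnion, mem_preimage, mem_ofPred_eq]
    constructor
    · rintro ⟨x, ⟨k, hk⟩, hx⟩
      refine ⟨k, x - 884 * k, hk, ?_⟩
      have e : x - 884 * (k : ℝ) - (p.2 - 884 * k) = x - p.2 := by ring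
      rw [e]
      exact hx
    · rintro ⟨k, x, hx, hxp⟩
      refine ⟨x + 884 * k, ⟨k, ?_⟩, ?_⟩
      · have e : x + 884 * (k : ℝ) - 884 * k = x := by ring
        rw [e]
        exact hx
      · have e : x + 884 * (k : ℝ) - p.2 = x - (p.2 - 884 * k) := by ring
        rw [e]
        exact hxp
  rw [h1]
  refine MeasurableSet.iUnion fun k => ?_
  exact ((((S.T_meas k).comp measurable_fst).prodMk
    (measurable_snd.sub_const _))) h

end NB97_SUS1


section NB97_SUS2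

theorem sus2_section {A : Set (S.Ω × ℝ)} (hA : MeasurableSet A)
    (hT : ∀ (k : ℤ) ω y, (S.T k ω, y) ∈ A ↔ (ω, y + 884 * k) ∈ A) (k : ℤ) (y : ℝ) :
    S.μ {ω | (ω, y + 884 * k) ∈ A} = S.μ {ω | (ω, y) ∈ A} := by
  have h1 : {ω | (ω, y + 884 * k) ∈ A} = S.T k ⁻¹' {ω | (ω, y) ∈ A} := by
    ext ω
    exact (hT k ω y).symm
  rw [h1]
  exact (S.T_mp k).measure_preimage (measurable_prodMk_right hA).nullMeasurableSet

theorem sus2_lintegral {A : Set (S.Ω × ℝ)} (hA : MeasurableSet A) (c : ℝ) :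
    (S.μ.prod volume) (A ∩ {p | p.2 ∈ Ico c (c + 884)}) =
      ∫⁻ y in Ioc c (c + 884), S.μ {ω | (ω, y) ∈ A} := by
  have h2 : MeasurableSet {p : S.Ω × ℝ | p.2 ∈ Ico c (c + 884)} :=
    measurable_snd measurableSet_Ico
  rw [Measure.prod_apply_symm (hA.inter h2), ← setLIntegral_congr Ico_ae_eq_Ioc,
    ← lintegral_indicator measurableSet_Ico]
  apply lintegral_congr
  intro y
  by_cases hy : y ∈ Ico c (c + 884)
  · rw [indicator_of_mem hy]
    congr 1
    ext ω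
    simp only [mem_preimage, mem_inter_iff, mem_ofPred_eq, hy, and_true]
  · rw [indicator_of_notMem hy]
    have h3 : (fun x => (x, y)) ⁻¹' (A ∩ {p : S.Ω × ℝ | p.2 ∈ Ico c (c + 884)}) = ∅ := by
      ext ω
      simp only [mem_preimage, mem_inter_iff, mem_ofPred_eq, hy, and_false, mem_empty_iff_false]
    rw [h3, measure_empty]

/-- task SUS2: a `T`-invariant set has the same mass over every period -/
theorem period_invariant {A : Set (S.Ω × ℝ)} (hA : MeasurableSet A)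
    (hT : ∀ (k : ℤ) ω y, (S.T k ω, y) ∈ A ↔ (ω, y + 884 * k) ∈ A) (c : ℝ) :
    (S.μ.prod volume) (A ∩ {p | p.2 ∈ Ico c (c + 884)}) =
      (S.μ.prod volume) (A ∩ {p | p.2 ∈ Ico (0:ℝ) 884}) := by
  have h3 := S.sus2_lintegral hA c
  have h4 := S.sus2_lintegral hA 0
  rw [zero_add] at h4
  rw [h3, h4]
  have h0 : (0 : ℝ) < 884 := by norm_num
  have h5 := (isAddFundamentalDomain_Ioc h0 c).setLIntegral_eq (isAddFundamentalDomain_Ioc h0 0)
    (fun y => S.μ {ω | (ω, y) ∈ A}) (by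
      rintro ⟨g, hg⟩ y
      obtain ⟨k, rfl⟩ := hg
      have h6 := S.sus2_section hA hT k y
      change S.μ {ω | (ω, (k • (884 : ℝ)) + y) ∈ A} = S.μ {ω | (ω, y) ∈ A}
      rw [← h6]
      congr 1
      ext ω
      rw [zsmul_eq_mul, mul_comm, add_comm])
  rw [zero_add] at h5
  exact h5

end NB97_SUS2

section NB97_SUS3

theorem sus3_fin : (S.μ.prod (volume : Measure ℝ)) {p | p.2 ∈ Ico (0:ℝ) 884} ≠ ∞ := by
  have h : {p : S.Ω × ℝ | p.2 ∈ Ico (0:ℝ) 884} = univ ×ˢ Ico (0:ℝ) 884 := by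
    ext p
    simp
  rw [h, Measure.prod_prod]
  simp

/-- task SUS3 -/
theorem hitp_tendsto (hcl : ∀ᵐ ω ∂S.μ, IsClosed (S.K ω))
    (hm : ∀ r > 0, MeasurableSet {p : S.Ω × ℝ | ∃ x ∈ S.K p.1, |x - p.2| ≤ r}) :
    Tendsto (fun r => S.hitp r - S.cov 0) (𝓝[>] 0) (𝓝 0) := by
  set s : ℝ → Set (S.Ω × ℝ) := fun r => {p | p.2 ∈ Ico (0:ℝ) 884 ∧ ∃ x ∈ S.X p.1, |x - p.2| ≤ r}
    with hs
  have hmI : MeasurableSet {p : S.Ω × ℝ | p.2 ∈ Ico (0:ℝ) 884} :=
    measurable_snd measurableSet_Ico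
  have h1 : ∀ r > 0, NullMeasurableSet (s r) (S.μ.prod volume) := fun r hr =>
    (hmI.inter (S.meas_near r (hm r hr))).nullMeasurableSet
  have h2 : ∀ i j : ℝ, 0 < i → i ≤ j → s i ⊆ s j := by
    rintro i j _ hij p ⟨hp, x, hx, hxp⟩
    exact ⟨hp, x, hx, hxp.trans hij⟩
  have h3 : ∀ r, (S.μ.prod volume) (s r) ≠ ∞ := fun r =>
    ne_top_of_le_ne_top S.sus3_fin (measure_mono fun p hp => hp.1)
  have h4 := tendsto_measure_biInter_gt (μ := S.μ.prod volume) (a := (0:ℝ)) h1 h2 ⟨1, one_pos, h3 1⟩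
  -- the limit set
  have h5 : ∀ᵐ ω ∂S.μ, ∀ k : ℤ, IsClosed (S.K (S.T k ω)) :=
    ae_all_iff.mpr fun k => (S.T_mp k).quasiMeasurePreserving.ae hcl
  have h6 : ∀ᵐ p ∂(S.μ.prod (volume : Measure ℝ)), ∀ k : ℤ, IsClosed (S.K (S.T k p.1)) :=
    Measure.quasiMeasurePreserving_fst.ae h5
  have h7 : (⋂ r > (0:ℝ), s r) =ᵐ[S.μ.prod volume]
      {p | p.2 ∈ Ico (0:ℝ) 884 ∧ p.2 ∈ S.X p.1 ∧ p.2 + 0 ∈ S.X p.1} := by
    filter_upwards [h6] with p hp
    have h8 : IsClosed (S.X p.1) := S.isClosed_X hp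
    apply propext
    constructor
    · intro h
      have h9 : ∀ r > (0:ℝ), p ∈ s r := by
        intro r hr
        exact mem_iInter₂.mp h r hr
      have h10 : p.2 ∈ S.X p.1 := by
        rw [← h8.closure_eq, Metric.mem_closure_iff]
        intro ε hε
        obtain ⟨_, x, hx, hxp⟩ := h9 (ε / 2) (by positivity)
        refine ⟨x, hx, ?_⟩
        rw [dist_comm, Real.dist_eq]
        linarith
      exact ⟨(h9 1 one_pos).1, h10, by rwa [add_zero]⟩
    · rintro ⟨h, h9, -⟩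
      refine mem_iInter₂.mpr fun r hr => ⟨h, p.2, h9, ?_⟩
      rw [sub_self, abs_zero]
      exact le_of_lt hr
  rw [measure_congr h7] at h4
  have h11 : (S.μ.prod volume) {p : S.Ω × ℝ | p.2 ∈ Ico (0:ℝ) 884 ∧ p.2 ∈ S.X p.1 ∧
      p.2 + 0 ∈ S.X p.1} ≠ ∞ :=
    ne_top_of_le_ne_top S.sus3_fin (measure_mono fun p hp => hp.1)
  have h12 := ((ENNReal.tendsto_toReal h11).comp h4).div_const 884
  have h13 := h12.sub_const (S.cov 0)
  have h14 : ((S.μ.prod volume) {p : S.Ω × ℝ | p.2 ∈ Ico (0:ℝ) 884 ∧ p.2 ∈ S.X p.1 ∧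
      p.2 + 0 ∈ S.X p.1}).toReal / 884 - S.cov 0 = 0 := sub_self _
  rw [h14] at h13
  exact h13

end NB97_SUS3

section NB97_SUS4

theorem sus4_shift {A : Set (S.Ω × ℝ)} (hA : MeasurableSet A)
    (hT : ∀ (k : ℤ) ω y, (S.T k ω, y) ∈ A ↔ (ω, y + 884 * k) ∈ A) (v : ℝ) :
    (S.μ.prod volume).real {p | p.2 ∈ Ico (0:ℝ) 884 ∧ (p.1, p.2 + v) ∈ A} =
      (S.μ.prod volume).real {p | p.2 ∈ Ico (0:ℝ) 884 ∧ p ∈ A} := by
  have hmI : ∀ c : ℝ, MeasurableSet {p : S.Ω × ℝ | p.2 ∈ Ico c (c + 884)} := fun c =>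
    measurable_snd measurableSet_Ico
  have h1 : MeasurePreserving (fun p : S.Ω × ℝ => (p.1, p.2 + v))
      (S.μ.prod (volume : Measure ℝ)) (S.μ.prod volume) :=
    (MeasurePreserving.id S.μ).prod (measurePreserving_add_right volume v)
  have h2 : {p : S.Ω × ℝ | p.2 ∈ Ico (0:ℝ) 884 ∧ (p.1, p.2 + v) ∈ A} =
      (fun p : S.Ω × ℝ => (p.1, p.2 + v)) ⁻¹' (A ∩ {p | p.2 ∈ Ico v (v + 884)}) := by
    ext p
    simp only [mem_preimage, mem_inter_iff, mem_ofPred_eq, mem_Ico]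
    constructor
    · rintro ⟨⟨h3, h4⟩, h5⟩
      exact ⟨h5, by linarith, by linarith⟩
    · rintro ⟨h5, h3, h4⟩
      exact ⟨⟨by linarith, by linarith⟩, h5⟩
  have h3 : {p : S.Ω × ℝ | p.2 ∈ Ico (0:ℝ) 884 ∧ p ∈ A} =
      A ∩ {p | p.2 ∈ Ico (0:ℝ) 884} := by
    ext p
    exact and_comm
  rw [measureReal_def, measureReal_def, h2, h3,
    h1.measure_preimage (hA.inter (hmI v)).nullMeasurableSet, S.period_invariant hA hT v]

/-- the base measure -/
noncomputable def sus4ρ : Measure (S.Ω × ℝ) :=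
  (S.μ.prod volume).restrict {p | p.2 ∈ Ico (0:ℝ) 884}

theorem sus4_univ : S.sus4ρ univ = 884 := by
  have h : {p : S.Ω × ℝ | p.2 ∈ Ico (0:ℝ) 884} = univ ×ˢ Ico (0:ℝ) 884 := by
    ext p
    simp
  rw [sus4ρ, Measure.restrict_apply_univ, h, Measure.prod_prod]
  simp

instance sus4_fin : IsFiniteMeasure S.sus4ρ := ⟨by rw [sus4_univ]; simp⟩

theorem sus4_real {A : Set (S.Ω × ℝ)} (hA : MeasurableSet A) :
    S.sus4ρ.real A = (S.μ.prod volume).real {p | p.2 ∈ Ico (0:ℝ) 884 ∧ p ∈ A} := by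
  rw [measureReal_def, measureReal_def, sus4ρ, Measure.restrict_apply hA]
  congr 2
  ext p
  exact and_comm

theorem sus4_pair (u v : ℝ) :
    S.sus4ρ.real {p | p.2 + u ∈ S.X p.1 ∧ p.2 + v ∈ S.X p.1} = 884 * S.cov (u - v) := by
  have hA : MeasurableSet {p : S.Ω × ℝ | p.2 ∈ S.X p.1 ∧ p.2 + (u - v) ∈ S.X p.1} :=
    (S.meas_X measurable_fst measurable_snd).inter
      (S.meas_X measurable_fst (measurable_snd.add_const _))
  have h1 := S.sus4_shift hA (fun k ω y => by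
    simp only [mem_ofPred_eq]
    rw [S.X_shift, S.X_shift]
    have e : y + (u - v) + 884 * (k : ℝ) = y + 884 * k + (u - v) := by ring
    rw [e]) v
  have hM : MeasurableSet {p : S.Ω × ℝ | p.2 + u ∈ S.X p.1 ∧ p.2 + v ∈ S.X p.1} :=
    (S.meas_X measurable_fst (measurable_snd.add_const _)).inter
      (S.meas_X measurable_fst (measurable_snd.add_const _))
  rw [sus4_real _ hM, cov]
  have h2 : {p : S.Ω × ℝ | p.2 ∈ Ico (0:ℝ) 884 ∧
      p ∈ {p : S.Ω × ℝ | p.2 + u ∈ S.X p.1 ∧ p.2 + v ∈ S.X p.1}} =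
      {p : S.Ω × ℝ | p.2 ∈ Ico (0:ℝ) 884 ∧ (p.1, p.2 + v) ∈
        {p : S.Ω × ℝ | p.2 ∈ S.X p.1 ∧ p.2 + (u - v) ∈ S.X p.1}} := by
    ext p
    simp only [mem_ofPred_eq]
    have e : p.2 + v + (u - v) = p.2 + u := by ring
    rw [e, and_comm (a := p.2 + u ∈ S.X p.1)]
  rw [h2, h1]
  have h3 : {p : S.Ω × ℝ | p.2 ∈ Ico (0:ℝ) 884 ∧
      p ∈ {p : S.Ω × ℝ | p.2 ∈ S.X p.1 ∧ p.2 + (u - v) ∈ S.X p.1}} =
      {p : S.Ω × ℝ | p.2 ∈ Ico (0:ℝ) 884 ∧ p.2 ∈ S.X p.1 ∧ p.2 + (u - v) ∈ S.X p.1} := rfl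
  rw [h3]
  ring

theorem sus4_hit (r : ℝ) (hr : MeasurableSet {p : S.Ω × ℝ | ∃ x ∈ S.X p.1, |x - p.2| ≤ r})
    (v : ℝ) {B : Set (S.Ω × ℝ)}
    (hB : B ⊆ {p | ∃ x ∈ S.X p.1, |x - (p.2 + v)| ≤ r}) :
    S.sus4ρ.real B ≤ 884 * S.hitp r := by
  have h1 := S.sus4_shift hr (fun k ω y => by
    simp only [mem_ofPred_eq]
    constructor
    · rintro ⟨x, hx, hxy⟩
      refine ⟨x + 884 * k, (S.X_shift k ω x).mp hx, ?_⟩
      have e : x + 884 * (k : ℝ) - (y + 884 * k) = x - y := by ring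
      rw [e]
      exact hxy
    · rintro ⟨x, hx, hxy⟩
      refine ⟨x - 884 * k, (S.X_shift k ω _).mpr (by rw [sub_add_cancel]; exact hx), ?_⟩
      have e : x - 884 * (k : ℝ) - y = x - (y + 884 * k) := by ring
      rw [e]
      exact hxy) v
  have hm : MeasurableSet {p : S.Ω × ℝ | ∃ x ∈ S.X p.1, |x - (p.2 + v)| ≤ r} :=
    (measurable_fst.prodMk (measurable_snd.add_const v)) hr
  refine (measureReal_mono hB (measure_ne_top _ _)).trans ?_
  rw [sus4_real _ hm, hitp]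
  have h2 : {p : S.Ω × ℝ | p.2 ∈ Ico (0:ℝ) 884 ∧
      p ∈ {p : S.Ω × ℝ | ∃ x ∈ S.X p.1, |x - (p.2 + v)| ≤ r}} =
      {p : S.Ω × ℝ | p.2 ∈ Ico (0:ℝ) 884 ∧ (p.1, p.2 + v) ∈
        {p : S.Ω × ℝ | ∃ x ∈ S.X p.1, |x - p.2| ≤ r}} := rfl
  rw [h2, h1]
  have h3 : {p : S.Ω × ℝ | p.2 ∈ Ico (0:ℝ) 884 ∧
      p ∈ {p : S.Ω × ℝ | ∃ x ∈ S.X p.1, |x - p.2| ≤ r}} =
      {p : S.Ω × ℝ | p.2 ∈ Ico (0:ℝ) 884 ∧ ∃ x ∈ S.X p.1, |x - p.2| ≤ r} := rfl
  rw [h3]
  apply le_of_eq
  ring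

/-- task SUS4 -/
theorem finIneq {d : ℕ} (i0 : Fin d)
    (hm : ∀ r > 0, MeasurableSet {p : S.Ω × ℝ | ∃ x ∈ S.K p.1, |x - p.2| ≤ r}) :
    FinIneq (fun x : EuclideanSpace ℝ (Fin d) => S.cov (x i0)) (fun r => S.hitp r - S.cov 0) := by
  classical
  intro F a b c hb h
  have hmr : ∀ r : ℝ, 0 ≤ r → MeasurableSet {p : S.Ω × ℝ | ∃ x ∈ S.X p.1, |x - p.2| ≤ r} := by
    intro r hr
    rcases hr.eq_or_lt with h0 | h0
    · have h1 : {p : S.Ω × ℝ | ∃ x ∈ S.X p.1, |x - p.2| ≤ r} = {p | p.2 ∈ S.X p.1} := by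
        ext p
        simp only [mem_ofPred_eq, ← h0]
        constructor
        · rintro ⟨x, hx, hxp⟩
          have : x - p.2 = 0 := abs_nonpos_iff.mp hxp
          have h2 : x = p.2 := by linarith
          rwa [h2] at hx
        · intro hp
          exact ⟨p.2, hp, by simp⟩
      rw [h1]
      exact S.meas_X measurable_fst measurable_snd
    · exact S.meas_near r (hm r h0)
  set A : EuclideanSpace ℝ (Fin d) → EuclideanSpace ℝ (Fin d) → Set (S.Ω × ℝ) := fun x y =>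
    {p | p.2 + x i0 ∈ S.X p.1 ∧ p.2 + y i0 ∈ S.X p.1} with hA
  set B : Finset (EuclideanSpace ℝ (Fin d)) → Set (S.Ω × ℝ) := fun D =>
    {p | ∃ x ∈ D, p.2 + x i0 ∈ S.X p.1} with hB
  have hAm : ∀ x y, MeasurableSet (A x y) := fun x y =>
    (S.meas_X measurable_fst (measurable_snd.add_const _)).inter
      (S.meas_X measurable_fst (measurable_snd.add_const _))
  have hBm : ∀ D, MeasurableSet (B D) := by
    intro D
    have h1 : B D = ⋃ x ∈ D, {p : S.Ω × ℝ | p.2 + x i0 ∈ S.X p.1} := by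
      ext p
      simp [hB]
    rw [h1]
    exact Finset.measurableSet_biUnion D fun x _ =>
      S.meas_X measurable_fst (measurable_snd.add_const _)
  -- the pointwise inequality
  have hpt : ∀ p : S.Ω × ℝ, c ≤ ∑ x ∈ F, ∑ y ∈ F, a x y * (A x y).indicator (fun _ => (1:ℝ)) p +
      ∑ D ∈ F.powerset, b D * (B D).indicator (fun _ => (1:ℝ)) p := by
    intro p
    have h1 := h (F.filter fun x => p.2 + x i0 ∈ S.X p.1) (Finset.filter_subset _ _)
    refine h1.trans (le_of_eq ?_)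
    congr 1
    · rw [Finset.sum_filter]
      apply Finset.sum_congr rfl
      intro x _
      rw [Finset.sum_filter]
      by_cases hx : p.2 + x i0 ∈ S.X p.1
      · rw [if_pos hx]
        apply Finset.sum_congr rfl
        intro y _
        by_cases hy : p.2 + y i0 ∈ S.X p.1
        · rw [if_pos hy, indicator_of_mem (show p ∈ A x y from ⟨hx, hy⟩), mul_one]
        · rw [if_neg hy, indicator_of_notMem (fun h => hy h.2), mul_zero]
      · rw [if_neg hx, Finset.sum_eq_zero]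
        intro y _
        rw [indicator_of_notMem (fun h => hx h.1), mul_zero]
    · apply Finset.sum_congr rfl
      intro D hD
      have hDF := Finset.mem_powerset.mp hD
      by_cases hp : p ∈ B D
      · rw [indicator_of_mem hp, mul_one, indicator_of_mem]
        obtain ⟨x, hx, hxp⟩ := hp
        exact ⟨x, hx, Finset.mem_filter.mpr ⟨hDF hx, hxp⟩⟩
      · rw [indicator_of_notMem hp, mul_zero, indicator_of_notMem]
        rintro ⟨x, hx, hxp⟩
        exact hp ⟨x, hx, (Finset.mem_filter.mp hxp).2⟩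
  have hiA : ∀ x y, Integrable (fun p => a x y * (A x y).indicator (fun _ => (1:ℝ)) p)
      S.sus4ρ := fun x y => ((integrable_const (1:ℝ)).indicator (hAm x y)).const_mul _
  have hiB : ∀ D, Integrable (fun p => b D * (B D).indicator (fun _ => (1:ℝ)) p)
      S.sus4ρ := fun D => ((integrable_const (1:ℝ)).indicator (hBm D)).const_mul _
  have hind : ∀ E : Set (S.Ω × ℝ), MeasurableSet E →
      ∫ p, E.indicator (fun _ => (1:ℝ)) p ∂S.sus4ρ = S.sus4ρ.real E :=
    fun E hE => integral_indicator_one hE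
  have hi1 : Integrable (fun p => ∑ x ∈ F, ∑ y ∈ F,
      a x y * (A x y).indicator (fun _ => (1:ℝ)) p) S.sus4ρ :=
    integrable_finsetSum F fun x _ => integrable_finsetSum F fun y _ => hiA x y
  have hi2 : Integrable (fun p => ∑ D ∈ F.powerset,
      b D * (B D).indicator (fun _ => (1:ℝ)) p) S.sus4ρ :=
    integrable_finsetSum F.powerset fun D _ => hiB D
  have hint : ∫ _p, c ∂S.sus4ρ ≤ ∫ p, (∑ x ∈ F, ∑ y ∈ F,
      a x y * (A x y).indicator (fun _ => (1:ℝ)) p +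
      ∑ D ∈ F.powerset, b D * (B D).indicator (fun _ => (1:ℝ)) p) ∂S.sus4ρ :=
    integral_mono (integrable_const c) (hi1.add hi2) hpt
  rw [integral_const, integral_add hi1 hi2,
    integral_finsetSum F (fun x _ => integrable_finsetSum F fun y _ => hiA x y),
    integral_finsetSum F.powerset (fun D _ => hiB D)] at hint
  have h2 : S.sus4ρ.real univ = 884 := by
    rw [measureReal_def, sus4_univ]
    simp
  have h3 : ∀ x, ∫ p, ∑ y ∈ F, a x y * (A x y).indicator (fun _ => (1:ℝ)) p ∂S.sus4ρ =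
      ∑ y ∈ F, 884 * (a x y * S.cov ((x - y) i0)) := by
    intro x
    rw [integral_finsetSum F (fun y _ => hiA x y)]
    apply Finset.sum_congr rfl
    intro y _
    rw [integral_const_mul, hind _ (hAm x y)]
    have h4 := S.sus4_pair (x i0) (y i0)
    change S.sus4ρ.real (A x y) = _ at h4
    rw [h4]
    have h5 : (x - y) i0 = x i0 - y i0 := rfl
    rw [h5]
    ring
  have h4 : ∀ D ∈ F.powerset, ∫ p, b D * (B D).indicator (fun _ => (1:ℝ)) p ∂S.sus4ρ ≤
      884 * (b D * S.hitp (Metric.diam (D : Set (EuclideanSpace ℝ (Fin d))))) := by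
    intro D _
    rw [integral_const_mul, hind _ (hBm D)]
    have h5 : S.sus4ρ.real (B D) ≤
        884 * S.hitp (Metric.diam (D : Set (EuclideanSpace ℝ (Fin d)))) := by
      rcases D.eq_empty_or_nonempty with hD | ⟨z, hz⟩
      · have h6 : B D = ∅ := by
          ext p
          simp [hB, hD]
        rw [h6, measureReal_empty]
        apply mul_nonneg (by norm_num)
        exact div_nonneg measureReal_nonneg (by norm_num)
      · apply S.sus4_hit _ (hmr _ Metric.diam_nonneg) (z i0)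
        rintro p ⟨x, hx, hxp⟩
        refine ⟨p.2 + x i0, hxp, ?_⟩
        have e : p.2 + x i0 - (p.2 + z i0) = (x - z) i0 := by
          change p.2 + x i0 - (p.2 + z i0) = x i0 - z i0
          ring
        rw [e]
        calc |(x - z) i0| = ‖(x - z) i0‖ := (Real.norm_eq_abs _).symm
          _ ≤ ‖x - z‖ := PiLp.norm_apply_le _ _
          _ = dist x z := (dist_eq_norm _ _).symm
          _ ≤ _ := Metric.dist_le_diam_of_mem D.finite_toSet.isBounded hx hz
    calc b D * S.sus4ρ.real (B D) ≤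
        b D * (884 * S.hitp (Metric.diam (D : Set (EuclideanSpace ℝ (Fin d))))) :=
          mul_le_mul_of_nonneg_left h5 (hb D)
      _ = _ := by ring
  rw [h2, smul_eq_mul] at hint
  have h5 : (884 : ℝ) * c ≤ 884 * (∑ x ∈ F, ∑ y ∈ F, a x y * S.cov ((x - y) i0) +
      ∑ D ∈ F.powerset, b D * S.hitp (Metric.diam (D : Set (EuclideanSpace ℝ (Fin d))))) := by
    refine hint.trans ?_
    rw [mul_add, Finset.mul_sum, Finset.mul_sum]
    apply add_le_add
    · apply le_of_eq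
      apply Finset.sum_congr rfl
      intro x _
      rw [h3 x, Finset.mul_sum]
    · exact Finset.sum_le_sum h4
  have h6 : c ≤ ∑ x ∈ F, ∑ y ∈ F, a x y * S.cov ((x - y) i0) +
      ∑ D ∈ F.powerset, b D * S.hitp (Metric.diam (D : Set (EuclideanSpace ℝ (Fin d)))) :=
    le_of_mul_le_mul_left h5 (by norm_num)
  refine h6.trans (le_of_eq ?_)
  congr 1
  apply Finset.sum_congr rfl
  intro D _
  congr 1
  have h7 : (0 : EuclideanSpace ℝ (Fin d)) i0 = 0 := rfl
  change _ = S.cov ((0 : EuclideanSpace ℝ (Fin d)) i0) + (_ - S.cov 0)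
  rw [h7]
  ring

end NB97_SUS4

theorem susp {d : ℕ} (i0 : Fin d) (hcl : ∀ᵐ ω ∂S.μ, IsClosed (S.K ω))
    (hm : ∀ r > 0, MeasurableSet {p : S.Ω × ℝ | ∃ x ∈ S.K p.1, |x - p.2| ≤ r}) :
    IsStationaryRCSCovariance (fun x : EuclideanSpace ℝ (Fin d) => S.cov (x i0)) :=
  sufficiency _ _ (S.hitp_tendsto hcl hm) (S.finIneq i0 hm)

section NB97_SUS5

open scoped ENNReal symmDiff

/-- continuity for one set -/
theorem sus5_one (Y : Set ℝ) (hY : MeasurableSet Y) :
    Continuous fun t : ℝ => (volume : Measure ℝ).real {y | y ∈ Ico (0:ℝ) 884 ∧ y ∈ Y ∧ y + t ∈ Y} := by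
  rw [continuous_iff_continuousAt]
  intro t0
  set f : ℝ → C(ℝ, ℝ) := fun t => ⟨fun z => z + t, by fun_prop⟩ with hf
  have hfc : Continuous f := by
    apply ContinuousMap.continuous_of_continuous_uncurry
    exact continuous_snd.add continuous_fst
  have hfm : ∀ t, MeasurePreserving (f t) (volume : Measure ℝ) volume := fun t =>
    measurePreserving_add_right volume t
  set Y' : Set ℝ := Y ∩ Icc (t0 - 1) (t0 + 885) with hY'
  have hY'm : MeasurableSet Y' := hY.inter measurableSet_Icc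
  have hY'f : (volume : Measure ℝ) Y' ≠ ∞ := by
    refine ne_top_of_le_ne_top ?_ (measure_mono inter_subset_right)
    rw [Real.volume_Icc]
    exact ENNReal.ofReal_ne_top
  have hlim := tendsto_measure_symmDiff_preimage_nhds_zero (μ := (volume : Measure ℝ))
    (ν := (volume : Measure ℝ)) (hfc.tendsto t0)
    (Eventually.of_forall hfm) (hfm t0) hY'm.nullMeasurableSet hY'f
  have hlim' : Tendsto (fun t => (volume : Measure ℝ).real ((f t ⁻¹' Y') ∆ (f t0 ⁻¹' Y')))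
      (𝓝 t0) (𝓝 0) := by
    have := (ENNReal.tendsto_toReal ENNReal.zero_ne_top).comp hlim
    rw [ENNReal.toReal_zero] at this
    exact this
  have hfin : ∀ t, (volume : Measure ℝ) (f t ⁻¹' Y') ≠ ∞ := by
    intro t
    rw [(hfm t).measure_preimage hY'm.nullMeasurableSet]
    exact hY'f
  have hg : ∀ t, |t - t0| < 1 → {y : ℝ | y ∈ Ico (0:ℝ) 884 ∧ y ∈ Y ∧ y + t ∈ Y} =
      (f t ⁻¹' Y') ∩ (Ico (0:ℝ) 884 ∩ Y) := by
    intro t ht
    rw [abs_lt] at ht
    ext y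
    constructor
    · rintro ⟨h1, h2, h3⟩
      rw [mem_Ico] at h1
      exact ⟨⟨h3, by change t0 - 1 ≤ y + t; linarith [h1.1, ht.1],
        by change y + t ≤ t0 + 885; linarith [h1.2, ht.2]⟩, h1, h2⟩
    · rintro ⟨⟨h3, _⟩, h1, h2⟩
      exact ⟨h1, h2, h3⟩
  have key : ∀ A B : Set ℝ, (volume : Measure ℝ) B ≠ ∞ → (volume : Measure ℝ) (A ∆ B) ≠ ∞ →
      (volume : Measure ℝ).real (A ∩ (Ico (0:ℝ) 884 ∩ Y)) ≤
        (volume : Measure ℝ).real (B ∩ (Ico (0:ℝ) 884 ∩ Y)) +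
          (volume : Measure ℝ).real (A ∆ B) := by
    intro A B hB hAB
    have hB' : (volume : Measure ℝ) (B ∩ (Ico (0:ℝ) 884 ∩ Y)) ≠ ∞ :=
      ne_top_of_le_ne_top hB (measure_mono inter_subset_left)
    calc (volume : Measure ℝ).real (A ∩ (Ico (0:ℝ) 884 ∩ Y)) ≤
        (volume : Measure ℝ).real ((B ∩ (Ico (0:ℝ) 884 ∩ Y)) ∪ (A ∆ B)) := by
          apply measureReal_mono _ (ne_top_of_le_ne_top (ENNReal.add_ne_top.mpr ⟨hB', hAB⟩)
            (measure_union_le _ _))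
          intro x hx
          by_cases hxB : x ∈ B
          · left; exact ⟨hxB, hx.2⟩
          · right; left; exact ⟨hx.1, hxB⟩
      _ ≤ _ := measureReal_union_le _ _
  have hsd : ∀ t s, (volume : Measure ℝ) ((f t ⁻¹' Y') ∆ (f s ⁻¹' Y')) ≠ ∞ := by
    intro t s
    refine ne_top_of_le_ne_top (ENNReal.add_ne_top.mpr ⟨hfin t, hfin s⟩) ?_
    refine (measure_mono ?_).trans (measure_union_le _ _)
    exact symmDiff_subset_union
  rw [ContinuousAt, tendsto_iff_dist_tendsto_zero]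
  apply squeeze_zero' (Eventually.of_forall fun _ => dist_nonneg) _ hlim'
  filter_upwards [Metric.ball_mem_nhds t0 one_pos] with t ht
  rw [Metric.mem_ball, Real.dist_eq] at ht
  rw [hg t ht, hg t0 (by simp), Real.dist_eq, abs_le]
  constructor
  · have h1 := key _ _ (hfin t) (hsd t0 t)
    rw [symmDiff_comm] at h1
    linarith
  · have h1 := key _ _ (hfin t0) (hsd t t0)
    linarith



/-- task SUS5: the covariance is continuous -/
theorem continuous_cov : Continuous S.cov := by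
  have hM : ∀ t : ℝ, MeasurableSet {p : S.Ω × ℝ | p.2 ∈ Ico (0:ℝ) 884 ∧ p.2 ∈ S.X p.1 ∧
      p.2 + t ∈ S.X p.1} := fun t =>
    MeasurableSet.inter (measurable_snd measurableSet_Ico)
      ((S.meas_X measurable_fst measurable_snd).inter
        (S.meas_X measurable_fst (measurable_snd.add_const _)))
  have hsub : ∀ (t : ℝ) (ω : S.Ω), (volume : Measure ℝ) {y | y ∈ Ico (0:ℝ) 884 ∧ y ∈ S.X ω ∧
      y + t ∈ S.X ω} ≤ ENNReal.ofReal 884 := by
    intro t ω
    refine (measure_mono (t := Ico (0:ℝ) 884) fun y hy => hy.1).trans (le_of_eq ?_)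
    rw [Real.volume_Ico, sub_zero]
  have h1 : ∀ t : ℝ, S.cov t = (∫ ω, (volume : Measure ℝ).real {y | y ∈ Ico (0:ℝ) 884 ∧
      y ∈ S.X ω ∧ y + t ∈ S.X ω} ∂S.μ) / 884 := by
    intro t
    unfold cov
    congr 1
    simp only [measureReal_def]
    rw [integral_toReal, Measure.prod_apply (hM t)]
    · rfl
    · exact (measurable_measure_prodMk_left (hM t)).aemeasurable
    · exact Eventually.of_forall fun ω => (hsub t ω).trans_lt ENNReal.ofReal_lt_top
  have h2 : S.cov = fun t => (∫ ω, (volume : Measure ℝ).real {y | y ∈ Ico (0:ℝ) 884 ∧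
      y ∈ S.X ω ∧ y + t ∈ S.X ω} ∂S.μ) / 884 := funext h1
  rw [h2]
  apply Continuous.div_const
  apply continuous_of_dominated (bound := fun _ => (884 : ℝ))
  · intro t
    exact ((measurable_measure_prodMk_left (hM t)).ennreal_toReal).aestronglyMeasurable
  · intro t
    refine Eventually.of_forall fun ω => ?_
    rw [Real.norm_eq_abs, abs_of_nonneg measureReal_nonneg]
    have := ENNReal.toReal_mono ENNReal.ofReal_ne_top (hsub t ω)
    rw [ENNReal.toReal_ofReal (by norm_num)] at this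
    exact this
  · exact integrable_const _
  · refine Eventually.of_forall fun ω => ?_
    exact sus5_one (S.X ω) (S.meas_X measurable_const measurable_id)


end NB97_SUS5

end Sys
end Pool.Agent.LibNB97
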