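import Pool.Agent.LibNB97.DInv
import Pool.Agent.LibNB97.Susp

/-! # Forward direction: a good assignment gives a covariance; measurability -/

open MeasureTheory Set Filter Topology
open scoped ENNReal

namespace Pool.Agent.LibNB97

open Pool.Agent.LibRCS

variable {j : ℕ → ℕ} {nx : ℕ → Fin 2 → ℕ}

section tasks

section NB97_FWD1

theorem fwd1_unif (q : ℕ) : unifZ q {0} = (u q : ℝ≥0∞)⁻¹ := by
  unfold unifZ
  rw [PMF.toMeasure_apply_singleton _ _ (measurableSet_singleton _),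
    PMF.uniformOfFintype_apply, ZMod.card]

theorem prob_clock (q : ℕ) : Dμ {ω | ω.2 q = 0} = (u q : ℝ≥0∞)⁻¹ := by
  have h1 : {ω : DΩ | ω.2 q = 0} =
      (univ : Set (Fin 2 → Bool)) ×ˢ (Function.eval q ⁻¹' ({0} : Set (ZMod (u q)))) := by
    ext ω
    simp
  have h2 := (measurePreserving_eval_infinitePi unifZ q).measure_preimage
    (measurableSet_singleton (0 : ZMod (u q))).nullMeasurableSet
  rw [h1]
  unfold Dμ
  rw [Measure.prod_prod, measure_univ, one_mul, h2, fwd1_unif]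

theorem summable_u : ∑' q, (u q : ℝ≥0∞)⁻¹ ≠ ⊤ := by
  have h1 : ∀ q, (u q : ℝ≥0∞)⁻¹ ≤ (2⁻¹ : ℝ≥0∞) ^ q := by
    intro q
    rw [← ENNReal.inv_pow]
    apply ENNReal.inv_le_inv.2
    have h2 : 2 ^ q ≤ u q := by
      unfold u Nat.fermatNumber
      have h3 : q ≤ 2 ^ q := Nat.lt_two_pow_self.le
      have h4 : 2 ^ q ≤ 2 ^ 2 ^ q := Nat.pow_le_pow_right (by norm_num) h3
      omega
    exact_mod_cast h2
  refine ne_top_of_le_ne_top ?_ (ENNReal.tsum_le_tsum h1)
  rw [ENNReal.tsum_geometric]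
  simp

/-- almost surely only finitely many clocks show `0` -/
theorem finite_clocks : ∀ᵐ ω ∂Dμ, {q : ℕ | ω.2 q = 0}.Finite := by
  have h1 : ∑' q, Dμ {ω : DΩ | ω.2 q = 0} ≠ ⊤ := by
    simp only [prob_clock]
    exact summable_u
  exact ae_finite_setOfPred_mem h1

end NB97_FWD1



section NB97_FWD2

theorem finite_active (G : Geo j nx) (t : ℕ → Fin 2 → Bool) (hg : Good j t) :
    ∀ᵐ ω ∂Dμ, w0 ω → ∀ i, {κ | j κ = i ∧ ∃ r, r < md (qs κ) ∧ Ev t (qs κ) r ω}.Finite := by
  filter_upwards [finite_clocks] with ω hω hw i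
  have h1 : {κ | j κ = i ∧ ∃ r, r < md (qs κ) ∧ Ev t (qs κ) r ω} ⊆
      {κ | j κ = i ∧ t κ 0 = true ∧ t κ 1 = true} ∪
        (fun q => q / 4) '' {q : ℕ | ω.2 q = 0} := by
    rintro κ ⟨hκ, r, -, hE⟩
    by_cases h0 : t κ 0 = true
    · by_cases h1 : t κ 1 = true
      · exact Or.inl ⟨hκ, h0, h1⟩
      · right
        refine ⟨4 * κ + 2, ?_, by simp; omega⟩
        have h2 := hE (4 * κ + 2) (by simp [qs])
        have hg : gad (4 * κ + 2) = κ := by unfold gad; omega
        have hc : col (4 * κ + 2) = 1 := by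
          unfold col
          ext
          simp
          omega
        have h3 : et t (4 * κ + 2) ω.1 = 0 := by
          unfold et
          rw [hg, hc, hw 1]
          simp [b2i, h1]
        rw [h3] at h2
        simpa using h2
    · right
      refine ⟨4 * κ, ?_, by simp⟩
      have h2 := hE (4 * κ) (by simp [qs])
      have hg : gad (4 * κ) = κ := by unfold gad; omega
      have hc : col (4 * κ) = 0 := by
        unfold col
        ext
        simp
        omega
      have h3 : et t (4 * κ) ω.1 = 0 := by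
        unfold et
        rw [hg, hc, hw 0]
        simp [b2i, h0]
      rw [h3] at h2
      simpa using h2
  exact ((hg i).union (hω.image _)).subset h1

end NB97_FWD2

section NB97_FWD3

theorem fwd3_JF (G : Geo j nx) (t : ℕ → Fin 2 → Bool) (ω : DΩ)
    (h : w0 ω → ∀ i, {κ | j κ = i ∧ ∃ r, r < md (qs κ) ∧ Ev t (qs κ) r ω}.Finite) :
    IsClosed (JF G t ω) := by
  unfold JF
  by_cases hw : w0 ω
  · rw [if_pos hw, union_empty]
    have h1 : (⋃ p ∈ {p : ℕ × ℕ | Ev t (qs p.1) p.2 ω}, G.O p.1 p.2) =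
        ⋃ p ∈ {p : ℕ × ℕ | p.2 < md (qs p.1) ∧ Ev t (qs p.1) p.2 ω}, G.O p.1 p.2 := by
      ext x
      simp only [mem_iUnion, mem_setOf_eq, exists_prop]
      constructor
      · rintro ⟨p, hp, hx⟩
        refine ⟨p, ⟨?_, hp⟩, hx⟩
        by_contra hcon
        rw [G.O_out p.1 p.2 (not_lt.1 hcon)] at hx
        exact hx
      · rintro ⟨p, ⟨_, hp⟩, hx⟩
        exact ⟨p, hp, hx⟩
    rw [h1]
    refine G.fam2 _ (fun i => ?_) (fun p hp => hp.1)
    exact h hw i
  · rw [if_neg hw]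
    exact G.fam1 _

/-- task FWD3: almost surely the content is closed -/
theorem isClosed_DK (G : Geo j nx) (t : ℕ → Fin 2 → Bool) (hg : Good j t) :
    ∀ᵐ ω ∂Dμ, IsClosed (DK G t ω) := by
  filter_upwards [finite_active G t hg] with ω hω
  have hJ := fwd3_JF G t ω hω
  have hC : ∀ r, IsClosed (CF G t r ω) := fun r => G.fam3 _
  have hF : ∀ a, IsClosed (FF G t a ω) := by
    intro a
    fin_cases a
    · exact isClosed_Icc
    · show IsClosed (if w0 ω then Icc 0 1 else ∅)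
      split_ifs
      · exact isClosed_Icc
      · exact isClosed_empty
    · show IsClosed (if w0 ω then ∅ else Icc 0 1)
      split_ifs
      · exact isClosed_empty
      · exact isClosed_Icc
    · exact hJ
    · exact hJ
    · exact hC 0
    · exact hC 1
    · exact isClosed_Icc
  have h1 : DK G t ω = ⋃ a, (fun x => x - gp a) ⁻¹' (FF G t a ω) := by
    ext x
    simp [DK]
  rw [h1]
  exact isClosed_iUnion_of_finite fun a => (hF a).preimage (continuous_id.sub continuous_const)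

end NB97_FWD3

section NB97_FWD4

/-- the neighbourhoods of the random set `F` are measurable -/
private def fwd4N (r : ℝ) (F : DΩ → Set ℝ) : Prop :=
  ∀ g : ℝ, MeasurableSet {p : DΩ × ℝ | ∃ x, x - g ∈ F p.1 ∧ |x - p.2| ≤ r}

private theorem fwd4_const (r : ℝ) {C : Set ℝ} (hC : IsCompact C) :
    fwd4N r (fun _ => C) := by
  intro g
  have h1 : IsCompact ((fun q : ℝ × ℝ => q.1 + g + q.2) '' (C ×ˢ Icc (-r) r)) :=
    (hC.prod isCompact_Icc).image (by fun_prop)
  have h2 : {p : DΩ × ℝ | ∃ x, x - g ∈ C ∧ |x - p.2| ≤ r} =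
      Prod.snd ⁻¹' ((fun q : ℝ × ℝ => q.1 + g + q.2) '' (C ×ˢ Icc (-r) r)) := by
    ext p
    simp only [mem_ofPred_eq, mem_preimage, mem_image, mem_prod, Prod.exists]
    constructor
    · rintro ⟨x, hx, hr⟩
      rw [abs_le] at hr
      refine ⟨x - g, p.2 - x, ⟨hx, ?_⟩, ?_⟩
      · constructor <;> linarith [hr.1, hr.2]
      · ring
    · rintro ⟨a, b, ⟨ha, hb⟩, hab⟩
      refine ⟨a + g, by rwa [add_sub_cancel_right], ?_⟩
      rw [← hab, abs_le]
      constructor <;> linarith [hb.1, hb.2]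
  rw [h2]
  exact measurable_snd h1.measurableSet

private theorem fwd4_empty (r : ℝ) : fwd4N r (fun _ => ∅) := fwd4_const r isCompact_empty

private theorem fwd4_iUnion (r : ℝ) {ι : Type} [Countable ι] {F : ι → DΩ → Set ℝ}
    (h : ∀ i, fwd4N r (F i)) : fwd4N r (fun ω => ⋃ i, F i ω) := by
  intro g
  have h2 : {p : DΩ × ℝ | ∃ x, x - g ∈ ⋃ i, F i p.1 ∧ |x - p.2| ≤ r} =
      ⋃ i, {p : DΩ × ℝ | ∃ x, x - g ∈ F i p.1 ∧ |x - p.2| ≤ r} := by
    ext p
    simp only [mem_ofPred_eq, mem_iUnion]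
    constructor
    · rintro ⟨x, ⟨i, hx⟩, hr⟩
      exact ⟨i, x, hx, hr⟩
    · rintro ⟨i, x, hx, hr⟩
      exact ⟨x, ⟨i, hx⟩, hr⟩
  rw [h2]
  exact MeasurableSet.iUnion fun i => h i g

private theorem fwd4_union (r : ℝ) {F F' : DΩ → Set ℝ} (h : fwd4N r F) (h' : fwd4N r F') :
    fwd4N r (fun ω => F ω ∪ F' ω) := by
  intro g
  have h2 : {p : DΩ × ℝ | ∃ x, x - g ∈ F p.1 ∪ F' p.1 ∧ |x - p.2| ≤ r} =
      {p : DΩ × ℝ | ∃ x, x - g ∈ F p.1 ∧ |x - p.2| ≤ r} ∪
        {p : DΩ × ℝ | ∃ x, x - g ∈ F' p.1 ∧ |x - p.2| ≤ r} := by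
    ext p
    simp only [mem_ofPred_eq, mem_union]
    constructor
    · rintro ⟨x, hx | hx, hr⟩
      · exact Or.inl ⟨x, hx, hr⟩
      · exact Or.inr ⟨x, hx, hr⟩
    · rintro (⟨x, hx, hr⟩ | ⟨x, hx, hr⟩)
      · exact ⟨x, Or.inl hx, hr⟩
      · exact ⟨x, Or.inr hx, hr⟩
  rw [h2]
  exact (h g).union (h' g)

open Classical in
private theorem fwd4_ite (r : ℝ) {F F' : DΩ → Set ℝ} (h : fwd4N r F) (h' : fwd4N r F')
    {P : DΩ → Prop} (hP : MeasurableSet {ω | P ω}) :
    fwd4N r (fun ω => if P ω then F ω else F' ω) := by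
  intro g
  have h2 : {p : DΩ × ℝ | ∃ x, x - g ∈ (if P p.1 then F p.1 else F' p.1) ∧ |x - p.2| ≤ r} =
      (Prod.fst ⁻¹' {ω | P ω} ∩ {p : DΩ × ℝ | ∃ x, x - g ∈ F p.1 ∧ |x - p.2| ≤ r}) ∪
        ((Prod.fst ⁻¹' {ω | P ω})ᶜ ∩ {p : DΩ × ℝ | ∃ x, x - g ∈ F' p.1 ∧ |x - p.2| ≤ r}) := by
    ext p
    by_cases hp : P p.1
    · simp [hp]
    · simp [hp]
  rw [h2]
  have h3 : MeasurableSet (Prod.fst ⁻¹' {ω | P ω} : Set (DΩ × ℝ)) := measurable_fst hP
  exact (h3.inter (h g)).union (h3.compl.inter (h' g))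

private theorem fwd4_w0 : MeasurableSet {ω : DΩ | w0 ω} := by
  have h1 : {ω : DΩ | w0 ω} = ⋂ i : Fin 2, (fun ω : DΩ => ω.1 i) ⁻¹' {false} := by
    ext ω
    simp [w0]
  rw [h1]
  refine MeasurableSet.iInter fun i => ?_
  have h2 : Measurable (fun ω : DΩ => ω.1 i) := (measurable_pi_apply i).comp measurable_fst
  exact h2 (measurableSet_singleton _)

private theorem fwd4_compact {C : Set ℝ} (h1 : IsClosed C) (h2 : C ⊆ Ioc 0 1) : IsCompact C :=
  (isCompact_Icc (a := (0 : ℝ)) (b := 1)).of_isClosed_subset h1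
    (h2.trans Ioc_subset_Icc_self)

private theorem fwd4_JF (G : Geo j nx) (t : ℕ → Fin 2 → Bool) (r : ℝ) : fwd4N r (JF G t) := by
  classical
  have h1 : JF G t = fun ω => (({0} : Set ℝ) ∪ (if w0 ω then ∅ else ⋃ i, G.W i)) ∪
      ⋃ p : ℕ × ℕ, (if Ev t (qs p.1) p.2 ω then G.O p.1 p.2 else ∅) := by
    funext ω
    unfold JF
    congr 1
    ext x
    simp only [mem_iUnion, mem_ofPred_eq, exists_prop]
    constructor
    · rintro ⟨p, hp, hx⟩
      exact ⟨p, by rw [if_pos hp]; exact hx⟩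
    · rintro ⟨p, hx⟩
      split_ifs at hx with hp
      · exact ⟨p, hp, hx⟩
      · exact absurd hx (notMem_empty x)
  rw [h1]
  refine fwd4_union r (fwd4_union r (fwd4_const r isCompact_singleton) ?_) ?_
  · have := fwd4_ite r (fwd4_empty r) (fwd4_iUnion r fun i =>
      fwd4_const r (fwd4_compact (G.W_closed i) (G.W_sub i))) fwd4_w0
    intro g
    have h2 := this g
    have h3 : {p : DΩ × ℝ | ∃ x, x - g ∈ (if w0 p.1 then (∅ : Set ℝ) else ⋃ i, G.W i) ∧
        |x - p.2| ≤ r} = {p : DΩ × ℝ | ∃ x, x - g ∈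
          (@ite _ (w0 p.1) (Classical.propDecidable _) (∅ : Set ℝ) (⋃ i, G.W i)) ∧
            |x - p.2| ≤ r} := by
      ext p
      by_cases hp : w0 p.1
      · simp [hp]
      · simp [hp]
    rw [h3]
    exact h2
  · refine fwd4_iUnion r fun p => ?_
    have := fwd4_ite r (fwd4_const r (fwd4_compact (G.O_closed p.1 p.2) (G.O_sub p.1 p.2)))
      (fwd4_empty r) (measurableSet_Ev t (qs p.1) p.2)
    exact this

private theorem fwd4_CF (G : Geo j nx) (t : ℕ → Fin 2 → Bool) (n : ℕ) (r : ℝ) :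
    fwd4N r (CF G t n) := by
  classical
  have h1 : CF G t n = fun ω => ({0} : Set ℝ) ∪
      ⋃ σ : ℕ × Fin 2, (if Ev t (lk nx σ) n ω then G.C σ else ∅) := by
    funext ω
    unfold CF
    congr 1
    ext x
    simp only [mem_iUnion, mem_ofPred_eq, exists_prop]
    constructor
    · rintro ⟨p, hp, hx⟩
      exact ⟨p, by rw [if_pos hp]; exact hx⟩
    · rintro ⟨p, hx⟩
      split_ifs at hx with hp
      · exact ⟨p, hp, hx⟩
      · exact absurd hx (notMem_empty x)
  rw [h1]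
  refine fwd4_union r (fwd4_const r isCompact_singleton) ?_
  refine fwd4_iUnion r fun σ => ?_
  have := fwd4_ite r (fwd4_const r (fwd4_compact (G.C_closed σ) (G.C_sub σ)))
    (fwd4_empty r) (measurableSet_Ev t (lk nx σ) n)
  exact this

private theorem fwd4_w (r : ℝ) {A B : Set ℝ} (hA : IsCompact A) (hB : IsCompact B) :
    fwd4N r (fun ω => if w0 ω then A else B) := by
  classical
  have := fwd4_ite r (fwd4_const r hA) (fwd4_const r hB) fwd4_w0
  intro g
  have h2 := this g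
  have h3 : {p : DΩ × ℝ | ∃ x, x - g ∈ (if w0 p.1 then A else B) ∧
      |x - p.2| ≤ r} = {p : DΩ × ℝ | ∃ x, x - g ∈
        (@ite _ (w0 p.1) (Classical.propDecidable _) A B) ∧ |x - p.2| ≤ r} := by
    ext p
    by_cases hp : w0 p.1
    · simp [hp]
    · simp [hp]
  rw [h3]
  exact h2

private theorem fwd4_FF (G : Geo j nx) (t : ℕ → Fin 2 → Bool) (a : Fin 8) (r : ℝ) :
    fwd4N r (FF G t a) := by
  fin_cases a
  · exact fwd4_const r isCompact_Icc
  · exact fwd4_w r isCompact_Icc isCompact_empty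
  · exact fwd4_w r isCompact_empty isCompact_Icc
  · exact fwd4_JF G t r
  · exact fwd4_JF G t r
  · exact fwd4_CF G t 0 r
  · exact fwd4_CF G t 1 r
  · exact fwd4_const r isCompact_Icc

/-- task FWD4: neighbourhoods of the content are measurable -/
theorem meas_near_DK (G : Geo j nx) (t : ℕ → Fin 2 → Bool) (r : ℝ) (hr : 0 < r) :
    MeasurableSet {p : DΩ × ℝ | ∃ x ∈ DK G t p.1, |x - p.2| ≤ r} := by
  have h1 : {p : DΩ × ℝ | ∃ x ∈ DK G t p.1, |x - p.2| ≤ r} =
      ⋃ a, {p : DΩ × ℝ | ∃ x, x - gp a ∈ FF G t a p.1 ∧ |x - p.2| ≤ r} := by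
    ext p
    simp only [mem_ofPred_eq, mem_iUnion, DK]
    constructor
    · rintro ⟨x, ⟨a, hx⟩, hr⟩
      exact ⟨a, x, hx, hr⟩
    · rintro ⟨a, x, hx, hr⟩
      exact ⟨x, ⟨a, hx⟩, hr⟩
  rw [h1]
  exact MeasurableSet.iUnion fun a => fwd4_FF G t a r (gp a)

end NB97_FWD4

section NB97_FWD5

lemma fwd5_Ev {α : Type*} [MeasurableSpace α] {f : α → ℕ → Fin 2 → Bool} {g : α → DΩ}
    (hf : Measurable f) (hg : Measurable g) (Q : Finset ℕ) (r : ℕ) :
    MeasurableSet {a | Ev (f a) Q r (g a)} := by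
  have e : {a | Ev (f a) Q r (g a)} = ⋂ q ∈ Q, {a | (g a).2 q +
      ((r * b2i (xor (f a (gad q) (col q)) ((g a).1 (col q))) : ℤ) : ZMod (u q)) = 0} := by
    ext a
    simp only [Ev, et, mem_ofPred_eq, mem_iInter]
  rw [e]
  refine Finset.measurableSet_biInter Q fun q _ => ?_
  have h1 : Measurable fun a => (f a (gad q) (col q), (g a).1 (col q), (g a).2 q) := by
    refine Measurable.prodMk ?_ (Measurable.prodMk ?_ ?_)
    · exact (measurable_pi_apply (col q)).comp ((measurable_pi_apply (gad q)).comp hf)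
    · exact (measurable_pi_apply (col q)).comp (measurable_fst.comp hg)
    · exact (measurable_pi_apply q).comp (measurable_snd.comp hg)
  have h2 : MeasurableSet {b : Bool × Bool × ZMod (u q) | b.2.2 +
      ((r * b2i (xor b.1 b.2.1) : ℤ) : ZMod (u q)) = 0} := MeasurableSet.of_discrete
  exact h1 h2

lemma fwd5_w0 {α : Type*} [MeasurableSpace α] {g : α → DΩ} (hg : Measurable g) :
    MeasurableSet {a | w0 (g a)} := by
  have e : {a | w0 (g a)} = ⋂ i, {a | (g a).1 i = false} := by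
    ext a
    simp only [w0, mem_ofPred_eq, mem_iInter]
  rw [e]
  refine MeasurableSet.iInter fun i => ?_
  have h1 : Measurable fun a => (g a).1 i := (measurable_pi_apply i).comp (measurable_fst.comp hg)
  exact h1 (measurableSet_singleton false)

lemma fwd5_JF (G : Geo j nx) {α : Type*} [MeasurableSpace α] {f : α → ℕ → Fin 2 → Bool}
    {g : α → DΩ} {h : α → ℝ} (hf : Measurable f) (hg : Measurable g) (hh : Measurable h) :
    MeasurableSet {a | h a ∈ JF G (f a) (g a)} := by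
  have e : {a | h a ∈ JF G (f a) (g a)} = {a | h a = 0} ∪ ({a | w0 (g a)}ᶜ ∩ ⋃ i, {a | h a ∈ G.W i}) ∪
      ⋃ (p : ℕ × ℕ), ({a | Ev (f a) (qs p.1) p.2 (g a)} ∩ {a | h a ∈ G.O p.1 p.2}) := by
    ext a
    by_cases hw : w0 (g a)
    · simp [JF, hw]
    · simp [JF, hw]
  rw [e]
  refine ((hh (measurableSet_singleton 0)).union ((fwd5_w0 hg).compl.inter
    (MeasurableSet.iUnion fun i => hh (G.W_closed i).measurableSet))).union
    (MeasurableSet.iUnion fun p => (fwd5_Ev hf hg _ _).inter (hh (G.O_closed _ _).measurableSet))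

lemma fwd5_CF (G : Geo j nx) {α : Type*} [MeasurableSpace α] {f : α → ℕ → Fin 2 → Bool}
    {g : α → DΩ} {h : α → ℝ} (hf : Measurable f) (hg : Measurable g) (hh : Measurable h) (r : ℕ) :
    MeasurableSet {a | h a ∈ CF G (f a) r (g a)} := by
  have e : {a | h a ∈ CF G (f a) r (g a)} = {a | h a = 0} ∪
      ⋃ (σ : ℕ × Fin 2), ({a | Ev (f a) (lk nx σ) r (g a)} ∩ {a | h a ∈ G.C σ}) := by
    ext a
    simp [CF]
  rw [e]
  exact (hh (measurableSet_singleton 0)).union
    (MeasurableSet.iUnion fun p => (fwd5_Ev hf hg _ _).inter (hh (G.C_closed _).measurableSet))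

lemma fwd5_FF (G : Geo j nx) {α : Type*} [MeasurableSpace α] {f : α → ℕ → Fin 2 → Bool}
    {g : α → DΩ} {h : α → ℝ} (hf : Measurable f) (hg : Measurable g) (hh : Measurable h)
    (a : Fin 8) : MeasurableSet {x | h x ∈ FF G (f x) a (g x)} := by
  have h01 : MeasurableSet {x | h x ∈ Icc (0:ℝ) 1} := hh measurableSet_Icc
  match a with
  | 0 => exact h01
  | 1 =>
    have e : {x | h x ∈ FF G (f x) 1 (g x)} = {x | w0 (g x)} ∩ {x | h x ∈ Icc (0:ℝ) 1} := by
      ext x
      by_cases hw : w0 (g x)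
      · simp [FF, hw]
      · simp [FF, hw]
    rw [e]
    exact (fwd5_w0 hg).inter h01
  | 2 =>
    have e : {x | h x ∈ FF G (f x) 2 (g x)} = {x | w0 (g x)}ᶜ ∩ {x | h x ∈ Icc (0:ℝ) 1} := by
      ext x
      by_cases hw : w0 (g x)
      · simp [FF, hw]
      · simp [FF, hw]
    rw [e]
    exact (fwd5_w0 hg).compl.inter h01
  | 3 => exact fwd5_JF G hf hg hh
  | 4 => exact fwd5_JF G hf hg hh
  | 5 => exact fwd5_CF G hf hg hh 0
  | 6 => exact fwd5_CF G hf hg hh 1
  | 7 => exact h01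

lemma fwd5_X (G : Geo j nx) {α : Type*} [MeasurableSpace α] {f : α → ℕ → Fin 2 → Bool}
    {g : α → DΩ} {h : α → ℝ} (hf : Measurable f) (hg : Measurable g) (hh : Measurable h) :
    MeasurableSet {x | h x ∈ (Dsys G (f x)).X (g x)} := by
  have e : {x | h x ∈ (Dsys G (f x)).X (g x)} =
      ⋃ (k : ℤ) (a : Fin 8), {x | h x - 884 * k - gp a ∈ FF G (f x) a (DT k (g x))} := by
    ext x
    simp only [mem_iUnion]
    rfl
  rw [e]
  refine MeasurableSet.iUnion fun k => MeasurableSet.iUnion fun a => ?_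
  exact fwd5_FF G hf ((DT_mp k).measurable.comp hg) ((hh.sub_const _).sub_const _) a

theorem measurable_cov (G : Geo j nx) (x : ℝ) :
    Measurable fun t : ℕ → Fin 2 → Bool => (Dsys G t).cov x := by
  have hs : MeasurableSet {p : (ℕ → Fin 2 → Bool) × (DΩ × ℝ) | p.2.2 ∈ Ico (0:ℝ) 884 ∧
      p.2.2 ∈ (Dsys G p.1).X p.2.1 ∧ p.2.2 + x ∈ (Dsys G p.1).X p.2.1} := by
    have m1 : Measurable fun p : (ℕ → Fin 2 → Bool) × (DΩ × ℝ) => p.2.2 :=
      measurable_snd.comp measurable_snd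
    have m2 : Measurable fun p : (ℕ → Fin 2 → Bool) × (DΩ × ℝ) => p.2.1 :=
      measurable_fst.comp measurable_snd
    exact (m1 measurableSet_Ico).inter ((fwd5_X G measurable_fst m2 m1).inter
      (fwd5_X G measurable_fst m2 (m1.add_const x)))
  have h1 := measurable_measure_prodMk_left (ν := Dμ.prod (volume : Measure ℝ)) hs
  exact h1.ennreal_toReal.div_const 884

end NB97_FWD5

section NB97_FWD6

open Classical in
/-- the solution of the links which is `false` at the slots without predecessor -/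
noncomputable def fwd6_t0 (hnx : Next nx) (s : ℕ → Fin 2 → Bool) (κ : ℕ) (i : Fin 2) : Bool :=
  if h : ∃ κ', nx κ' i = κ then
    xor (fwd6_t0 hnx s h.choose i) (s h.choose i)
  else false
termination_by κ
decreasing_by
  have h1 := h.choose_spec
  have h2 := hnx.lt h.choose i
  omega

theorem fwd6_links (hnx : Next nx) (s : ℕ → Fin 2 → Bool) : Links nx s (fwd6_t0 hnx s) := by
  intro κ i
  have h : ∃ κ', nx κ' i = nx κ i := ⟨κ, rfl⟩
  have h1 : h.choose = κ := hnx.inj i h.choose_spec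
  rw [fwd6_t0, dif_pos h, h1]

theorem fwd6_meas (hnx : Next nx) (i : Fin 2) (κ : ℕ) :
    Measurable fun s : ℕ → Fin 2 → Bool => fwd6_t0 hnx s κ i := by
  induction κ using Nat.strong_induction_on with
  | _ κ ih =>
    by_cases h : ∃ κ', nx κ' i = κ
    · have h1 : (fun s : ℕ → Fin 2 → Bool => fwd6_t0 hnx s κ i) =
          fun s => xor (fwd6_t0 hnx s h.choose i) (s h.choose i) := by
        funext s
        rw [fwd6_t0, dif_pos h]
      rw [h1]
      have h2 : h.choose < κ := by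
        have h3 := h.choose_spec
        have h4 := hnx.lt h.choose i
        omega
      have h5 : Measurable fun s : ℕ → Fin 2 → Bool => s h.choose i :=
        (measurable_pi_apply i).comp (measurable_pi_apply h.choose)
      have h6 : Measurable fun p : Bool × Bool => xor p.1 p.2 := measurable_of_countable _
      exact h6.comp ((ih _ h2).prodMk h5)
    · have h1 : (fun s : ℕ → Fin 2 → Bool => fwd6_t0 hnx s κ i) = fun _ => false := by
        funext s
        rw [fwd6_t0, dif_neg h]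
      rw [h1]
      exact measurable_const

/-- task FWD6: a measurable solution of the links -/
theorem exists_t0 (hnx : Next nx) : ∃ t0 : (ℕ → Fin 2 → Bool) → (ℕ → Fin 2 → Bool),
    Measurable t0 ∧ ∀ s, Links nx s (t0 s) := by
  refine ⟨fun s => fwd6_t0 hnx s, ?_, fun s => fwd6_links hnx s⟩
  refine measurable_pi_iff.2 fun κ => measurable_pi_iff.2 fun i => ?_
  exact fwd6_meas hnx i κ

end NB97_FWD6

end tasks

theorem forward {d : ℕ} (i0 : Fin d) (hnx : Next nx) (G : Geo j nx) (s t t' : ℕ → Fin 2 → Bool)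
    (ht : Links nx s t) (ht' : Links nx s t') (hg : Good j t) :
    IsStationaryRCSCovariance (fun x : EuclideanSpace ℝ (Fin d) => (Dsys G t').cov (x i0)) := by
  have h1 : (Dsys G t').cov = (Dsys G t).cov :=
    Sys.cov_congr fun k x => corr_inv hnx G s t' t ht' ht k x
  rw [h1]
  exact (Dsys G t).susp i0 (isClosed_DK G t hg) fun r hr => meas_near_DK G t r hr

end Pool.Agent.LibNB97
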