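import Pool.Agent.LibNB97.Basic
import Pool.Agent.LibNB97.Design

/-! # The correlations of the design do not depend on the hidden assignment -/

open MeasureTheory Set Filter Topology
open scoped ENNReal

namespace Pool.Agent.LibNB97

variable {j : ℕ → ℕ} {nx : ℕ → Fin 2 → ℕ}

section tasks

section NB97_INV1

/-- a bijection preserves the uniform law of a finite type -/
theorem inv1_unif {α : Type*} [Fintype α] [Nonempty α] [MeasurableSpace α]
    [MeasurableSingletonClass α] (e : α ≃ α) :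
    ((PMF.uniformOfFintype α).toMeasure).map e = (PMF.uniformOfFintype α).toMeasure := by
  have : Countable α := Finite.to_countable
  refine Measure.ext_of_singleton fun a => ?_
  rw [Measure.map_apply (measurable_of_countable _) (measurableSet_singleton a)]
  have h1 : (e ⁻¹' {a} : Set α) = {e.symm a} := by
    ext x
    simp [Equiv.eq_symm_apply]
  rw [h1, PMF.toMeasure_apply_singleton _ _ (measurableSet_singleton _),
    PMF.toMeasure_apply_singleton _ _ (measurableSet_singleton _)]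
  simp

/-- task INV1: a shear of the sample space preserves the law -/
theorem shear_mp (β : Fin 2 → Bool) (h : (Fin 2 → Bool) → ∀ q : ℕ, ZMod (u q)) :
    MeasurePreserving (fun ω : DΩ => ((fun i => xor (ω.1 i) (β i), fun q => ω.2 q + h ω.1 q) : DΩ))
      Dμ Dμ := by
  have hf : MeasurePreserving (fun w : Fin 2 → Bool => fun i => xor (w i) (β i)) unifW unifW := by
    refine ⟨measurable_of_countable _, ?_⟩
    let e : (Fin 2 → Bool) ≃ (Fin 2 → Bool) :=
      ⟨fun w i => xor (w i) (β i), fun w i => xor (w i) (β i), fun w => by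
        funext i; simp, fun w => by funext i; simp⟩
    exact inv1_unif e
  have hg : ∀ w : Fin 2 → Bool, (Measure.infinitePi unifZ).map
      (fun a : (∀ q : ℕ, ZMod (u q)) => fun q => a q + h w q) = Measure.infinitePi unifZ := by
    intro w
    have h1 := Measure.infinitePi_map_pi (μ := unifZ)
      (f := fun q (x : ZMod (u q)) => x + h w q) (fun q => measurable_of_countable _)
    rw [h1]
    congr 1
    funext q
    exact inv1_unif (Equiv.addRight (h w q))
  have hgm : Measurable (Function.uncurry (fun (w : Fin 2 → Bool)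
      (a : ∀ q : ℕ, ZMod (u q)) => (fun q => a q + h w q : ∀ q : ℕ, ZMod (u q)))) := by
    rw [measurable_pi_iff]
    intro q
    have h1 : Measurable (fun p : (Fin 2 → Bool) × ZMod (u q) => p.2 + h p.1 q) :=
      measurable_of_countable _
    exact h1.comp (measurable_fst.prodMk ((measurable_pi_apply q).comp measurable_snd))
  exact hf.skew_product hgm (Eventually.of_forall hg)

end NB97_INV1

section NB97_INV2

theorem inv2_meas_w0 : MeasurableSet {ω : DΩ | w0 ω} := by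
  have h1 : MeasurableSet {w : Fin 2 → Bool | ∀ i, w i = false} := by
    exact Set.Finite.measurableSet (Set.toFinite _)
  exact measurable_fst h1

theorem inv2_meas_pair (t : ℕ → Fin 2 → Bool) (Q Q' : Finset ℕ) (r r' : ℕ) (k : ℤ) :
    MeasurableSet {ω : DΩ | Ev t Q r ω ∧ Ev t Q' r' (DT k ω)} :=
  (measurableSet_Ev t Q r).inter ((measurableSet_Ev t Q' r').preimage (DT_mp k).measurable)

/-- task INV2: pairs of cells whose common indices see the same change of the assignment -/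
theorem pair_inv (t t' : ℕ → Fin 2 → Bool) (Q Q' : Finset ℕ) (r r' : ℕ) (k : ℤ)
    (β : Fin 2 → Bool) (hβ : ∀ q ∈ Q, q ∈ Q' → xor (t (gad q) (col q)) (t' (gad q) (col q)) =
      β (col q)) :
    Dμ {ω | Ev t Q r ω ∧ Ev t Q' r' (DT k ω)} = Dμ {ω | Ev t' Q r ω ∧ Ev t' Q' r' (DT k ω)} := by
  classical
  set h : (Fin 2 → Bool) → ∀ q : ℕ, ZMod (u q) := fun w q =>
    if q ∈ Q then ((r * (et t q w - et t' q (fun i => xor (w i) (β i))) : ℤ) : ZMod (u q))
    else if q ∈ Q' then ((r' * (et t q w - et t' q (fun i => xor (w i) (β i))) : ℤ) : ZMod (u q))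
    else 0 with hh
  have hmp := shear_mp β h
  have hco : ∀ q ∈ Q, q ∈ Q' → ∀ w : Fin 2 → Bool,
      et t q w = et t' q (fun i => xor (w i) (β i)) := by
    intro q hq hq' w
    change b2i (xor (t (gad q) (col q)) (w (col q))) =
      b2i (xor (t' (gad q) (col q)) (xor (w (col q)) (β (col q))))
    rw [← hβ q hq hq']
    congr 1
    cases t (gad q) (col q) <;> cases t' (gad q) (col q) <;> cases w (col q) <;> rfl
  have hQ : ∀ ω : DΩ, (Ev t' Q r ((fun i => xor (ω.1 i) (β i), fun q => ω.2 q + h ω.1 q) : DΩ) ↔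
      Ev t Q r ω) := by
    intro ω
    unfold Ev
    refine forall_congr' fun q => forall_congr' fun hq => ?_
    have e1 : h ω.1 q = ((r * (et t q ω.1 - et t' q (fun i => xor (ω.1 i) (β i))) : ℤ) :
        ZMod (u q)) := by simp only [hh]; rw [if_pos hq]
    change ω.2 q + h ω.1 q + ((r * et t' q (fun i => xor (ω.1 i) (β i)) : ℤ) : ZMod (u q)) = 0 ↔ _
    rw [e1]
    have e2 : ω.2 q + ((r * (et t q ω.1 - et t' q (fun i => xor (ω.1 i) (β i))) : ℤ) :
        ZMod (u q)) + ((r * et t' q (fun i => xor (ω.1 i) (β i)) : ℤ) : ZMod (u q)) =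
        ω.2 q + ((r * et t q ω.1 : ℤ) : ZMod (u q)) := by
      push_cast
      ring
    rw [e2]
  have hQ' : ∀ ω : DΩ, (Ev t' Q' r' (DT k ((fun i => xor (ω.1 i) (β i),
      fun q => ω.2 q + h ω.1 q) : DΩ)) ↔ Ev t Q' r' (DT k ω)) := by
    intro ω
    unfold Ev
    refine forall_congr' fun q => forall_congr' fun hq => ?_
    have e1 : h ω.1 q = ((r' * (et t q ω.1 - et t' q (fun i => xor (ω.1 i) (β i))) : ℤ) :
        ZMod (u q)) := by
      simp only [hh]
      by_cases hq2 : q ∈ Q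
      · rw [if_pos hq2, hco q hq2 hq ω.1, sub_self, mul_zero, mul_zero]
      · rw [if_neg hq2, if_pos hq]
    change ω.2 q + h ω.1 q + (k : ZMod (u q)) +
      ((r' * et t' q (fun i => xor (ω.1 i) (β i)) : ℤ) : ZMod (u q)) = 0 ↔
      ω.2 q + (k : ZMod (u q)) + ((r' * et t q ω.1 : ℤ) : ZMod (u q)) = 0
    rw [e1]
    have e2 : ω.2 q + ((r' * (et t q ω.1 - et t' q (fun i => xor (ω.1 i) (β i))) : ℤ) :
        ZMod (u q)) + (k : ZMod (u q)) +
        ((r' * et t' q (fun i => xor (ω.1 i) (β i)) : ℤ) : ZMod (u q)) =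
        ω.2 q + (k : ZMod (u q)) + ((r' * et t q ω.1 : ℤ) : ZMod (u q)) := by
      push_cast
      ring
    rw [e2]
  have h1 := hmp.measure_preimage (inv2_meas_pair t' Q Q' r r' k).nullMeasurableSet
  rw [← h1]
  congr 1
  ext ω
  exact and_congr (hQ ω).symm (hQ' ω).symm

/-- the shear used for the hidden bits -/
theorem inv2_shear (t t' : ℕ → Fin 2 → Bool) (Q : Finset ℕ) (r : ℕ) :
    ∃ Φ : DΩ → DΩ, MeasurePreserving Φ Dμ Dμ ∧ (∀ ω, (Φ ω).1 = ω.1) ∧
      ∀ (k : ℤ) ω, (Ev t' Q r (DT k (Φ ω)) ↔ Ev t Q r (DT k ω)) := by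
  classical
  set h : (Fin 2 → Bool) → ∀ q : ℕ, ZMod (u q) := fun w q =>
    ((r * (et t q w - et t' q w) : ℤ) : ZMod (u q)) with hh
  have hmp := shear_mp (fun _ => false) h
  refine ⟨_, hmp, fun ω => by funext i; simp, fun k ω => ?_⟩
  unfold Ev
  refine forall_congr' fun q => forall_congr' fun hq => ?_
  have e0 : (fun i => xor (ω.1 i) false) = ω.1 := by funext i; simp
  change ω.2 q + h ω.1 q + (k : ZMod (u q)) +
      ((r * et t' q (fun i => xor (ω.1 i) false) : ℤ) : ZMod (u q)) = 0 ↔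
      ω.2 q + (k : ZMod (u q)) + ((r * et t q ω.1 : ℤ) : ZMod (u q)) = 0
  rw [e0]
  have e2 : ω.2 q + h ω.1 q + (k : ZMod (u q)) + ((r * et t' q ω.1 : ℤ) : ZMod (u q)) =
      ω.2 q + (k : ZMod (u q)) + ((r * et t q ω.1 : ℤ) : ZMod (u q)) := by
    simp only [hh]
    push_cast
    ring
  rw [e2]

/-- task INV3: cells and the hidden bits are independent -/
theorem w0_inv (t t' : ℕ → Fin 2 → Bool) (Q : Finset ℕ) (r : ℕ) (k : ℤ) :
    Dμ {ω | w0 ω ∧ Ev t Q r (DT k ω)} = Dμ {ω | w0 ω ∧ Ev t' Q r (DT k ω)} ∧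
    Dμ {ω | ¬ w0 ω ∧ Ev t Q r (DT k ω)} = Dμ {ω | ¬ w0 ω ∧ Ev t' Q r (DT k ω)} ∧
    Dμ {ω | w0 ω ∧ Ev t Q r ω} = Dμ {ω | w0 ω ∧ Ev t' Q r ω} ∧
    Dμ {ω | ¬ w0 ω ∧ Ev t Q r ω} = Dμ {ω | ¬ w0 ω ∧ Ev t' Q r ω} := by
  obtain ⟨Φ, hΦ, h1, h2⟩ := inv2_shear t t' Q r
  have hw : ∀ ω, (w0 (Φ ω) ↔ w0 ω) := by
    intro ω
    unfold w0
    rw [h1]
  have hD0 : ∀ ω : DΩ, DT 0 ω = ω := by
    intro ω
    simp [DT]
  have h3 : ∀ ω, (Ev t' Q r (Φ ω) ↔ Ev t Q r ω) := by
    intro ω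
    have := h2 0 ω
    rwa [hD0, hD0] at this
  have m1 := (measurableSet_Ev t' Q r).preimage (DT_mp k).measurable
  have m2 := measurableSet_Ev t' Q r
  have m3 := inv2_meas_w0
  refine ⟨?_, ?_, ?_, ?_⟩
  · refine Eq.trans ?_ (hΦ.measure_preimage (m3.inter m1).nullMeasurableSet)
    congr 1
    ext ω
    exact and_congr (hw ω).symm (h2 k ω).symm
  · refine Eq.trans ?_ (hΦ.measure_preimage (m3.compl.inter m1).nullMeasurableSet)
    congr 1
    ext ω
    exact and_congr (not_congr (hw ω).symm) (h2 k ω).symm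
  · refine Eq.trans ?_ (hΦ.measure_preimage (m3.inter m2).nullMeasurableSet)
    congr 1
    ext ω
    exact and_congr (hw ω).symm (h3 ω).symm
  · refine Eq.trans ?_ (hΦ.measure_preimage (m3.compl.inter m2).nullMeasurableSet)
    congr 1
    ext ω
    exact and_congr (not_congr (hw ω).symm) (h3 ω).symm

end NB97_INV2


section NB97_INV4

theorem inv4_w0_DT (k : ℤ) (ω : DΩ) : w0 (DT k ω) ↔ w0 ω := Iff.rfl

theorem inv4_gad_qs {κ q : ℕ} (hq : q ∈ qs κ) : gad q = κ := by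
  unfold gad
  simp only [qs, Finset.mem_insert, Finset.mem_singleton] at hq
  omega

theorem inv4_gad_qB (σ : ℕ × Fin 2) : gad (qB σ) = σ.1 ∧ col (qB σ) = σ.2 := by
  have h := σ.2.isLt
  unfold gad qB col
  refine ⟨by omega, ?_⟩
  apply Fin.ext
  change (4 * σ.1 + 2 * (σ.2 : ℕ) + 1) / 2 % 2 = (σ.2 : ℕ)
  omega

theorem inv4_gad_qA (nx : ℕ → Fin 2 → ℕ) (σ : ℕ × Fin 2) :
    gad (qA nx σ) = nx σ.1 σ.2 ∧ col (qA nx σ) = σ.2 := by
  have h := σ.2.isLt
  unfold gad qA col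
  refine ⟨by omega, ?_⟩
  apply Fin.ext
  change (4 * nx σ.1 σ.2 + 2 * (σ.2 : ℕ)) / 2 % 2 = (σ.2 : ℕ)
  omega

/-- the change of the truth value at the indices of a link is the same at both ends -/
theorem inv4_link {s t t' : ℕ → Fin 2 → Bool} (ht : Links nx s t) (ht' : Links nx s t')
    (σ : ℕ × Fin 2) {q : ℕ} (hq : q ∈ lk nx σ) :
    xor (t (gad q) (col q)) (t' (gad q) (col q)) = xor (t σ.1 σ.2) (t' σ.1 σ.2) := by
  simp only [lk, Finset.mem_insert, Finset.mem_singleton] at hq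
  rcases hq with hq | hq
  · rw [hq, (inv4_gad_qB σ).1, (inv4_gad_qB σ).2]
  · rw [hq, (inv4_gad_qA nx σ).1, (inv4_gad_qA nx σ).2, ht, ht']
    cases t σ.1 σ.2 <;> cases t' σ.1 σ.2 <;> cases s σ.1 σ.2 <;> rfl

/-- a cell against a point which is not in a cell -/
theorem inv4_cell_left (t t' : ℕ → Fin 2 → Bool) (Q : Finset ℕ) (r : ℕ) (k : ℤ) (K' : Kind)
    (hK' : ∀ Q' r', K' ≠ .cell Q' r') :
    Dμ {ω | Ev t Q r ω ∧ K'.sat t (DT k ω)} = Dμ {ω | Ev t' Q r ω ∧ K'.sat t' (DT k ω)} := by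
  have h := w0_inv t t' Q r k
  cases K' with
  | all =>
    have h1 := pair_inv t t' Q ∅ r 0 k (fun _ => false) (fun q _ hq => by simp at hq)
    have e : ∀ (t : ℕ → Fin 2 → Bool) (ω : DΩ), Ev t ∅ 0 (DT k ω) := by
      intro t ω q hq
      simp at hq
    simpa [Kind.sat, e] using h1
  | none => simp [Kind.sat]
  | w =>
    have h1 : ∀ t : ℕ → Fin 2 → Bool, {ω | Ev t Q r ω ∧ Kind.w.sat t (DT k ω)} =
        {ω | w0 ω ∧ Ev t Q r ω} := by
      intro t
      ext ω
      exact and_comm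
    rw [h1, h1]
    exact h.2.2.1
  | nw =>
    have h1 : ∀ t : ℕ → Fin 2 → Bool, {ω | Ev t Q r ω ∧ Kind.nw.sat t (DT k ω)} =
        {ω | ¬ w0 ω ∧ Ev t Q r ω} := by
      intro t
      ext ω
      exact and_comm
    rw [h1, h1]
    exact h.2.2.2
  | cell Q' r' => exact absurd rfl (hK' Q' r')

theorem inv4_cell_right (t t' : ℕ → Fin 2 → Bool) (Q : Finset ℕ) (r : ℕ) (k : ℤ) (K' : Kind)
    (hK' : ∀ Q' r', K' ≠ .cell Q' r') :
    Dμ {ω | K'.sat t ω ∧ Ev t Q r (DT k ω)} = Dμ {ω | K'.sat t' ω ∧ Ev t' Q r (DT k ω)} := by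
  have h := w0_inv t t' Q r k
  cases K' with
  | all =>
    have h1 := pair_inv t t' ∅ Q 0 r k (fun _ => false) (fun q hq _ => by simp at hq)
    have e : ∀ (t : ℕ → Fin 2 → Bool) (ω : DΩ), Ev t ∅ 0 ω := by
      intro t ω q hq
      simp at hq
    simpa [Kind.sat, e] using h1
  | none => simp [Kind.sat]
  | w => exact h.1
  | nw => exact h.2.1
  | cell Q' r' => exact absurd rfl (hK' Q' r')

/-- two points outside the cells -/
theorem inv4_none (t t' : ℕ → Fin 2 → Bool) (K : Kind) (hK : ∀ Q r, K ≠ .cell Q r) (ω : DΩ) :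
    K.sat t ω ↔ K.sat t' ω := by
  cases K with
  | all => exact Iff.rfl
  | none => exact Iff.rfl
  | w => exact Iff.rfl
  | nw => exact Iff.rfl
  | cell Q' r' => exact absurd rfl (hK Q' r')

/-- task INV4: the pair probabilities of the contents of the regions -/
theorem FF_inv (hnx : Next nx) (G : Geo j nx) (s t t' : ℕ → Fin 2 → Bool) (ht : Links nx s t)
    (ht' : Links nx s t') (a b : Fin 8) (k : ℤ) (z y : ℝ) :
    Dμ {ω | z ∈ FF G t a ω ∧ y ∈ FF G t b (DT k ω)} =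
      Dμ {ω | z ∈ FF G t' a ω ∧ y ∈ FF G t' b (DT k ω)} := by
  obtain ⟨K, hK, hKc⟩ := exists_kind G a z
  obtain ⟨K', hK', hKc'⟩ := exists_kind G b y
  have e : ∀ t : ℕ → Fin 2 → Bool, {ω | z ∈ FF G t a ω ∧ y ∈ FF G t b (DT k ω)} =
      {ω | K.sat t ω ∧ K'.sat t (DT k ω)} := by
    intro t
    ext ω
    exact and_congr (hK t ω) (hK' t (DT k ω))
  rw [e, e]
  by_cases h1 : ∀ Q r, K ≠ .cell Q r
  · by_cases h2 : ∀ Q r, K' ≠ .cell Q r
    · congr 1
      ext ω
      exact and_congr (inv4_none t t' K h1 ω) (inv4_none t t' K' h2 _)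
    · push Not at h2
      obtain ⟨Q, r, h2⟩ := h2
      subst h2
      exact inv4_cell_right t t' Q r k K h1
  · push Not at h1
    obtain ⟨Q, r, h1⟩ := h1
    subst h1
    by_cases h2 : ∀ Q r, K' ≠ .cell Q r
    · exact inv4_cell_left t t' Q r k K' h2
    · push Not at h2
      obtain ⟨Q', r', h2⟩ := h2
      subst h2
      have hA : (∃ κ, Q = qs κ) ∨ ∃ σ, Q = lk nx σ := by
        rcases hKc Q r rfl with ⟨-, κ, h3, -⟩ | ⟨-, -, σ, h3, -⟩ | ⟨-, -, σ, h3, -⟩
        · exact Or.inl ⟨κ, h3⟩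
        · exact Or.inr ⟨σ, h3⟩
        · exact Or.inr ⟨σ, h3⟩
      have hB : (∃ κ, Q' = qs κ) ∨ ∃ σ, Q' = lk nx σ := by
        rcases hKc' Q' r' rfl with ⟨-, κ, h3, -⟩ | ⟨-, -, σ, h3, -⟩ | ⟨-, -, σ, h3, -⟩
        · exact Or.inl ⟨κ, h3⟩
        · exact Or.inr ⟨σ, h3⟩
        · exact Or.inr ⟨σ, h3⟩
      rcases hA with ⟨κ, hQ⟩ | ⟨σ, hQ⟩
      · refine pair_inv t t' Q Q' r r' k (fun i => xor (t κ i) (t' κ i)) ?_
        intro q hq _
        rw [hQ] at hq
        rw [inv4_gad_qs hq]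
      · rcases hB with ⟨κ, hQ'⟩ | ⟨σ', hQ'⟩
        · refine pair_inv t t' Q Q' r r' k (fun i => xor (t κ i) (t' κ i)) ?_
          intro q _ hq
          rw [hQ'] at hq
          rw [inv4_gad_qs hq]
        · refine pair_inv t t' Q Q' r r' k (fun _ => xor (t σ.1 σ.2) (t' σ.1 σ.2)) ?_
          intro q hq _
          rw [hQ] at hq
          exact inv4_link ht ht' σ hq

end NB97_INV4

section NB97_INV5

theorem inv5_sep : ∀ a b : Fin 8, gz a - gz b ≤ 1 → gz b - gz a ≤ 1 → a = b := by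
  decide

/-- every point lies in at most one region -/
theorem inv5_region (G : Geo j nx) (x : ℝ) :
    ∃ a : Fin 8, ∀ (t : ℕ → Fin 2 → Bool) (ω : DΩ), x ∈ DK G t ω ↔ x - gp a ∈ FF G t a ω := by
  by_cases h : ∃ a : Fin 8, x - gp a ∈ Icc (0:ℝ) 1
  · obtain ⟨a, ha⟩ := h
    refine ⟨a, fun t ω => ⟨?_, fun h => ⟨a, h⟩⟩⟩
    rintro ⟨b, hb⟩
    have hb2 := FF_sub G t b ω hb
    have e : a = b := by
      apply inv5_sep
      · have h1 : (gz a : ℝ) - gz b ≤ 1 := by
          rw [← gp_eq, ← gp_eq]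
          have := ha.1
          have := hb2.2
          linarith
        exact_mod_cast h1
      · have h1 : (gz b : ℝ) - gz a ≤ 1 := by
          rw [← gp_eq, ← gp_eq]
          have := ha.2
          have := hb2.1
          linarith
        exact_mod_cast h1
    rw [e]
    exact hb
  · refine ⟨0, fun t ω => ⟨?_, fun h => ⟨0, h⟩⟩⟩
    rintro ⟨b, hb⟩
    exact absurd ⟨b, FF_sub G t b ω hb⟩ h

/-- task INV5 -/
theorem corr_inv (hnx : Next nx) (G : Geo j nx) (s t t' : ℕ → Fin 2 → Bool) (ht : Links nx s t)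
    (ht' : Links nx s t') (k : ℤ) (x : ℝ) : (Dsys G t).corr k x = (Dsys G t').corr k x := by
  rw [Sys.corr_eq_integral, Sys.corr_eq_integral]
  congr 1
  funext y
  obtain ⟨a, ha⟩ := inv5_region G y
  obtain ⟨b, hb⟩ := inv5_region G (y + x)
  have h1 : ∀ t : ℕ → Fin 2 → Bool, (Dsys G t).pp k y (y + x) =
      (Dμ {ω | y - gp a ∈ FF G t a ω ∧ y + x - gp b ∈ FF G t b (DT k ω)}).toReal := by
    intro t
    change (Dμ {ω | y ∈ DK G t ω ∧ y + x ∈ DK G t (DT k ω)}).toReal = _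
    congr 2
    ext ω
    exact and_congr (ha t ω) (hb t (DT k ω))
  rw [h1, h1, FF_inv hnx G s t t' ht ht']

end NB97_INV5

end tasks

end Pool.Agent.LibNB97
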