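import Mathlib

/-! # Periodic block systems (`MP_81397d_pr`, the class of covariances is not Borel)

Blocks have length `221` and sit in super-blocks of length `884 = 4 * 221`.  A block consists of
eight unit regions `[gp a, gp a + 1]`. -/

open MeasureTheory Set Filter Topology
open scoped ENNReal

namespace Pool.Agent.LibNB97

/-- left end points of the eight unit regions of a block (four times a Golomb ruler) -/
noncomputable def gp : Fin 8 → ℝ := ![0, 4, 68, 92, 164, 172, 204, 220]

/-- A system: a probability space with a measure preserving action `T` of `ℤ` and a measurable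
family of subsets `K ω` of `[0, 221]` (the content of block `0`; block `k` has content
`K (T k ω)`). -/
structure Sys where
  /-- the probability space -/
  Ω : Type
  /-- its sigma-algebra -/
  [mΩ : MeasurableSpace Ω]
  /-- its probability measure -/
  μ : Measure Ω
  [pμ : IsProbabilityMeasure μ]
  /-- the action of `ℤ` -/
  T : ℤ → Ω → Ω
  T_zero : ∀ ω, T 0 ω = ω
  T_add : ∀ k l ω, T (k + l) ω = T k (T l ω)
  T_mp : ∀ k, MeasurePreserving (T k) μ μ
  /-- the content of block `0` -/
  K : Ω → Set ℝ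
  K_meas : MeasurableSet {p : Ω × ℝ | p.2 ∈ K p.1}
  K_sub : ∀ ω, K ω ⊆ Icc 0 221

attribute [instance] Sys.mΩ Sys.pμ

namespace Sys

variable (S : Sys)

/-- pair probability of the points `x` of block `0` and `y` of block `k` -/
noncomputable def pp (k : ℤ) (x y : ℝ) : ℝ := S.μ.real {ω | x ∈ S.K ω ∧ y ∈ S.K (S.T k ω)}

/-- the correlation of block `0` and block `k` -/
noncomputable def corr (k : ℤ) (s : ℝ) : ℝ :=
  (S.μ.prod volume).real {p | p.2 ∈ S.K p.1 ∧ p.2 + s ∈ S.K (S.T k p.1)}

/-- the periodic arrangement of the blocks on the line -/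
def X (ω : S.Ω) : Set ℝ := {y | ∃ k : ℤ, y - 884 * k ∈ S.K (S.T k ω)}

/-- the covariance of `X + θ`, `θ` uniform in `[0, 884)` -/
noncomputable def cov (t : ℝ) : ℝ :=
  (S.μ.prod volume).real {p | p.2 ∈ Ico (0:ℝ) 884 ∧ p.2 ∈ S.X p.1 ∧ p.2 + t ∈ S.X p.1} / 884

/-- the content of the `a`-th region, as a subset of `[0, 1]` -/
def reg (a : Fin 8) (ω : S.Ω) : Set ℝ := {z | z ∈ Icc (0:ℝ) 1 ∧ gp a + z ∈ S.K ω}

/-- pair probability of `z` in region `a` of block `0` and `y` in region `b` of block `k` -/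
noncomputable def R (a b : Fin 8) (k : ℤ) (z y : ℝ) : ℝ :=
  S.μ.real {ω | z ∈ S.reg a ω ∧ y ∈ S.reg b (S.T k ω)}

/-- the correlation of region `a` of block `0` and region `b` of block `k` -/
noncomputable def rc (a b : Fin 8) (k : ℤ) (u : ℝ) : ℝ := ∫ z, S.R a b k z (z + u)

/-- the content lies in the eight regions (almost everywhere) -/
def IsReg : Prop :=
  ∀ᵐ p ∂(S.μ.prod (volume : Measure ℝ)), p.2 ∈ S.K p.1 → ∃ a, p.2 - gp a ∈ Icc (0:ℝ) 1

/-- the point `z` of region `a` is an `N`-clock: almost surely it is covered exactly at the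
times of one residue class mod `N` -/
def IsClock (a : Fin 8) (z : ℝ) (N : ℕ) : Prop :=
  ∀ᵐ ω ∂S.μ, ∃ p : ℤ, ∀ k : ℤ, (z ∈ S.reg a (S.T k ω) ↔ (N : ℤ) ∣ k - p)

end Sys

/-! ### Moduli -/

/-- pairwise coprime moduli (Fermat numbers) -/
def u (q : ℕ) : ℕ := Nat.fermatNumber q

lemma three_le_u (q : ℕ) : 3 ≤ u q := Nat.three_le_fermatNumber q

instance (q : ℕ) : NeZero (u q) := ⟨by have := three_le_u q; omega⟩

lemma coprime_u {q q' : ℕ} (h : q ≠ q') : Nat.Coprime (u q) (u q') :=
  Nat.coprime_fermatNumber_fermatNumber h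

/-- the modulus of a finite set of indices -/
def md (Q : Finset ℕ) : ℕ := ∏ q ∈ Q, u q

/-- the four indices of gadget `κ`; `4 κ + 2 i + b` belongs to slot `i` -/
def qs (κ : ℕ) : Finset ℕ := {4 * κ, 4 * κ + 1, 4 * κ + 2, 4 * κ + 3}

/-- the slot (colour) of an index -/
def col (q : ℕ) : Fin 2 := ⟨(q / 2) % 2, Nat.mod_lt _ (by norm_num)⟩

/-- the gadget of an index -/
def gad (q : ℕ) : ℕ := q / 4

/-- the last index of slot `σ` -/
def qB (σ : ℕ × Fin 2) : ℕ := 4 * σ.1 + 2 * (σ.2 : ℕ) + 1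

/-- the first index of the slot following `σ` -/
def qA (nx : ℕ → Fin 2 → ℕ) (σ : ℕ × Fin 2) : ℕ := 4 * nx σ.1 σ.2 + 2 * (σ.2 : ℕ)

/-- the indices of the link from `σ` to the following slot -/
def lk (nx : ℕ → Fin 2 → ℕ) (σ : ℕ × Fin 2) : Finset ℕ := {qB σ, qA nx σ}

/-- `1` for `true` and `0` for `false` -/
def b2i (b : Bool) : ℤ := if b then 1 else 0

/-! ### Hidden assignments -/

/-- `nx κ i` is the gadget following `κ` in slot `i` -/
structure Next (nx : ℕ → Fin 2 → ℕ) : Prop where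
  lt : ∀ κ i, κ < nx κ i
  inj : ∀ i, Function.Injective fun κ => nx κ i

/-- the truth values `t` of the literals fit to the visible signs `s` of the links -/
def Links (nx : ℕ → Fin 2 → ℕ) (s t : ℕ → Fin 2 → Bool) : Prop :=
  ∀ κ i, t (nx κ i) i = xor (t κ i) (s κ i)

/-- in every region only finitely many gadgets have two true literals -/
def Good (j : ℕ → ℕ) (t : ℕ → Fin 2 → Bool) : Prop :=
  ∀ i, {κ | j κ = i ∧ t κ 0 = true ∧ t κ 1 = true}.Finite

end Pool.Agent.LibNB97
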