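import Mathlib

/-! # Point processes with the autocorrelation of clocks are clocks -/

open MeasureTheory Set Filter Topology
open scoped ENNReal InnerProductSpace

namespace Pool.Agent.LibNB97

section hilbert

variable {E : Type*} [NormedAddCommGroup E] [InnerProductSpace ℝ E] [CompleteSpace E]

/-- the vectors fixed by `U ^ N` -/
noncomputable def fixS (U : E →ₗᵢ[ℝ] E) (N : ℕ) : Submodule ℝ E :=
  (U ^ N).toContinuousLinearMap.eqLocus (1 : E →L[ℝ] E)

noncomputable instance (U : E →ₗᵢ[ℝ] E) (N : ℕ) : (fixS U N).HasOrthogonalProjection := by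
  unfold fixS; infer_instance

/-- projection to the vectors fixed by `U ^ N` -/
noncomputable def fixP (U : E →ₗᵢ[ℝ] E) (N : ℕ) : E →L[ℝ] E := (fixS U N).starProjection

section NB97_HIL1

section hilbert

variable {E : Type*} [NormedAddCommGroup E] [InnerProductSpace ℝ E] [CompleteSpace E]

lemma hil1_pow_apply (U : E →ₗᵢ[ℝ] E) (n : ℕ) (f : E) : (U ^ n) f = (⇑U)^[n] f := by
  induction n generalizing f with
  | zero => rfl
  | succ n ih =>
    rw [pow_succ, Function.iterate_succ_apply]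
    exact ih (U f)

lemma hil1_iter (U : E →ₗᵢ[ℝ] E) (N l : ℕ) (f : E) :
    (⇑(U ^ N).toContinuousLinearMap)^[l] f = (U ^ (N * l)) f := by
  rw [pow_mul]
  exact (hil1_pow_apply (U ^ N) l f).symm

/-- task HIL1 -/
theorem fixP_tendsto (U : E →ₗᵢ[ℝ] E) (N : ℕ) (f : E) :
    Tendsto (fun K : ℕ => (K : ℝ)⁻¹ • ∑ l ∈ Finset.range K, (U ^ (N * l)) f) atTop
      (𝓝 (fixP U N f)) := by
  have h1 : ‖(U ^ N).toContinuousLinearMap‖ ≤ 1 := (U ^ N).norm_toContinuousLinearMap_le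
  have h2 := (U ^ N).toContinuousLinearMap.tendsto_birkhoffAverage_orthogonalProjection h1 f
  have h3 : (fun K : ℕ => (K : ℝ)⁻¹ • ∑ l ∈ Finset.range K, (U ^ (N * l)) f) =
      (birkhoffAverage ℝ (U ^ N).toContinuousLinearMap _root_.id · f) := by
    funext K
    unfold birkhoffAverage birkhoffSum
    congr 1
    refine Finset.sum_congr rfl fun l _ => ?_
    exact (hil1_iter U N l f).symm
  rw [h3]
  exact h2

theorem fixP_norm_sq (U : E →ₗᵢ[ℝ] E) (N : ℕ) (f : E) : ⟪f, fixP U N f⟫_ℝ = ‖fixP U N f‖ ^ 2 := by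
  have h := Submodule.starProjection_inner_eq_zero (K := fixS U N) f (fixP U N f)
    (Submodule.starProjection_apply_mem (fixS U N) f)
  change ⟪f - fixP U N f, fixP U N f⟫_ℝ = 0 at h
  rw [inner_sub_left, real_inner_self_eq_norm_sq] at h
  linarith

theorem fixP_inner_tendsto (U : E →ₗᵢ[ℝ] E) (N : ℕ) (f : E) :
    Tendsto (fun K : ℕ => (K : ℝ)⁻¹ * ∑ l ∈ Finset.range K, ⟪f, (U ^ (N * l)) f⟫_ℝ) atTop
      (𝓝 (‖fixP U N f‖ ^ 2)) := by
  rw [← fixP_norm_sq]
  have h := (fixP_tendsto U N f)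
  have h2 : Tendsto (fun K : ℕ => ⟪f, (K : ℝ)⁻¹ • ∑ l ∈ Finset.range K, (U ^ (N * l)) f⟫_ℝ) atTop
      (𝓝 ⟪f, fixP U N f⟫_ℝ) := Tendsto.inner tendsto_const_nhds h
  refine h2.congr fun K => ?_
  rw [real_inner_smul_right, inner_sum]

theorem fixP_fixed (U : E →ₗᵢ[ℝ] E) (N : ℕ) (f : E) : (U ^ N) (fixP U N f) = fixP U N f := by
  have h : fixP U N f ∈ fixS U N := Submodule.starProjection_apply_mem (fixS U N) f
  unfold fixS at h
  simpa [LinearMap.mem_eqLocus] using h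

end hilbert

end NB97_HIL1




section NB97_HIL2

section hilbert

variable {E : Type*} [NormedAddCommGroup E] [InnerProductSpace ℝ E] [CompleteSpace E]

lemma hil2_add (U : E →ₗᵢ[ℝ] E) (m n : ℕ) (f : E) : (U ^ (m + n)) f = (U ^ m) ((U ^ n) f) := by
  rw [pow_add]
  rfl

/-- task HIL2 -/
theorem fixP_avg (U : E →ₗᵢ[ℝ] E) {N : ℕ} (hN : 0 < N) (f : E) :
    fixP U 1 f = (N : ℝ)⁻¹ • ∑ l ∈ Finset.range N, (U ^ l) (fixP U N f) := by
  -- averages along multiples of `N`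
  have h1 := fixP_tendsto U 1 f
  have h2 : Tendsto (fun K : ℕ => N * K) atTop atTop :=
    tendsto_id.const_mul_atTop' hN
  have h3 := h1.comp h2
  have h4 := fixP_tendsto U N f
  have h5 : Tendsto (fun K : ℕ => (N : ℝ)⁻¹ • ∑ l ∈ Finset.range N,
      (U ^ l) ((K : ℝ)⁻¹ • ∑ m ∈ Finset.range K, (U ^ (N * m)) f)) atTop
      (𝓝 ((N : ℝ)⁻¹ • ∑ l ∈ Finset.range N, (U ^ l) (fixP U N f))) := by
    refine Tendsto.const_smul ?_ _
    refine tendsto_finsetSum _ fun l _ => ?_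
    exact ((U ^ l).continuous.tendsto _).comp h4
  refine tendsto_nhds_unique h3 (h5.congr fun K => ?_)
  simp only [Function.comp_apply, one_mul, Nat.cast_mul, mul_inv, mul_smul, map_smul, map_sum]
  rw [← Finset.smul_sum]
  congr 2
  -- sum over `l < N`, `m < K` of `U ^ (l + N m)` is the sum over `n < N K`
  have key : ∀ K : ℕ, ∑ n ∈ Finset.range (N * K), (U ^ n) f =
      ∑ m ∈ Finset.range K, ∑ l ∈ Finset.range N, (U ^ (N * m + l)) f := by
    intro K
    induction K with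
    | zero => simp
    | succ K ih =>
      rw [Finset.sum_range_succ, ← ih, Nat.mul_succ, Finset.sum_range_add]
  rw [key, Finset.sum_comm]
  refine Finset.sum_congr rfl fun l _ => Finset.sum_congr rfl fun m _ => ?_
  rw [add_comm, hil2_add]

lemma hil2_fixed_pow (U : E →ₗᵢ[ℝ] E) (M : ℕ) (g : E) (hg : (U ^ M) g = g) (k r : ℕ) :
    (U ^ (r + M * k)) g = (U ^ r) g := by
  induction k with
  | zero => simp
  | succ k ih =>
    rw [Nat.mul_succ, ← add_assoc, hil2_add, hg, ih]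

lemma hil2_fixed_mod (U : E →ₗᵢ[ℝ] E) (M : ℕ) (g : E) (hg : (U ^ M) g = g) (n : ℕ) :
    (U ^ n) g = (U ^ (n % M)) g := by
  conv_lhs => rw [← Nat.mod_add_div n M]
  exact hil2_fixed_pow U M g hg _ _

theorem fixP_coprime (U : E →ₗᵢ[ℝ] E) {N M : ℕ} (hN : 0 < N) (hM : 0 < M) (h : N.Coprime M)
    (f : E) : fixP U N (fixP U M f) = fixP U 1 f := by
  set g := fixP U M f with hgdef
  have hg : (U ^ M) g = g := fixP_fixed U M f
  -- averages over blocks of length `M`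
  have h1 := fixP_tendsto U N g
  have h2 : Tendsto (fun K : ℕ => M * K) atTop atTop := tendsto_id.const_mul_atTop' hM
  have h3 := h1.comp h2
  have block : ∀ K : ℕ, ∑ n ∈ Finset.range (M * K), (U ^ (N * n)) g =
      (K : ℝ) • ∑ l ∈ Finset.range M, (U ^ l) g := by
    intro K
    induction K with
    | zero => simp
    | succ K ih =>
      rw [Nat.mul_succ, Finset.sum_range_add, ih, Nat.cast_succ, add_smul, one_smul]
      congr 1
      -- `l ↦ N (M K + l) mod M` is a permutation of the residues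
      have e : ∀ l, (U ^ (N * (M * K + l))) g = (U ^ ((N * l) % M)) g := by
        intro l
        rw [hil2_fixed_mod U M g hg (N * (M * K + l))]
        congr 2
        rw [Nat.mul_add, ← mul_assoc, mul_comm N M, mul_assoc, Nat.mul_add_mod]
      simp only [e]
      refine Finset.sum_nbij (fun l => (N * l) % M) ?_ ?_ ?_ ?_
      · intro l _
        exact Finset.mem_range.mpr (Nat.mod_lt _ hM)
      · intro a ha b hb hab
        have ha' : a < M := by simpa using ha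
        have hb' : b < M := by simpa using hb
        have h5 : N * a ≡ N * b [MOD M] := hab
        have h6 : a ≡ b [MOD M] := Nat.ModEq.cancel_left_of_coprime h.symm h5
        exact Nat.ModEq.eq_of_lt_of_lt h6 ha' hb'
      · have hinj : Set.InjOn (fun l => (N * l) % M) (Finset.range M : Set ℕ) := by
          intro a ha b hb hab
          have ha' : a < M := by simpa using ha
          have hb' : b < M := by simpa using hb
          have h5 : N * a ≡ N * b [MOD M] := hab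
          have h6 : a ≡ b [MOD M] := Nat.ModEq.cancel_left_of_coprime h.symm h5
          exact Nat.ModEq.eq_of_lt_of_lt h6 ha' hb'
        have hmaps : Set.MapsTo (fun l => (N * l) % M) (Finset.range M : Set ℕ)
            (Finset.range M : Set ℕ) := by
          intro l _
          simpa using Nat.mod_lt _ hM
        exact Finset.surjOn_of_injOn_of_card_le _ hmaps hinj le_rfl
      · intro l _
        rfl
  have h4 : Tendsto ((fun K : ℕ => (K : ℝ)⁻¹ • ∑ l ∈ Finset.range K, (U ^ (N * l)) g) ∘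
      fun K : ℕ => M * K) atTop (𝓝 (fixP U 1 f)) := by
    refine Tendsto.congr' ?_ tendsto_const_nhds
    filter_upwards [eventually_gt_atTop 0] with K hK
    have hK' : (K : ℝ) ≠ 0 := by exact_mod_cast hK.ne'
    simp only [Function.comp_apply]
    rw [block, Nat.cast_mul, mul_inv, smul_smul, mul_assoc, inv_mul_cancel₀ hK', mul_one]
    exact fixP_avg U hM f
  exact tendsto_nhds_unique h3 h4

end hilbert

end NB97_HIL2


section NB97_HIL3

section hilbert

variable {E : Type*} [NormedAddCommGroup E] [InnerProductSpace ℝ E] [CompleteSpace E]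

/-- symmetry of the projection -/
lemma hil3_symm (U : E →ₗᵢ[ℝ] E) (N : ℕ) (f g : E) : ⟪fixP U N f, g⟫_ℝ = ⟪f, fixP U N g⟫_ℝ := by
  exact Submodule.inner_starProjection_left_eq_right (fixS U N) f g

lemma hil3_idem (U : E →ₗᵢ[ℝ] E) (N : ℕ) (f : E) : fixP U N (fixP U N f) = fixP U N f := by
  exact Submodule.starProjection_eq_self_iff.mpr
    (Submodule.starProjection_apply_mem (fixS U N) f)

lemma hil3_one (U : E →ₗᵢ[ℝ] E) {N : ℕ} (hN : 0 < N) (f : E) :
    fixP U 1 (fixP U N f) = fixP U 1 f := by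
  have h := fixP_coprime U (N := 1) (M := N) one_pos hN (Nat.coprime_one_left N) f
  exact h

lemma hil3_one' (U : E →ₗᵢ[ℝ] E) {N : ℕ} (hN : 0 < N) (f : E) :
    fixP U N (fixP U 1 f) = fixP U 1 f := by
  have h := fixP_coprime U (N := N) (M := 1) hN one_pos (Nat.coprime_one_right N) f
  exact h

/-- inner products of projections with coprime indices -/
lemma hil3_inner (U : E →ₗᵢ[ℝ] E) {N M : ℕ} (hN : 0 < N) (hM : 0 < M) (h : N.Coprime M) (f : E) :
    ⟪fixP U N f - fixP U 1 f, fixP U M f - fixP U 1 f⟫_ℝ = 0 := by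
  have e1 : ⟪fixP U N f, fixP U M f⟫_ℝ = ⟪f, fixP U 1 f⟫_ℝ := by
    rw [hil3_symm, fixP_coprime U hN hM h]
  have e2 : ⟪fixP U N f, fixP U 1 f⟫_ℝ = ⟪f, fixP U 1 f⟫_ℝ := by
    rw [hil3_symm, hil3_one' U hN]
  have e3 : ⟪fixP U 1 f, fixP U M f⟫_ℝ = ⟪f, fixP U 1 f⟫_ℝ := by
    rw [hil3_symm, hil3_one U hM]
  have e4 : ⟪fixP U 1 f, fixP U 1 f⟫_ℝ = ⟪f, fixP U 1 f⟫_ℝ := by
    rw [hil3_symm, hil3_idem]
  rw [inner_sub_left, inner_sub_right, inner_sub_right, e1, e2, e3, e4]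
  ring

/-- the square norms -/
lemma hil3_normsq (U : E →ₗᵢ[ℝ] E) {N : ℕ} (hN : 0 < N) (f : E) :
    ‖fixP U N f - fixP U 1 f‖ ^ 2 = ‖fixP U N f‖ ^ 2 - ‖fixP U 1 f‖ ^ 2 := by
  have e1 : ⟪fixP U N f, fixP U N f⟫_ℝ = ⟪f, fixP U N f⟫_ℝ := by
    rw [hil3_symm, hil3_idem]
  have e2 : ⟪fixP U N f, fixP U 1 f⟫_ℝ = ⟪f, fixP U 1 f⟫_ℝ := by
    rw [hil3_symm, hil3_one' U hN]
  have e3 : ⟪fixP U 1 f, fixP U N f⟫_ℝ = ⟪f, fixP U 1 f⟫_ℝ := by
    rw [hil3_symm, hil3_one U hN]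
  have e4 : ⟪fixP U 1 f, fixP U 1 f⟫_ℝ = ⟪f, fixP U 1 f⟫_ℝ := by
    rw [hil3_symm, hil3_idem]
  rw [← real_inner_self_eq_norm_sq, ← real_inner_self_eq_norm_sq, ← real_inner_self_eq_norm_sq,
    inner_sub_left, inner_sub_right, inner_sub_right, e1, e2, e3, e4]
  ring

/-- the inner product with the vector itself -/
lemma hil3_self (U : E →ₗᵢ[ℝ] E) {N : ℕ} (hN : 0 < N) (f : E) :
    ⟪f - fixP U 1 f, fixP U N f - fixP U 1 f⟫_ℝ = ‖fixP U N f - fixP U 1 f‖ ^ 2 := by
  have e1 : ⟪f, fixP U N f⟫_ℝ = ‖fixP U N f‖ ^ 2 := fixP_norm_sq U N f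
  have e2 : ⟪f, fixP U 1 f⟫_ℝ = ‖fixP U 1 f‖ ^ 2 := fixP_norm_sq U 1 f
  have e3 : ⟪fixP U 1 f, fixP U N f⟫_ℝ = ⟪f, fixP U 1 f⟫_ℝ := by
    rw [hil3_symm, hil3_one U hN]
  have e4 : ⟪fixP U 1 f, fixP U 1 f⟫_ℝ = ⟪f, fixP U 1 f⟫_ℝ := by
    rw [hil3_symm, hil3_idem]
  rw [hil3_normsq U hN, inner_sub_left, inner_sub_right, inner_sub_right, e3, e4, e1, e2]
  ring

/-- distance to the partial sums -/
lemma hil3_finset (U : E →ₗᵢ[ℝ] E) {ι : Type*} (N : ι → ℕ) (hN : ∀ i, 0 < N i)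
    (hco : ∀ i i', i ≠ i' → (N i).Coprime (N i')) (f : E) (s : Finset ι) :
    ‖(f - fixP U 1 f) - ∑ i ∈ s, (fixP U (N i) f - fixP U 1 f)‖ ^ 2 =
      (‖f‖ ^ 2 - ‖fixP U 1 f‖ ^ 2) - ∑ i ∈ s, (‖fixP U (N i) f‖ ^ 2 - ‖fixP U 1 f‖ ^ 2) := by
  classical
  set v : ι → E := fun i => fixP U (N i) f - fixP U 1 f with hv
  set g := f - fixP U 1 f with hg
  have h1 : ∀ i, ⟪g, v i⟫_ℝ = ‖v i‖ ^ 2 := fun i => hil3_self U (hN i) f
  have h2 : ∀ i j, i ≠ j → ⟪v i, v j⟫_ℝ = 0 := fun i j hij =>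
    hil3_inner U (hN i) (hN j) (hco i j hij) f
  have h3 : ∀ i, ‖fixP U (N i) f‖ ^ 2 - ‖fixP U 1 f‖ ^ 2 = ‖v i‖ ^ 2 := fun i =>
    (hil3_normsq U (hN i) f).symm
  have h4 : ‖g‖ ^ 2 = ‖f‖ ^ 2 - ‖fixP U 1 f‖ ^ 2 := by
    have e2 : ⟪f, fixP U 1 f⟫_ℝ = ‖fixP U 1 f‖ ^ 2 := fixP_norm_sq U 1 f
    have e3 : ⟪fixP U 1 f, f⟫_ℝ = ‖fixP U 1 f‖ ^ 2 := by rw [real_inner_comm]; exact e2
    rw [hg, ← real_inner_self_eq_norm_sq, inner_sub_left, inner_sub_right, inner_sub_right, e2, e3,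
      real_inner_self_eq_norm_sq, real_inner_self_eq_norm_sq]
    ring
  have h5 : ⟪g, ∑ i ∈ s, v i⟫_ℝ = ∑ i ∈ s, ‖v i‖ ^ 2 := by
    rw [inner_sum]
    exact Finset.sum_congr rfl fun i _ => h1 i
  have h6 : ⟪∑ i ∈ s, v i, ∑ i ∈ s, v i⟫_ℝ = ∑ i ∈ s, ‖v i‖ ^ 2 := by
    rw [sum_inner]
    refine Finset.sum_congr rfl fun i hi => ?_
    rw [inner_sum, Finset.sum_eq_single i]
    · exact real_inner_self_eq_norm_sq _
    · intro j _ hj
      exact h2 i j (Ne.symm hj)
    · intro hh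
      exact absurd hi hh
  have h9 : ‖∑ i ∈ s, v i‖ ^ 2 = ∑ i ∈ s, ‖v i‖ ^ 2 := by
    rw [← real_inner_self_eq_norm_sq]
    exact h6
  rw [norm_sub_sq_real, h5, h9, h4]
  have h8 : ∑ i ∈ s, (‖fixP U (N i) f‖ ^ 2 - ‖fixP U 1 f‖ ^ 2) = ∑ i ∈ s, ‖v i‖ ^ 2 :=
    Finset.sum_congr rfl fun i _ => h3 i
  rw [h8]
  ring

/-- task HIL3: Bessel -/
theorem bessel_le (U : E →ₗᵢ[ℝ] E) {ι : Type*} (N : ι → ℕ) (hN : ∀ i, 0 < N i)
    (hco : ∀ i i', i ≠ i' → (N i).Coprime (N i')) (f : E) :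
    Summable (fun i => ‖fixP U (N i) f‖ ^ 2 - ‖fixP U 1 f‖ ^ 2) ∧
      ∑' i, (‖fixP U (N i) f‖ ^ 2 - ‖fixP U 1 f‖ ^ 2) ≤ ‖f‖ ^ 2 - ‖fixP U 1 f‖ ^ 2 ∧
      ∀ i, 0 ≤ ‖fixP U (N i) f‖ ^ 2 - ‖fixP U 1 f‖ ^ 2 := by
  have h0 : ∀ i, 0 ≤ ‖fixP U (N i) f‖ ^ 2 - ‖fixP U 1 f‖ ^ 2 := by
    intro i
    rw [← hil3_normsq U (hN i)]
    positivity
  have h1 : ∀ s : Finset ι, ∑ i ∈ s, (‖fixP U (N i) f‖ ^ 2 - ‖fixP U 1 f‖ ^ 2) ≤
      ‖f‖ ^ 2 - ‖fixP U 1 f‖ ^ 2 := by
    intro s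
    have h2 := hil3_finset U N hN hco f s
    have h3 : 0 ≤ ‖(f - fixP U 1 f) - ∑ i ∈ s, (fixP U (N i) f - fixP U 1 f)‖ ^ 2 := by positivity
    linarith
  have hs : Summable (fun i => ‖fixP U (N i) f‖ ^ 2 - ‖fixP U 1 f‖ ^ 2) :=
    summable_of_sum_le h0 h1
  exact ⟨hs, hs.tsum_le_of_sum_le h1, h0⟩

theorem bessel_eq (U : E →ₗᵢ[ℝ] E) {ι : Type*} (N : ι → ℕ) (hN : ∀ i, 0 < N i)
    (hco : ∀ i i', i ≠ i' → (N i).Coprime (N i')) (f : E)
    (h : ∑' i, (‖fixP U (N i) f‖ ^ 2 - ‖fixP U 1 f‖ ^ 2) = ‖f‖ ^ 2 - ‖fixP U 1 f‖ ^ 2) :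
    HasSum (fun i => fixP U (N i) f - fixP U 1 f) (f - fixP U 1 f) := by
  obtain ⟨hs, _, _⟩ := bessel_le U N hN hco f
  have h1 := hs.hasSum
  rw [h] at h1
  unfold HasSum at h1 ⊢
  rw [tendsto_iff_norm_sub_tendsto_zero]
  have h2 : Tendsto (fun s : Finset ι => ‖(f - fixP U 1 f) -
      ∑ i ∈ s, (fixP U (N i) f - fixP U 1 f)‖ ^ 2) (SummationFilter.unconditional ι).filter (𝓝 0) := by
    have h3 := (tendsto_const_nhds (x := ‖f‖ ^ 2 - ‖fixP U 1 f‖ ^ 2)).sub h1
    rw [sub_self] at h3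
    refine h3.congr fun s => ?_
    exact (hil3_finset U N hN hco f s).symm
  have h4 := h2.sqrt
  rw [Real.sqrt_zero] at h4
  refine h4.congr fun s => ?_
  rw [Real.sqrt_sq (norm_nonneg _), norm_sub_rev]

end hilbert

end NB97_HIL3


end hilbert

section koopman

variable {Ω : Type*} [MeasurableSpace Ω] (μ : Measure Ω) [IsProbabilityMeasure μ]

/-- the Koopman isometry -/
noncomputable def koop {T : Ω → Ω} (hT : MeasurePreserving T μ μ) : Lp ℝ 2 μ →ₗᵢ[ℝ] Lp ℝ 2 μ :=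
  Lp.compMeasurePreservingₗᵢ ℝ T hT

/-- the indicator function as a vector -/
noncomputable def indv {A : Set Ω} (hA : MeasurableSet A) : Lp ℝ 2 μ :=
  indicatorConstLp 2 hA (measure_ne_top μ A) (1 : ℝ)

/-- the constant function as a vector -/
noncomputable def cst (c : ℝ) : Lp ℝ 2 μ := Lp.const 2 μ c

section NB97_KOO1

section koopman

variable {Ω : Type*} [MeasurableSpace Ω] (μ : Measure Ω) [IsProbabilityMeasure μ]

/-- task KOO1 -/
theorem koop_pow {T : ℤ → Ω → Ω} (T_zero : ∀ ω, T 0 ω = ω)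
    (T_add : ∀ k l ω, T (k + l) ω = T k (T l ω)) (T_mp : ∀ k, MeasurePreserving (T k) μ μ)
    (n : ℕ) (f : Lp ℝ 2 μ) : ((koop μ (T_mp 1)) ^ n) f =ᵐ[μ] fun ω => f (T n ω) := by
  induction n generalizing f with
  | zero =>
    refine Eventually.of_forall fun ω => ?_
    simp [T_zero]
  | succ n ih =>
    have e : ((koop μ (T_mp 1)) ^ (n + 1)) f = ((koop μ (T_mp 1)) ^ n) (koop μ (T_mp 1) f) := by
      rw [pow_succ]
      rfl
    rw [e]
    have h1 := ih (koop μ (T_mp 1) f)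
    have h2 : (koop μ (T_mp 1) f : Lp ℝ 2 μ) =ᵐ[μ] f ∘ (T 1) :=
      Lp.coeFn_compMeasurePreserving f (T_mp 1)
    have h3 : ∀ᵐ ω ∂μ, (koop μ (T_mp 1) f : Lp ℝ 2 μ) (T n ω) = f (T 1 (T n ω)) :=
      (T_mp n).quasiMeasurePreserving.ae h2
    filter_upwards [h1, h3] with ω hω1 hω3
    rw [hω1, hω3, ← T_add]
    congr 2
    push_cast
    ring

theorem koop_inner {T : ℤ → Ω → Ω} (T_zero : ∀ ω, T 0 ω = ω)
    (T_add : ∀ k l ω, T (k + l) ω = T k (T l ω)) (T_mp : ∀ k, MeasurePreserving (T k) μ μ)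
    {A : Set Ω} (hA : MeasurableSet A) (n : ℕ) :
    ⟪indv μ hA, ((koop μ (T_mp 1)) ^ n) (indv μ hA)⟫_ℝ = μ.real {ω | ω ∈ A ∧ T n ω ∈ A} := by
  have h0 : ⟪indv μ hA, ((koop μ (T_mp 1)) ^ n) (indv μ hA)⟫_ℝ =
      ∫ ω in A, ((koop μ (T_mp 1)) ^ n) (indv μ hA) ω ∂μ :=
    L2.inner_indicatorConstLp_one hA (measure_ne_top μ A) _
  rw [h0]
  have h1 := koop_pow μ T_zero T_add T_mp n (indv μ hA)
  have h2 : (indv μ hA : Lp ℝ 2 μ) =ᵐ[μ] A.indicator fun _ => (1 : ℝ) := indicatorConstLp_coeFn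
  have h3 : ∀ᵐ ω ∂μ, (indv μ hA : Lp ℝ 2 μ) (T n ω) = A.indicator (fun _ => (1 : ℝ)) (T n ω) :=
    (T_mp n).quasiMeasurePreserving.ae h2
  have h4 : ∀ᵐ ω ∂μ, ((koop μ (T_mp 1)) ^ n) (indv μ hA) ω =
      ((T n) ⁻¹' A).indicator (fun _ => (1 : ℝ)) ω := by
    filter_upwards [h1, h3] with ω a b
    rw [a, b]
    rfl
  have hm : MeasurableSet ((T n) ⁻¹' A) := (T_mp n).measurable hA
  rw [setIntegral_congr_ae hA (h4.mono fun ω h _ => h), setIntegral_indicator hm,
    setIntegral_const, smul_eq_mul, mul_one]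
  rfl

end koopman

end NB97_KOO1


section NB97_KOO1b

section koopman

variable {Ω : Type*} [MeasurableSpace Ω] (μ : Measure Ω) [IsProbabilityMeasure μ]

lemma koo1b_cst {T : Ω → Ω} (hT : MeasurePreserving T μ μ) (c : ℝ) :
    koop μ hT (cst μ c) = cst μ c := by
  apply Lp.ext
  have h1 : (koop μ hT (cst μ c) : Lp ℝ 2 μ) =ᵐ[μ] (cst μ c : Lp ℝ 2 μ) ∘ T :=
    Lp.coeFn_compMeasurePreserving (cst μ c) hT
  have h2 : (cst μ c : Lp ℝ 2 μ) =ᵐ[μ] Function.const Ω c := Lp.coeFn_const _ _ _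
  have h3 : ∀ᵐ ω ∂μ, (cst μ c : Lp ℝ 2 μ) (T ω) = c := hT.quasiMeasurePreserving.ae h2
  filter_upwards [h1, h2, h3] with ω a b d
  rw [a, Function.comp_apply, d, b]
  rfl

lemma koo1b_inner {A : Set Ω} (hA : MeasurableSet A) (c : ℝ) :
    ⟪indv μ hA, cst μ c⟫_ℝ = c * μ.real A := by
  have h0 : ⟪indv μ hA, cst μ c⟫_ℝ = ∫ ω in A, (cst μ c : Lp ℝ 2 μ) ω ∂μ :=
    L2.inner_indicatorConstLp_one hA (measure_ne_top μ A) _
  have h2 : (cst μ c : Lp ℝ 2 μ) =ᵐ[μ] Function.const Ω c := Lp.coeFn_const _ _ _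
  have h3 : ∫ ω in A, (cst μ c : Lp ℝ 2 μ) ω ∂μ = ∫ ω in A, c ∂μ :=
    setIntegral_congr_ae hA (h2.mono fun ω h _ => h)
  rw [h0, h3, setIntegral_const, smul_eq_mul, mul_comm]

lemma koo1b_norm (c : ℝ) : ‖cst μ c‖ ^ 2 = c ^ 2 := by
  have h : ‖(cst μ c : Lp ℝ 2 μ)‖ = ‖c‖ * μ.real Set.univ ^ (1 / (2 : ℝ≥0∞).toReal) :=
    Lp.norm_const' 2 μ c (by norm_num) (by norm_num)
  rw [h]
  simp

/-- the mean is smaller than the projection, with equality only for constant projection -/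
theorem mean_sq_le {T : ℤ → Ω → Ω} (T_zero : ∀ ω, T 0 ω = ω)
    (T_add : ∀ k l ω, T (k + l) ω = T k (T l ω)) (T_mp : ∀ k, MeasurePreserving (T k) μ μ)
    {A : Set Ω} (hA : MeasurableSet A) :
    μ.real A ^ 2 ≤ ‖fixP (koop μ (T_mp 1)) 1 (indv μ hA)‖ ^ 2 ∧
    (μ.real A ^ 2 = ‖fixP (koop μ (T_mp 1)) 1 (indv μ hA)‖ ^ 2 →
      fixP (koop μ (T_mp 1)) 1 (indv μ hA) = cst μ (μ.real A)) := by
  set U := koop μ (T_mp 1) with hU
  set m := μ.real A with hm
  set f := indv μ hA with hf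
  have hfix : fixP U 1 (cst μ m) = cst μ m := by
    apply Submodule.starProjection_eq_self_iff.mpr
    unfold fixS
    have h1 : U (cst μ m) = cst μ m := koo1b_cst μ (T_mp 1) m
    simpa [LinearMap.mem_eqLocus] using h1
  have hin : ⟪fixP U 1 f, cst μ m⟫_ℝ = m * m := by
    have h1 : ⟪fixP U 1 f, cst μ m⟫_ℝ = ⟪f, fixP U 1 (cst μ m)⟫_ℝ :=
      Submodule.inner_starProjection_left_eq_right (fixS U 1) f (cst μ m)
    rw [h1, hfix, hf, koo1b_inner]
  have key : ‖fixP U 1 f - cst μ m‖ ^ 2 = ‖fixP U 1 f‖ ^ 2 - m ^ 2 := by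
    rw [norm_sub_sq_real, hin, koo1b_norm]
    ring
  refine ⟨?_, fun h => ?_⟩
  · have : 0 ≤ ‖fixP U 1 f - cst μ m‖ ^ 2 := by positivity
    linarith
  · have h1 : ‖fixP U 1 f - cst μ m‖ ^ 2 = 0 := by rw [key, h, sub_self]
    have h2 : ‖fixP U 1 f - cst μ m‖ = 0 := by
      exact pow_eq_zero_iff (two_ne_zero) |>.mp h1
    exact sub_eq_zero.mp (norm_eq_zero.mp h2)

/-- task KOO2: limits of indicator functions are indicator functions -/
theorem isClosed_ind : IsClosed {f : Lp ℝ 2 μ | ∀ᵐ ω ∂μ, f ω = 0 ∨ f ω = 1} := by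
  apply IsSeqClosed.isClosed
  intro x f hx hlim
  have h1 : TendstoInMeasure μ (fun n => (x n : Ω → ℝ)) atTop f :=
    tendstoInMeasure_of_tendsto_Lp hlim
  obtain ⟨ns, _, hns⟩ := h1.exists_seq_tendsto_ae
  have h2 : ∀ᵐ ω ∂μ, ∀ n, (x n : Lp ℝ 2 μ) ω = 0 ∨ (x n : Lp ℝ 2 μ) ω = 1 :=
    ae_all_iff.mpr fun n => hx n
  change ∀ᵐ ω ∂μ, f ω = 0 ∨ f ω = 1
  filter_upwards [hns, h2] with ω ha hb
  have hc : IsClosed ({0, 1} : Set ℝ) := (Set.toFinite _).isClosed
  have h3 : f ω ∈ ({0, 1} : Set ℝ) :=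
    hc.mem_of_tendsto ha (Eventually.of_forall fun n => hb (ns n))
  simpa using h3

end koopman

end NB97_KOO1b


section NB97_KOO3

section koopman

variable {Ω : Type*} [MeasurableSpace Ω] (μ : Measure Ω) [IsProbabilityMeasure μ]

theorem koo3_pow_mul {E : Type*} [NormedAddCommGroup E] [InnerProductSpace ℝ E]
    (U : E →ₗᵢ[ℝ] E) (v : E) (N : ℕ) (h : (U ^ N) v = v) (m : ℕ) : (U ^ (N * m)) v = v := by
  induction m with
  | zero => simp
  | succ m ih =>
    rw [Nat.mul_succ, pow_add]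
    change (U ^ (N * m)) ((U ^ N) v) = v
    rw [h, ih]

theorem koo3_pow_modEq {E : Type*} [NormedAddCommGroup E] [InnerProductSpace ℝ E]
    (U : E →ₗᵢ[ℝ] E) (v : E) (N : ℕ) (h : (U ^ N) v = v) {a b : ℕ} (hab : a ≡ b [MOD N]) :
    (U ^ a) v = (U ^ b) v := by
  have key : ∀ x : ℕ, (U ^ x) v = (U ^ (x % N)) v := by
    intro x
    conv_lhs => rw [← Nat.mod_add_div x N, pow_add]
    change (U ^ (x % N)) ((U ^ (N * (x / N))) v) = _
    rw [koo3_pow_mul U v N h]
  rw [key a, key b]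
  have : a % N = b % N := hab
  rw [this]

/-- Chinese remainder for a finite set of indices -/
theorem koo3_crt {ι : Type*} [DecidableEq ι] (N : ι → ℕ) 
    (hco : ∀ i i', i ≠ i' → (N i).Coprime (N i')) (r : ι → ℕ) (F : Finset ι) :
    ∃ t : ℕ, ∀ i ∈ F, t ≡ r i [MOD N i] := by
  induction F using Finset.induction_on with
  | empty => exact ⟨0, by simp⟩
  | insert a s ha ih =>
    obtain ⟨t, ht⟩ := ih
    have hc : (N a).Coprime (∏ i ∈ s, N i) :=
      Nat.Coprime.prod_right fun i hi => hco a i (fun h => ha (h ▸ hi))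
    obtain ⟨u, hu1, hu2⟩ := Nat.chineseRemainder hc (r a) t
    refine ⟨u, fun i hi => ?_⟩
    rcases Finset.mem_insert.1 hi with rfl | hi
    · exact hu1
    · exact (hu2.of_dvd (Finset.dvd_prod_of_mem N hi)).trans (ht i hi)

/-- task KOO3: independent shifts of two components keep the values `0`, `1` -/
theorem two_shifts {T : ℤ → Ω → Ω} (T_zero : ∀ ω, T 0 ω = ω)
    (T_add : ∀ k l ω, T (k + l) ω = T k (T l ω)) (T_mp : ∀ k, MeasurePreserving (T k) μ μ)
    {A : Set Ω} (hA : MeasurableSet A) {ι : Type*} (N : ι → ℕ) (hN : ∀ i, 2 ≤ N i)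
    (hco : ∀ i i', i ≠ i' → (N i).Coprime (N i')) (c : ℝ) (g : ι → Lp ℝ 2 μ)
    (hg : ∀ i, ((koop μ (T_mp 1)) ^ (N i)) (g i) = g i)
    (hs : HasSum g (indv μ hA - cst μ c)) (i i' : ι) (hi : i ≠ i') (k l : ℕ) :
    ∀ᵐ ω ∂μ, ((indv μ hA : Lp ℝ 2 μ) ω + (g i (T k ω) - g i ω) + (g i' (T l ω) - g i' ω) = 0 ∨
      (indv μ hA : Lp ℝ 2 μ) ω + (g i (T k ω) - g i ω) + (g i' (T l ω) - g i' ω) = 1) := by
  classical
  set U := koop μ (T_mp 1) with hU
  set f := indv μ hA with hf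
  -- constants are fixed
  have hcst : ∀ n : ℕ, (U ^ n) (cst μ c) = cst μ c := by
    intro n
    apply Lp.ext
    have h1 := koop_pow μ T_zero T_add T_mp n (cst μ c)
    have h2 : (cst μ c : Lp ℝ 2 μ) =ᵐ[μ] fun _ => c := Lp.coeFn_const _ _ _
    have h3 := (T_mp n).quasiMeasurePreserving.ae h2
    filter_upwards [h1, h2, h3] with ω a1 a2 a3
    rw [a1, a3, a2]
  -- the residues
  set r : ι → ℕ := fun j => if j = i then k else if j = i' then l else 0 with hr
  choose t ht using koo3_crt N hco r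
  set h : Lp ℝ 2 μ := f + ((U ^ k) (g i) - g i) + ((U ^ l) (g i') - g i') with hh
  -- key identity
  have hkey : ∀ F : Finset ι, i ∈ F → i' ∈ F →
      (U ^ (t F)) f - h = (U ^ (t F)) (f - cst μ c - ∑ m ∈ F, g m) -
        (f - cst μ c - ∑ m ∈ F, g m) := by
    intro F hiF hi'F
    have e1 : (U ^ (t F)) (∑ m ∈ F, g m) = ∑ m ∈ F, g m + ((U ^ k) (g i) - g i) +
        ((U ^ l) (g i') - g i') := by
      rw [map_sum]
      have e2 : ∀ m ∈ F, (U ^ (t F)) (g m) = g m + (if m = i then (U ^ k) (g i) - g i else 0) +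
          (if m = i' then (U ^ l) (g i') - g i' else 0) := by
        intro m hm
        have e3 : (U ^ (t F)) (g m) = (U ^ (r m)) (g m) :=
          koo3_pow_modEq U (g m) (N m) (hg m) (ht F m hm)
        rw [e3]
        by_cases h1 : m = i
        · subst h1
          simp [hr, hi]
        · by_cases h2 : m = i'
          · subst h2
            simp [hr, h1]
          · simp [hr, h1, h2]
      rw [Finset.sum_congr rfl e2, Finset.sum_add_distrib, Finset.sum_add_distrib,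
        Finset.sum_ite_eq' F i, Finset.sum_ite_eq' F i', if_pos hiF, if_pos hi'F]
    rw [map_sub, map_sub, hcst, e1, hh]
    abel
  -- convergence
  have hlim : Tendsto (fun F : Finset ι => (U ^ (t F)) f) atTop (𝓝 h) := by
    rw [tendsto_iff_norm_sub_tendsto_zero]
    have h0 : Tendsto (fun F : Finset ι => 2 * ‖f - cst μ c - ∑ m ∈ F, g m‖) atTop (𝓝 0) := by
      have h1 : Tendsto (fun F : Finset ι => ∑ m ∈ F, g m) atTop (𝓝 (f - cst μ c)) := hs
      have h2 := (tendsto_const_nhds (x := f - cst μ c)).sub h1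
      rw [sub_self] at h2
      have h3 := (h2.norm).const_mul 2
      simpa using h3
    refine squeeze_zero' (Eventually.of_forall fun _ => norm_nonneg _) ?_ h0
    filter_upwards [eventually_ge_atTop ({i, i'} : Finset ι)] with F hF
    have hiF : i ∈ F := hF (by simp)
    have hi'F : i' ∈ F := hF (by simp)
    rw [hkey F hiF hi'F]
    refine (norm_sub_le _ _).trans ?_
    rw [LinearIsometry.norm_map, two_mul]
  -- each term is an indicator
  have hval : ∀ F : Finset ι, (U ^ (t F)) f ∈ {f : Lp ℝ 2 μ | ∀ᵐ ω ∂μ, f ω = 0 ∨ f ω = 1} := by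
    intro F
    have h1 := koop_pow μ T_zero T_add T_mp (t F) f
    have h2 : ∀ᵐ ω ∂μ, f ω = 0 ∨ f ω = 1 := by
      have h3 : f =ᵐ[μ] A.indicator fun _ => (1:ℝ) := indicatorConstLp_coeFn
      filter_upwards [h3] with ω a
      rw [a]
      by_cases hω : ω ∈ A
      · right; simp [hω]
      · left; simp [hω]
    have h3 := (T_mp (t F)).quasiMeasurePreserving.ae h2
    filter_upwards [h1, h3] with ω a1 a3
    rw [a1]; exact a3
  have hmem : h ∈ {f : Lp ℝ 2 μ | ∀ᵐ ω ∂μ, f ω = 0 ∨ f ω = 1} :=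
    (isClosed_ind μ).mem_of_tendsto hlim (Eventually.of_forall hval)
  -- pointwise form
  have k1 := koop_pow μ T_zero T_add T_mp k (g i)
  have k2 := koop_pow μ T_zero T_add T_mp l (g i')
  have c1 := Lp.coeFn_add (f + ((U ^ k) (g i) - g i)) ((U ^ l) (g i') - g i')
  have c2 := Lp.coeFn_add f ((U ^ k) (g i) - g i)
  have c3 := Lp.coeFn_sub ((U ^ k) (g i)) (g i)
  have c4 := Lp.coeFn_sub ((U ^ l) (g i')) (g i')
  have hmem' : ∀ᵐ ω ∂μ, h ω = 0 ∨ h ω = 1 := hmem
  filter_upwards [hmem', k1, k2, c1, c2, c3, c4] with ω a b1 b2 d1 d2 d3 d4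
  have e : h ω = f ω + (g i (T k ω) - g i ω) + (g i' (T l ω) - g i' ω) := by
    rw [hh, d1]
    simp only [Pi.add_apply]
    rw [d2, d4]
    simp only [Pi.add_apply, Pi.sub_apply]
    rw [d3]
    simp only [Pi.sub_apply]
    rw [b1, b2]
  rw [← e]
  exact a

end koopman

end NB97_KOO3

section NB97_KOO4

section koopman

variable {Ω : Type*} [MeasurableSpace Ω] (μ : Measure Ω) [IsProbabilityMeasure μ]

/-- the combinatorial part on one orbit -/
theorem koo4_orbit {ι : Type*} (N : ι → ℕ) (hN : ∀ i, 2 ≤ N i)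
    (hco : ∀ i i', i ≠ i' → (N i).Coprime (N i')) (i₀ : ι) (f : ℤ → ℝ) (g : ι → ℤ → ℝ)
    (hf : ∀ k, f k = 0 ∨ f k = 1)
    (hper : ∀ i k, g i (k + N i) = g i k)
    (hsum : ∀ i k, ∑ l ∈ Finset.range (N i), g i (k + l) = 0)
    (htwo : ∀ i i', i ≠ i' → ∀ (m : ℤ) (k l : ℕ),
      (f m + (g i (m + k) - g i m) + (g i' (m + l) - g i' m) = 0 ∨
        f m + (g i (m + k) - g i m) + (g i' (m + l) - g i' m) = 1))
    (u : ℕ → Finset ι) (hu : Tendsto u atTop atTop)
    (hlim : ∀ k, Tendsto (fun n => ∑ i ∈ u n, g i k) atTop (𝓝 (f k - ((N i₀ : ℝ)⁻¹)))) :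
    ∃ p : ℤ, ∀ k : ℤ, (f k = 1 ↔ (N i₀ : ℤ) ∣ k - p) := by
  classical
  -- periodicity in multiples
  have hper2 : ∀ i (m : ℕ) k, g i (k + N i * m) = g i k := by
    intro i m
    induction m with
    | zero => intro k; simp
    | succ m ih =>
      intro k
      have : k + (N i : ℤ) * ((m + 1 : ℕ) : ℤ) = (k + N i * m) + N i := by push_cast; ring
      rw [this, hper, ih]
  -- nonconstancy can be seen at natural times from every base point
  have hnc : ∀ i, (∃ a b : ℤ, g i a ≠ g i b) → ∀ m : ℤ, ∃ k : ℕ, g i (m + k) ≠ g i m := by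
    intro i ⟨a, b, hab⟩ m
    by_contra hcon
    push Not at hcon
    have h1 : ∀ x : ℤ, g i x = g i m := by
      intro x
      obtain ⟨q, hq⟩ : ∃ q : ℕ, m ≤ x + N i * q := by
        refine ⟨(m - x).toNat, ?_⟩
        have h2 : (2:ℤ) ≤ N i := by exact_mod_cast hN i
        have h3 : m - x ≤ ((m - x).toNat : ℤ) := Int.self_le_toNat _
        have h4 : (0:ℤ) ≤ ((m - x).toNat : ℤ) := by positivity
        nlinarith
      have h5 := hcon (x + N i * q - m).toNat
      have h6 : m + ((x + N i * q - m).toNat : ℤ) = x + N i * q := by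
        rw [Int.toNat_of_nonneg (by linarith)]; ring
      rw [h6, hper2] at h5
      exact h5
    exact hab ((h1 a).trans (h1 b).symm)
  -- constant ones are zero
  have hc0 : ∀ i, (¬ ∃ a b : ℤ, g i a ≠ g i b) → ∀ k, g i k = 0 := by
    intro i hi k
    push Not at hi
    have h1 := hsum i k
    have h2 : ∑ l ∈ Finset.range (N i), g i (k + l) = ∑ l ∈ Finset.range (N i), g i k :=
      Finset.sum_congr rfl fun l _ => hi _ _
    rw [h2, Finset.sum_const, Finset.card_range, nsmul_eq_mul] at h1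
    have h3 : (N i : ℝ) ≠ 0 := by have := hN i; positivity
    rcases mul_eq_zero.1 h1 with h | h
    · exact absurd h h3
    · exact h
  -- at most one nonconstant
  have huniq : ∀ i i', (∃ a b : ℤ, g i a ≠ g i b) → (∃ a b : ℤ, g i' a ≠ g i' b) → i = i' := by
    intro i i' hi hi'
    by_contra hne
    obtain ⟨k, hk⟩ := hnc i hi 0
    obtain ⟨l, hl⟩ := hnc i' hi' 0
    have h1 := htwo i i' hne 0 k l
    have h2 := htwo i i' hne 0 k 0
    have h3 := htwo i i' hne 0 0 l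
    have h4 := hf 0
    simp only [Nat.cast_zero, add_zero, sub_self] at h1 h2 h3
    have h5 : g i (0 + (k:ℤ)) - g i 0 ≠ 0 := sub_ne_zero.2 hk
    have h6 : g i' (0 + (l:ℤ)) - g i' 0 ≠ 0 := sub_ne_zero.2 hl
    rcases h4 with h4 | h4 <;> rcases h1 with h1 | h1 <;> rcases h2 with h2 | h2 <;>
      rcases h3 with h3 | h3 <;> first | (exact h5 (by linarith)) | (exact h6 (by linarith))
  have hNpos : (0:ℝ) < N i₀ := by have := hN i₀; positivity
  have hN2 : (2:ℝ) ≤ N i₀ := by exact_mod_cast hN i₀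
  by_cases hex : ∃ j, ∃ a b : ℤ, g j a ≠ g j b
  · obtain ⟨j, hj⟩ := hex
    have hz : ∀ i, i ≠ j → ∀ k, g i k = 0 := fun i hi =>
      hc0 i (fun h => hi (huniq i j h hj))
    have hfk : ∀ k, f k = (N i₀ : ℝ)⁻¹ + g j k := by
      intro k
      have h1 : Tendsto (fun n => ∑ i ∈ u n, g i k) atTop (𝓝 (g j k)) := by
        refine tendsto_const_nhds.congr' ?_
        filter_upwards [hu.eventually_ge_atTop ({j} : Finset ι)] with n hn
        have hjn : j ∈ u n := hn (Finset.mem_singleton_self j)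
        rw [Finset.sum_eq_single_of_mem j hjn fun i _ hi => hz i hi k]
      have h2 := tendsto_nhds_unique h1 (hlim k)
      linarith
    -- sum over a period
    have hcount : ∀ k : ℤ, ∑ l ∈ Finset.range (N j), f (k + l) = (N j : ℝ) * (N i₀ : ℝ)⁻¹ := by
      intro k
      simp only [hfk]
      rw [Finset.sum_add_distrib, hsum, Finset.sum_const, Finset.card_range, nsmul_eq_mul, add_zero]
    have hint : ∀ k : ℤ, ∑ l ∈ Finset.range (N j), f (k + l) =
        (((Finset.range (N j)).filter fun l : ℕ => f (k + l) = 1).card : ℝ) := by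
      intro k
      rw [Finset.card_filter]
      push_cast
      refine Finset.sum_congr rfl fun l _ => ?_
      rcases hf (k + l) with h | h <;> simp [h]
    have hdvd : N i₀ ∣ N j := by
      have h1 := hcount 0
      rw [hint 0] at h1
      refine ⟨((Finset.range (N j)).filter fun l : ℕ => f ((0:ℤ) + l) = 1).card, ?_⟩
      have h2 : (N j : ℝ) = (N i₀ : ℝ) *
            ((((Finset.range (N j)).filter fun l : ℕ => f ((0:ℤ) + l) = 1).card : ℕ) : ℝ) := by
        rw [h1]; field_simp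
      exact_mod_cast h2
    have hji : j = i₀ := by
      by_contra hne
      have h1 := hco j i₀ hne
      have h2 : N i₀ = 1 := Nat.eq_one_of_dvd_coprimes h1 hdvd dvd_rfl
      have := hN i₀
      omega
    subst hji
    have hone : ∀ k : ℤ, ((Finset.range (N j)).filter fun l : ℕ => f (k + l) = 1).card = 1 := by
      intro k
      have h1 := hcount k
      rw [hint k, mul_inv_cancel₀ hNpos.ne'] at h1
      exact_mod_cast h1
    have hfper : ∀ k, f (k + N j) = f k := fun k => by rw [hfk, hfk, hper]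
    have hfper2 : ∀ (m : ℕ) k, f (k + N j * m) = f k := fun m k => by rw [hfk, hfk, hper2]
    have hfper3 : ∀ (m : ℤ) k, f (k + N j * m) = f k := by
      intro m k
      rcases Int.eq_nat_or_neg m with ⟨n, rfl | rfl⟩
      · exact hfper2 n k
      · have := hfper2 n (k + N j * (-(n:ℤ)))
        rw [← this]; congr 1; ring
    obtain ⟨p, hp⟩ := Finset.card_eq_one.1 (hone 0)
    have hpmem : p ∈ (Finset.range (N j)).filter fun l : ℕ => f ((0:ℤ) + l) = 1 := by
      rw [hp]; exact Finset.mem_singleton_self p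
    rw [Finset.mem_filter, Finset.mem_range] at hpmem
    refine ⟨p, fun k => ⟨fun hk => ?_, fun hk => ?_⟩⟩
    · -- `k mod N` is in the set
      have hNz : (N j : ℤ) ≠ 0 := by have := hN j; positivity
      have h0 : 0 ≤ k % (N j : ℤ) := Int.emod_nonneg _ hNz
      have h1 : k % (N j : ℤ) < N j := Int.emod_lt_of_pos _ (by have := hN j; positivity)
      have h2 : (k % (N j : ℤ)).toNat ∈ (Finset.range (N j)).filter fun l : ℕ => f ((0:ℤ) + l) = 1 := by
        rw [Finset.mem_filter, Finset.mem_range]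
        refine ⟨by omega, ?_⟩
        rw [Int.toNat_of_nonneg h0, zero_add]
        have h3 := hfper3 (k / (N j : ℤ)) (k % (N j : ℤ))
        rw [Int.emod_add_mul_ediv] at h3
        rw [← h3]; exact hk
      rw [hp, Finset.mem_singleton] at h2
      have h3 : k % (N j : ℤ) = p := by
        rw [← h2, Int.toNat_of_nonneg h0]
      rw [← h3]
      exact Int.dvd_self_sub_emod
    · obtain ⟨m, hm⟩ := hk
      have h1 : k = (0 + (p:ℤ)) + N j * m := by rw [← hm]; ring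
      rw [h1, hfper3]
      exact hpmem.2
  · exfalso
    push Not at hex
    have hz : ∀ i k, g i k = 0 := fun i => hc0 i (by push Not; exact hex i)
    have h1 := hlim 0
    simp only [hz, Finset.sum_const_zero] at h1
    have h2 := tendsto_nhds_unique h1 tendsto_const_nhds
    have h3 : (N i₀ : ℝ)⁻¹ < 1 := by
      rw [inv_lt_one₀ hNpos]; linarith
    have h4 : 0 < (N i₀ : ℝ)⁻¹ := inv_pos.2 hNpos
    rcases hf 0 with h | h <;> linarith

/-- task KOO4: the pointwise structure -/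
theorem clock_of_sum {T : ℤ → Ω → Ω} (T_zero : ∀ ω, T 0 ω = ω)
    (T_add : ∀ k l ω, T (k + l) ω = T k (T l ω)) (T_mp : ∀ k, MeasurePreserving (T k) μ μ)
    {A : Set Ω} (hA : MeasurableSet A) {ι : Type*} [Countable ι] (N : ι → ℕ) (hN : ∀ i, 2 ≤ N i)
    (hco : ∀ i i', i ≠ i' → (N i).Coprime (N i')) (i₀ : ι) (g : ι → Lp ℝ 2 μ)
    (hg : ∀ i, ((koop μ (T_mp 1)) ^ (N i)) (g i) = g i)
    (hg0 : ∀ i, ∑ l ∈ Finset.range (N i), ((koop μ (T_mp 1)) ^ l) (g i) = 0)
    (hs : HasSum g (indv μ hA - cst μ ((N i₀ : ℝ)⁻¹))) :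
    ∀ᵐ ω ∂μ, ∃ p : ℤ, ∀ k : ℤ, (T k ω ∈ A ↔ (N i₀ : ℤ) ∣ k - p) := by
  classical
  set c : ℝ := (N i₀ : ℝ)⁻¹ with hc
  set U := koop μ (T_mp 1) with hU
  -- finite sums pointwise
  have hfin : ∀ F : Finset ι, ∀ v : ι → Lp ℝ 2 μ,
      (∑ i ∈ F, v i : Lp ℝ 2 μ) =ᵐ[μ] fun ω => ∑ i ∈ F, v i ω := by
    intro F v
    induction F using Finset.induction_on with
    | empty =>
      simp only [Finset.sum_empty]
      exact Lp.coeFn_zero _ _ _
    | insert a s ha ih =>
      rw [Finset.sum_insert ha]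
      filter_upwards [Lp.coeFn_add (v a) (∑ i ∈ s, v i), ih] with ω h1 h2
      rw [h1, Pi.add_apply, h2, Finset.sum_insert ha]
  have hfinN : ∀ F : Finset ℕ, ∀ v : ℕ → Lp ℝ 2 μ,
      (∑ i ∈ F, v i : Lp ℝ 2 μ) =ᵐ[μ] fun ω => ∑ i ∈ F, v i ω := by
    intro F v
    induction F using Finset.induction_on with
    | empty =>
      simp only [Finset.sum_empty]
      exact Lp.coeFn_zero _ _ _
    | insert a s ha ih =>
      rw [Finset.sum_insert ha]
      filter_upwards [Lp.coeFn_add (v a) (∑ i ∈ s, v i), ih] with ω h1 h2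
      rw [h1, Pi.add_apply, h2, Finset.sum_insert ha]
  -- a sequence of finite sets and a subsequence with convergence almost everywhere
  obtain ⟨u, hu⟩ := Filter.exists_seq_tendsto (atTop : Filter (Finset ι))
  have hs' : Tendsto (fun F : Finset ι => ∑ i ∈ F, g i) atTop (𝓝 (indv μ hA - cst μ c)) := hs
  have hL : Tendsto (fun n => ∑ i ∈ u n, g i) atTop (𝓝 (indv μ hA - cst μ c)) :=
    hs'.comp hu
  have hM : TendstoInMeasure μ (fun n => ((∑ i ∈ u n, g i : Lp ℝ 2 μ) : Ω → ℝ)) atTop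
      ((indv μ hA - cst μ c : Lp ℝ 2 μ) : Ω → ℝ) := tendstoInMeasure_of_tendsto_Lp hL
  obtain ⟨ns, hns, hae⟩ := hM.exists_seq_tendsto_ae
  -- facts at almost all points
  have a1 : ∀ᵐ ω ∂μ, (indv μ hA : Lp ℝ 2 μ) ω = A.indicator (fun _ => (1:ℝ)) ω :=
    indicatorConstLp_coeFn
  have a2 : ∀ᵐ ω ∂μ, Tendsto (fun n => ∑ i ∈ u (ns n), g i ω) atTop
      (𝓝 ((indv μ hA : Lp ℝ 2 μ) ω - c)) := by
    have h2 : (cst μ c : Lp ℝ 2 μ) =ᵐ[μ] fun _ => c := Lp.coeFn_const _ _ _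
    have h3 : ∀ᵐ ω ∂μ, ∀ n, (∑ i ∈ u (ns n), g i : Lp ℝ 2 μ) ω = ∑ i ∈ u (ns n), g i ω :=
      ae_all_iff.2 fun n => hfin _ _
    filter_upwards [hae, h2, h3, Lp.coeFn_sub (indv μ hA) (cst μ c)] with ω b1 b2 b3 b4
    rw [b4, Pi.sub_apply, b2] at b1
    refine b1.congr fun n => ?_
    rw [b3]
  have a3 : ∀ᵐ ω ∂μ, ∀ i, g i (T (N i : ℤ) ω) = g i ω := by
    refine ae_all_iff.2 fun i => ?_
    have h1 := koop_pow μ T_zero T_add T_mp (N i) (g i)
    rw [hg i] at h1
    filter_upwards [h1] with ω b1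
    exact b1.symm
  have a4 : ∀ᵐ ω ∂μ, ∀ i, ∑ l ∈ Finset.range (N i), g i (T (l : ℤ) ω) = 0 := by
    refine ae_all_iff.2 fun i => ?_
    have h1 := hfinN (Finset.range (N i)) (fun l => (U ^ l) (g i))
    rw [hg0 i] at h1
    have h2 : ∀ᵐ ω ∂μ, ∀ l : ℕ, (U ^ l) (g i) ω = g i (T l ω) :=
      ae_all_iff.2 fun l => koop_pow μ T_zero T_add T_mp l (g i)
    filter_upwards [h1, h2, Lp.coeFn_zero ℝ 2 μ] with ω b1 b2 b3
    rw [b3] at b1
    simp only [Pi.zero_apply] at b1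
    rw [b1]
    exact Finset.sum_congr rfl fun l _ => (b2 l).symm
  have a5 : ∀ᵐ ω ∂μ, ∀ i i', i ≠ i' → ∀ k l : ℕ,
      ((indv μ hA : Lp ℝ 2 μ) ω + (g i (T k ω) - g i ω) + (g i' (T l ω) - g i' ω) = 0 ∨
      (indv μ hA : Lp ℝ 2 μ) ω + (g i (T k ω) - g i ω) + (g i' (T l ω) - g i' ω) = 1) := by
    refine ae_all_iff.2 fun i => ae_all_iff.2 fun i' => ?_
    by_cases hne : i = i'
    · exact Eventually.of_forall fun ω h => absurd hne h
    · have h1 : ∀ᵐ ω ∂μ, ∀ k l : ℕ,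
        ((indv μ hA : Lp ℝ 2 μ) ω + (g i (T k ω) - g i ω) + (g i' (T l ω) - g i' ω) = 0 ∨
        (indv μ hA : Lp ℝ 2 μ) ω + (g i (T k ω) - g i ω) + (g i' (T l ω) - g i' ω) = 1) :=
        ae_all_iff.2 fun k => ae_all_iff.2 fun l =>
          two_shifts μ T_zero T_add T_mp hA N hN hco c g hg hs i i' hne k l
      filter_upwards [h1] with ω b _
      exact b
  -- along the whole orbit
  have orb : ∀ {P : Ω → Prop}, (∀ᵐ ω ∂μ, P ω) → ∀ᵐ ω ∂μ, ∀ k : ℤ, P (T k ω) := by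
    intro P hP
    exact ae_all_iff.2 fun k => (T_mp k).quasiMeasurePreserving.ae hP
  filter_upwards [orb a1, orb a2, orb a3, orb a4, orb a5] with ω c1 c2 c3 c4 c5
  have hTT : ∀ k l : ℤ, T k (T l ω) = T (l + k) ω := by
    intro k l; rw [add_comm, T_add]
  simp only [hTT] at c1 c2 c3 c4 c5
  have hfv : ∀ k : ℤ, (indv μ hA : Lp ℝ 2 μ) (T k ω) = 0 ∨ (indv μ hA : Lp ℝ 2 μ) (T k ω) = 1 := by
    intro k
    rw [c1 k]
    by_cases h : T k ω ∈ A <;> simp [h]
  obtain ⟨p, hp⟩ := koo4_orbit N hN hco i₀ (fun k => (indv μ hA : Lp ℝ 2 μ) (T k ω))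
    (fun i k => g i (T k ω)) hfv (fun i k => c3 k i) (fun i k => c4 k i)
    (fun i i' hne m k l => c5 m i i' hne k l) (fun n => u (ns n)) (hu.comp hns.tendsto_atTop)
    (fun k => c2 k)
  refine ⟨p, fun k => ?_⟩
  rw [← hp k]
  simp only [c1 k]
  by_cases h : T k ω ∈ A <;> simp [h]

end koopman

end NB97_KOO4

end koopman

section dict

variable {Ω : Type*} [MeasurableSpace Ω] (μ : Measure Ω) [IsProbabilityMeasure μ]
  {Z : Type*} [MeasurableSpace Z] (ν : Measure Z) [IsFiniteMeasure ν]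

/-- section of `F` -/
def sec (F : Set (Z × Ω)) (z : Z) : Set Ω := {ω | (z, ω) ∈ F}

lemma measurableSet_sec {F : Set (Z × Ω)} (hF : MeasurableSet F) (z : Z) :
    MeasurableSet (sec F z) := hF.preimage measurable_prodMk_left

section NB97_DIC1

section dict

variable {Ω : Type*} [MeasurableSpace Ω] (μ : Measure Ω) [IsProbabilityMeasure μ]
  {Z : Type*} [MeasurableSpace Z] (ν : Measure Z) [IsFiniteMeasure ν]

/-- counting multiples -/
theorem dic1_count (d : ℕ) (hd : 0 < d) (K : ℕ) :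
    |(∑ l ∈ Finset.range K, (if d ∣ l then (1 : ℝ) else 0)) - (K : ℝ) / d| ≤ 1 := by
  have hdR : (0 : ℝ) < d := by exact_mod_cast hd
  rcases K with _ | K
  · simp
  · have h1 : (∑ l ∈ Finset.range (K + 1), (if d ∣ l then (1 : ℝ) else 0)) = ((K / d : ℕ) : ℝ) + 1 := by
      rw [Finset.sum_range_succ']
      simp only [dvd_zero, if_true]
      congr 1
      rw [← Nat.card_multiples K d, Finset.sum_boole]
    rw [h1]
    have h2 : ((K / d : ℕ) : ℝ) ≤ (K : ℝ) / d := Nat.cast_div_le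
    have h3 : (K : ℝ) / d < ((K / d : ℕ) : ℝ) + 1 := by
      rw [div_lt_iff₀ hdR]
      have := Nat.lt_div_mul_add hd (a := K)
      have h4 : K < (K / d + 1) * d := by
        rw [add_mul, one_mul]; exact this
      exact_mod_cast h4
    push_cast
    rw [add_div, abs_le]
    have h5 : (1 : ℝ) / d ≤ 1 := by
      rw [div_le_one hdR]; exact_mod_cast hd
    have h6 : (0 : ℝ) ≤ (1 : ℝ) / d := by positivity
    constructor <;> linarith

theorem dic1_dens (d : ℕ) (hd : 0 < d) :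
    Tendsto (fun K : ℕ => (K : ℝ)⁻¹ * ∑ l ∈ Finset.range K, (if d ∣ l then (1 : ℝ) else 0)) atTop
      (𝓝 ((d : ℝ)⁻¹)) := by
  rw [tendsto_iff_norm_sub_tendsto_zero]
  refine squeeze_zero' (Eventually.of_forall fun K => norm_nonneg _) ?_
    (tendsto_inv_atTop_nhds_zero_nat (𝕜 := ℝ))
  filter_upwards [eventually_gt_atTop 0] with K hK
  have hKR : (0 : ℝ) < K := by exact_mod_cast hK
  have h1 := dic1_count d hd K
  have h2 : (K : ℝ)⁻¹ * ∑ l ∈ Finset.range K, (if d ∣ l then (1 : ℝ) else 0) - (d : ℝ)⁻¹ =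
      (K : ℝ)⁻¹ * ((∑ l ∈ Finset.range K, (if d ∣ l then (1 : ℝ) else 0)) - (K : ℝ) / d) := by
    field_simp
  rw [h2, norm_mul, Real.norm_eq_abs, Real.norm_eq_abs, abs_of_pos (inv_pos.2 hKR)]
  calc (K : ℝ)⁻¹ * _ ≤ (K : ℝ)⁻¹ * 1 := mul_le_mul_of_nonneg_left h1 (inv_pos.2 hKR).le
    _ = _ := mul_one _

theorem dic1_dens2 (N n : ℕ) (hN : 0 < N) (hn : 0 < n) :
    Tendsto (fun K : ℕ => (K : ℝ)⁻¹ * ∑ l ∈ Finset.range K,
      (if n ∣ N * l then ((n : ℝ))⁻¹ else 0)) atTop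
      (𝓝 ((Nat.gcd N n : ℝ) / (n : ℝ) ^ 2)) := by
  set g := Nat.gcd N n with hg
  have hgp : 0 < g := Nat.gcd_pos_of_pos_left _ hN
  have hgn : g ∣ n := Nat.gcd_dvd_right _ _
  have hgN : g ∣ N := Nat.gcd_dvd_left _ _
  obtain ⟨d, hd⟩ := hgn
  obtain ⟨M, hM⟩ := hgN
  have hdp : 0 < d := by
    rcases Nat.eq_zero_or_pos d with h | h
    · subst h; omega
    · exact h
  have hcop : d.Coprime M := by
    have h1 : Nat.gcd N n = g * Nat.gcd M d := by
      conv_lhs => rw [hM, hd]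
      exact Nat.gcd_mul_left _ _ _
    have h2 : g * Nat.gcd M d = g * 1 := by rw [← h1, mul_one]
    have h3 := Nat.eq_of_mul_eq_mul_left hgp h2
    exact (Nat.coprime_comm.1 h3)
  have hiff : ∀ l : ℕ, (n ∣ N * l ↔ d ∣ l) := by
    intro l
    rw [hd, hM, mul_assoc]
    constructor
    · intro h
      have h1 : d ∣ M * l := Nat.dvd_of_mul_dvd_mul_left hgp h
      exact hcop.dvd_of_dvd_mul_left h1
    · intro h
      exact Nat.mul_dvd_mul_left g (h.mul_left M)
  have h1 := (dic1_dens d hdp).mul_const ((n : ℝ)⁻¹)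
  have h2 : (d : ℝ)⁻¹ * (n : ℝ)⁻¹ = (g : ℝ) / (n : ℝ) ^ 2 := by
    have hgR : (g : ℝ) ≠ 0 := by exact_mod_cast hgp.ne'
    have hdR : (d : ℝ) ≠ 0 := by exact_mod_cast hdp.ne'
    have hnR : (n : ℝ) = g * d := by exact_mod_cast hd
    rw [hnR]
    field_simp
  rw [h2] at h1
  refine h1.congr fun K => ?_
  rw [mul_assoc, Finset.sum_mul]
  congr 1
  refine Finset.sum_congr rfl fun l _ => ?_
  by_cases h : d ∣ l
  · rw [if_pos h, if_pos ((hiff l).2 h), one_mul]
  · rw [if_neg h, if_neg (fun h' => h ((hiff l).1 h')), zero_mul]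

/-- task DIC1: the integrated norms of the projections -/
theorem integral_fixP {T : ℤ → Ω → Ω} (T_zero : ∀ ω, T 0 ω = ω)
    (T_add : ∀ k l ω, T (k + l) ω = T k (T l ω)) (T_mp : ∀ k, MeasurePreserving (T k) μ μ)
    {F : Set (Z × Ω)} (hF : MeasurableSet F) (n : Z → ℕ) (hn : Measurable n) (hn2 : ∀ z, 2 ≤ n z)
    (hc : ∀ k : ℕ, ∫ z, μ.real {ω | ω ∈ sec F z ∧ T k ω ∈ sec F z} ∂ν =
      ∫ z, (if n z ∣ k then ((n z : ℝ))⁻¹ else 0) ∂ν) {N : ℕ} (hN : 0 < N) :
    Measurable (fun z => ‖fixP (koop μ (T_mp 1)) N (indv μ (measurableSet_sec hF z))‖ ^ 2) ∧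
    ∫ z, ‖fixP (koop μ (T_mp 1)) N (indv μ (measurableSet_sec hF z))‖ ^ 2 ∂ν =
      ∫ z, (Nat.gcd N (n z) : ℝ) / (n z : ℝ) ^ 2 ∂ν := by
  set m : ℕ → Z → ℝ := fun k z => μ.real {ω | ω ∈ sec F z ∧ T k ω ∈ sec F z} with hm
  have hmm : ∀ k, Measurable (m k) := by
    intro k
    have h1 : MeasurableSet {p : Z × Ω | p ∈ F ∧ (p.1, T k p.2) ∈ F} := by
      refine hF.inter ?_
      exact hF.preimage (measurable_fst.prodMk ((T_mp k).measurable.comp measurable_snd))
    have h2 := measurable_measure_prodMk_left (ν := μ) h1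
    exact h2.ennreal_toReal
  have hm0 : ∀ k z, 0 ≤ m k z := fun k z => measureReal_nonneg
  have hm1 : ∀ k z, m k z ≤ 1 := fun k z => measureReal_le_one
  set a : ℕ → Z → ℝ := fun K z => (K : ℝ)⁻¹ * ∑ l ∈ Finset.range K, m (N * l) z with ha
  have ham : ∀ K, Measurable (a K) := by
    intro K
    exact (Finset.measurable_sum _ fun l _ => hmm (N * l)).const_mul _
  have havg : ∀ (K : ℕ) (b : ℕ → ℝ), (∀ l, 0 ≤ b l) → (∀ l, b l ≤ 1) →
      ‖(K : ℝ)⁻¹ * ∑ l ∈ Finset.range K, b l‖ ≤ 1 := by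
    intro K b hb0 hb1
    have h0 : 0 ≤ (K : ℝ)⁻¹ * ∑ l ∈ Finset.range K, b l :=
      mul_nonneg (by positivity) (Finset.sum_nonneg fun l _ => hb0 l)
    rw [Real.norm_eq_abs, abs_of_nonneg h0]
    rcases Nat.eq_zero_or_pos K with h | h
    · subst h; simp
    · have hKR : (0 : ℝ) < K := by exact_mod_cast h
      rw [inv_mul_le_iff₀ hKR, mul_one]
      calc ∑ l ∈ Finset.range K, b l ≤ ∑ l ∈ Finset.range K, (1 : ℝ) :=
            Finset.sum_le_sum fun l _ => hb1 l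
        _ = K := by simp
  have halim : ∀ z, Tendsto (fun K => a K z) atTop
      (𝓝 (‖fixP (koop μ (T_mp 1)) N (indv μ (measurableSet_sec hF z))‖ ^ 2)) := by
    intro z
    have h1 := fixP_inner_tendsto (koop μ (T_mp 1)) N (indv μ (measurableSet_sec hF z))
    refine h1.congr fun K => ?_
    simp only [ha]
    congr 1
    refine Finset.sum_congr rfl fun l _ => ?_
    exact koop_inner μ T_zero T_add T_mp (measurableSet_sec hF z) (N * l)
  have hmeas : Measurable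
      (fun z => ‖fixP (koop μ (T_mp 1)) N (indv μ (measurableSet_sec hF z))‖ ^ 2) :=
    measurable_of_tendsto_metrizable ham (tendsto_pi_nhds.2 halim)
  refine ⟨hmeas, ?_⟩
  have h1 : Tendsto (fun K => ∫ z, a K z ∂ν) atTop
      (𝓝 (∫ z, ‖fixP (koop μ (T_mp 1)) N (indv μ (measurableSet_sec hF z))‖ ^ 2 ∂ν)) := by
    refine tendsto_integral_of_dominated_convergence (fun _ => (1 : ℝ))
      (fun K => (ham K).aestronglyMeasurable) (integrable_const _) ?_
      (Eventually.of_forall halim)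
    intro K
    refine Eventually.of_forall fun z => ?_
    exact havg K (fun l => m (N * l) z) (fun l => hm0 _ z) (fun l => hm1 _ z)
  set e : ℕ → Z → ℝ := fun k z => if n z ∣ k then ((n z : ℝ))⁻¹ else 0 with he
  have hem : ∀ k, Measurable (e k) := by
    intro k
    have h2 : Measurable (fun j : ℕ => if j ∣ k then ((j : ℝ))⁻¹ else 0) := measurable_of_countable _
    exact h2.comp hn
  have hn1 : ∀ z, ((n z : ℝ))⁻¹ ≤ 1 := by
    intro z
    have : (1 : ℝ) ≤ n z := by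
      have := hn2 z
      exact_mod_cast (by omega : 1 ≤ n z)
    exact inv_le_one_of_one_le₀ this
  have he0 : ∀ k z, 0 ≤ e k z := by
    intro k z
    simp only [he]
    split_ifs
    · positivity
    · exact le_refl _
  have he1 : ∀ k z, e k z ≤ 1 := by
    intro k z
    simp only [he]
    split_ifs
    · exact hn1 z
    · exact zero_le_one
  set b : ℕ → Z → ℝ := fun K z => (K : ℝ)⁻¹ * ∑ l ∈ Finset.range K, e (N * l) z with hb
  have hbm : ∀ K, Measurable (b K) := by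
    intro K
    exact (Finset.measurable_sum _ fun l _ => hem (N * l)).const_mul _
  have h2 : Tendsto (fun K => ∫ z, b K z ∂ν) atTop
      (𝓝 (∫ z, (Nat.gcd N (n z) : ℝ) / (n z : ℝ) ^ 2 ∂ν)) := by
    refine tendsto_integral_of_dominated_convergence (fun _ => (1 : ℝ))
      (fun K => (hbm K).aestronglyMeasurable) (integrable_const _) ?_
      (Eventually.of_forall fun z => ?_)
    · intro K
      refine Eventually.of_forall fun z => ?_
      exact havg K (fun l => e (N * l) z) (fun l => he0 _ z) (fun l => he1 _ z)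
    · exact dic1_dens2 N (n z) hN (by have := hn2 z; omega)
  have hmi : ∀ k, Integrable (m k) ν := fun k =>
    Integrable.of_bound (hmm k).aestronglyMeasurable 1
      (Eventually.of_forall fun z => by
        rw [Real.norm_eq_abs, abs_of_nonneg (hm0 k z)]; exact hm1 k z)
  have hei : ∀ k, Integrable (e k) ν := fun k =>
    Integrable.of_bound (hem k).aestronglyMeasurable 1
      (Eventually.of_forall fun z => by
        rw [Real.norm_eq_abs, abs_of_nonneg (he0 k z)]; exact he1 k z)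
  have h3 : ∀ K, ∫ z, a K z ∂ν = ∫ z, b K z ∂ν := by
    intro K
    simp only [ha, hb]
    rw [integral_const_mul, integral_const_mul, integral_finsetSum _ fun l _ => hmi (N * l),
      integral_finsetSum _ fun l _ => hei (N * l)]
    congr 1
    exact Finset.sum_congr rfl fun l _ => hc (N * l)
  simp only [h3] at h1
  exact tendsto_nhds_unique h1 h2

end dict

end NB97_DIC1

section NB97_DIC2

section dict

variable {Ω : Type*} [MeasurableSpace Ω] (μ : Measure Ω) [IsProbabilityMeasure μ]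
  {Z : Type*} [MeasurableSpace Z] (ν : Measure Z) [IsFiniteMeasure ν]

/-- integral of a bounded nonnegative function zero gives zero a.e. -/
theorem dic2_ae_zero {g : Z → ℝ} (hg : Measurable g) (h0 : ∀ᵐ z ∂ν, 0 ≤ g z) {C : ℝ}
    (hC : ∀ᵐ z ∂ν, g z ≤ C) (hi : ∫ z, g z ∂ν = 0) : ∀ᵐ z ∂ν, g z = 0 := by
  have h1 : Integrable g ν := Integrable.of_bound hg.aestronglyMeasurable C (by
    filter_upwards [h0, hC] with z h2 h3
    rw [Real.norm_eq_abs, abs_of_nonneg h2]; exact h3)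
  exact (integral_eq_zero_iff_of_nonneg_ae h0 h1).1 hi

/-- task DIC2: equality in Bessel's inequality for almost all `z` -/
theorem ae_bessel {T : ℤ → Ω → Ω} (T_zero : ∀ ω, T 0 ω = ω)
    (T_add : ∀ k l ω, T (k + l) ω = T k (T l ω)) (T_mp : ∀ k, MeasurePreserving (T k) μ μ)
    {F : Set (Z × Ω)} (hF : MeasurableSet F) {ι : Type*} [Countable ι] [MeasurableSpace ι]
    [MeasurableSingletonClass ι] (N : ι → ℕ) (hN : ∀ i, 2 ≤ N i)
    (hco : ∀ i i', i ≠ i' → (N i).Coprime (N i')) (c : Z → ι) (hcm : Measurable c)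
    (hm : ∀ᵐ z ∂ν, μ.real (sec F z) = ((N (c z) : ℝ))⁻¹)
    (hc : ∀ k : ℕ, ∫ z, μ.real {ω | ω ∈ sec F z ∧ T k ω ∈ sec F z} ∂ν =
      ∫ z, (if N (c z) ∣ k then ((N (c z) : ℝ))⁻¹ else 0) ∂ν) :
    ∀ᵐ z ∂ν, fixP (koop μ (T_mp 1)) 1 (indv μ (measurableSet_sec hF z)) =
        cst μ ((N (c z) : ℝ))⁻¹ ∧
      ∑' i, (‖fixP (koop μ (T_mp 1)) (N i) (indv μ (measurableSet_sec hF z))‖ ^ 2 -
        ‖fixP (koop μ (T_mp 1)) 1 (indv μ (measurableSet_sec hF z))‖ ^ 2) =
        ‖indv μ (measurableSet_sec hF z)‖ ^ 2 -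
        ‖fixP (koop μ (T_mp 1)) 1 (indv μ (measurableSet_sec hF z))‖ ^ 2 := by
  classical
  have hN0 : ∀ i, 0 < N i := fun i => by have := hN i; omega
  have hnm : Measurable (fun z => N (c z)) := (measurable_of_countable N).comp hcm
  have hn2 : ∀ z, 2 ≤ N (c z) := fun z => hN _
  set U := koop μ (T_mp 1) with hU
  set f : Z → Lp ℝ 2 μ := fun z => indv μ (measurableSet_sec hF z) with hf
  set p : Z → ℝ := fun z => ‖fixP U 1 (f z)‖ ^ 2 with hp
  set q : ι → Z → ℝ := fun i z => ‖fixP U (N i) (f z)‖ ^ 2 with hq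
  have hI : ∀ {M : ℕ} (hM : 0 < M),
      Measurable (fun z => ‖fixP U M (f z)‖ ^ 2) ∧
      ∫ z, ‖fixP U M (f z)‖ ^ 2 ∂ν = ∫ z, (Nat.gcd M (N (c z)) : ℝ) / (N (c z) : ℝ) ^ 2 ∂ν :=
    fun hM => integral_fixP μ ν T_zero T_add T_mp hF (fun z => N (c z)) hnm hn2 hc hM
  have hp1 := hI (M := 1) one_pos
  have hq1 := fun i => hI (hN0 i)
  have hsec : Measurable (fun z => μ.real (sec F z)) :=
    (measurable_measure_prodMk_left (ν := μ) hF).ennreal_toReal
  -- norm of f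
  have hfn : ∀ z, ‖f z‖ ^ 2 = μ.real (sec F z) := by
    intro z
    have h1 := koop_inner μ T_zero T_add T_mp (measurableSet_sec hF z) 0
    rw [pow_zero] at h1
    change ⟪f z, f z⟫_ℝ = _ at h1
    rw [real_inner_self_eq_norm_sq] at h1
    rw [h1]
    congr 1
    ext ω
    simp [T_zero]
  have hf1 : ∀ z, ‖f z‖ ^ 2 ≤ 1 := fun z => by rw [hfn]; exact measureReal_le_one
  have hpf : ∀ z, p z ≤ 1 := by
    intro z
    have h1 : ‖fixP U 1 (f z)‖ ≤ ‖f z‖ := by
      unfold fixP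
      exact Submodule.norm_starProjection_apply_le _ _
    calc p z = ‖fixP U 1 (f z)‖ ^ 2 := rfl
      _ ≤ ‖f z‖ ^ 2 := by gcongr
      _ ≤ 1 := hf1 z
  have hqf : ∀ i z, q i z ≤ 1 := by
    intro i z
    have h1 : ‖fixP U (N i) (f z)‖ ≤ ‖f z‖ := by
      unfold fixP
      exact Submodule.norm_starProjection_apply_le _ _
    calc q i z = ‖fixP U (N i) (f z)‖ ^ 2 := rfl
      _ ≤ ‖f z‖ ^ 2 := by gcongr
      _ ≤ 1 := hf1 z
  have hp0 : ∀ z, 0 ≤ p z := fun z => sq_nonneg _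
  have hq0 : ∀ i z, 0 ≤ q i z := fun i z => sq_nonneg _
  have hms := fun z => mean_sq_le μ T_zero T_add T_mp (measurableSet_sec hF z)
  have hpint : Integrable p ν := Integrable.of_bound hp1.1.aestronglyMeasurable 1
    (Eventually.of_forall fun z => by
      rw [Real.norm_eq_abs, abs_of_nonneg (hp0 z)]; exact hpf z)
  have hqint : ∀ i, Integrable (q i) ν := fun i =>
    Integrable.of_bound (hq1 i).1.aestronglyMeasurable 1
    (Eventually.of_forall fun z => by
      rw [Real.norm_eq_abs, abs_of_nonneg (hq0 i z)]; exact hqf i z)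
  have hsint : Integrable (fun z => μ.real (sec F z)) ν :=
    Integrable.of_bound hsec.aestronglyMeasurable 1
    (Eventually.of_forall fun z => by
      rw [Real.norm_eq_abs, abs_of_nonneg measureReal_nonneg]; exact measureReal_le_one)
  have hs2int : Integrable (fun z => μ.real (sec F z) ^ 2) ν :=
    Integrable.of_bound (hsec.pow_const 2).aestronglyMeasurable 1
    (Eventually.of_forall fun z => by
      rw [Real.norm_eq_abs, abs_of_nonneg (sq_nonneg _)]
      exact pow_le_one₀ measureReal_nonneg measureReal_le_one)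
  -- part 1
  have hA : ∀ᵐ z ∂ν, p z = μ.real (sec F z) ^ 2 := by
    have h1 : ∀ᵐ z ∂ν, p z - μ.real (sec F z) ^ 2 = 0 := by
      refine dic2_ae_zero ν (C := 1) (hp1.1.sub (hsec.pow_const 2))
        (Eventually.of_forall fun z => ?_) (Eventually.of_forall fun z => ?_) ?_
      · exact sub_nonneg.2 (hms z).1
      · have := hpf z
        have h2 := sq_nonneg (μ.real (sec F z))
        linarith
      · rw [integral_sub hpint hs2int, sub_eq_zero]
        refine hp1.2.trans (integral_congr_ae ?_)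
        filter_upwards [hm] with z hz
        rw [hz, Nat.gcd_one_left]
        rw [inv_pow, Nat.cast_one, one_div]
    filter_upwards [h1] with z hz
    linarith
  have hA2 : ∀ᵐ z ∂ν, fixP U 1 (f z) = cst μ ((N (c z) : ℝ))⁻¹ := by
    filter_upwards [hA, hm] with z h1 h2
    have h3 := (hms z).2 h1.symm
    rw [h2] at h3
    exact h3
  -- part 2
  set d : ι → Z → ℝ := fun i z => q i z - p z with hd
  have hbes := fun z => bessel_le U N hN0 hco (f z)
  have hd0 : ∀ i z, 0 ≤ d i z := fun i z => (hbes z).2.2 i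
  have hdsum : ∀ z, Summable (fun i => d i z) := fun z => (hbes z).1
  have hdle : ∀ z, ∑' i, d i z ≤ ‖f z‖ ^ 2 - p z := fun z => (hbes z).2.1
  have hdm : ∀ i, Measurable (d i) := fun i => (hq1 i).1.sub hp1.1
  have hdint : ∀ i, Integrable (d i) ν := fun i => (hqint i).sub hpint
  set e : ι → Z → ℝ := fun i z => if i = c z then ((N i : ℝ) - 1) / (N i : ℝ) ^ 2 else 0 with he
  have hem : ∀ i, Measurable (e i) := by
    intro i
    have h2 : Measurable (fun j : ι => if i = j then ((N i : ℝ) - 1) / (N i : ℝ) ^ 2 else 0) :=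
      measurable_of_countable _
    exact h2.comp hcm
  have hNR : ∀ i, (2 : ℝ) ≤ N i := fun i => by exact_mod_cast hN i
  have hei0 : ∀ i, 0 ≤ ((N i : ℝ) - 1) / (N i : ℝ) ^ 2 := fun i => by
    have := hNR i
    apply div_nonneg
    · linarith
    · positivity
  have hei1 : ∀ i, ((N i : ℝ) - 1) / (N i : ℝ) ^ 2 ≤ 1 := fun i => by
    have h2 := hNR i
    rw [div_le_one (by positivity)]
    nlinarith
  have he0 : ∀ i z, 0 ≤ e i z := by
    intro i z
    simp only [he]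
    split_ifs
    · exact hei0 i
    · exact le_refl _
  have he1 : ∀ i z, e i z ≤ 1 := by
    intro i z
    simp only [he]
    split_ifs
    · exact hei1 i
    · exact zero_le_one
  have heint : ∀ i, Integrable (e i) ν := fun i =>
    Integrable.of_bound (hem i).aestronglyMeasurable 1
    (Eventually.of_forall fun z => by
      rw [Real.norm_eq_abs, abs_of_nonneg (he0 i z)]; exact he1 i z)
  have hde : ∀ i, ∫ z, d i z ∂ν = ∫ z, e i z ∂ν := by
    intro i
    have h1 : ∫ z, d i z ∂ν = ∫ z, q i z ∂ν - ∫ z, p z ∂ν := integral_sub (hqint i) hpint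
    rw [h1, (hq1 i).2, hp1.2]
    have hgm : ∀ M : ℕ, Measurable (fun z => (Nat.gcd M (N (c z)) : ℝ) / (N (c z) : ℝ) ^ 2) := by
      intro M
      have h2 : Measurable (fun j : ℕ => (Nat.gcd M j : ℝ) / (j : ℝ) ^ 2) :=
        measurable_of_countable _
      exact h2.comp hnm
    have hgint : ∀ M : ℕ, Integrable (fun z => (Nat.gcd M (N (c z)) : ℝ) / (N (c z) : ℝ) ^ 2) ν := by
      intro M
      refine Integrable.of_bound (hgm M).aestronglyMeasurable 1
        (Eventually.of_forall fun z => ?_)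
      have h3 := hNR (c z)
      rw [Real.norm_eq_abs, abs_of_nonneg (by positivity), div_le_one (by positivity)]
      have h4 : Nat.gcd M (N (c z)) ≤ N (c z) := Nat.gcd_le_right _ (hN0 _)
      have h5 : (Nat.gcd M (N (c z)) : ℝ) ≤ N (c z) := by exact_mod_cast h4
      nlinarith
    rw [← integral_sub (hgint _) (hgint _)]
    refine integral_congr_ae (Eventually.of_forall fun z => ?_)
    simp only [he]
    by_cases h : i = c z
    · rw [if_pos h, ← h, Nat.gcd_self, Nat.gcd_one_left, Nat.cast_one, sub_div]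
    · rw [if_neg h, Nat.gcd_one_left, (hco i (c z) h).gcd_eq_one, sub_self]
  have hfmeas : Measurable (fun z => ‖f z‖ ^ 2) := by
    have : (fun z => ‖f z‖ ^ 2) = fun z => μ.real (sec F z) := funext hfn
    rw [this]; exact hsec
  have hfint : Integrable (fun z => ‖f z‖ ^ 2) ν := by
    have : (fun z => ‖f z‖ ^ 2) = fun z => μ.real (sec F z) := funext hfn
    rw [this]; exact hsint
  have hdI : ∀ i, ∫ z, ‖d i z‖ ∂ν = ∫ z, d i z ∂ν := fun i =>
    integral_congr_ae (Eventually.of_forall fun z => by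
      change ‖d i z‖ = d i z
      rw [Real.norm_eq_abs, abs_of_nonneg (hd0 i z)])
  have heI : ∀ i, ∫ z, ‖e i z‖ ∂ν = ∫ z, e i z ∂ν := fun i =>
    integral_congr_ae (Eventually.of_forall fun z => by
      change ‖e i z‖ = e i z
      rw [Real.norm_eq_abs, abs_of_nonneg (he0 i z)])
  have hsumI : Summable (fun i => ∫ z, d i z ∂ν) := by
    refine summable_of_sum_le (c := ∫ z, (‖f z‖ ^ 2 - p z) ∂ν)
      (fun i => integral_nonneg fun z => hd0 i z) fun u => ?_
    rw [← integral_finsetSum _ fun i _ => hdint i]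
    refine integral_mono (integrable_finsetSum _ fun i _ => hdint i) (hfint.sub hpint) ?_
    intro z
    exact ((hdsum z).sum_le_tsum u (fun i _ => hd0 i z)).trans (hdle z)
  have hsum1 : ∑' i, ∫ z, d i z ∂ν = ∫ z, ∑' i, d i z ∂ν :=
    integral_tsum_of_summable_integral_norm hdint (by simp only [hdI]; exact hsumI)
  have hsum2 : ∑' i, ∫ z, e i z ∂ν = ∫ z, ∑' i, e i z ∂ν :=
    integral_tsum_of_summable_integral_norm heint (by simp only [heI, ← hde]; exact hsumI)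
  have hes : ∀ z, ∑' i, e i z = ((N (c z) : ℝ) - 1) / (N (c z) : ℝ) ^ 2 := by
    intro z
    simp only [he]
    exact tsum_ite_eq (c z) (fun i => ((N i : ℝ) - 1) / (N i : ℝ) ^ 2)
  have htm : Measurable (fun z => ∑' i, d i z) := by
    have h1 : ∀ s : Finset ι, Measurable (fun z => ∑ i ∈ s, d i z) := fun s =>
      Finset.measurable_sum _ fun i _ => hdm i
    refine measurable_of_tendsto_metrizable' (atTop : Filter (Finset ι)) h1 ?_
    rw [tendsto_pi_nhds]
    intro z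
    exact (hdsum z).hasSum
  have ht0 : ∀ z, 0 ≤ ∑' i, d i z := fun z => tsum_nonneg fun i => hd0 i z
  have htint : Integrable (fun z => ∑' i, d i z) ν := by
    refine Integrable.of_bound htm.aestronglyMeasurable 1 (Eventually.of_forall fun z => ?_)
    rw [Real.norm_eq_abs, abs_of_nonneg (ht0 z)]
    have h1 := hdle z
    have h2 := hf1 z
    have h3 := hp0 z
    linarith
  have hfp : Integrable (fun z => ‖f z‖ ^ 2 - p z) ν := hfint.sub hpint
  have hB : ∀ᵐ z ∂ν, (‖f z‖ ^ 2 - p z) - ∑' i, d i z = 0 := by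
    refine dic2_ae_zero ν (C := 1) ((hfmeas.sub hp1.1).sub htm)
      (Eventually.of_forall fun z => ?_) (Eventually.of_forall fun z => ?_) ?_
    · exact sub_nonneg.2 (hdle z)
    · have h1 := ht0 z
      have h2 := hf1 z
      have h3 := hp0 z
      linarith
    · rw [integral_sub hfp htint, sub_eq_zero, ← hsum1]
      simp only [hde]
      rw [hsum2]
      refine integral_congr_ae ?_
      filter_upwards [hA, hm] with z h1 h2
      rw [hes z]
      rw [h1, hfn z, h2]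
      have h3 : (N (c z) : ℝ) ≠ 0 := by
        have := hNR (c z)
        positivity
      field_simp
  filter_upwards [hA2, hB] with z h1 h2
  refine ⟨h1, ?_⟩
  have h3 : ∑' i, d i z = ‖f z‖ ^ 2 - p z := by linarith
  exact h3

end dict

end NB97_DIC2

/-- the dictionary theorem -/
theorem dict {T : ℤ → Ω → Ω} (T_zero : ∀ ω, T 0 ω = ω)
    (T_add : ∀ k l ω, T (k + l) ω = T k (T l ω)) (T_mp : ∀ k, MeasurePreserving (T k) μ μ)
    {F : Set (Z × Ω)} (hF : MeasurableSet F) {ι : Type*} [Countable ι] [MeasurableSpace ι]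
    [MeasurableSingletonClass ι] (N : ι → ℕ) (hN : ∀ i, 2 ≤ N i)
    (hco : ∀ i i', i ≠ i' → (N i).Coprime (N i')) (c : Z → ι) (hcm : Measurable c)
    (hm : ∀ᵐ z ∂ν, μ.real (sec F z) = ((N (c z) : ℝ))⁻¹)
    (hc : ∀ k : ℕ, ∫ z, μ.real {ω | ω ∈ sec F z ∧ T k ω ∈ sec F z} ∂ν =
      ∫ z, (if N (c z) ∣ k then ((N (c z) : ℝ))⁻¹ else 0) ∂ν) :
    ∀ᵐ z ∂ν, ∀ᵐ ω ∂μ, ∃ p : ℤ, ∀ k : ℤ, ((z, T k ω) ∈ F ↔ (N (c z) : ℤ) ∣ k - p) := by
  have hN0 : ∀ i, 0 < N i := fun i => by have := hN i; omega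
  filter_upwards [ae_bessel μ ν T_zero T_add T_mp hF N hN hco c hcm hm hc] with z ⟨h1, h2⟩
  set U := koop μ (T_mp 1) with hU
  set f := indv μ (measurableSet_sec hF z) with hf
  have h3 := bessel_eq U N hN0 hco f h2
  have h4 : ∀ i, (U ^ (N i)) (fixP U (N i) f - fixP U 1 f) = fixP U (N i) f - fixP U 1 f := by
    intro i
    rw [map_sub, fixP_fixed]
    congr 1
    have h5 : ∀ n : ℕ, (U ^ n) (fixP U 1 f) = fixP U 1 f := by
      intro n
      induction n with
      | zero => simp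
      | succ n ih =>
        rw [pow_succ]
        have h6 := fixP_fixed U 1 f
        rw [pow_one] at h6
        change (U ^ n) (U (fixP U 1 f)) = _
        rw [h6, ih]
    exact h5 _
  have h7 : ∀ n : ℕ, (U ^ n) (fixP U 1 f) = fixP U 1 f := by
    intro n
    induction n with
    | zero => simp
    | succ n ih =>
      rw [pow_succ]
      have h6 := fixP_fixed U 1 f
      rw [pow_one] at h6
      change (U ^ n) (U (fixP U 1 f)) = _
      rw [h6, ih]
  have h8 : ∀ i, ∑ l ∈ Finset.range (N i), (U ^ l) (fixP U (N i) f - fixP U 1 f) = 0 := by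
    intro i
    have h9 := fixP_avg U (hN0 i) f
    have hNi : (N i : ℝ) ≠ 0 := by exact_mod_cast (hN0 i).ne'
    have h10 : ∑ l ∈ Finset.range (N i), (U ^ l) (fixP U (N i) f) = (N i : ℝ) • fixP U 1 f := by
      rw [h9, smul_smul, mul_inv_cancel₀ hNi, one_smul]
    simp only [map_sub, Finset.sum_sub_distrib, h7]
    rw [h10, Finset.sum_const, Finset.card_range, ← Nat.cast_smul_eq_nsmul ℝ, sub_self]
  rw [h1] at h3
  have h11 := clock_of_sum μ T_zero T_add T_mp (measurableSet_sec hF z) N hN hco (c z)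
    (fun i => fixP U (N i) f - fixP U 1 f) h4 h8 (by rw [h1]; exact h3)
  filter_upwards [h11] with ω ⟨p, hp⟩
  exact ⟨p, fun k => hp k⟩

end dict

end Pool.Agent.LibNB97
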