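import Pool.Agent.LibNB97.GeoDef

/-! # Construction of the geometry -/

open MeasureTheory Set Filter Topology
open scoped ENNReal

namespace Pool.Agent.LibNB97

/-- parameters: periods `e κ`, relative widths `δ κ`, numbers `N κ` -/
structure Par (j : ℕ → ℕ) (N : ℕ → ℕ) (e δ : ℕ → ℝ) : Prop where
  N_pos : ∀ κ, 2 ≤ N κ
  δ_pos : ∀ κ, 0 < δ κ
  δ_le : ∀ κ, (N κ : ℝ) * δ κ ≤ (1 / 2) ^ (κ + 6)
  e_pos : ∀ κ, 0 < e κ
  e_le : ∀ κ, e κ ≤ (1 / 2) ^ (j κ + 6)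
  e_dec : ∀ κ κ', κ < κ' → e κ' ≤ e κ * δ κ / 8

/-- the interval of region `i` -/
def Jv (i : ℕ) : Set ℝ := Icc (3 * (1 / 2) ^ (i + 3)) (4 * (1 / 2) ^ (i + 3))

/-- the comb with period `e`, offset `ρ e` and teeth `[a e, b e]` (closed) -/
def combC (e ρ a b : ℝ) : Set ℝ := {x | ∃ n : ℤ, x ∈ Icc ((n + ρ + a) * e) ((n + ρ + b) * e)}

/-- open comb -/
def combO (e ρ a b : ℝ) : Set ℝ := {x | ∃ n : ℤ, x ∈ Ioo ((n + ρ + a) * e) ((n + ρ + b) * e)}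

/-- offset of the `r`-th comb -/
noncomputable def rho (N : ℕ) (r : ℕ) : ℝ := r / (4 * N)

/-- the hat of gadget `κ` -/
def hat (N : ℕ → ℕ) (e δ : ℕ → ℝ) (κ : ℕ) : Set ℝ :=
  ⋃ r ∈ Finset.range (N κ), combO (e κ) (rho (N κ) r) (- δ κ) (2 * δ κ)

/-- the double hat of gadget `κ` -/
def hat2 (N : ℕ → ℕ) (e δ : ℕ → ℝ) (κ : ℕ) : Set ℝ :=
  ⋃ r ∈ Finset.range (N κ), combO (e κ) (rho (N κ) r) (- (2 * δ κ)) (3 * δ κ)

/-- the cells of the gadgets -/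
def cellO (j N : ℕ → ℕ) (e δ : ℕ → ℝ) (κ r : ℕ) : Set ℝ :=
  if r < N κ then
    (Jv (j κ) ∩ combC (e κ) (rho (N κ) r) 0 (δ κ)) \
      ⋃ κ' ∈ {κ' | κ' < κ ∧ j κ' = j κ}, hat N e δ κ'
  else ∅

/-- the white part -/
def cellW (j N : ℕ → ℕ) (e δ : ℕ → ℝ) (i : ℕ) : Set ℝ :=
  Jv i \ ⋃ κ ∈ {κ | j κ = i}, hat N e δ κ

/-- the accessible points -/
def cellW' (j N : ℕ → ℕ) (e δ : ℕ → ℝ) (i : ℕ) : Set ℝ :=
  Jv i \ ⋃ κ ∈ {κ | j κ = i}, hat2 N e δ κ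

/-- length of the cells of the links -/
noncomputable def len (nx : ℕ → Fin 2 → ℕ) (e δ : ℕ → ℝ) (σ : ℕ × Fin 2) : ℝ :=
  min ((1 / 2) ^ (2 * σ.1 + (σ.2 : ℕ) + 5)) (min (e σ.1 * δ σ.1)
    (e (nx σ.1 σ.2) * δ (nx σ.1 σ.2)))

/-- the cells of the links -/
noncomputable def cellC (nx : ℕ → Fin 2 → ℕ) (e δ : ℕ → ℝ) (σ : ℕ × Fin 2) : Set ℝ :=
  Icc (3 * (1 / 2) ^ (2 * σ.1 + (σ.2 : ℕ) + 3))
    (3 * (1 / 2) ^ (2 * σ.1 + (σ.2 : ℕ) + 3) + len nx e δ σ)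

section tasks

variable {j N : ℕ → ℕ} {e δ : ℕ → ℝ}

section NB97_GEO1

/-- the periods -/
noncomputable def geo1_e (j N : ℕ → ℕ) : ℕ → ℝ
  | 0 => (1 / 2) ^ (j 0 + 6)
  | k + 1 => min ((1 / 2) ^ (j (k + 1) + 6))
      (geo1_e j N k * ((1 / 2) ^ (k + 6) / (N k : ℝ)) / 8)

theorem geo1_pos (j N : ℕ → ℕ) (hN : ∀ κ, 2 ≤ N κ) (k : ℕ) : 0 < geo1_e j N k := by
  induction k with
  | zero => rw [geo1_e]; positivity
  | succ k ih =>
    have h : (0:ℝ) < N k := by exact_mod_cast (by have := hN k; omega : 0 < N k)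
    rw [geo1_e]
    refine lt_min (by positivity) (by positivity)

theorem exists_par (j N : ℕ → ℕ) (hN : ∀ κ, 2 ≤ N κ) : ∃ e δ : ℕ → ℝ, Par j N e δ := by
  have hNp : ∀ k, (0:ℝ) < N k := fun k => by exact_mod_cast (by have := hN k; omega : 0 < N k)
  have hN1 : ∀ k, (1:ℝ) ≤ N k := fun k => by exact_mod_cast (by have := hN k; omega : 1 ≤ N k)
  have hδ1 : ∀ k, (1 / 2 : ℝ) ^ (k + 6) / (N k : ℝ) ≤ 1 := by
    intro k
    rw [div_le_one (hNp k)]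
    exact (pow_le_one₀ (by norm_num) (by norm_num)).trans (hN1 k)
  have hsucc : ∀ k, geo1_e j N (k + 1) ≤ geo1_e j N k * ((1 / 2) ^ (k + 6) / (N k : ℝ)) / 8 := by
    intro k
    rw [geo1_e]
    exact min_le_right _ _
  have hanti : Antitone (geo1_e j N) := by
    refine antitone_nat_of_succ_le fun k => (hsucc k).trans ?_
    have h1 := geo1_pos j N hN k
    have h2 := mul_le_mul_of_nonneg_left (hδ1 k) h1.le
    have h3 : 0 ≤ geo1_e j N k * ((1 / 2) ^ (k + 6) / (N k : ℝ)) := by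
      have := hNp k
      positivity
    linarith
  refine ⟨geo1_e j N, fun k => (1 / 2) ^ (k + 6) / (N k : ℝ), hN, ?_, ?_, geo1_pos j N hN, ?_, ?_⟩
  · intro k
    have := hNp k
    positivity
  · intro k
    rw [mul_div_cancel₀ _ (hNp k).ne']
  · intro k
    cases k with
    | zero => rw [geo1_e]
    | succ k => rw [geo1_e]; exact min_le_left _ _
  · intro κ κ' h
    exact (hanti (Nat.succ_le_of_lt h)).trans (hsucc κ)

end NB97_GEO1

section NB97_GEO2a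

theorem isClosed_combC {e : ℝ} (he : 0 < e) (ρ a b : ℝ) : IsClosed (combC e ρ a b) := by
  have h1 : combC e ρ a b = ⋃ n : ℤ, Icc ((n + ρ + a) * e) ((n + ρ + b) * e) := by
    ext x
    simp [combC]
  rw [h1]
  refine LocallyFinite.isClosed_iUnion ?_ fun n => isClosed_Icc
  intro x
  refine ⟨Ioo (x - 1) (x + 1), Ioo_mem_nhds (by linarith) (by linarith), ?_⟩
  refine (Set.finite_Icc (⌊(x - 1) / e - ρ - b⌋) (⌈(x + 1) / e - ρ - a⌉)).subset ?_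
  rintro n ⟨y, ⟨hy1, hy2⟩, hy3, hy4⟩
  constructor
  · rw [Int.floor_le_iff]
    have h2 : x - 1 < (n + ρ + b) * e := lt_of_lt_of_le hy3 hy2
    rw [← div_lt_iff₀ he] at h2
    push_cast
    linarith
  · rw [Int.le_ceil_iff]
    have h2 : (n + ρ + a) * e < x + 1 := lt_of_le_of_lt hy1 hy4
    rw [← lt_div_iff₀ he] at h2
    linarith

theorem isOpen_combO (e ρ a b : ℝ) : IsOpen (combO e ρ a b) := by
  have h1 : combO e ρ a b = ⋃ n : ℤ, Ioo ((n + ρ + a) * e) ((n + ρ + b) * e) := by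
    ext x
    simp [combO]
  rw [h1]
  exact isOpen_iUnion fun n => isOpen_Ioo

theorem isOpen_hat (κ : ℕ) : IsOpen (hat N e δ κ) :=
  isOpen_biUnion fun _ _ => isOpen_combO _ _ _ _

theorem isOpen_hat2 (κ : ℕ) : IsOpen (hat2 N e δ κ) :=
  isOpen_biUnion fun _ _ => isOpen_combO _ _ _ _

theorem hat_sub_hat2 (hp : Par j N e δ) (κ : ℕ) : hat N e δ κ ⊆ hat2 N e δ κ := by
  intro x hx
  simp only [hat, hat2, mem_iUnion] at hx ⊢
  obtain ⟨r, hr, n, h1, h2⟩ := hx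
  refine ⟨r, hr, n, lt_of_le_of_lt ?_ h1, lt_of_lt_of_le h2 ?_⟩
  · have := hp.δ_pos κ
    exact mul_le_mul_of_nonneg_right (by linarith) (hp.e_pos κ).le
  · have := hp.δ_pos κ
    exact mul_le_mul_of_nonneg_right (by linarith) (hp.e_pos κ).le

theorem cellO_sub_hat (hp : Par j N e δ) (κ r : ℕ) : cellO j N e δ κ r ⊆ hat N e δ κ := by
  intro x hx
  unfold cellO at hx
  split_ifs at hx with hr
  · obtain ⟨n, h1, h2⟩ := hx.1.2
    simp only [hat, mem_iUnion]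
    have h3 := hp.δ_pos κ
    refine ⟨r, Finset.mem_range.2 hr, n, lt_of_lt_of_le ?_ h1, lt_of_le_of_lt h2 ?_⟩
    · exact mul_lt_mul_of_pos_right (by linarith) (hp.e_pos κ)
    · exact mul_lt_mul_of_pos_right (by linarith) (hp.e_pos κ)
  · exact absurd hx (notMem_empty x)

theorem isClosed_cellO (hp : Par j N e δ) (κ r : ℕ) : IsClosed (cellO j N e δ κ r) := by
  unfold cellO
  split_ifs with hr
  · rw [sdiff_eq]
    refine IsClosed.inter (isClosed_Icc.inter (isClosed_combC (hp.e_pos κ) _ _ _)) ?_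
    rw [isClosed_compl_iff]
    exact isOpen_biUnion fun κ' _ => isOpen_hat κ'
  · exact isClosed_empty

theorem isClosed_cellW (hp : Par j N e δ) (i : ℕ) : IsClosed (cellW j N e δ i) := by
  have _ := hp
  unfold cellW
  rw [sdiff_eq]
  refine IsClosed.inter isClosed_Icc ?_
  rw [isClosed_compl_iff]
  exact isOpen_biUnion fun κ' _ => isOpen_hat κ'

end NB97_GEO2a








section NB97_GEO2b

theorem geo2b_lt {i i' : ℕ} (h : i < i') {x y : ℝ} (hx : x ∈ Jv i) (hy : y ∈ Jv i') : y < x := by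
  have h1 : (1 / 2 : ℝ) ^ (i' + 3) ≤ (1 / 2) ^ (i + 1 + 3) :=
    pow_le_pow_of_le_one (by norm_num) (by norm_num) (by omega)
  have h2 : (1 / 2 : ℝ) ^ (i + 1 + 3) = (1 / 2) ^ (i + 3) * (1 / 2) := by
    rw [← pow_succ]
  have h3 : (0:ℝ) < (1 / 2) ^ (i + 3) := by positivity
  have h4 := hx.1
  have h5 := hy.2
  linarith

theorem geo2b_Jv {i i' : ℕ} (h : i ≠ i') {x : ℝ} (hx : x ∈ Jv i) (hy : x ∈ Jv i') : False := by
  rcases lt_or_gt_of_ne h with h | h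
  · exact lt_irrefl x (geo2b_lt h hx hy)
  · exact lt_irrefl x (geo2b_lt h hy hx)

theorem geo2b_mem {κ r : ℕ} {x : ℝ} (hx : x ∈ cellO j N e δ κ r) : r < N κ ∧ x ∈ Jv (j κ) ∧
    x ∈ combC (e κ) (rho (N κ) r) 0 (δ κ) ∧ ∀ κ', κ' < κ → j κ' = j κ → x ∉ hat N e δ κ' := by
  unfold cellO at hx
  split_ifs at hx with hr
  · refine ⟨hr, hx.1.1, hx.1.2, fun κ' h1 h2 h3 => hx.2 ?_⟩
    simp only [mem_iUnion]
    exact ⟨κ', ⟨h1, h2⟩, h3⟩
  · exact absurd hx (notMem_empty x)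

theorem geo2b_comb (hp : Par j N e δ) (κ r r' : ℕ) (hr : r < N κ) (hr' : r' < N κ) (x : ℝ)
    (hx : x ∈ combC (e κ) (rho (N κ) r) 0 (δ κ)) (hx' : x ∈ combC (e κ) (rho (N κ) r') 0 (δ κ)) :
    r = r' := by
  obtain ⟨n, h1, h2⟩ := hx
  obtain ⟨n', h1', h2'⟩ := hx'
  have he := hp.e_pos κ
  have hN : (0:ℝ) < N κ := by exact_mod_cast (by have := hp.N_pos κ; omega : 0 < N κ)
  have hδ : (N κ : ℝ) * δ κ ≤ 1 / 64 := by
    refine (hp.δ_le κ).trans ?_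
    calc (1 / 2 : ℝ) ^ (κ + 6) ≤ (1 / 2) ^ 6 :=
          pow_le_pow_of_le_one (by norm_num) (by norm_num) (by omega)
      _ = 1 / 64 := by norm_num
  have h3 : (n + rho (N κ) r + 0) * e κ ≤ (n' + rho (N κ) r' + δ κ) * e κ := h1.trans h2'
  have h4 : (n' + rho (N κ) r' + 0) * e κ ≤ (n + rho (N κ) r + δ κ) * e κ := h1'.trans h2
  have h5 := le_of_mul_le_mul_right h3 he
  have h6 := le_of_mul_le_mul_right h4 he
  unfold rho at h5 h6
  have e1 : (4 * (N κ : ℝ)) * (n + (r:ℝ) / (4 * N κ) + 0) = 4 * N κ * n + r := by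
    field_simp
    ring
  have e2 : (4 * (N κ : ℝ)) * (n' + (r':ℝ) / (4 * N κ) + δ κ) =
      4 * N κ * n' + r' + 4 * (N κ * δ κ) := by
    field_simp
  have e3 : (4 * (N κ : ℝ)) * (n' + (r':ℝ) / (4 * N κ) + 0) = 4 * N κ * n' + r' := by
    field_simp
    ring
  have e4 : (4 * (N κ : ℝ)) * (n + (r:ℝ) / (4 * N κ) + δ κ) =
      4 * N κ * n + r + 4 * (N κ * δ κ) := by
    field_simp
  have h7 := mul_le_mul_of_nonneg_left h5 (by positivity : (0:ℝ) ≤ 4 * N κ)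
  have h8 := mul_le_mul_of_nonneg_left h6 (by positivity : (0:ℝ) ≤ 4 * N κ)
  rw [e1, e2] at h7
  rw [e3, e4] at h8
  have h9 : (4 * (N κ : ℤ) * n + r) < 4 * (N κ : ℤ) * n' + r' + 1 := by
    have : (4 * (N κ : ℝ) * n + r) < 4 * (N κ : ℝ) * n' + r' + 1 := by linarith
    exact_mod_cast this
  have h10 : (4 * (N κ : ℤ) * n' + r') < 4 * (N κ : ℤ) * n + r + 1 := by
    have : (4 * (N κ : ℝ) * n' + r') < 4 * (N κ : ℝ) * n + r + 1 := by linarith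
    exact_mod_cast this
  have h11 : 4 * (N κ : ℤ) * n + r = 4 * (N κ : ℤ) * n' + r' := by omega
  have h12 : 4 * (N κ : ℤ) * (n - n') = (r' : ℤ) - r := by linarith
  have h13 : n - n' = 0 := by
    by_contra hne
    have hb1 : (N κ : ℤ) > 0 := by exact_mod_cast hN
    rcases lt_or_gt_of_ne hne with hlt | hgt
    · have : 4 * (N κ : ℤ) * (n - n') ≤ 4 * (N κ : ℤ) * (-1) :=
        mul_le_mul_of_nonneg_left (by omega) (by omega)
      omega
    · have : 4 * (N κ : ℤ) * 1 ≤ 4 * (N κ : ℤ) * (n - n') :=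
        mul_le_mul_of_nonneg_left (by omega) (by omega)
      omega
  rw [h13, mul_zero] at h12
  omega

theorem cell_disj (hp : Par j N e δ) (p p' : ℕ × ℕ) (h : p ≠ p') :
    Disjoint (cellO j N e δ p.1 p.2) (cellO j N e δ p'.1 p'.2) := by
  rw [Set.disjoint_left]
  intro x hx hx'
  obtain ⟨hr, hJ, hc, ha⟩ := geo2b_mem hx
  obtain ⟨hr', hJ', hc', ha'⟩ := geo2b_mem hx'
  obtain ⟨κ, r⟩ := p
  obtain ⟨κ', r'⟩ := p'
  simp only at *
  by_cases hj : j κ = j κ'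
  · rcases lt_trichotomy κ κ' with hlt | heq | hgt
    · exact ha' κ hlt hj (cellO_sub_hat hp κ r hx)
    · subst heq
      exact h (by rw [geo2b_comb hp κ r r' hr hr' x hc hc'])
    · exact ha κ' hgt hj.symm (cellO_sub_hat hp κ' r' hx')
  · exact geo2b_Jv hj hJ hJ'

theorem cellWO_disj (hp : Par j N e δ) (i κ r : ℕ) :
    Disjoint (cellW j N e δ i) (cellO j N e δ κ r) := by
  rw [Set.disjoint_left]
  intro x hx hx'
  obtain ⟨hr, hJ, hc, ha⟩ := geo2b_mem hx'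
  by_cases hj : j κ = i
  · refine hx.2 ?_
    simp only [mem_iUnion]
    exact ⟨κ, hj, cellO_sub_hat hp κ r hx'⟩
  · exact geo2b_Jv hj hJ hx.1

end NB97_GEO2b


section NB97_GEO3

theorem geo3_comb (A B e ρ d : ℝ) (he : 0 < e) (hd : 0 < d) (hAB : A ≤ B) :
    volume (Icc A B ∩ combO e ρ (-(2 * d)) (3 * d)) ≤
      ENNReal.ofReal (5 * d * ((B - A) + (5 * d + 1) * e)) := by
  set s := A / e - ρ - 3 * d with hs
  set t := B / e - ρ + 2 * d with ht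
  have hsub : Icc A B ∩ combO e ρ (-(2 * d)) (3 * d) ⊆
      ⋃ n ∈ Finset.Icc (⌊s⌋ + 1) (⌈t⌉ - 1), Ioo ((n + ρ + (-(2 * d))) * e) ((n + ρ + 3 * d) * e) := by
    rintro x ⟨⟨hx1, hx2⟩, n, hn1, hn2⟩
    simp only [mem_iUnion, Finset.mem_Icc]
    refine ⟨n, ⟨?_, ?_⟩, hn1, hn2⟩
    · have h1 : A < (n + ρ + 3 * d) * e := lt_of_le_of_lt hx1 hn2
      rw [← div_lt_iff₀ he] at h1
      have h2 : s < n := by rw [hs]; linarith
      have h3 : ⌊s⌋ < n := Int.floor_lt.2 h2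
      omega
    · have h1 : (n + ρ + (-(2 * d))) * e < B := lt_of_lt_of_le hn1 hx2
      rw [← lt_div_iff₀ he] at h1
      have h2 : (n:ℝ) < t := by rw [ht]; linarith
      have h3 : n < ⌈t⌉ := Int.lt_ceil.2 h2
      omega
  refine (measure_mono hsub).trans ((measure_biUnion_finset_le _ _).trans ?_)
  have h1 : ∀ n : ℤ, volume (Ioo ((n + ρ + (-(2 * d))) * e) ((n + ρ + 3 * d) * e)) =
      ENNReal.ofReal (5 * d * e) := by
    intro n
    rw [Real.volume_Ioo]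
    congr 1
    ring
  rw [Finset.sum_congr rfl (fun n _ => h1 n), Finset.sum_const, nsmul_eq_mul]
  have hst : s ≤ t := by
    have : A / e ≤ B / e := div_le_div_of_nonneg_right hAB he.le
    rw [hs, ht]
    linarith
  have hcard : ((Finset.Icc (⌊s⌋ + 1) (⌈t⌉ - 1)).card : ℝ) ≤ t - s + 1 := by
    rw [Int.card_Icc]
    have h2 : ((⌈t⌉ - 1 + 1 - (⌊s⌋ + 1)).toNat : ℝ) = (max (⌈t⌉ - 1 + 1 - (⌊s⌋ + 1)) 0 : ℤ) := by
      have h2' : (((⌈t⌉ - 1 + 1 - (⌊s⌋ + 1)).toNat : ℤ) : ℝ) =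
          (max (⌈t⌉ - 1 + 1 - (⌊s⌋ + 1)) 0 : ℤ) := by
        rw [Int.toNat_eq_max]
      rw [← h2', Int.cast_natCast]
    rw [h2]
    push_cast
    refine max_le ?_ (by linarith)
    have h3 := Int.ceil_lt_add_one t
    have h4 := Int.lt_floor_add_one s
    linarith
  have h5 : ((Finset.Icc (⌊s⌋ + 1) (⌈t⌉ - 1)).card : ℝ≥0∞) =
      ENNReal.ofReal ((Finset.Icc (⌊s⌋ + 1) (⌈t⌉ - 1)).card : ℝ) := by
    rw [ENNReal.ofReal_natCast]
  rw [h5, ← ENNReal.ofReal_mul (by positivity)]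
  apply ENNReal.ofReal_le_ofReal
  calc ((Finset.Icc (⌊s⌋ + 1) (⌈t⌉ - 1)).card : ℝ) * (5 * d * e) ≤ (t - s + 1) * (5 * d * e) :=
        mul_le_mul_of_nonneg_right hcard (by positivity)
    _ = 5 * d * ((B - A) + (5 * d + 1) * e) := by
        rw [hs, ht]
        field_simp
        ring

theorem geo3_hat (hp : Par j N e δ) (i κ : ℕ) (hκ : j κ = i) :
    volume (Jv i ∩ hat2 N e δ κ) ≤
      ENNReal.ofReal (25 / 4 * (1 / 2) ^ (κ + 6) * (1 / 2) ^ (i + 3)) := by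
  have he := hp.e_pos κ
  have hδ := hp.δ_pos κ
  have hN : (2:ℝ) ≤ N κ := by exact_mod_cast hp.N_pos κ
  have hδN := hp.δ_le κ
  have hpow : (1 / 2 : ℝ) ^ (κ + 6) ≤ 1 / 64 := by
    calc (1 / 2 : ℝ) ^ (κ + 6) ≤ (1 / 2) ^ 6 :=
          pow_le_pow_of_le_one (by norm_num) (by norm_num) (by omega)
      _ = 1 / 64 := by norm_num
  have hδ1 : δ κ ≤ 1 / 64 := by nlinarith
  have hL : (0:ℝ) < (1 / 2) ^ (i + 3) := by positivity
  have heL : e κ ≤ (1 / 2) ^ (i + 3) / 8 := by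
    have h1 := hp.e_le κ
    rw [hκ] at h1
    have h2 : (1 / 2 : ℝ) ^ (i + 6) = (1 / 2) ^ (i + 3) / 8 := by
      rw [show i + 6 = (i + 3) + 3 by ring, pow_add _ (i + 3) 3]
      ring
    rw [h2] at h1
    exact h1
  have hsub : Jv i ∩ hat2 N e δ κ ⊆ ⋃ r ∈ Finset.range (N κ), (Icc (3 * (1 / 2) ^ (i + 3))
      (4 * (1 / 2) ^ (i + 3)) ∩ combO (e κ) (rho (N κ) r) (-(2 * δ κ)) (3 * δ κ)) := by
    rintro x ⟨hx1, hx2⟩
    simp only [hat2, mem_iUnion] at hx2 ⊢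
    obtain ⟨r, hr, hx3⟩ := hx2
    exact ⟨r, hr, hx1, hx3⟩
  refine (measure_mono hsub).trans ((measure_biUnion_finset_le _ _).trans ?_)
  have h1 : ∀ r ∈ Finset.range (N κ), volume (Icc (3 * (1 / 2) ^ (i + 3) : ℝ)
      (4 * (1 / 2) ^ (i + 3)) ∩ combO (e κ) (rho (N κ) r) (-(2 * δ κ)) (3 * δ κ)) ≤
      ENNReal.ofReal (25 / 4 * δ κ * (1 / 2) ^ (i + 3)) := by
    intro r _
    refine (geo3_comb _ _ (e κ) (rho (N κ) r) (δ κ) he hδ (by linarith)).trans ?_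
    apply ENNReal.ofReal_le_ofReal
    have h2 : (5 * δ κ + 1) * e κ ≤ (1 / 2) ^ (i + 3) / 4 := by nlinarith
    nlinarith
  refine (Finset.sum_le_sum h1).trans ?_
  rw [Finset.sum_const, Finset.card_range, nsmul_eq_mul, ← ENNReal.ofReal_natCast,
    ← ENNReal.ofReal_mul (by positivity)]
  apply ENNReal.ofReal_le_ofReal
  nlinarith

theorem volume_cellW' (hp : Par j N e δ) (i : ℕ) : 0 < volume (cellW' j N e δ i) := by
  rw [pos_iff_ne_zero]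
  intro h0
  have hL : (0:ℝ) < (1 / 2) ^ (i + 3) := by positivity
  have hJ : volume (Jv i) = ENNReal.ofReal ((1 / 2) ^ (i + 3)) := by
    rw [Jv, Real.volume_Icc]
    congr 1
    ring
  have h1 : volume (Jv i) ≤ volume (Jv i ∩ ⋃ κ ∈ {κ | j κ = i}, hat2 N e δ κ) +
      volume (cellW' j N e δ i) := measure_le_inter_add_sdiff _ _ _
  rw [h0, add_zero] at h1
  have h2 : volume (Jv i ∩ ⋃ κ ∈ {κ | j κ = i}, hat2 N e δ κ) ≤
      ∑' κ : ℕ, ENNReal.ofReal (25 / 4 * (1 / 2) ^ (κ + 6) * (1 / 2) ^ (i + 3)) := by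
    have hsub : Jv i ∩ ⋃ κ ∈ {κ | j κ = i}, hat2 N e δ κ ⊆
        ⋃ κ : ℕ, ⋃ (_ : j κ = i), (Jv i ∩ hat2 N e δ κ) := by
      rintro x ⟨hx1, hx2⟩
      simp only [mem_iUnion] at hx2 ⊢
      obtain ⟨κ, hκ, hx3⟩ := hx2
      exact ⟨κ, hκ, hx1, hx3⟩
    refine (measure_mono hsub).trans ((measure_iUnion_le _).trans ?_)
    refine ENNReal.tsum_le_tsum fun κ => ?_
    by_cases hκ : j κ = i
    · simp only [hκ, iUnion_true]
      exact geo3_hat hp i κ hκ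
    · simp [hκ]
  have h3 : ∑' κ : ℕ, ENNReal.ofReal (25 / 4 * (1 / 2) ^ (κ + 6) * (1 / 2) ^ (i + 3)) =
      ENNReal.ofReal (25 / 128 * (1 / 2) ^ (i + 3)) := by
    have h4 : ∀ κ : ℕ, (25 / 4 * (1 / 2) ^ (κ + 6) * (1 / 2) ^ (i + 3) : ℝ) =
        (25 / 256 * (1 / 2) ^ (i + 3)) * (1 / 2) ^ κ := by
      intro κ
      rw [pow_add _ κ 6]
      ring
    simp only [h4]
    have hs : Summable (fun κ : ℕ => (25 / 256 * (1 / 2) ^ (i + 3)) * (1 / 2 : ℝ) ^ κ) :=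
      (summable_geometric_of_lt_one (by norm_num) (by norm_num)).mul_left _
    rw [← ENNReal.ofReal_tsum_of_nonneg (fun κ => by positivity) hs, tsum_mul_left,
      tsum_geometric_of_lt_one (by norm_num) (by norm_num)]
    congr 1
    ring
  rw [hJ] at h1
  have h5 := h1.trans (h2.trans h3.le)
  rw [ENNReal.ofReal_le_ofReal_iff (by positivity)] at h5
  linarith

end NB97_GEO3

section NB97_GEO4

/-- a family of closed sets shrinking to `0` -/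
theorem geo4_fam {ι : Type} (A : ι → Set ℝ) (hc : ∀ i, IsClosed (A i)) (h0 : ∀ i, A i ⊆ Ici 0)
    (hf : ∀ ε > 0, {i | ¬ A i ⊆ Iic ε}.Finite) : IsClosed ({0} ∪ ⋃ i, A i) := by
  rw [← isOpen_compl_iff, isOpen_iff_mem_nhds]
  intro x hx
  have hx0 : x ≠ 0 := fun h => hx (Or.inl h)
  have hxA : ∀ i, x ∉ A i := fun i h => hx (Or.inr (mem_iUnion.2 ⟨i, h⟩))
  rcases lt_or_gt_of_ne hx0 with h | h
  · refine mem_of_superset (Iio_mem_nhds h) ?_
    rintro y hy (h1 | h1)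
    · rw [mem_singleton_iff] at h1
      rw [h1] at hy
      exact lt_irrefl _ (mem_Iio.1 hy)
    · obtain ⟨i, hi⟩ := mem_iUnion.1 h1
      have h2 : (0:ℝ) ≤ y := h0 i hi
      exact absurd (mem_Iio.1 hy) (not_lt.2 h2)
  · have hfin := hf (x / 2) (by positivity)
    have hcl : IsClosed (⋃ i ∈ {i | ¬ A i ⊆ Iic (x / 2)}, A i) :=
      hfin.isClosed_biUnion fun i _ => hc i
    have hmem : x ∈ (⋃ i ∈ {i | ¬ A i ⊆ Iic (x / 2)}, A i)ᶜ := by
      intro h1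
      simp only [mem_iUnion] at h1
      obtain ⟨i, _, hi⟩ := h1
      exact hxA i hi
    refine mem_of_superset (inter_mem (hcl.isOpen_compl.mem_nhds hmem)
      (Ioi_mem_nhds (show x / 2 < x by linarith))) ?_
    rintro y ⟨hy1, hy2⟩ (h1 | h1)
    · rw [mem_singleton_iff] at h1
      rw [h1] at hy2
      have : x / 2 < 0 := mem_Ioi.1 hy2
      linarith
    · obtain ⟨i, hi⟩ := mem_iUnion.1 h1
      apply hy1
      simp only [mem_iUnion]
      refine ⟨i, ?_, hi⟩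
      intro h2
      exact absurd (mem_Iic.1 (h2 hi)) (not_le.2 (mem_Ioi.1 hy2))

theorem geo4_Jv_nonneg (i : ℕ) : Jv i ⊆ Ici 0 := by
  intro x hx
  have h1 : (0:ℝ) < (1 / 2) ^ (i + 3) := by positivity
  exact le_trans (by positivity) hx.1

theorem geo4_Jv_fin (A : ℕ → Set ℝ) (hA : ∀ i, A i ⊆ Jv i) (ε : ℝ) (hε : 0 < ε) :
    {i | ¬ A i ⊆ Iic ε}.Finite := by
  obtain ⟨n, hn⟩ := exists_pow_lt_of_lt_one hε (show (1 / 2 : ℝ) < 1 by norm_num)
  refine (Set.finite_Iio n).subset ?_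
  intro i hi
  by_contra hni
  rw [mem_Iio, not_lt] at hni
  refine hi fun x hx => ?_
  have h1 := (hA i hx).2
  have h2 : (1 / 2 : ℝ) ^ (i + 3) ≤ (1 / 2) ^ (n + 3) :=
    pow_le_pow_of_le_one (by norm_num) (by norm_num) (by omega)
  have h3 : (1 / 2 : ℝ) ^ (n + 3) = (1 / 2) ^ n * (1 / 8) := by
    rw [pow_add]; norm_num
  have h4 : (0:ℝ) < (1 / 2) ^ n := by positivity
  rw [mem_Iic]
  linarith

theorem geo4_cellO_sub (κ r : ℕ) : cellO j N e δ κ r ⊆ Jv (j κ) := by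
  intro x hx
  unfold cellO at hx
  split_ifs at hx
  · exact hx.1.1
  · exact absurd hx (notMem_empty x)

theorem geo4_empty {κ r : ℕ} (h : ¬ r < N κ) : cellO j N e δ κ r = ∅ := by
  unfold cellO
  rw [if_neg h]

theorem geo4_avoid {κ κ' r : ℕ} (h : κ' < κ) (hj : j κ' = j κ) {x : ℝ}
    (hx : x ∈ cellO j N e δ κ r) : x ∉ hat N e δ κ' := by
  unfold cellO at hx
  split_ifs at hx
  · intro h3
    refine hx.2 ?_
    simp only [mem_iUnion]
    exact ⟨κ', ⟨h, hj⟩, h3⟩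
  · exact absurd hx (notMem_empty x)

/-- finitely many gadgets -/
theorem geo4_fin (hp : Par j N e δ) (P : Set (ℕ × ℕ)) (K : Set ℕ) (hK : K.Finite) :
    IsClosed (⋃ p ∈ {p | p ∈ P ∧ p.1 ∈ K}, cellO j N e δ p.1 p.2) := by
  have h1 : (⋃ p ∈ {p | p ∈ P ∧ p.1 ∈ K}, cellO j N e δ p.1 p.2) =
      ⋃ κ ∈ K, ⋃ r ∈ {r | r < N κ ∧ (κ, r) ∈ P}, cellO j N e δ κ r := by
    ext x
    simp only [mem_iUnion]
    constructor
    · rintro ⟨p, ⟨hp1, hp2⟩, hx⟩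
      refine ⟨p.1, hp2, p.2, ⟨?_, hp1⟩, hx⟩
      by_contra hN
      rw [geo4_empty hN] at hx
      exact notMem_empty x hx
    · rintro ⟨κ, hκ, r, ⟨_, hr2⟩, hx⟩
      exact ⟨(κ, r), ⟨hr2, hκ⟩, hx⟩
  rw [h1]
  refine hK.isClosed_biUnion fun κ _ => ?_
  refine Set.Finite.isClosed_biUnion ?_ fun r _ => isClosed_cellO hp κ r
  exact (Set.finite_Iio (N κ)).subset fun r hr => hr.1

theorem geo4_region (hp : Par j N e δ) (P : Set (ℕ × ℕ)) (i : ℕ) :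
    IsClosed (cellW j N e δ i ∪ ⋃ p ∈ {p | p ∈ P ∧ j p.1 = i}, cellO j N e δ p.1 p.2) := by
  rw [← isOpen_compl_iff, isOpen_iff_mem_nhds]
  intro x hx
  have hxW : x ∉ cellW j N e δ i := fun h => hx (Or.inl h)
  have hxO : x ∉ ⋃ p ∈ {p | p ∈ P ∧ j p.1 = i}, cellO j N e δ p.1 p.2 := fun h => hx (Or.inr h)
  by_cases hJ : x ∈ Jv i
  · -- `x` is in a hat
    have hhat : ∃ κ, j κ = i ∧ x ∈ hat N e δ κ := by
      by_contra hcon
      push Not at hcon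
      apply hxW
      refine ⟨hJ, ?_⟩
      simp only [mem_iUnion]
      rintro ⟨κ, hκ, h1⟩
      exact hcon κ hκ h1
    obtain ⟨κ₀, hκ₀, hx₀⟩ := hhat
    have hcl := geo4_fin hp {p | p ∈ P ∧ j p.1 = i} (Iic κ₀) (Set.finite_Iic κ₀)
    have hmem : x ∈ (⋃ p ∈ {p | p ∈ {p : ℕ × ℕ | p ∈ P ∧ j p.1 = i} ∧ p.1 ∈ Iic κ₀},
        cellO j N e δ p.1 p.2)ᶜ := by
      intro h1
      apply hxO
      simp only [mem_iUnion] at h1 ⊢
      obtain ⟨p, hp1, h2⟩ := h1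
      exact ⟨p, hp1.1, h2⟩
    refine mem_of_superset (inter_mem (hcl.isOpen_compl.mem_nhds hmem)
      ((isOpen_hat (N := N) (e := e) (δ := δ) κ₀).mem_nhds hx₀)) ?_
    rintro y ⟨hy1, hy2⟩ (h1 | h1)
    · apply h1.2
      simp only [mem_iUnion]
      exact ⟨κ₀, hκ₀, hy2⟩
    · simp only [mem_iUnion] at h1
      obtain ⟨p, hpP, h2⟩ := h1
      apply hy1
      simp only [mem_iUnion]
      refine ⟨p, ⟨hpP, ?_⟩, h2⟩
      rw [mem_Iic]
      by_contra hlt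
      rw [not_le] at hlt
      exact geo4_avoid hlt (hκ₀.trans hpP.2.symm) h2 hy2
  · refine mem_of_superset (isClosed_Icc.isOpen_compl.mem_nhds hJ) ?_
    rintro y hy (h1 | h1)
    · exact hy h1.1
    · simp only [mem_iUnion] at h1
      obtain ⟨p, hpP, h2⟩ := h1
      have h3 := geo4_cellO_sub p.1 p.2 h2
      rw [hpP.2] at h3
      exact hy h3

theorem cell_fam1 (hp : Par j N e δ) (P : Set (ℕ × ℕ)) :
    IsClosed (({0} ∪ ⋃ i, cellW j N e δ i) ∪ ⋃ p ∈ P, cellO j N e δ p.1 p.2) := by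
  have h1 : (({0} ∪ ⋃ i, cellW j N e δ i) ∪ ⋃ p ∈ P, cellO j N e δ p.1 p.2) =
      {0} ∪ ⋃ i, (cellW j N e δ i ∪ ⋃ p ∈ {p | p ∈ P ∧ j p.1 = i}, cellO j N e δ p.1 p.2) := by
    rw [union_assoc, iUnion_union_distrib]
    congr 2
    ext x
    simp only [mem_iUnion]
    constructor
    · rintro ⟨p, hpP, hx⟩
      exact ⟨j p.1, p, ⟨hpP, rfl⟩, hx⟩
    · rintro ⟨i, p, ⟨hpP, _⟩, hx⟩
      exact ⟨p, hpP, hx⟩
  rw [h1]
  have hsub : ∀ i, (cellW j N e δ i ∪ ⋃ p ∈ {p | p ∈ P ∧ j p.1 = i}, cellO j N e δ p.1 p.2) ⊆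
      Jv i := by
    rintro i x (hx | hx)
    · exact hx.1
    · simp only [mem_iUnion] at hx
      obtain ⟨p, hpP, h2⟩ := hx
      have h3 := geo4_cellO_sub p.1 p.2 h2
      rw [hpP.2] at h3
      exact h3
  exact geo4_fam _ (geo4_region hp P) (fun i => (hsub i).trans (geo4_Jv_nonneg i))
    fun ε hε => geo4_Jv_fin _ hsub ε hε

theorem cell_fam2 (hp : Par j N e δ) (P : Set (ℕ × ℕ))
    (hP : ∀ i, {κ | j κ = i ∧ ∃ r, (κ, r) ∈ P}.Finite) (hr : ∀ p ∈ P, p.2 < N p.1) :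
    IsClosed ({0} ∪ ⋃ p ∈ P, cellO j N e δ p.1 p.2) := by
  have _ := hr
  have h1 : (⋃ p ∈ P, cellO j N e δ p.1 p.2) =
      ⋃ i, ⋃ p ∈ {p | p ∈ P ∧ p.1 ∈ {κ | j κ = i ∧ ∃ r, (κ, r) ∈ P}},
        cellO j N e δ p.1 p.2 := by
    ext x
    simp only [mem_iUnion]
    constructor
    · rintro ⟨p, hpP, hx⟩
      exact ⟨j p.1, p, ⟨hpP, rfl, p.2, hpP⟩, hx⟩
    · rintro ⟨i, p, ⟨hpP, _⟩, hx⟩
      exact ⟨p, hpP, hx⟩
  rw [h1]
  have hsub : ∀ i, (⋃ p ∈ {p | p ∈ P ∧ p.1 ∈ {κ | j κ = i ∧ ∃ r, (κ, r) ∈ P}},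
      cellO j N e δ p.1 p.2) ⊆ Jv i := by
    intro i x hx
    simp only [mem_iUnion] at hx
    obtain ⟨p, hpP, h2⟩ := hx
    have h3 := geo4_cellO_sub p.1 p.2 h2
    have h4 : j p.1 = i := hpP.2.1
    rw [h4] at h3
    exact h3
  exact geo4_fam _ (fun i => geo4_fin hp P _ (hP i))
    (fun i => (hsub i).trans (geo4_Jv_nonneg i)) fun ε hε => geo4_Jv_fin _ hsub ε hε

end NB97_GEO4


section NB97_GEO5

section tasks

variable {j N : ℕ → ℕ} {e δ : ℕ → ℝ}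

theorem geo5_len_pos (nx : ℕ → Fin 2 → ℕ) (hp : Par j N e δ) (σ : ℕ × Fin 2) :
    0 < len nx e δ σ := by
  unfold len
  exact lt_min (by positivity) (lt_min (mul_pos (hp.e_pos _) (hp.δ_pos _))
    (mul_pos (hp.e_pos _) (hp.δ_pos _)))

theorem geo5_len_le (nx : ℕ → Fin 2 → ℕ) (e δ : ℕ → ℝ) (σ : ℕ × Fin 2) :
    len nx e δ σ ≤ (1 / 2) ^ (2 * σ.1 + (σ.2 : ℕ) + 3) / 4 := by
  unfold len
  refine (min_le_left _ _).trans (le_of_eq ?_)
  rw [show 2 * σ.1 + (σ.2 : ℕ) + 5 = (2 * σ.1 + (σ.2 : ℕ) + 3) + 2 from rfl, pow_add]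
  norm_num
  ring

theorem geo5_mem (nx : ℕ → Fin 2 → ℕ) (e δ : ℕ → ℝ) (σ : ℕ × Fin 2) (x : ℝ)
    (hx : x ∈ cellC nx e δ σ) : 3 * (1 / 2) ^ (2 * σ.1 + (σ.2 : ℕ) + 3) ≤ x ∧
      x ≤ 13 / 4 * (1 / 2) ^ (2 * σ.1 + (σ.2 : ℕ) + 3) := by
  have h1 := geo5_len_le nx e δ σ
  exact ⟨hx.1, hx.2.trans (by linarith)⟩

theorem geo5_inj (σ σ' : ℕ × Fin 2) (h : 2 * σ.1 + (σ.2 : ℕ) = 2 * σ'.1 + (σ'.2 : ℕ)) : σ = σ' := by
  obtain ⟨a, b⟩ := σ
  obtain ⟨a', b'⟩ := σ'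
  have hb := b.isLt
  have hb' := b'.isLt
  simp only at h
  have h1 : a = a' := by omega
  have h2 : (b : ℕ) = b' := by omega
  exact Prod.ext h1 (Fin.ext h2)

theorem cellC_disj (nx : ℕ → Fin 2 → ℕ) (hp : Par j N e δ) (σ σ' : ℕ × Fin 2) (h : σ ≠ σ') :
    Disjoint (cellC nx e δ σ) (cellC nx e δ σ') := by
  have key : ∀ τ τ' : ℕ × Fin 2, 2 * τ.1 + (τ.2 : ℕ) < 2 * τ'.1 + (τ'.2 : ℕ) → ∀ x,
      x ∈ cellC nx e δ τ → x ∈ cellC nx e δ τ' → False := by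
    intro τ τ' hlt x hx hx'
    have h1 := (geo5_mem nx e δ τ x hx).1
    have h2 := (geo5_mem nx e δ τ' x hx').2
    have h3 : (1 / 2 : ℝ) ^ (2 * τ'.1 + (τ'.2 : ℕ) + 3) ≤
        (1 / 2) ^ (2 * τ.1 + (τ.2 : ℕ) + 3 + 1) :=
      pow_le_pow_of_le_one (by norm_num) (by norm_num) (by omega)
    rw [pow_succ (1 / 2 : ℝ) (2 * τ.1 + (τ.2 : ℕ) + 3)] at h3
    have h4 : (0 : ℝ) < (1 / 2) ^ (2 * τ.1 + (τ.2 : ℕ) + 3) := by positivity
    linarith
  rw [Set.disjoint_left]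
  intro x hx hx'
  rcases lt_trichotomy (2 * σ.1 + (σ.2 : ℕ)) (2 * σ'.1 + (σ'.2 : ℕ)) with hlt | heq | hgt
  · exact key σ σ' hlt x hx hx'
  · exact h (geo5_inj σ σ' heq)
  · exact key σ' σ hgt x hx' hx

theorem cellC_sub (nx : ℕ → Fin 2 → ℕ) (hp : Par j N e δ) (σ : ℕ × Fin 2) :
    cellC nx e δ σ ⊆ Ioc 0 1 := by
  intro x hx
  obtain ⟨h1, h2⟩ := geo5_mem nx e δ σ x hx
  have h3 : (0 : ℝ) < (1 / 2) ^ (2 * σ.1 + (σ.2 : ℕ) + 3) := by positivity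
  have h4 : (1 / 2 : ℝ) ^ (2 * σ.1 + (σ.2 : ℕ) + 3) ≤ (1 / 2) ^ 3 :=
    pow_le_pow_of_le_one (by norm_num) (by norm_num) (by omega)
  constructor
  · linarith
  · norm_num at h4
    linarith

theorem cellC_pos (nx : ℕ → Fin 2 → ℕ) (hp : Par j N e δ) (σ : ℕ × Fin 2) :
    0 < volume (cellC nx e δ σ) := by
  unfold cellC
  rw [Real.volume_Icc, ENNReal.ofReal_pos]
  have := geo5_len_pos nx hp σ
  linarith

theorem cell_fam3 (nx : ℕ → Fin 2 → ℕ) (hp : Par j N e δ) (P : Set (ℕ × Fin 2)) :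
    IsClosed ({0} ∪ ⋃ σ ∈ P, cellC nx e δ σ) := by
  have hnn : ∀ y ∈ ({0} ∪ ⋃ σ ∈ P, cellC nx e δ σ : Set ℝ), 0 ≤ y := by
    rintro y (hy | hy)
    · exact (Set.mem_singleton_iff.1 hy).ge
    · simp only [mem_iUnion] at hy
      obtain ⟨σ, -, hσ⟩ := hy
      exact (cellC_sub nx hp σ hσ).1.le
  rw [← isOpen_compl_iff, isOpen_iff_mem_nhds]
  intro x hx
  rcases lt_trichotomy x 0 with h0 | h0 | h0
  · refine mem_of_superset (Iio_mem_nhds h0) ?_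
    intro y hy hy'
    exact absurd (hnn y hy') (not_le.2 hy)
  · exact absurd (Or.inl h0) hx
  · obtain ⟨M, hM⟩ := exists_pow_lt_of_lt_one (show (0 : ℝ) < x / 2 by linarith)
      (show (1 / 2 : ℝ) < 1 by norm_num)
    have hfin : (P ∩ {σ : ℕ × Fin 2 | σ.1 < M}).Finite := by
      refine Set.Finite.subset ((Set.finite_Iio M).prod (Set.finite_univ (α := Fin 2))) ?_
      rintro σ ⟨-, hσ⟩
      exact ⟨hσ, Set.mem_univ _⟩
    have hG : IsClosed (⋃ σ ∈ P ∩ {σ : ℕ × Fin 2 | σ.1 < M}, cellC nx e δ σ) :=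
      hfin.isClosed_biUnion fun σ _ => isClosed_Icc
    have hxG : x ∉ ⋃ σ ∈ P ∩ {σ : ℕ × Fin 2 | σ.1 < M}, cellC nx e δ σ := by
      intro hxG
      apply hx
      right
      simp only [mem_iUnion] at hxG ⊢
      obtain ⟨σ, hσ, hh⟩ := hxG
      exact ⟨σ, hσ.1, hh⟩
    have hxlt : x / 2 < x := by linarith
    filter_upwards [Ioi_mem_nhds hxlt, hG.isOpen_compl.mem_nhds hxG] with y hy hyG hyF
    rcases hyF with hyF | hyF
    · rw [Set.mem_singleton_iff] at hyF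
      have : x / 2 < y := hy
      linarith
    · simp only [mem_iUnion] at hyF
      obtain ⟨σ, hσ, hh⟩ := hyF
      by_cases hσM : σ.1 < M
      · apply hyG
        simp only [mem_iUnion]
        exact ⟨σ, ⟨hσ, hσM⟩, hh⟩
      · have h2 := (geo5_mem nx e δ σ y hh).2
        have h3 : (1 / 2 : ℝ) ^ (2 * σ.1 + (σ.2 : ℕ) + 3) ≤ (1 / 2) ^ (M + 3) :=
          pow_le_pow_of_le_one (by norm_num) (by norm_num) (by omega)
        rw [pow_add (1 / 2 : ℝ) M 3] at h3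
        have h4 : x / 2 < y := hy
        have h5 : (0 : ℝ) < (1 / 2) ^ M := by positivity
        have h6 : (1 / 2 : ℝ) ^ 3 = 1 / 8 := by norm_num
        rw [h6] at h3
        linarith

end tasks

end NB97_GEO5




section NB97_GEO6

section tasks

variable {j N : ℕ → ℕ} {e δ : ℕ → ℝ}

private theorem geo6_aux {N : ℕ} (hN : 2 ≤ N) {δ : ℝ} (hδ : (N : ℝ) * δ ≤ 1 / 64) (M D : ℤ)
    (h : |(M : ℝ) + D / (4 * N)| ≤ 2 * δ) (hD : |D| < 4 * N) : D = 0 := by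
  have hN' : (0 : ℝ) < 4 * N := by
    have : (0 : ℝ) < N := by exact_mod_cast (by omega : 0 < N)
    linarith
  have h1 : |((4 * N * M + D : ℤ) : ℝ)| < 1 := by
    have e1 : ((4 * N * M + D : ℤ) : ℝ) = (4 * N) * ((M : ℝ) + D / (4 * N)) := by
      push_cast
      field_simp
    rw [e1, abs_mul, abs_of_pos hN']
    calc (4 * (N : ℝ)) * |(M : ℝ) + D / (4 * N)| ≤ (4 * N) * (2 * δ) :=
          mul_le_mul_of_nonneg_left h hN'.le
      _ = 8 * (N * δ) := by ring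
      _ < 1 := by linarith
  have h2 : |4 * (N : ℤ) * M + D| < 1 := by exact_mod_cast h1
  have h3 : 4 * (N : ℤ) * M + D = 0 := Int.abs_lt_one_iff.1 h2
  have h4 : |4 * (N : ℤ) * M| < 4 * N := by
    have : 4 * (N : ℤ) * M = - D := by linarith
    rw [this, abs_neg]
    exact hD
  have h5 : (0 : ℤ) < 4 * N := by omega
  rw [abs_mul, abs_of_pos h5] at h4
  have h6 : |M| < 1 := by
    by_contra hc
    push Not at hc
    nlinarith
  have h7 : M = 0 := Int.abs_lt_one_iff.1 h6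
  rw [h7] at h3
  linarith

private theorem geo6_mem (hp : Par j N e δ) {κ r : ℕ} {x : ℝ} (hx : x ∈ cellO j N e δ κ r) :
    r < N κ ∧ ∃ (n : ℤ) (s : ℝ), 0 ≤ s ∧ s ≤ δ κ ∧
      x = ((n : ℝ) + (r : ℝ) / (4 * N κ) + s) * e κ := by
  unfold cellO at hx
  split_ifs at hx with hr
  · refine ⟨hr, ?_⟩
    obtain ⟨n, h1, h2⟩ := hx.1.2
    have he := hp.e_pos κ
    refine ⟨n, x / e κ - n - (r : ℝ) / (4 * N κ), ?_, ?_, ?_⟩
    · unfold rho at h1
      rw [add_zero] at h1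
      have := (le_div_iff₀ he).2 h1
      linarith
    · unfold rho at h2
      have := (div_le_iff₀ he).2 h2
      linarith
    · field_simp
      ring
  · exact absurd hx (notMem_empty x)

private theorem geo6_small (hp : Par j N e δ) (κ : ℕ) : (N κ : ℝ) * δ κ ≤ 1 / 64 := by
  refine (hp.δ_le κ).trans ?_
  have h : (1 / 2 : ℝ) ^ (κ + 6) ≤ (1 / 2) ^ 6 :=
    pow_le_pow_of_le_one (by norm_num) (by norm_num) (by omega)
  refine h.trans ?_
  norm_num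

/-- task GEO6: differences of points of the cells -/
theorem cell_diffO (hp : Par j N e δ) (κ r r' r₁ r₁' : ℕ) (x y x' y' : ℝ)
    (hx : x ∈ cellO j N e δ κ r) (hy : y ∈ cellO j N e δ κ r') (hx' : x' ∈ cellO j N e δ κ r₁)
    (hy' : y' ∈ cellO j N e δ κ r₁') (h : y - x = y' - x') : (r' : ℤ) - r = r₁' - r₁ := by
  obtain ⟨hr, n, s, hs0, hs1, hx⟩ := geo6_mem hp hx
  obtain ⟨hr', m, t, ht0, ht1, hy⟩ := geo6_mem hp hy
  obtain ⟨hr₁, n', s', hs0', hs1', hx'⟩ := geo6_mem hp hx'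
  obtain ⟨hr₁', m', t', ht0', ht1', hy'⟩ := geo6_mem hp hy'
  have he := hp.e_pos κ
  have hN := hp.N_pos κ
  have hN' : (0 : ℝ) < N κ := by exact_mod_cast (by omega : 0 < N κ)
  rw [hx, hy, hx', hy', ← sub_mul, ← sub_mul] at h
  have h2 := mul_right_cancel₀ he.ne' h
  have key := geo6_aux hN (geo6_small hp κ) ((m - n) - (m' - n'))
    (((r' : ℤ) - r) - (r₁' - r₁)) ?_ ?_
  · linarith
  · have e1 : ((((m - n) - (m' - n') : ℤ) : ℝ)) +
        ((((r' : ℤ) - r) - (r₁' - r₁) : ℤ) : ℝ) / (4 * N κ) = (t' - s') - (t - s) := by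
      push_cast
      have e2 : ((r' : ℝ) - r - (r₁' - r₁)) / (4 * N κ) =
        (r' : ℝ) / (4 * N κ) - (r : ℝ) / (4 * N κ) - ((r₁' : ℝ) / (4 * N κ) -
          (r₁ : ℝ) / (4 * N κ)) := by ring
      rw [e2]
      linarith
    rw [e1, abs_le]
    constructor <;> linarith
  · rw [abs_lt]
    constructor <;> omega

theorem cell_diffC (nx : ℕ → Fin 2 → ℕ) (hp : Par j N e δ) (σ : ℕ × Fin 2) (κ : ℕ)
    (hκ : κ = σ.1 ∨ κ = nx σ.1 σ.2) (r r₁ : ℕ) (x x' y y' : ℝ)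
    (hx : x ∈ cellO j N e δ κ r) (hx' : x' ∈ cellO j N e δ κ r₁) (hy : y ∈ cellC nx e δ σ)
    (hy' : y' ∈ cellC nx e δ σ) (h : y - x = y' - x') : r = r₁ := by
  have hlen : len nx e δ σ ≤ e κ * δ κ := by
    unfold len
    rcases hκ with rfl | rfl
    · exact (min_le_right _ _).trans (min_le_left _ _)
    · exact (min_le_right _ _).trans (min_le_right _ _)
  obtain ⟨hr, n, s, hs0, hs1, hx⟩ := geo6_mem hp hx
  obtain ⟨hr₁, n', s', hs0', hs1', hx'⟩ := geo6_mem hp hx'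
  have he := hp.e_pos κ
  have hN := hp.N_pos κ
  have hN' : (0 : ℝ) < N κ := by exact_mod_cast (by omega : 0 < N κ)
  have hyy : |y - y'| ≤ e κ * δ κ := by
    obtain ⟨a1, a2⟩ := hy
    obtain ⟨b1, b2⟩ := hy'
    rw [abs_le]
    constructor <;> linarith
  have hxx : x - x' = y - y' := by linarith
  rw [← hxx, hx, hx', ← sub_mul, abs_mul, abs_of_pos he, mul_comm (e κ)] at hyy
  have h2 := le_of_mul_le_mul_right hyy he
  have key := geo6_aux hN (geo6_small hp κ) (n - n') ((r : ℤ) - r₁) ?_ ?_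
  · omega
  · have e1 : (((n - n' : ℤ) : ℝ)) + (((r : ℤ) - r₁ : ℤ) : ℝ) / (4 * N κ) =
        (((n : ℝ) + (r : ℝ) / (4 * N κ) + s) - ((n' : ℝ) + (r₁ : ℝ) / (4 * N κ) + s')) -
          (s - s') := by
      push_cast
      ring
    rw [e1]
    rw [abs_le] at h2 ⊢
    constructor <;> linarith [h2.1, h2.2]
  · rw [abs_lt]
    constructor <;> omega

end tasks

end NB97_GEO6


section NB97_GEO7

section tasks

variable {j N : ℕ → ℕ} {e δ : ℕ → ℝ}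

private theorem geo7_delta (hp : Par j N e δ) (κ : ℕ) : δ κ ≤ 1 / 128 := by
  have h1 := hp.δ_le κ
  have h2 : (1 / 2 : ℝ) ^ (κ + 6) ≤ (1 / 2) ^ 6 :=
    pow_le_pow_of_le_one (by norm_num) (by norm_num) (by omega)
  have h3 : (2 : ℝ) ≤ N κ := by exact_mod_cast hp.N_pos κ
  have h4 := hp.δ_pos κ
  have h5 : (1 / 2 : ℝ) ^ 6 = 1 / 64 := by norm_num
  nlinarith

private theorem geo7_mem (hp : Par j N e δ) (κ : ℕ) (x y : ℝ)
    (hx : x ∈ cellW' j N e δ (j κ)) (hxy : |x - y| < 2 * e κ) :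
    y ∉ ⋃ κ' ∈ {κ' | κ' < κ ∧ j κ' = j κ}, hat N e δ κ' := by
  intro hy
  simp only [mem_iUnion] at hy
  obtain ⟨κ', ⟨hκ, hj⟩, hh⟩ := hy
  apply hx.2
  simp only [mem_iUnion]
  refine ⟨κ', hj, ?_⟩
  simp only [hat, mem_iUnion] at hh
  obtain ⟨r, hr, n, hn⟩ := hh
  simp only [hat2, mem_iUnion]
  refine ⟨r, hr, n, ?_⟩
  have h1 := hp.e_dec κ' κ hκ
  have h2 : 0 < e κ' * δ κ' := mul_pos (hp.e_pos κ') (hp.δ_pos κ')
  obtain ⟨h3, h4⟩ := abs_lt.mp hxy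
  constructor
  · have := hn.1
    nlinarith
  · have := hn.2
    nlinarith

private theorem geo7_len (hp : Par j N e δ) (κ : ℕ) :
    2 * e κ ≤ (1 / 2) ^ (j κ + 3) / 4 := by
  have h1 := hp.e_le κ
  have h2 : (1 / 2 : ℝ) ^ (j κ + 6) = (1 / 2) ^ (j κ + 3) / 8 := by
    rw [show j κ + 6 = (j κ + 3) + 3 by ring, pow_add]; norm_num; ring
  rw [h2] at h1
  linarith

private theorem geo7_vol (hp : Par j N e δ) (κ r : ℕ) (hr : r < N κ) (x : ℝ) (n : ℤ)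
    (hx : x ∈ cellW' j N e δ (j κ))
    (h1 : x - 2 * e κ < (n + rho (N κ) r) * e κ)
    (h2 : (n + rho (N κ) r + δ κ) * e κ < x + 2 * e κ)
    (h3 : 3 * (1 / 2) ^ (j κ + 3) ≤ (n + rho (N κ) r) * e κ)
    (h4 : (n + rho (N κ) r + δ κ) * e κ ≤ 4 * (1 / 2) ^ (j κ + 3)) :
    0 < volume (cellO j N e δ κ r ∩ Ioo (x - 2 * e κ) (x + 2 * e κ)) := by
  have hsub : Ioo ((n + rho (N κ) r) * e κ) ((n + rho (N κ) r + δ κ) * e κ) ⊆
      cellO j N e δ κ r ∩ Ioo (x - 2 * e κ) (x + 2 * e κ) := by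
    intro y hy
    obtain ⟨hy1, hy2⟩ := hy
    refine ⟨?_, ⟨by linarith, by linarith⟩⟩
    unfold cellO
    rw [if_pos hr]
    refine ⟨⟨⟨by linarith, by linarith⟩, n, ?_⟩, ?_⟩
    · rw [add_zero]
      exact ⟨hy1.le, hy2.le⟩
    · exact geo7_mem hp κ x y hx (abs_lt.mpr ⟨by linarith, by linarith⟩)
  refine lt_of_lt_of_le ?_ (measure_mono hsub)
  rw [Real.volume_Ioo, ENNReal.ofReal_pos]
  have := mul_pos (hp.δ_pos κ) (hp.e_pos κ)
  nlinarith

/-- task GEO7: teeth near accessible points -/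
theorem tooth (hp : Par j N e δ) (κ r : ℕ) (hr : r < N κ) (x : ℝ)
    (hx : x ∈ cellW' j N e δ (j κ)) :
    0 < volume (cellO j N e δ κ r ∩ Ioo (x - 2 * e κ) (x + 2 * e κ)) := by
  have he := hp.e_pos κ
  have hδ := hp.δ_pos κ
  have hδ1 := geo7_delta hp κ
  have hl := geo7_len hp κ
  have hde : δ κ * e κ ≤ e κ / 128 := by nlinarith
  obtain ⟨hxA, hxB⟩ := hx.1
  set J : ℝ := (1 / 2) ^ (j κ + 3) with hJ
  set ρ : ℝ := rho (N κ) r with hρ
  by_cases hmid : x ≤ 3 * J + J / 2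
  · have hn1 : x / e κ - ρ ≤ ⌈x / e κ - ρ⌉ := Int.le_ceil _
    have hn2 : (⌈x / e κ - ρ⌉ : ℝ) < x / e κ - ρ + 1 := Int.ceil_lt_add_one _
    set n : ℤ := ⌈x / e κ - ρ⌉ with hn
    have h1 : x ≤ (n + ρ) * e κ := by
      have : x / e κ ≤ n + ρ := by linarith
      rwa [div_le_iff₀ he] at this
    have h2 : (n + ρ) * e κ < x + e κ := by
      have : n + ρ < x / e κ + 1 := by linarith
      have h := mul_lt_mul_of_pos_right this he
      rwa [add_mul (x / e κ), one_mul, div_mul_cancel₀ _ he.ne'] at h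
    apply geo7_vol hp κ r hr x n hx
    · linarith
    · nlinarith
    · linarith
    · nlinarith
  · push Not at hmid
    have hn1 : (⌊x / e κ - ρ - δ κ⌋ : ℝ) ≤ x / e κ - ρ - δ κ := Int.floor_le _
    have hn2 : x / e κ - ρ - δ κ < ⌊x / e κ - ρ - δ κ⌋ + 1 := Int.lt_floor_add_one _
    set n : ℤ := ⌊x / e κ - ρ - δ κ⌋ with hn
    have h1 : (n + ρ + δ κ) * e κ ≤ x := by
      have : n + ρ + δ κ ≤ x / e κ := by linarith
      rwa [le_div_iff₀ he] at this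
    have h2 : x < (n + ρ + δ κ) * e κ + e κ := by
      have : x / e κ < n + ρ + δ κ + 1 := by linarith
      have h := mul_lt_mul_of_pos_right this he
      rwa [add_mul (_ + _), one_mul, div_mul_cancel₀ _ he.ne'] at h
    apply geo7_vol hp κ r hr x n hx
    · nlinarith
    · linarith
    · nlinarith
    · linarith

theorem e_tendsto (hp : Par j N e δ) : Tendsto e atTop (𝓝 0) := by
  have h1 : ∀ κ, e κ ≤ e 0 * (1 / 8) ^ κ := by
    intro κ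
    induction κ with
    | zero => simp
    | succ κ ih =>
      have h2 := hp.e_dec κ (κ + 1) (Nat.lt_succ_self κ)
      have h3 := geo7_delta hp κ
      have h4 := hp.e_pos κ
      have h5 : e κ * δ κ ≤ e κ * 1 := mul_le_mul_of_nonneg_left (by linarith) h4.le
      rw [pow_succ]
      linarith
  have h2 : Tendsto (fun κ : ℕ => e 0 * (1 / 8 : ℝ) ^ κ) atTop (𝓝 0) := by
    have := (tendsto_pow_atTop_nhds_zero_of_lt_one (r := (1 / 8 : ℝ)) (by norm_num)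
      (by norm_num)).const_mul (e 0)
    simpa using this
  exact squeeze_zero (fun κ => (hp.e_pos κ).le) h1 h2

end tasks

end NB97_GEO7


end tasks

theorem exists_geo (j : ℕ → ℕ) (nx : ℕ → Fin 2 → ℕ) : Nonempty (Geo j nx) := by
  have hN : ∀ κ, 2 ≤ md (qs κ) := by
    intro κ
    have h3 : u (4 * κ) ∣ md (qs κ) := Finset.dvd_prod_of_mem _ (by simp [qs])
    have h4 : 0 < md (qs κ) := Finset.prod_pos fun q _ => by have := three_le_u q; omega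
    have := Nat.le_of_dvd h4 h3
    have := three_le_u (4 * κ)
    omega
  obtain ⟨e, δ, hp⟩ := exists_par j (fun κ => md (qs κ)) hN
  have hJ : ∀ i, Jv i ⊆ Ioc 0 1 := by
    intro i x hx
    have h1 : (0:ℝ) < (1 / 2) ^ (i + 3) := by positivity
    have h2 : (1 / 2 : ℝ) ^ (i + 3) ≤ (1 / 2) ^ 3 :=
      pow_le_pow_of_le_one (by norm_num) (by norm_num) (by omega)
    refine ⟨lt_of_lt_of_le (by positivity) hx.1, hx.2.trans ?_⟩
    linarith
  have hO : ∀ κ r, cellO j (fun κ => md (qs κ)) e δ κ r ⊆ Jv (j κ) := by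
    intro κ r x hx
    unfold cellO at hx
    split_ifs at hx
    · exact hx.1.1
    · exact absurd hx (notMem_empty x)
  refine ⟨{
    W := cellW j (fun κ => md (qs κ)) e δ
    W' := cellW' j (fun κ => md (qs κ)) e δ
    O := cellO j (fun κ => md (qs κ)) e δ
    C := cellC nx e δ
    W_closed := isClosed_cellW hp
    O_closed := isClosed_cellO hp
    C_closed := fun σ => isClosed_Icc
    W_sub := fun i x hx => hJ i hx.1
    O_sub := fun κ r x hx => hJ _ (hO κ r hx)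
    C_sub := cellC_sub nx hp
    O_out := fun κ r h => by unfold cellO; rw [if_neg (by simpa using h)]
    WO_disj := cellWO_disj hp
    O_disj := cell_disj hp
    C_disj := cellC_disj nx hp
    fam1 := cell_fam1 hp
    fam2 := cell_fam2 hp
    fam3 := cell_fam3 nx hp
    diffO := cell_diffO hp
    diffC := cell_diffC nx hp
    posO := ?_
    posC := cellC_pos nx hp
    W'_sub := ?_
    W'_pos := volume_cellW' hp
    acc := ?_ }⟩
  · intro κ r hr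
    have h1 : (cellW' j (fun κ => md (qs κ)) e δ (j κ)).Nonempty :=
      nonempty_of_measure_ne_zero (volume_cellW' hp (j κ)).ne'
    obtain ⟨x, hx⟩ := h1
    exact lt_of_lt_of_le (tooth hp κ r hr x hx) (measure_mono inter_subset_left)
  · intro i x hx
    refine ⟨hx.1, fun h => hx.2 ?_⟩
    simp only [mem_iUnion] at h ⊢
    obtain ⟨κ, hκ, hh⟩ := h
    exact ⟨κ, hκ, hat_sub_hat2 hp κ hh⟩
  · intro i P hP hj r hr x hx ε hε
    have h1 := (e_tendsto hp).eventually (gt_mem_nhds (show (0:ℝ) < ε / 2 by positivity))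
    obtain ⟨n, hn⟩ := eventually_atTop.mp h1
    obtain ⟨κ, hκ, hκn⟩ := hP.exists_gt n
    refine ⟨κ, hκ, ?_⟩
    have h2 := hn κ hκn.le
    have h3 := tooth hp κ (r κ) (hr κ hκ) x (by rw [hj κ hκ]; exact hx)
    refine lt_of_lt_of_le h3 (measure_mono (inter_subset_inter_right _ ?_))
    intro y hy
    exact ⟨by linarith [hy.1], by linarith [hy.2]⟩

end Pool.Agent.LibNB97
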