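import Pool.Agent.LibNB97.Defs

/-! # The instance: existence of a good assignment is as hard as any analytic set -/

open MeasureTheory Set Filter Topology

namespace Pool.Agent.LibNB97

/-- the node and the kind of gadget `κ` -/
def pr (κ : ℕ) : List ℕ × ℕ := Denumerable.ofNat (List ℕ × ℕ) κ.unpair.1

/-- the gadget `κ` is a soft clause `L_s → L_{s, n}` -/
def soft (κ : ℕ) : Prop := 4 ≤ (pr κ).2 ∧ κ.unpair.2 = 0

instance (κ : ℕ) : Decidable (soft κ) := by unfold soft; infer_instance

/-- the node of slot `i` of gadget `κ` -/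
def sv (κ : ℕ) (i : Fin 2) : List ℕ :=
  if soft κ ∧ i = 1 then (pr κ).1 ++ [(pr κ).2 - 4] else (pr κ).1

/-- the sign of slot `i` of gadget `κ` -/
def sg (dead : List ℕ → Bool) (κ : ℕ) (i : Fin 2) : Bool :=
  if i = 0 then decide ((pr κ).2 = 1 ∨ ((pr κ).2 = 3 ∧ (pr κ).1 = []))
  else if (pr κ).2 = 1 then false else if (pr κ).2 = 2 then ! dead (pr κ).1 else true

/-- the region of gadget `κ` -/
def jI (κ : ℕ) : ℕ := if soft κ then Encodable.encode (pr κ).1 + 1 else 0

section NB97_INS1

lemma ins1_sv_pair (s : List ℕ) (r : ℕ) (i : Fin 2) :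
    sv (Nat.pair (Encodable.encode ((s, 0) : List ℕ × ℕ)) r) i = s := by
  have h1 : pr (Nat.pair (Encodable.encode ((s, 0) : List ℕ × ℕ)) r) = (s, 0) := by
    unfold pr
    rw [Nat.unpair_pair]
    exact Denumerable.ofNat_encode _
  have h2 : ¬ soft (Nat.pair (Encodable.encode ((s, 0) : List ℕ × ℕ)) r) := by
    unfold soft
    rw [h1]
    simp
  unfold sv
  rw [if_neg (fun h => h2 h.1), h1]

theorem exists_next (κ : ℕ) (i : Fin 2) : ∃ κ', κ < κ' ∧ sv κ' i = sv κ i := by
  refine ⟨Nat.pair (Encodable.encode ((sv κ i, 0) : List ℕ × ℕ)) (κ + 1), ?_, ins1_sv_pair _ _ _⟩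
  have := Nat.right_le_pair (Encodable.encode ((sv κ i, 0) : List ℕ × ℕ)) (κ + 1)
  omega

end NB97_INS1

/-- the next gadget with the same node in slot `i` -/
def nxI (κ : ℕ) (i : Fin 2) : ℕ := Nat.find (exists_next κ i)

/-- the visible signs of the links -/
def ls (dead : List ℕ → Bool) (κ : ℕ) (i : Fin 2) : Bool := xor (sg dead κ i) (sg dead (nxI κ i) i)

section NB97_INS1b

lemma ins1_lt (κ : ℕ) (i : Fin 2) : κ < nxI κ i := by
  unfold nxI
  exact (Nat.find_spec (exists_next κ i)).1

lemma ins1_sv (κ : ℕ) (i : Fin 2) : sv (nxI κ i) i = sv κ i := by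
  unfold nxI
  exact (Nat.find_spec (exists_next κ i)).2

lemma ins1_min {κ κ' : ℕ} {i : Fin 2} (h : κ < κ') (h' : sv κ' i = sv κ i) : nxI κ i ≤ κ' := by
  unfold nxI
  exact Nat.find_min' _ ⟨h, h'⟩

theorem next_nxI : Next nxI := by
  refine ⟨ins1_lt, fun i κ κ' h => ?_⟩
  have key : ∀ κ κ' : ℕ, nxI κ i = nxI κ' i → ¬ κ < κ' := by
    intro κ κ' h hlt
    have h1 : sv κ' i = sv κ i := by rw [← ins1_sv κ' i, ← ins1_sv κ i, h]
    have h2 := ins1_min hlt h1
    have h3 := ins1_lt κ' i
    omega
  have h' : nxI κ i = nxI κ' i := h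
  have h1 := key κ κ' h'
  have h2 := key κ' κ h'.symm
  omega

theorem links_iff (dead : List ℕ → Bool) (t : ℕ → Fin 2 → Bool) :
    Links nxI (ls dead) t ↔ ∃ c : Fin 2 → List ℕ → Bool, ∀ κ i, t κ i = xor (c i (sv κ i)) (sg dead κ i) := by
  constructor
  · intro hL
    have hf : ∀ κ i, xor (t (nxI κ i) i) (sg dead (nxI κ i) i) = xor (t κ i) (sg dead κ i) := by
      intro κ i
      rw [hL κ i]
      unfold ls
      cases t κ i <;> cases sg dead κ i <;> cases sg dead (nxI κ i) i <;> rfl
    have key : ∀ i (n κ₁ κ : ℕ), κ - κ₁ ≤ n → κ₁ ≤ κ → sv κ₁ i = sv κ i →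
        xor (t κ₁ i) (sg dead κ₁ i) = xor (t κ i) (sg dead κ i) := by
      intro i n
      induction n with
      | zero =>
        intro κ₁ κ h1 h2 _
        have : κ₁ = κ := by omega
        rw [this]
      | succ n ih =>
        intro κ₁ κ h1 h2 h3
        rcases Nat.lt_or_ge κ₁ κ with h | h
        · have h4 := ins1_min h h3.symm
          have h5 := ins1_lt κ₁ i
          rw [← hf κ₁ i]
          exact ih _ _ (by omega) h4 (by rw [ins1_sv, h3])
        · have : κ₁ = κ := by omega
          rw [this]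
    have key2 : ∀ i (κ₁ κ : ℕ), sv κ₁ i = sv κ i →
        xor (t κ₁ i) (sg dead κ₁ i) = xor (t κ i) (sg dead κ i) := by
      intro i κ₁ κ h
      rcases le_total κ₁ κ with h1 | h1
      · exact key i _ κ₁ κ le_rfl h1 h
      · exact (key i _ κ κ₁ le_rfl h1 h.symm).symm
    refine ⟨fun i s => xor (t (Nat.pair (Encodable.encode ((s, 0) : List ℕ × ℕ)) 0) i)
      (sg dead (Nat.pair (Encodable.encode ((s, 0) : List ℕ × ℕ)) 0) i), fun κ i => ?_⟩
    have h := key2 i (Nat.pair (Encodable.encode ((sv κ i, 0) : List ℕ × ℕ)) 0) κ (ins1_sv_pair _ _ _)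
    show t κ i = xor (xor (t (Nat.pair (Encodable.encode ((sv κ i, 0) : List ℕ × ℕ)) 0) i)
      (sg dead (Nat.pair (Encodable.encode ((sv κ i, 0) : List ℕ × ℕ)) 0) i)) (sg dead κ i)
    rw [h]
    cases t κ i <;> cases sg dead κ i <;> rfl
  · rintro ⟨c, hc⟩ κ i
    rw [hc, hc, ins1_sv]
    unfold ls
    cases c i (sv κ i) <;> cases sg dead κ i <;> cases sg dead (nxI κ i) i <;> rfl

end NB97_INS1b

section tasks



section NB97_INS3

lemma ins3_pr (s : List ℕ) (m r : ℕ) :
    pr (Nat.pair (Encodable.encode ((s, m) : List ℕ × ℕ)) r) = (s, m) := by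
  unfold pr
  rw [Nat.unpair_pair]
  exact Denumerable.ofNat_encode _

theorem branch_of_good (dead : List ℕ → Bool) (c : Fin 2 → List ℕ → Bool)
    (hg : Good jI fun κ i => xor (c i (sv κ i)) (sg dead κ i)) :
    ∃ x : ℕ → ℕ, ∀ n, dead ((List.range n).map x) = false := by
  classical
  -- hard clauses
  have hard : ∀ (s : List ℕ) (m : ℕ), m < 4 →
      ¬ (xor (c 0 s) (decide (m = 1 ∨ (m = 3 ∧ s = []))) = true ∧
        xor (c 1 s) (if m = 1 then false else if m = 2 then ! dead s else true) = true) := by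
    intro s m hm hcon
    have hfin := hg 0
    have hinf : (range fun r : ℕ => Nat.pair (Encodable.encode ((s, m) : List ℕ × ℕ)) r).Infinite := by
      refine infinite_range_of_injective fun r r' h => ?_
      have := congrArg (fun n => n.unpair.2) h
      simpa using this
    refine hinf (hfin.subset ?_)
    rintro κ ⟨r, rfl⟩
    have hsoft : ¬ soft (Nat.pair (Encodable.encode ((s, m) : List ℕ × ℕ)) r) := by
      unfold soft
      rw [ins3_pr]
      intro h
      have := h.1
      simp only at this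
      omega
    refine ⟨?_, ?_, ?_⟩
    · unfold jI
      rw [if_neg hsoft]
    · show xor (c 0 (sv _ 0)) (sg dead _ 0) = true
      unfold sv sg
      rw [if_neg (fun h => hsoft h.1), if_pos rfl, ins3_pr]
      exact hcon.1
    · show xor (c 1 (sv _ 1)) (sg dead _ 1) = true
      unfold sv sg
      rw [if_neg (fun h => hsoft h.1), if_neg (by decide), ins3_pr]
      exact hcon.2
  have h01 : ∀ s, c 1 s = c 0 s := by
    intro s
    have h0 := hard s 0 (by norm_num)
    have h1 := hard s 1 (by norm_num)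
    simp at h0 h1
    cases e0 : c 0 s <;> cases e1 : c 1 s <;> simp_all
  have hroot : c 0 [] = true := by
    have h3 := hard [] 3 (by norm_num)
    rw [h01] at h3
    simp at h3
    exact h3
  have hdead : ∀ s, c 0 s = true → dead s = false := by
    intro s hs
    have h2 := hard s 2 (by norm_num)
    rw [h01, hs] at h2
    simp at h2
    exact h2
  have hsoft : ∀ s, c 0 s = true → ∃ n, c 0 (s ++ [n]) = true := by
    intro s hs
    by_contra hcon
    push Not at hcon
    have hfin := hg (Encodable.encode s + 1)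
    have hinf : (range fun n : ℕ => Nat.pair (Encodable.encode ((s, n + 4) : List ℕ × ℕ)) 0).Infinite := by
      refine infinite_range_of_injective fun r r' h => ?_
      have h1 := congrArg pr h
      simp only [ins3_pr, Prod.mk.injEq] at h1
      omega
    refine hinf (hfin.subset ?_)
    rintro κ ⟨n, rfl⟩
    have hso : soft (Nat.pair (Encodable.encode ((s, n + 4) : List ℕ × ℕ)) 0) := by
      unfold soft
      rw [ins3_pr, Nat.unpair_pair]
      exact ⟨by simp only; omega, rfl⟩
    refine ⟨?_, ?_, ?_⟩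
    · unfold jI
      rw [if_pos hso, ins3_pr]
    · show xor (c 0 (sv _ 0)) (sg dead _ 0) = true
      unfold sv sg
      rw [if_neg (fun h => by simpa using h.2), if_pos rfl, ins3_pr]
      simp only [hs]
      simp
    · show xor (c 1 (sv _ 1)) (sg dead _ 1) = true
      unfold sv sg
      rw [if_pos ⟨hso, rfl⟩, if_neg (by decide), ins3_pr, h01]
      have := hcon n
      simp only [Nat.add_sub_cancel]
      rw [if_neg (by omega), if_neg (by omega)]
      simpa using this
  choose! f hf using hsoft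
  let l : ℕ → List ℕ := fun n => Nat.rec [] (fun _ s => s ++ [f s]) n
  have l0 : l 0 = [] := rfl
  have ls : ∀ n, l (n + 1) = l n ++ [f (l n)] := fun n => rfl
  have hc : ∀ n, c 0 (l n) = true := by
    intro n
    induction n with
    | zero => exact hroot
    | succ n ih => rw [ls]; exact hf _ ih
  refine ⟨fun n => f (l n), fun n => ?_⟩
  have hl : ∀ n, (List.range n).map (fun n => f (l n)) = l n := by
    intro n
    induction n with
    | zero => rfl
    | succ n ih => rw [List.range_succ, List.map_append, ih, ls]; rfl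
  rw [hl]
  exact hdead _ (hc n)

theorem good_of_branch (dead : List ℕ → Bool)
    (hmono : ∀ s s', List.Forall₂ (· ≤ ·) s s' → dead s' = true → dead s = true) (x : ℕ → ℕ)
    (hx : ∀ n, dead ((List.range n).map x) = false) :
    ∃ c : Fin 2 → List ℕ → Bool, Good jI fun κ i => xor (c i (sv κ i)) (sg dead κ i) := by
  classical
  set C : List ℕ → Bool := fun s => decide (∀ j (h : j < s.length), x j ≤ s[j]) with hC
  have hCdead : ∀ s, C s = true → dead s = false := by
    intro s hs
    by_contra hd
    have hd' : dead s = true := by simpa using hd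
    have h1 : dead ((List.range s.length).map x) = true := by
      refine hmono _ _ ?_ hd'
      rw [List.forall₂_iff_get]
      refine ⟨by simp, fun i h1 h2 => ?_⟩
      have h3 : ∀ j (h : j < s.length), x j ≤ s[j] := by simpa [hC] using hs
      simpa using h3 i h2
    rw [hx] at h1
    exact absurd h1 (by simp)
  have hCroot : C [] = true := by simp [hC]
  have hCsucc : ∀ s n, C s = true → C (s ++ [n]) = false → n < x s.length := by
    intro s n h1 h2
    by_contra hn
    push Not at hn
    have h3 : ∀ j (h : j < s.length), x j ≤ s[j] := by simpa [hC] using h1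
    have h4 : C (s ++ [n]) = true := by
      simp only [hC, decide_eq_true_eq]
      intro j hj
      rw [List.length_append, List.length_singleton] at hj
      rcases Nat.lt_or_ge j s.length with h | h
      · rw [List.getElem_append_left h]
        exact h3 j h
      · have : j = s.length := by omega
        subst this
        simpa using hn
    rw [h2] at h4
    exact absurd h4 (by simp)
  refine ⟨fun _ => C, fun i => ?_⟩
  rcases Nat.eq_zero_or_pos i with rfl | hi
  · have : {κ | jI κ = 0 ∧ (fun κ (i : Fin 2) => xor (C (sv κ i)) (sg dead κ i)) κ 0 = true ∧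
        (fun κ (i : Fin 2) => xor (C (sv κ i)) (sg dead κ i)) κ 1 = true} = ∅ := by
      rw [eq_empty_iff_forall_notMem]
      rintro κ ⟨h1, h2, h3⟩
      have hns : ¬ soft κ := by
        intro h
        unfold jI at h1
        rw [if_pos h] at h1
        omega
      simp only [sv, sg, hns, false_and, if_false, if_true,
        if_neg (show ¬ ((1 : Fin 2) = 0) by decide)] at h2 h3
      have hd := hCdead (pr κ).1
      by_cases hr : (pr κ).1 = []
      · rw [hr] at h2 h3 hd
        rw [hCroot] at h2 h3 hd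
        have := hd rfl
        rw [this] at h3
        by_cases hm1 : (pr κ).2 = 1
        · simp [hm1] at h2
        · by_cases hm2 : (pr κ).2 = 2
          · simp [hm2] at h3
          · simp [hm1, hm2] at h3
      · cases hCs : C (pr κ).1
        · rw [hCs] at h2 h3
          by_cases hm1 : (pr κ).2 = 1
          · simp [hm1] at h3
          · simp [hm1, hr] at h2
        · rw [hCs] at h2 h3 hd
          have := hd rfl
          rw [this] at h3
          by_cases hm1 : (pr κ).2 = 1
          · simp [hm1] at h2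
          · simp [hm1] at h3
    rw [this]
    exact finite_empty
  · obtain ⟨e, rfl⟩ : ∃ e, i = e + 1 := ⟨i - 1, by omega⟩
    set A : Set ℕ := {κ | jI κ = e + 1 ∧ (fun κ (i : Fin 2) => xor (C (sv κ i)) (sg dead κ i)) κ 0 = true ∧
        (fun κ (i : Fin 2) => xor (C (sv κ i)) (sg dead κ i)) κ 1 = true} with hA
    have hs : ∀ κ ∈ A, soft κ ∧ Encodable.encode (pr κ).1 = e := by
      rintro κ ⟨h1, -, -⟩
      unfold jI at h1
      split_ifs at h1 with h
      exact ⟨h, by omega⟩
    have hbd : ∀ κ ∈ A, (pr κ).2 < x (pr κ).1.length + 4 := by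
      intro κ hκ
      have hso := (hs κ hκ).1
      obtain ⟨-, h2, h3⟩ := hκ
      have h4 : 4 ≤ (pr κ).2 := hso.1
      simp only [sv, sg, if_neg (fun h : soft κ ∧ (0 : Fin 2) = 1 => absurd h.2 (by decide)),
        hso, true_and, if_true,
        if_neg (show ¬ ((1 : Fin 2) = 0) by decide), if_neg (show ¬ (pr κ).2 = 1 by omega),
        if_neg (show ¬ (pr κ).2 = 2 by omega)] at h2 h3
      have h5 : ¬ ((pr κ).2 = 1 ∨ (pr κ).2 = 3 ∧ (pr κ).1 = []) := by omega
      simp [h5] at h2 h3
      have := hCsucc _ _ h2 h3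
      omega
    rcases A.eq_empty_or_nonempty with h0 | ⟨κ₀, hκ₀⟩
    · rw [h0]
      exact finite_empty
    · have heq : ∀ κ ∈ A, (pr κ).1 = (pr κ₀).1 := fun κ hκ =>
        Encodable.encode_injective ((hs κ hκ).2.trans (hs κ₀ hκ₀).2.symm)
      refine Finite.of_finite_image (f := fun κ => (pr κ).2)
        ((finite_Iio (x (pr κ₀).1.length + 4)).subset ?_) ?_
      · rintro _ ⟨κ, hκ, rfl⟩
        have := hbd κ hκ
        rw [heq κ hκ] at this
        exact this
      · intro κ hκ κ' hκ' h
        have h1 : pr κ = pr κ' := Prod.ext ((heq κ hκ).trans (heq κ' hκ').symm) h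
        unfold pr at h1
        have h2 : κ.unpair.1 = κ'.unpair.1 := by
          have := congrArg Encodable.encode h1
          rwa [Denumerable.encode_ofNat, Denumerable.encode_ofNat] at this
        have h3 : κ.unpair.2 = κ'.unpair.2 := by
          rw [(hs κ hκ).1.2, (hs κ' hκ').1.2]
        rw [← Nat.pair_unpair κ, ← Nat.pair_unpair κ', h2, h3]

end NB97_INS3


section NB97_INS5

/-- an open set which contains the compact set `{y ≤ x}` contains a neighbourhood of this set
described by finitely many coordinates -/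
theorem ins5_aux (x : ℕ → ℕ) (U : Set (ℕ → ℕ)) (hU : IsOpen U) (hK : ∀ y, (∀ i, y i ≤ x i) → y ∈ U) :
    ∃ n, ∀ y : ℕ → ℕ, (∀ i < n, y i ≤ x i) → y ∈ U := by
  set K : Set (ℕ → ℕ) := Set.pi univ (fun i => Iic (x i)) with hKdef
  have hKc : IsCompact K := isCompact_univ_pi (fun i => (Set.finite_Iic (x i)).isCompact)
  set V : ℕ → Set (ℕ → ℕ) := fun n => {z | ∀ y : ℕ → ℕ, (∀ i < n, y i = z i) → y ∈ U} with hV
  have hVo : ∀ n, IsOpen (V n) := by
    intro n
    rw [isOpen_iff_forall_mem_open]
    intro z hz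
    refine ⟨Set.pi (Set.Iio n) (fun i => {z i}), ?_, ?_, ?_⟩
    · intro z' hz' y hy
      refine hz y fun i hi => ?_
      rw [hy i hi]
      exact hz' i hi
    · exact isOpen_set_pi (Set.finite_Iio n) (fun i _ => isOpen_discrete _)
    · intro i _
      exact rfl
  have hVm : ∀ m n, m ≤ n → V m ⊆ V n := by
    intro m n hmn z hz y hy
    exact hz y fun i hi => hy i (lt_of_lt_of_le hi hmn)
  have hcov : K ⊆ ⋃ n, V n := by
    intro z hz
    have hzU : z ∈ U := hK z (fun i => hz i (mem_univ i))
    obtain ⟨I, u, hu, hsub⟩ := isOpen_pi_iff.mp hU z hzU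
    refine mem_iUnion.2 ⟨I.sup id + 1, fun y hy => hsub ?_⟩
    intro i hi
    have h1 : i ≤ I.sup id := Finset.le_sup (f := id) hi
    rw [hy i (by omega)]
    exact (hu i hi).2
  obtain ⟨n, hn⟩ := hKc.elim_directed_cover V hVo hcov
    (fun a b => ⟨max a b, hVm _ _ (le_max_left a b), hVm _ _ (le_max_right a b)⟩)
  refine ⟨n, fun y hy => ?_⟩
  have h1 : (fun i => min (y i) (x i)) ∈ K := fun i _ => mem_Iic.2 (min_le_right (y i) (x i))
  refine hn h1 y fun i hi => ?_
  exact (min_eq_left (hy i hi)).symm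

/-- task INS5: analytic sets through bounded initial segments -/
theorem analytic_iff {α : Type*} [TopologicalSpace α] [T2Space α] [RegularSpace α]
    (φ : (ℕ → ℕ) → α) (hφ : Continuous φ) (a : α) :
    a ∈ range φ ↔ ∃ x : ℕ → ℕ, ∀ n,
      a ∈ closure (φ '' {y | ∀ i (h : i < ((List.range n).map x).length),
        y i ≤ ((List.range n).map x)[i]}) := by
  constructor
  · rintro ⟨x, rfl⟩
    refine ⟨x, fun n => subset_closure ⟨x, ?_, rfl⟩⟩
    intro i h
    simp
  · rintro ⟨x, hx⟩
    by_contra hcon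
    have hKc : IsCompact (φ '' Set.pi univ (fun i => Iic (x i))) :=
      (isCompact_univ_pi (fun i => (Set.finite_Iic (x i)).isCompact)).image hφ
    have ha : a ∉ φ '' Set.pi univ (fun i => Iic (x i)) := fun h => hcon (image_subset_range _ _ h)
    obtain ⟨W, V, hW, hV, hKW, haV, hdis⟩ := hKc.separation_of_notMem ha
    obtain ⟨n, hn⟩ := ins5_aux x (φ ⁻¹' W) (hW.preimage hφ)
      (fun y hy => hKW ⟨y, fun i _ => hy i, rfl⟩)
    have h1 : φ '' {y | ∀ i (h : i < ((List.range n).map x).length),
        y i ≤ ((List.range n).map x)[i]} ⊆ W := by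
      rintro _ ⟨y, hy, rfl⟩
      refine hn y fun i hi => ?_
      have h2 := hy i (by simpa using hi)
      simpa using h2
    exact disjoint_left.1 (hdis.closure_left hV) (closure_mono h1 (hx n)) haV

end NB97_INS5

section NB97_INS6

/-- a sequence of open sets such that every open set is the union of a subfamily -/
theorem ins6_basis (Y : Type*) [TopologicalSpace Y] [SecondCountableTopology Y] :
    ∃ V : ℕ → Set Y, (∀ n, IsOpen (V n)) ∧
      ∀ W : Set Y, IsOpen W → ∃ c : ℕ → ℕ, W = ⋃ n, V (c n) := by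
  obtain ⟨B, hBc, -, hB⟩ := TopologicalSpace.exists_countable_basis Y
  have h1 : (insert ∅ B).Countable := hBc.insert ∅
  obtain ⟨V, hV⟩ := h1.exists_eq_range ⟨∅, mem_insert _ _⟩
  refine ⟨V, ?_, ?_⟩
  · intro n
    have : V n ∈ insert ∅ B := by
      rw [hV]
      exact mem_range_self n
    rcases this with h | h
    · rw [h]
      exact isOpen_empty
    · exact hB.isOpen h
  · intro W hW
    have h2 : ({s ∈ insert ∅ B | s ⊆ W} : Set (Set Y)).Countable := h1.mono (fun s hs => hs.1)
    obtain ⟨f, hf⟩ := h2.exists_eq_range ⟨∅, mem_insert _ _, empty_subset _⟩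
    have h3 : ∀ n, ∃ m, V m = f n := by
      intro n
      have h5 : f n ∈ {s ∈ insert ∅ B | s ⊆ W} := by
        rw [hf]
        exact mem_range_self n
      have h4 := h5.1
      rw [hV] at h4
      exact h4
    choose c hc using h3
    refine ⟨c, ?_⟩
    ext y
    simp only [mem_iUnion, hc]
    constructor
    · intro hy
      obtain ⟨s, hs, hys, hsW⟩ := hB.exists_subset_of_mem_open hy hW
      have h5 : s ∈ {s ∈ insert ∅ B | s ⊆ W} := ⟨mem_insert_of_mem _ hs, hsW⟩
      rw [hf] at h5
      obtain ⟨n, rfl⟩ := h5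
      exact ⟨n, hys⟩
    · rintro ⟨n, hn⟩
      have h5 : f n ∈ {s ∈ insert ∅ B | s ⊆ W} := by
        rw [hf]
        exact mem_range_self n
      exact h5.2 hn

/-- task INS6: an analytic set which is not Borel -/
theorem exists_analytic_not_borel :
    ∃ A : Set (ℕ → ℕ), AnalyticSet A ∧ ¬ MeasurableSet A := by
  obtain ⟨V, hV, hV'⟩ := ins6_basis ((ℕ → ℕ) × (ℕ → ℕ))
  set D : Set (ℕ → ℕ) := {c | ∃ x : ℕ → ℕ, ∀ n, (c, x) ∉ V (c n)} with hD
  have hDa : AnalyticSet D := by
    have hcl : IsClosed {p : (ℕ → ℕ) × (ℕ → ℕ) | ∀ n, p ∉ V (p.1 n)} := by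
      have e1 : {p : (ℕ → ℕ) × (ℕ → ℕ) | ∀ n, p ∉ V (p.1 n)} =
          ⋂ n, {p : (ℕ → ℕ) × (ℕ → ℕ) | p ∉ V (p.1 n)} := by
        ext p
        simp
      rw [e1]
      refine isClosed_iInter fun n => ?_
      rw [← isOpen_compl_iff]
      have e2 : {p : (ℕ → ℕ) × (ℕ → ℕ) | p ∉ V (p.1 n)}ᶜ =
          ⋃ m, ({p : (ℕ → ℕ) × (ℕ → ℕ) | p.1 n = m} ∩ V m) := by
        ext p
        simp
      rw [e2]
      refine isOpen_iUnion fun m => IsOpen.inter ?_ (hV m)
      have hcont : Continuous fun p : (ℕ → ℕ) × (ℕ → ℕ) => p.1 n :=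
        (continuous_apply n).comp continuous_fst
      exact (isOpen_discrete ({m} : Set ℕ)).preimage hcont
    have h1 := (hcl.analyticSet).image_of_continuous continuous_fst
    have e3 : Prod.fst '' {p : (ℕ → ℕ) × (ℕ → ℕ) | ∀ n, p ∉ V (p.1 n)} = D := by
      ext c
      constructor
      · rintro ⟨⟨c', x⟩, hp, rfl⟩
        exact ⟨x, hp⟩
      · rintro ⟨x, hx⟩
        exact ⟨(c, x), hx, rfl⟩
    rwa [e3] at h1
  refine ⟨D, hDa, fun hm => ?_⟩
  have hc := hm.compl.analyticSet
  rw [AnalyticSet] at hc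
  have h2 : ∃ c : ℕ → ℕ, ∀ a, a ∈ Dᶜ ↔ ∃ x : ℕ → ℕ, ∀ n, (a, x) ∉ V (c n) := by
    rcases hc with h | ⟨φ, hφ, h⟩
    · obtain ⟨c, hc⟩ := hV' univ isOpen_univ
      refine ⟨c, fun a => ?_⟩
      rw [h]
      constructor
      · intro h
        exact absurd h (notMem_empty a)
      · rintro ⟨x, hx⟩
        have h3 : (a, x) ∈ (univ : Set ((ℕ → ℕ) × (ℕ → ℕ))) := mem_univ _
        rw [hc, mem_iUnion] at h3
        obtain ⟨n, hn⟩ := h3
        exact absurd hn (hx n)
    · obtain ⟨c, hc⟩ := hV' {p | p.1 ≠ φ p.2}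
        (isOpen_ne_fun continuous_fst (hφ.comp continuous_snd))
      refine ⟨c, fun a => ?_⟩
      rw [← h]
      constructor
      · rintro ⟨x, rfl⟩
        refine ⟨x, fun n hn => ?_⟩
        have h3 : (φ x, x) ∈ {p : (ℕ → ℕ) × (ℕ → ℕ) | p.1 ≠ φ p.2} := by
          rw [hc]
          exact mem_iUnion.2 ⟨n, hn⟩
        exact h3 rfl
      · rintro ⟨x, hx⟩
        by_contra hcon
        have h3 : (a, x) ∈ {p : (ℕ → ℕ) × (ℕ → ℕ) | p.1 ≠ φ p.2} := fun h => hcon ⟨x, h.symm⟩
        rw [hc, mem_iUnion] at h3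
        obtain ⟨n, hn⟩ := h3
        exact hx n hn
  obtain ⟨c, hc⟩ := h2
  have h1 : c ∈ Dᶜ ↔ c ∈ D := hc c
  rw [mem_compl_iff] at h1
  tauto

end NB97_INS6

end tasks

theorem solvable_iff (dead : List ℕ → Bool)
    (hmono : ∀ s s', List.Forall₂ (· ≤ ·) s s' → dead s' = true → dead s = true) :
    (∃ t, Links nxI (ls dead) t ∧ Good jI t) ↔
      ∃ x : ℕ → ℕ, ∀ n, dead ((List.range n).map x) = false := by
  constructor
  · rintro ⟨t, ht, hg⟩
    obtain ⟨c, hc⟩ := (links_iff dead t).mp ht
    have e : t = fun κ i => xor (c i (sv κ i)) (sg dead κ i) := by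
      funext κ i
      exact hc κ i
    rw [e] at hg
    exact branch_of_good dead c hg
  · rintro ⟨x, hx⟩
    obtain ⟨c, hc⟩ := good_of_branch dead hmono x hx
    exact ⟨_, (links_iff dead _).mpr ⟨c, fun κ i => rfl⟩, hc⟩

open scoped Classical in
/-- every analytic set is a preimage of the solvable instances -/
theorem exists_reduction {α : Type*} [TopologicalSpace α] [PolishSpace α] [MeasurableSpace α]
    [BorelSpace α] (A : Set α) (hA : AnalyticSet A) :
    ∃ s : α → (ℕ → Fin 2 → Bool), Measurable s ∧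
      ∀ a, (∃ t, Links nxI (s a) t ∧ Good jI t) ↔ a ∈ A := by
  have key : ∀ dd : α → List ℕ → Bool, (∀ l, Measurable fun a => dd a l) →
      Measurable fun a => ls (dd a) := by
    intro dd hdd
    refine measurable_pi_iff.mpr fun κ => measurable_pi_iff.mpr fun i => ?_
    have hsg : ∀ κ i, Measurable fun a => sg (dd a) κ i := by
      intro κ i
      unfold sg
      split_ifs
      · exact measurable_const
      · exact measurable_const
      · exact (Measurable.of_discrete (f := fun b : Bool => !b)).comp (hdd _)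
      · exact measurable_const
    exact (Measurable.of_discrete (f := fun b : Bool × Bool => xor b.1 b.2)).comp
      ((hsg κ i).prodMk (hsg (nxI κ i) i))
  rw [AnalyticSet] at hA
  rcases hA with rfl | ⟨φ, hφ, rfl⟩
  · refine ⟨fun _ => ls (fun _ => true), measurable_const, fun a => ?_⟩
    rw [solvable_iff _ (fun _ _ _ _ => rfl)]
    simp
  · set dd : α → List ℕ → Bool := fun a l =>
      decide (a ∉ closure (φ '' {y | ∀ i (h : i < l.length), y i ≤ l[i]})) with hdd
    refine ⟨fun a => ls (dd a), key dd ?_, fun a => ?_⟩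
    · intro l
      refine measurable_to_bool ?_
      have : (fun a => dd a l) ⁻¹' {true} =
          (closure (φ '' {y | ∀ i (h : i < l.length), y i ≤ l[i]}))ᶜ := by
        ext a
        simp [hdd]
      rw [this]
      exact isClosed_closure.measurableSet.compl
    · rw [solvable_iff]
      · rw [analytic_iff φ hφ]
        simp [hdd]
      · intro l l' hl h
        simp only [hdd, decide_eq_true_eq] at h ⊢
        intro hcl
        refine h (closure_mono (image_mono ?_) hcl)
        intro y hy i hi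
        have hlen := hl.length_eq
        have h1 := hy i (by omega)
        have h2 : l[i]'(by omega) ≤ l'[i] := by
          rw [List.forall₂_iff_get] at hl
          exact hl.2 i (by omega) hi
        exact h1.trans h2

end Pool.Agent.LibNB97
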