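import Pool.Agent.LibNB97.Basic

/-! # Locating the blocks -/

open MeasureTheory Set Filter Topology
open scoped ENNReal

namespace Pool.Agent.LibNB97

section tasks

section NB97_LOC1

theorem loc1_cov_zero (D : Sys) (t : ℝ) (i : ℤ) (h : t - 884 * i ∈ Ioo (221:ℝ) 663) :
    D.cov t = 0 := by
  obtain ⟨h1, h2⟩ := h
  by_cases hs : t - 884 * i ≤ 442
  · have e := D.cov_eq_corr i (s := t - 884 * i) (by rw [abs_le]; constructor <;> linarith)
    have e2 : 884 * (i:ℝ) + (t - 884 * i) = t := by ring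
    rw [e2] at e
    rw [e, D.corr_eq_zero (by rw [lt_abs]; left; linarith), zero_div]
  · push Not at hs
    have e := D.cov_eq_corr (i + 1) (s := t - 884 * i - 884) (by rw [abs_le]; constructor <;> linarith)
    have e2 : 884 * ((i + 1 : ℤ):ℝ) + (t - 884 * i - 884) = t := by push_cast; ring
    rw [e2] at e
    rw [e, D.corr_eq_zero (by rw [lt_abs]; right; linarith), zero_div]

/-- task LOC1 -/
theorem pair_excl {Ω : Type} [MeasurableSpace Ω] (μ : Measure Ω) [IsProbabilityMeasure μ]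
    (X : Ω → Set ℝ) (hm : MeasurableSet {p : Ω × ℝ | p.2 ∈ X p.1}) (D : Sys)
    (h : ∀ x t, μ.real {ω | x ∈ X ω ∧ x + t ∈ X ω} = D.cov t) :
    ∀ᵐ ω ∂μ, ∀ᵐ p : ℝ × ℝ, p.1 ∈ X ω → p.2 ∈ X ω → ∀ i : ℤ,
      p.2 - p.1 - 884 * i ∉ Ioo (221:ℝ) 663 := by
  have hmP : MeasurableSet {q : Ω × (ℝ × ℝ) | q.2.1 ∈ X q.1 → q.2.2 ∈ X q.1 → ∀ i : ℤ,
      q.2.2 - q.2.1 - 884 * i ∉ Ioo (221:ℝ) 663} := by
    have m1 : MeasurableSet {q : Ω × (ℝ × ℝ) | q.2.1 ∈ X q.1} :=
      hm.preimage (f := fun q : Ω × (ℝ × ℝ) => (q.1, q.2.1)) (by fun_prop)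
    have m2 : MeasurableSet {q : Ω × (ℝ × ℝ) | q.2.2 ∈ X q.1} :=
      hm.preimage (f := fun q : Ω × (ℝ × ℝ) => (q.1, q.2.2)) (by fun_prop)
    have m3 : ∀ i : ℤ, MeasurableSet {q : Ω × (ℝ × ℝ) | q.2.2 - q.2.1 - 884 * i ∈ Ioo (221:ℝ) 663} :=
      fun i => measurableSet_Ioo.preimage (by fun_prop)
    have e : {q : Ω × (ℝ × ℝ) | q.2.1 ∈ X q.1 → q.2.2 ∈ X q.1 → ∀ i : ℤ,
      q.2.2 - q.2.1 - 884 * i ∉ Ioo (221:ℝ) 663} =
      ({q : Ω × (ℝ × ℝ) | q.2.1 ∈ X q.1} ∩ {q : Ω × (ℝ × ℝ) | q.2.2 ∈ X q.1} ∩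
        ⋃ i : ℤ, {q : Ω × (ℝ × ℝ) | q.2.2 - q.2.1 - 884 * i ∈ Ioo (221:ℝ) 663})ᶜ := by
      ext q
      constructor
      · rintro hq ⟨⟨h1, h2⟩, h3⟩
        obtain ⟨i, hi⟩ := mem_iUnion.1 h3
        exact hq h1 h2 i hi
      · intro hq h1 h2 i hi
        exact hq ⟨⟨h1, h2⟩, mem_iUnion.2 ⟨i, hi⟩⟩
    rw [e]
    exact ((m1.inter m2).inter (MeasurableSet.iUnion m3)).compl
  have hp : ∀ p : ℝ × ℝ, ∀ᵐ ω ∂μ, p.1 ∈ X ω → p.2 ∈ X ω → ∀ i : ℤ,
      p.2 - p.1 - 884 * i ∉ Ioo (221:ℝ) 663 := by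
    intro p
    by_cases hb : ∃ i : ℤ, p.2 - p.1 - 884 * i ∈ Ioo (221:ℝ) 663
    · obtain ⟨i, hi⟩ := hb
      have h1 := h p.1 (p.2 - p.1)
      rw [loc1_cov_zero D _ i hi] at h1
      have h2 : μ {ω | p.1 ∈ X ω ∧ p.1 + (p.2 - p.1) ∈ X ω} = 0 :=
        (measureReal_eq_zero_iff (measure_ne_top _ _)).1 h1
      have h3 : ∀ᵐ ω ∂μ, ¬ (p.1 ∈ X ω ∧ p.1 + (p.2 - p.1) ∈ X ω) := by
        rw [ae_iff]; simpa using h2
      filter_upwards [h3] with ω hω a1 a2
      exact absurd ⟨a1, by rw [add_sub_cancel]; exact a2⟩ hω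
    · push Not at hb
      exact Eventually.of_forall fun ω _ _ i => hb i
  have h1 : ∀ᵐ (q : (ℝ × ℝ) × Ω) ∂((volume : Measure (ℝ × ℝ)).prod μ), q.1.1 ∈ X q.2 → q.1.2 ∈ X q.2 → ∀ i : ℤ,
      q.1.2 - q.1.1 - 884 * i ∉ Ioo (221:ℝ) 663 := by
    exact (Measure.ae_prod_iff_ae_ae (hmP.preimage measurable_swap)).2 (Eventually.of_forall hp)
  have h2 := (Measure.measurePreserving_swap (μ := μ)
    (ν := (volume : Measure (ℝ × ℝ)))).quasiMeasurePreserving.ae h1
  exact Measure.ae_ae_of_ae_prod h2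

end NB97_LOC1

section NB97_LOC2

/-- points of the support of `X` modulo 884 -/
def loc2_P (X : Set ℝ) (x : ℝ) : Prop :=
  ∀ ε > 0, ∃ i : ℤ, volume (X ∩ Ioo (x + 884 * i - ε) (x + 884 * i + ε)) ≠ 0

theorem loc2_closed (X : Set ℝ) : IsClosed {x | loc2_P X x} := by
  rw [← isSeqClosed_iff_isClosed]
  intro u x hu hx ε hε
  rw [Metric.tendsto_atTop] at hx
  obtain ⟨n, hn⟩ := hx (ε / 2) (by positivity)
  have h1 := hn n le_rfl
  rw [Real.dist_eq, abs_lt] at h1
  obtain ⟨i, hi⟩ := hu n (ε / 2) (by positivity)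
  refine ⟨i, fun h0 => hi (measure_mono_null ?_ h0)⟩
  intro y hy
  obtain ⟨hy1, hy2, hy3⟩ := hy
  exact ⟨hy1, by linarith, by linarith⟩

theorem loc2_periodic (X : Set ℝ) (x : ℝ) (m : ℤ) (h : loc2_P X (x + 884 * m)) : loc2_P X x := by
  intro ε hε
  obtain ⟨i, hi⟩ := h ε hε
  refine ⟨m + i, ?_⟩
  have e : x + 884 * ((m + i : ℤ) : ℝ) = x + 884 * m + 884 * i := by push_cast; ring
  rw [e]
  exact hi

theorem loc2_avoid (X : Set ℝ) 
    (h : ∀ᵐ p : ℝ × ℝ, p.1 ∈ X → p.2 ∈ X → ∀ i : ℤ, p.2 - p.1 - 884 * i ∉ Ioo (221:ℝ) 663)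
    {x y : ℝ} (hx : loc2_P X x) (hy : loc2_P X y) : y - x ∉ Ioo (221:ℝ) 663 := by
  intro hxy
  obtain ⟨h1, h2⟩ := hxy
  set ε : ℝ := min (y - x - 221) (663 - (y - x)) / 2 with hε
  have hε0 : 0 < ε := by
    have : 0 < min (y - x - 221) (663 - (y - x)) := lt_min (by linarith) (by linarith)
    positivity
  have e1 : 2 * ε ≤ y - x - 221 := by
    rw [hε]; have := min_le_left (y - x - 221) (663 - (y - x)); linarith
  have e2 : 2 * ε ≤ 663 - (y - x) := by
    rw [hε]; have := min_le_right (y - x - 221) (663 - (y - x)); linarith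
  obtain ⟨i, hi⟩ := hx ε hε0
  obtain ⟨j, hj⟩ := hy ε hε0
  set I := X ∩ Ioo (x + 884 * i - ε) (x + 884 * i + ε) with hI
  set J := X ∩ Ioo (y + 884 * j - ε) (y + 884 * j + ε) with hJ
  have hnull : (volume : Measure (ℝ × ℝ)) (I ×ˢ J) = 0 := by
    rw [ae_iff] at h
    refine measure_mono_null ?_ h
    intro p hp
    obtain ⟨⟨p1, p2, p3⟩, ⟨q1, q2, q3⟩⟩ := hp
    simp only [mem_setOf_eq, not_forall, not_not]
    refine ⟨p1, q1, j - i, ?_⟩
    constructor
    · push_cast; linarith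
    · push_cast; linarith
  rw [Measure.volume_eq_prod, Measure.prod_prod] at hnull
  rcases mul_eq_zero.1 hnull with h0 | h0
  · exact hi h0
  · exact hj h0

theorem loc2_null (X : Set ℝ) (a b : ℝ) (h : ∀ x ∈ Ioo a b, ¬ loc2_P X x) :
    volume (X ∩ Ioo a b) = 0 := by
  refine measure_null_of_locally_null _ fun x hx => ?_
  have h1 := h x hx.2
  unfold loc2_P at h1
  push Not at h1
  obtain ⟨ε, hε, hi⟩ := h1
  have h2 := hi 0
  simp only [Int.cast_zero, mul_zero, add_zero] at h2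
  refine ⟨X ∩ Ioo (x - ε) (x + ε), ?_, h2⟩
  rw [mem_nhdsWithin]
  refine ⟨Ioo (x - ε) (x + ε), isOpen_Ioo, ⟨by linarith, by linarith⟩, ?_⟩
  intro y hy
  exact ⟨hy.2.1, hy.1⟩

/-- task LOC2 -/
theorem exists_gap (X : Set ℝ) (hX : MeasurableSet X)
    (h : ∀ᵐ p : ℝ × ℝ, p.1 ∈ X → p.2 ∈ X → ∀ i : ℤ, p.2 - p.1 - 884 * i ∉ Ioo (221:ℝ) 663) :
    ∃ z ∈ Icc (0:ℝ) 884, ∀ i : ℤ, volume (X ∩ Ioo (884 * i + z - 663) (884 * i + z)) = 0 := by
  -- it suffices to find a real number `z0`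
  have key : (∃ z0 : ℝ, ∀ y ∈ Ioo (z0 - 663) z0, ¬ loc2_P X y) →
      ∃ z ∈ Icc (0:ℝ) 884, ∀ i : ℤ, volume (X ∩ Ioo (884 * i + z - 663) (884 * i + z)) = 0 := by
    rintro ⟨z0, hz0⟩
    set m : ℤ := ⌊z0 / 884⌋ with hm
    have f1 : (m : ℝ) ≤ z0 / 884 := Int.floor_le _
    have f2 : z0 / 884 < m + 1 := Int.lt_floor_add_one _
    refine ⟨z0 - 884 * m, ⟨by linarith, by linarith⟩, fun i => ?_⟩
    refine loc2_null X _ _ fun x hx hP => ?_
    refine hz0 (x + 884 * ((m - i : ℤ) : ℝ)) ?_ ?_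
    · obtain ⟨x1, x2⟩ := hx
      constructor
      · push_cast; linarith
      · push_cast; linarith
    · refine loc2_periodic X _ (i - m) ?_
      have e : x + 884 * ((m - i : ℤ) : ℝ) + 884 * ((i - m : ℤ) : ℝ) = x := by push_cast; ring
      rw [e]; exact hP
  by_cases hne : ∃ x0, loc2_P X x0
  · obtain ⟨x0, hx0⟩ := hne
    apply key
    have hK : IsCompact ({x | loc2_P X x} ∩ Icc (x0 - 221) (x0 + 221)) :=
      isCompact_Icc.inter_left (loc2_closed X)
    obtain ⟨z0, hz0, hmin⟩ := hK.exists_isLeast ⟨x0, hx0, by linarith, by linarith⟩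
    refine ⟨z0, fun y hy hP => ?_⟩
    obtain ⟨hzP, hz1, hz2⟩ := hz0
    obtain ⟨y1, y2⟩ := hy
    have a1 := loc2_avoid X h hP hzP
    have a2 : z0 - y ≤ 221 := by
      by_contra hcon
      exact a1 ⟨by linarith, by linarith⟩
    have a3 := loc2_avoid X h hP hx0
    have a4 : x0 - y ≤ 221 := by
      by_contra hcon
      exact a3 ⟨by linarith, by linarith⟩
    have a5 := hmin ⟨hP, by linarith, by linarith⟩
    linarith
  · push Not at hne
    exact key ⟨0, fun y _ => hne y⟩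

end NB97_LOC2

section NB97_LOC3

/-- the mass of `X` in the `i`-th gap -/
noncomputable def loc3_psi (X : Set ℝ) (i : ℤ) (z : ℝ) : ℝ :=
  volume.real (X ∩ Ioo (884 * i + z - 663) (884 * i + z))

theorem loc3_psi_nonneg (X : Set ℝ) (i : ℤ) (z : ℝ) : 0 ≤ loc3_psi X i z := measureReal_nonneg

theorem loc3_fin (X : Set ℝ) (a b : ℝ) : volume (X ∩ Ioo a b) ≠ ∞ :=
  ne_top_of_le_ne_top (by simp : volume (Ioo a b) ≠ ∞) (measure_mono inter_subset_right)

theorem loc3_psi_zero (X : Set ℝ) (i : ℤ) (z : ℝ) :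
    loc3_psi X i z = 0 ↔ volume (X ∩ Ioo (884 * i + z - 663) (884 * i + z)) = 0 :=
  measureReal_eq_zero_iff (loc3_fin X _ _)

theorem loc3_lip_aux (X : Set ℝ) (i : ℤ) {z z' : ℝ} (h : z ≤ z') :
    loc3_psi X i z ≤ loc3_psi X i z' + (z' - z) ∧ loc3_psi X i z' ≤ loc3_psi X i z + (z' - z) := by
  constructor
  · have h1 : X ∩ Ioo (884 * i + z - 663) (884 * i + z) ⊆
        (X ∩ Ioo (884 * i + z' - 663) (884 * i + z')) ∪
          Ioc (884 * i + z - 663) (884 * i + z' - 663) := by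
      rintro y ⟨y1, y2, y3⟩
      rcases lt_or_ge (884 * i + z' - 663) y with h4 | h4
      · left; exact ⟨y1, h4, by linarith⟩
      · right; exact ⟨y2, h4⟩
    have h2 : volume.real (Ioc (884 * (i:ℝ) + z - 663) (884 * i + z' - 663)) = z' - z := by
      rw [Real.volume_real_Ioc_of_le (by linarith)]; ring
    have h3 : volume ((X ∩ Ioo (884 * (i:ℝ) + z' - 663) (884 * i + z')) ∪
          Ioc (884 * (i:ℝ) + z - 663) (884 * i + z' - 663)) ≠ ∞ :=
      measure_union_ne_top (loc3_fin X _ _) (by simp)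
    have h4 := (measureReal_mono h1 h3).trans (measureReal_union_le _ _)
    rw [h2] at h4
    exact h4
  · have h1 : X ∩ Ioo (884 * i + z' - 663) (884 * i + z') ⊆
        (X ∩ Ioo (884 * i + z - 663) (884 * i + z)) ∪ Ico (884 * (i:ℝ) + z) (884 * i + z') := by
      rintro y ⟨y1, y2, y3⟩
      rcases lt_or_ge y (884 * i + z) with h4 | h4
      · left; exact ⟨y1, by linarith, h4⟩
      · right; exact ⟨h4, y3⟩
    have h2 : volume.real (Ico (884 * (i:ℝ) + z) (884 * i + z')) = z' - z := by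
      rw [Real.volume_real_Ico_of_le (by linarith)]; ring
    have h3 : volume ((X ∩ Ioo (884 * (i:ℝ) + z - 663) (884 * i + z)) ∪
          Ico (884 * (i:ℝ) + z) (884 * i + z')) ≠ ∞ :=
      measure_union_ne_top (loc3_fin X _ _) (by simp)
    have h4 := (measureReal_mono h1 h3).trans (measureReal_union_le _ _)
    rw [h2] at h4
    exact h4

theorem loc3_continuous (X : Set ℝ) (i : ℤ) : Continuous (loc3_psi X i) := by
  have h : LipschitzWith 1 (loc3_psi X i) := by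
    refine LipschitzWith.of_dist_le_mul fun z z' => ?_
    rw [NNReal.coe_one, one_mul, Real.dist_eq, Real.dist_eq]
    rcases le_total z z' with h | h
    · obtain ⟨h1, h2⟩ := loc3_lip_aux X i h
      have h3 : |z - z'| = z' - z := by rw [abs_sub_comm, abs_of_nonneg (by linarith)]
      rw [h3, abs_le]; constructor <;> linarith
    · obtain ⟨h1, h2⟩ := loc3_lip_aux X i h
      have h3 : |z - z'| = z - z' := abs_of_nonneg (by linarith)
      rw [h3, abs_le]; constructor <;> linarith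
  exact h.continuous

theorem loc3_measurable {Ω : Type} [MeasurableSpace Ω] (X : Ω → Set ℝ)
    (hm : MeasurableSet {p : Ω × ℝ | p.2 ∈ X p.1}) (i : ℤ) (z : ℝ) :
    Measurable fun ω => loc3_psi (X ω) i z := by
  have h1 : MeasurableSet ({p : Ω × ℝ | p.2 ∈ X p.1} ∩
      {p | p.2 ∈ Ioo (884 * (i:ℝ) + z - 663) (884 * i + z)}) :=
    hm.inter (measurable_snd measurableSet_Ioo)
  exact (measurable_measure_prodMk_left h1).ennreal_toReal

/-- clamping to `[0, c]` -/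
noncomputable def loc3_cl (c x : ℝ) : ℝ := max 0 (min x c)

theorem loc3_meas_exists {Ω : Type} [MeasurableSpace Ω] (X : Ω → Set ℝ)
    (hm : MeasurableSet {p : Ω × ℝ | p.2 ∈ X p.1}) {c : ℝ} (hc : 0 ≤ c) :
    MeasurableSet {ω | ∃ z ∈ Icc (0:ℝ) c, ∀ i : ℤ, loc3_psi (X ω) i z = 0} := by
  have hcl : Continuous (loc3_cl c) := by unfold loc3_cl; fun_prop
  have hclm : ∀ x, loc3_cl c x ∈ Icc (0:ℝ) c := by
    intro x
    unfold loc3_cl
    exact ⟨le_max_left _ _, max_le hc (min_le_right _ _)⟩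
  have hclz : ∀ z ∈ Icc (0:ℝ) c, loc3_cl c z = z := by
    rintro z ⟨z1, z2⟩
    unfold loc3_cl
    rw [min_eq_left z2, max_eq_right z1]
  have e : {ω | ∃ z ∈ Icc (0:ℝ) c, ∀ i : ℤ, loc3_psi (X ω) i z = 0} =
      ⋂ n : ℕ, ⋃ q : ℚ, {ω | ∑ i ∈ Finset.Icc (-(n:ℤ)) n, loc3_psi (X ω) i (loc3_cl c q) ≤
        1 / ((n:ℝ) + 1)} := by
    ext ω
    simp only [mem_ofPred_eq, mem_iInter, mem_iUnion]
    constructor
    · rintro ⟨z, hz, h0⟩ n
      set G : ℝ → ℝ := fun x => ∑ i ∈ Finset.Icc (-(n:ℤ)) n, loc3_psi (X ω) i (loc3_cl c x) with hG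
      have hGc : Continuous G :=
        continuous_finsetSum _ fun i _ => (loc3_continuous (X ω) i).comp hcl
      have hGz : G z = 0 := by
        rw [hG]
        simp only [hclz z hz, h0, Finset.sum_const_zero]
      have hpos : (0:ℝ) < 1 / ((n:ℝ) + 1) := by positivity
      have hopen : IsOpen {x | G x < 1 / ((n:ℝ) + 1)} := isOpen_lt hGc continuous_const
      have hne : {x | G x < 1 / ((n:ℝ) + 1)}.Nonempty := ⟨z, by
        show G z < _; rw [hGz]; exact hpos⟩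
      obtain ⟨q, hq⟩ := Rat.isDenseEmbedding_coe_real.dense.exists_mem_open hopen hne
      exact ⟨q, le_of_lt hq⟩
    · intro h
      choose q hq using h
      obtain ⟨z, hz, φ, hφ, hlim⟩ := isCompact_Icc.tendsto_subseq (fun n => hclm (q n : ℝ))
      refine ⟨z, hz, fun i => ?_⟩
      have h1 : Tendsto (fun n => loc3_psi (X ω) i (loc3_cl c (q (φ n)))) atTop
          (𝓝 (loc3_psi (X ω) i z)) := ((loc3_continuous (X ω) i).tendsto z).comp hlim
      have h2 : Tendsto (fun n => loc3_psi (X ω) i (loc3_cl c (q (φ n)))) atTop (𝓝 0) := by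
        have h3 : Tendsto (fun n : ℕ => 1 / (((φ n : ℕ):ℝ) + 1)) atTop (𝓝 0) :=
          tendsto_one_div_add_atTop_nhds_zero_nat.comp hφ.tendsto_atTop
        refine squeeze_zero' (Eventually.of_forall fun n => loc3_psi_nonneg _ _ _) ?_ h3
        filter_upwards [hφ.tendsto_atTop.eventually_ge_atTop i.natAbs] with n hn
        refine le_trans ?_ (hq (φ n))
        refine Finset.single_le_sum (f := fun i : ℤ => loc3_psi (X ω) i (loc3_cl c (q (φ n))))
          (fun j _ => loc3_psi_nonneg _ _ _) ?_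
        rw [Finset.mem_Icc]
        omega
      exact tendsto_nhds_unique h1 h2
  rw [e]
  refine MeasurableSet.iInter fun n => MeasurableSet.iUnion fun q => ?_
  exact measurableSet_le (Finset.measurable_sum _ fun i _ => loc3_measurable X hm i _)
    measurable_const

/-- task LOC3: a measurable choice -/
theorem exists_theta {Ω : Type} [MeasurableSpace Ω] (X : Ω → Set ℝ)
    (hm : MeasurableSet {p : Ω × ℝ | p.2 ∈ X p.1}) (T : ℤ → Ω → Ω)
    (hX : ∀ k ω y, y ∈ X (T k ω) ↔ y + 884 * k ∈ X ω) :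
    ∃ θ : Ω → ℝ, Measurable θ ∧ (∀ ω, θ ω ∈ Icc (0:ℝ) 884) ∧ (∀ k ω, θ (T k ω) = θ ω) ∧
      ∀ ω, (∃ z ∈ Icc (0:ℝ) 884, ∀ i : ℤ,
        volume (X ω ∩ Ioo (884 * i + z - 663) (884 * i + z)) = 0) →
        ∀ i : ℤ, volume (X ω ∩ Ioo (884 * i + θ ω - 663) (884 * i + θ ω)) = 0 := by
  classical
  set Z : Ω → Set ℝ := fun ω => {z | z ∈ Icc (0:ℝ) 884 ∧ ∀ i : ℤ, loc3_psi (X ω) i z = 0} with hZ
  have hZc : ∀ ω, IsCompact (Z ω) := by
    intro ω
    have h1 : Z ω = Icc (0:ℝ) 884 ∩ ⋂ i : ℤ, {z | loc3_psi (X ω) i z = 0} := by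
      ext z
      simp [hZ]
    rw [h1]
    exact isCompact_Icc.inter_right (isClosed_iInter fun i =>
      isClosed_eq (loc3_continuous (X ω) i) continuous_const)
  set θ : Ω → ℝ := fun ω => if (Z ω).Nonempty then sInf (Z ω) else 0 with hθ
  have hmem : ∀ ω, (Z ω).Nonempty → θ ω ∈ Z ω := by
    intro ω h
    rw [hθ]; simp only [if_pos h]
    exact (hZc ω).sInf_mem h
  have hbd : ∀ ω, BddBelow (Z ω) := fun ω => ⟨0, fun z hz => hz.1.1⟩
  refine ⟨θ, ?_, ?_, ?_, ?_⟩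
  · refine measurable_of_Iic fun c => ?_
    rcases lt_or_ge c 0 with hc | hc
    · have : θ ⁻¹' Iic c = ∅ := by
        ext ω
        simp only [mem_preimage, mem_Iic, mem_empty_iff_false, iff_false, not_le]
        by_cases h : (Z ω).Nonempty
        · exact lt_of_lt_of_le hc (hmem ω h).1.1
        · rw [hθ]; simp only [if_neg h]; exact hc
      rw [this]; exact MeasurableSet.empty
    · have e : θ ⁻¹' Iic c = {ω | ∃ z ∈ Icc (0:ℝ) (min c 884), ∀ i : ℤ, loc3_psi (X ω) i z = 0} ∪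
          {ω | ∃ z ∈ Icc (0:ℝ) 884, ∀ i : ℤ, loc3_psi (X ω) i z = 0}ᶜ := by
        ext ω
        constructor
        · intro h
          by_cases hne : (Z ω).Nonempty
          · left
            have h1 := hmem ω hne
            exact ⟨θ ω, ⟨h1.1.1, le_min h h1.1.2⟩, h1.2⟩
          · right
            rintro ⟨z, hz1, hz2⟩
            exact hne ⟨z, hz1, hz2⟩
        · rintro (⟨z, ⟨z1, z2⟩, h0⟩ | h)
          · have h1 : z ∈ Z ω := ⟨⟨z1, z2.trans (min_le_right _ _)⟩, h0⟩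
            show θ ω ≤ c
            have h2 : θ ω = sInf (Z ω) := by
              rw [hθ]; exact if_pos ⟨z, h1⟩
            rw [h2]
            exact (csInf_le (hbd ω) h1).trans (z2.trans (min_le_left _ _))
          · have h1 : ¬ (Z ω).Nonempty := by
              rintro ⟨z, hz1, hz2⟩
              exact h ⟨z, hz1, hz2⟩
            show θ ω ≤ c
            rw [hθ]; simp only [if_neg h1]; exact hc
      rw [e]
      exact (loc3_meas_exists X hm (le_min hc (by norm_num))).union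
        (loc3_meas_exists X hm (by norm_num)).compl
  · intro ω
    by_cases h : (Z ω).Nonempty
    · exact (hmem ω h).1
    · rw [hθ]; simp only [if_neg h]; constructor <;> norm_num
  · intro k ω
    have hpsi : ∀ (j : ℤ) (i : ℤ) (z : ℝ) (ω : Ω),
        loc3_psi (X (T j ω)) i z = loc3_psi (X ω) (i + j) z := by
      intro j i z ω
      unfold loc3_psi
      rw [measureReal_def, measureReal_def]
      congr 1
      have h2 : X (T j ω) ∩ Ioo (884 * (i:ℝ) + z - 663) (884 * i + z) =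
          (fun y => y + 884 * (j:ℝ)) ⁻¹' (X ω ∩ Ioo (884 * ((i + j : ℤ):ℝ) + z - 663)
            (884 * ((i + j : ℤ):ℝ) + z)) := by
        ext y
        simp only [mem_inter_iff, mem_preimage, mem_Ioo, hX]
        push_cast
        constructor
        · rintro ⟨h1, h2, h3⟩; exact ⟨h1, by linarith, by linarith⟩
        · rintro ⟨h1, h2, h3⟩; exact ⟨h1, by linarith, by linarith⟩
      rw [h2, measure_preimage_add_right]
    have h1 : Z (T k ω) = Z ω := by
      ext z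
      constructor
      · rintro ⟨h1, h2⟩
        refine ⟨h1, fun i => ?_⟩
        have h3 := h2 (i - k)
        rw [hpsi, sub_add_cancel] at h3
        exact h3
      · rintro ⟨h1, h2⟩
        refine ⟨h1, fun i => ?_⟩
        rw [hpsi]
        exact h2 _
    rw [hθ]
    simp only [h1]
  · rintro ω ⟨z, hz, h0⟩ i
    have h1 : (Z ω).Nonempty := ⟨z, hz, fun i => (loc3_psi_zero _ _ _).2 (h0 i)⟩
    exact (loc3_psi_zero _ _ _).1 ((hmem ω h1).2 i)

end NB97_LOC3

section NB97_LOC4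

/-- task LOC4: the mass over a moving period -/
theorem moving_period {Ω : Type} [MeasurableSpace Ω] (μ : Measure Ω) [IsProbabilityMeasure μ]
    (T : ℤ → Ω → Ω) (T_zero : ∀ ω, T 0 ω = ω) (T_add : ∀ k l ω, T (k + l) ω = T k (T l ω))
    (T_mp : ∀ k, MeasurePreserving (T k) μ μ) (θ : Ω → ℝ) (hθ : Measurable θ)
    (hθ0 : ∀ ω, θ ω ∈ Icc (0:ℝ) 884) (hθT : ∀ k ω, θ (T k ω) = θ ω) (B : Set (Ω × ℝ))
    (hB : MeasurableSet B) (hBT : ∀ k ω y, (T k ω, y) ∈ B ↔ (ω, y + 884 * k) ∈ B) :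
    (μ.prod volume) (B ∩ {p | p.2 ∈ Ico (θ p.1) (θ p.1 + 884)}) =
      (μ.prod volume) (B ∩ {p | p.2 ∈ Ico (0:ℝ) 884}) := by
  have mθ : Measurable fun p : Ω × ℝ => θ p.1 := hθ.comp measurable_fst
  have mm : ∀ (a b : Ω × ℝ → ℝ), Measurable a → Measurable b →
      MeasurableSet (B ∩ {p | p.2 ∈ Ico (a p) (b p)}) := by
    intro a b ha hb
    exact hB.inter ((measurableSet_le ha measurable_snd).inter (measurableSet_lt measurable_snd hb))
  -- split both sides
  have s1 : B ∩ {p | p.2 ∈ Ico (θ p.1) (θ p.1 + 884)} =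
      (B ∩ {p | p.2 ∈ Ico (θ p.1) 884}) ∪ (B ∩ {p | p.2 ∈ Ico (884:ℝ) (θ p.1 + 884)}) := by
    ext p
    have h0 := hθ0 p.1
    constructor
    · rintro ⟨hp, h1, h2⟩
      rcases lt_or_ge p.2 884 with h | h
      · left; exact ⟨hp, h1, h⟩
      · right; exact ⟨hp, h, h2⟩
    · rintro (⟨hp, h1, h2⟩ | ⟨hp, h1, h2⟩)
      · exact ⟨hp, h1, by have := h0.1; linarith⟩
      · exact ⟨hp, by have := h0.2; show θ p.1 ≤ p.2; linarith, h2⟩
  have s2 : B ∩ {p | p.2 ∈ Ico (0:ℝ) 884} =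
      (B ∩ {p | p.2 ∈ Ico (θ p.1) 884}) ∪ (B ∩ {p | p.2 ∈ Ico (0:ℝ) (θ p.1)}) := by
    ext p
    have h0 := hθ0 p.1
    constructor
    · rintro ⟨hp, h1, h2⟩
      rcases lt_or_ge p.2 (θ p.1) with h | h
      · right; exact ⟨hp, h1, h⟩
      · left; exact ⟨hp, h, h2⟩
    · rintro (⟨hp, h1, h2⟩ | ⟨hp, h1, h2⟩)
      · exact ⟨hp, by have := h0.1; show (0:ℝ) ≤ p.2; linarith, h2⟩
      · exact ⟨hp, h1, by have := h0.2; show p.2 < 884; linarith⟩
  rw [s1, s2, measure_union _ (mm _ _ measurable_const (mθ.add_const _)),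
    measure_union _ (mm _ _ measurable_const mθ)]
  · congr 1
    -- the shift
    have hmp : MeasurePreserving (fun p : Ω × ℝ => (T 1 p.1, p.2 - 884))
        (μ.prod (volume : Measure ℝ)) (μ.prod volume) :=
      (T_mp 1).prod (measurePreserving_sub_right volume 884)
    rw [← hmp.measure_preimage (mm _ _ measurable_const mθ).nullMeasurableSet]
    congr 1
    ext p
    constructor
    · rintro ⟨hp, h1, h2⟩
      refine ⟨?_, ?_, ?_⟩
      · rw [hBT]
        have e : p.2 - 884 + 884 * ((1:ℤ):ℝ) = p.2 := by push_cast; ring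
        rw [e]; exact hp
      · show (0:ℝ) ≤ p.2 - 884; linarith
      · show p.2 - 884 < θ (T 1 p.1); rw [hθT]; linarith
    · rintro ⟨hp, h1, h2⟩
      refine ⟨?_, ?_, ?_⟩
      · rw [hBT] at hp
        have e : p.2 - 884 + 884 * ((1:ℤ):ℝ) = p.2 := by push_cast; ring
        rw [e] at hp; exact hp
      · show (884:ℝ) ≤ p.2
        have : (0:ℝ) ≤ p.2 - 884 := h1
        linarith
      · have h3 : p.2 - 884 < θ (T 1 p.1) := h2
        rw [hθT] at h3
        show p.2 < θ p.1 + 884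
        linarith
  · rw [Set.disjoint_left]
    rintro p ⟨_, h1, h2⟩ ⟨_, h3, h4⟩
    exact absurd (lt_of_lt_of_le h4 h1) (lt_irrefl _)
  · rw [Set.disjoint_left]
    rintro p ⟨_, h1, h2⟩ ⟨_, h3, h4⟩
    exact absurd (lt_of_lt_of_le h2 h3) (lt_irrefl _)

end NB97_LOC4

section NB97_LOC5

/-- task LOC5 -/
theorem locate {Ω : Type} [MeasurableSpace Ω] (μ : Measure Ω) [IsProbabilityMeasure μ]
    (T : ℤ → Ω → Ω) (T_zero : ∀ ω, T 0 ω = ω) (T_add : ∀ k l ω, T (k + l) ω = T k (T l ω))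
    (T_mp : ∀ k, MeasurePreserving (T k) μ μ)
    (X : Ω → Set ℝ) (hcl : ∀ ω, IsClosed (X ω)) (hm : MeasurableSet {p : Ω × ℝ | p.2 ∈ X p.1})
    (hX : ∀ k ω y, y ∈ X (T k ω) ↔ y + 884 * k ∈ X ω) (D : Sys)
    (h : ∀ x t, μ.real {ω | x ∈ X ω ∧ x + t ∈ X ω} = D.cov t) :
    ∃ S : Sys, (∀ ω, IsClosed (S.K ω)) ∧ ∀ k s, S.corr k s = D.corr k s := by
  have hXm : ∀ ω, MeasurableSet (X ω) := fun ω => (hcl ω).measurableSet
  obtain ⟨θ, hθm, hθ0, hθT, hθg⟩ := exists_theta X hm T hX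
  have hgap : ∀ᵐ ω ∂μ, ∀ i : ℤ,
      volume (X ω ∩ Ioo (884 * i + θ ω - 663) (884 * i + θ ω)) = 0 := by
    filter_upwards [pair_excl μ X hm D h] with ω hω
    exact hθg ω (exists_gap (X ω) (hXm ω) hω)
  -- the null set
  set N1 : Set (Ω × ℝ) := ⋃ i : ℤ, {p | p.2 ∈ X p.1 ∧ p.2 ∈ Ioo (884 * (i:ℝ) + θ p.1 - 663)
    (884 * i + θ p.1)} with hN1
  have hfm : Measurable fun p : Ω × ℝ => θ p.1 := hθm.comp measurable_fst
  have hN1i : ∀ i : ℤ, MeasurableSet {p : Ω × ℝ | p.2 ∈ X p.1 ∧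
      p.2 ∈ Ioo (884 * (i:ℝ) + θ p.1 - 663) (884 * i + θ p.1)} := fun i =>
    hm.inter ((measurableSet_lt (by fun_prop) measurable_snd).inter
      (measurableSet_lt measurable_snd (by fun_prop)))
  have hN1m : MeasurableSet N1 := MeasurableSet.iUnion hN1i
  have hN10 : (μ.prod volume) N1 = 0 := by
    rw [hN1, measure_iUnion_null_iff]
    intro i
    rw [Measure.measure_prod_null (hN1i i)]
    filter_upwards [hgap] with ω hω
    exact hω i
  -- shears
  have hshear : ∀ t : ℝ, MeasurePreserving (fun p : Ω × ℝ => (p.1, θ p.1 + p.2 + t))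
      (μ.prod (volume : Measure ℝ)) (μ.prod volume) := by
    intro t
    refine (MeasurePreserving.id μ).skew_product (g := fun ω y => θ ω + y + t) ?_ ?_
    · exact (hfm.add measurable_snd).add_const t
    · refine Eventually.of_forall fun ω => ?_
      have h1 := ((measurePreserving_add_right (volume : Measure ℝ) t).comp
        (measurePreserving_add_left (volume : Measure ℝ) (θ ω))).map_eq
      exact h1
  -- the new system
  let S : Sys :=
    { Ω := Ω
      μ := μ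
      T := T
      T_zero := T_zero
      T_add := T_add
      T_mp := T_mp
      K := fun ω => {y | y ∈ Icc (0:ℝ) 221 ∧ θ ω + y ∈ X ω}
      K_meas := by
        refine (measurable_snd measurableSet_Icc).inter ?_
        exact hm.preimage (f := fun p : Ω × ℝ => (p.1, θ p.1 + p.2))
          (measurable_fst.prodMk (hfm.add measurable_snd))
      K_sub := fun ω y hy => hy.1 }
  refine ⟨S, ?_, ?_⟩
  · intro ω
    exact isClosed_Icc.inter ((hcl ω).preimage (by fun_prop))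
  intro k s
  by_cases hs : |s| ≤ 442
  · set t : ℝ := 884 * k + s with ht
    have hc := D.cov_eq_corr k hs
    have hD : D.corr k s = 884 * D.cov t := by rw [hc]; ring
    rw [hD]
    set B : Set (Ω × ℝ) := {p | p.2 ∈ X p.1 ∧ p.2 + t ∈ X p.1} with hB
    have hBm : MeasurableSet B := hm.inter
      (hm.preimage (f := fun p : Ω × ℝ => (p.1, p.2 + t)) (by fun_prop))
    have hBT : ∀ (k : ℤ) (ω : Ω) (y : ℝ), (T k ω, y) ∈ B ↔ (ω, y + 884 * k) ∈ B := by
      intro k ω y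
      show (y ∈ X (T k ω) ∧ y + t ∈ X (T k ω)) ↔ (y + 884 * k ∈ X ω ∧ y + 884 * k + t ∈ X ω)
      rw [hX, hX]
      have e : y + t + 884 * (k:ℝ) = y + 884 * k + t := by ring
      rw [e]
    have hmv := moving_period μ T T_zero T_add T_mp θ hθm hθ0 hθT B hBm hBT
    -- the mass over the standard period
    have hmass : (μ.prod volume) (B ∩ {p | p.2 ∈ Ico (0:ℝ) 884}) = ENNReal.ofReal (884 * D.cov t) := by
      have mB2 : MeasurableSet (B ∩ {p | p.2 ∈ Ico (0:ℝ) 884}) :=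
        hBm.inter (measurable_snd measurableSet_Ico)
      rw [Measure.prod_apply_symm mB2]
      have e1 : ∀ y : ℝ, μ ((fun ω => (ω, y)) ⁻¹' (B ∩ {p | p.2 ∈ Ico (0:ℝ) 884})) =
          (Ico (0:ℝ) 884).indicator (fun _ => ENNReal.ofReal (D.cov t)) y := by
        intro y
        by_cases hy : y ∈ Ico (0:ℝ) 884
        · rw [indicator_of_mem hy, ← h y t, ofReal_measureReal]
          congr 1
          ext ω
          constructor
          · rintro ⟨h1, h2⟩; exact h1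
          · intro h1; exact ⟨h1, hy⟩
        · rw [indicator_of_notMem hy]
          have : (fun ω : Ω => (ω, y)) ⁻¹' (B ∩ {p | p.2 ∈ Ico (0:ℝ) 884}) = ∅ := by
            ext ω
            constructor
            · rintro ⟨h1, h2⟩; exact hy h2
            · intro h1; exact h1.elim
          rw [this, measure_empty]
      simp only [e1]
      rw [lintegral_indicator measurableSet_Ico, setLIntegral_const, Real.volume_Ico,
        ENNReal.ofReal_mul (by norm_num), mul_comm]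
      norm_num
    -- the mass over the moving period, sheared
    have hsh := (hshear 0).measure_preimage
      (s := B ∩ {p | p.2 ∈ Ico (θ p.1) (θ p.1 + 884)})
      (hBm.inter ((measurableSet_le hfm measurable_snd).inter
        (measurableSet_lt measurable_snd (hfm.add_const _)))).nullMeasurableSet
    have hae : ((fun p : Ω × ℝ => (p.1, θ p.1 + p.2 + 0)) ⁻¹'
        (B ∩ {p | p.2 ∈ Ico (θ p.1) (θ p.1 + 884)}) : Set (Ω × ℝ)) =ᵐ[μ.prod volume]
        ({p | p.2 ∈ S.K p.1 ∧ p.2 + s ∈ S.K (S.T k p.1)} : Set (Ω × ℝ)) := by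
      have n1 : ∀ᵐ p ∂(μ.prod (volume : Measure ℝ)), (p.1, θ p.1 + p.2 + 0) ∉ N1 :=
        (hshear 0).quasiMeasurePreserving.ae (measure_eq_zero_iff_ae_notMem.1 hN10)
      have n2 : ∀ᵐ p ∂(μ.prod (volume : Measure ℝ)), (p.1, θ p.1 + p.2 + t) ∉ N1 :=
        (hshear t).quasiMeasurePreserving.ae (measure_eq_zero_iff_ae_notMem.1 hN10)
      filter_upwards [n1, n2] with p h1 h2
      obtain ⟨ω, y⟩ := p
      simp only [add_zero] at h1 h2
      have g1 : ∀ i : ℤ, θ ω + y ∈ X ω → ¬ (884 * (i:ℝ) - 663 < y ∧ y < 884 * i) := by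
        rintro i hx ⟨a, b⟩
        exact h1 (mem_iUnion.2 ⟨i, hx, by show _ < θ ω + y; linarith, by show θ ω + y < _; linarith⟩)
      have g2 : ∀ i : ℤ, θ ω + y + t ∈ X ω → ¬ (884 * (i:ℝ) - 663 < y + t ∧ y + t < 884 * i) := by
        rintro i hx ⟨a, b⟩
        exact h2 (mem_iUnion.2 ⟨i, hx, by show _ < θ ω + y + t; linarith,
          by show θ ω + y + t < _; linarith⟩)
      apply propext
      show ((θ ω + y + 0 ∈ X ω ∧ θ ω + y + 0 + t ∈ X ω) ∧ θ ω ≤ θ ω + y + 0 ∧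
        θ ω + y + 0 < θ ω + 884) ↔ ((y ∈ Icc (0:ℝ) 221 ∧ θ ω + y ∈ X ω) ∧
          (y + s ∈ Icc (0:ℝ) 221 ∧ θ (T k ω) + (y + s) ∈ X (T k ω)))
      rw [hX, hθT, add_zero]
      have e1 : θ ω + (y + s) + 884 * (k:ℝ) = θ ω + y + t := by rw [ht]; ring
      rw [e1]
      rw [abs_le] at hs
      constructor
      · rintro ⟨⟨a1, a2⟩, a3, a4⟩
        have b1 := g1 1 a1
        have b2 : y ≤ 221 := by
          by_contra hcon
          exact b1 ⟨by push_cast; linarith, by push_cast; linarith⟩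
        have b3 := g2 k a2
        have b4 := g2 (k + 1) a2
        have b5 : 0 ≤ y + s := by
          by_contra hcon
          exact b3 ⟨by rw [ht]; linarith, by rw [ht]; linarith⟩
        have b6 : y + s ≤ 221 := by
          by_contra hcon
          exact b4 ⟨by rw [ht]; push_cast; linarith, by rw [ht]; push_cast; linarith⟩
        exact ⟨⟨⟨by linarith, b2⟩, a1⟩, ⟨b5, b6⟩, a2⟩
      · rintro ⟨⟨⟨a1, a2⟩, a3⟩, _, a5⟩
        exact ⟨⟨a3, a5⟩, by linarith, by linarith⟩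
    have hfinal : (μ.prod volume) ({p | p.2 ∈ S.K p.1 ∧ p.2 + s ∈ S.K (S.T k p.1)} : Set (Ω × ℝ)) =
        ENNReal.ofReal (884 * D.cov t) := by
      rw [← measure_congr hae, hsh, hmv, hmass]
    have hnn : 0 ≤ 884 * D.cov t := by rw [← hD]; exact D.corr_nonneg k s
    show ((μ.prod volume) ({p | p.2 ∈ S.K p.1 ∧ p.2 + s ∈ S.K (S.T k p.1)} : Set (Ω × ℝ))).toReal = _
    rw [hfinal, ENNReal.toReal_ofReal hnn]
  · push Not at hs
    rw [S.corr_eq_zero (by linarith), D.corr_eq_zero (by linarith)]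

end NB97_LOC5

end tasks

end Pool.Agent.LibNB97
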