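import Pool.Agent.LibRCS.Avg

/-! # The class of covariances is analytic -/

open MeasureTheory Set Filter Topology

namespace Pool.Agent.LibNB97

open Pool.Agent.LibRCS

/-- moduli coded by sequences of integers -/
noncomputable def wg (g : ℕ → ℕ) (r : ℝ) : ℝ :=
  ⨅ n, if r * (g n + 1) ≤ 1 then (1 / 2 : ℝ) ^ n else 1

section tasks

section NB97_UPP1

/-- task UPP1 -/
theorem polish_C (d : ℕ) : PolishSpace C(EuclideanSpace ℝ (Fin d), ℝ) := by
  infer_instance

end NB97_UPP1

section NB97_UPP2

theorem upp2_bdd (g : ℕ → ℕ) (r : ℝ) :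
    BddBelow (range fun n => if r * (g n + 1) ≤ 1 then (1 / 2 : ℝ) ^ n else 1) := by
  refine ⟨0, ?_⟩
  rintro _ ⟨n, rfl⟩
  dsimp only
  split_ifs
  · positivity
  · norm_num

theorem upp2_nonneg (g : ℕ → ℕ) (r : ℝ) : 0 ≤ wg g r := by
  refine Real.iInf_nonneg fun n => ?_
  split_ifs
  · positivity
  · norm_num

/-- task UPP2 -/
theorem wg_tendsto (g : ℕ → ℕ) : Tendsto (wg g) (𝓝[>] 0) (𝓝 0) := by
  rw [Metric.tendsto_nhdsWithin_nhds]
  intro ε hε
  obtain ⟨n, hn⟩ := exists_pow_lt_of_lt_one hε (by norm_num : (1 / 2 : ℝ) < 1)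
  have hg : (0 : ℝ) < g n + 1 := by positivity
  refine ⟨1 / (g n + 1), by positivity, fun r hr hd => ?_⟩
  rw [Real.dist_eq, sub_zero, abs_of_pos hr, lt_div_iff₀ hg] at hd
  rw [Real.dist_eq, sub_zero, abs_of_nonneg (upp2_nonneg g r)]
  have h1 : wg g r ≤ (1 / 2 : ℝ) ^ n := by
    have h2 := ciInf_le (upp2_bdd g r) n
    rw [if_pos hd.le] at h2
    exact h2
  exact h1.trans_lt hn

/-- the canonical modulus -/
theorem upp2_canonical {d : ℕ} (S : EuclideanSpace ℝ (Fin d) → ℝ)
    (h : IsStationaryRCSCovariance S) : ∃ w : ℝ → ℝ, Tendsto w (𝓝[>] 0) (𝓝 0) ∧ Monotone w ∧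
      (∀ r, w r ≤ 1) ∧ FinIneq S w := by
  classical
  obtain ⟨μ, hμ, hst, htp⟩ := h
  set H : Eu d → ℝ → Set (ClosedSubset d) := fun x r => {G | (G.carrier ∩ Metric.closedBall x r).Nonempty}
    with hH
  have hHm : ∀ x r, MeasurableSet (H x r) := fun x r => measurableSet_hit_compact _ (isCompact_closedBall _ _)
  have h0 : μ.real {G : ClosedSubset d | (0 : Eu d) ∈ G.carrier} = S 0 := by
    have := htp 0 0
    simpa using this
  have htend : Tendsto (fun r => μ.real (H 0 r) - S 0) (𝓝[>] 0) (𝓝 0) := by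
    have h1 := tendsto_measure_biInter_gt (μ := μ) (s := fun r => H 0 r) (a := (0:ℝ))
      (fun r _ => (hHm 0 r).nullMeasurableSet)
      (fun i j _ hij G hG => by
        obtain ⟨x, hx, hxb⟩ := hG
        exact ⟨x, hx, Metric.closedBall_subset_closedBall hij hxb⟩)
      ⟨1, one_pos, measure_ne_top _ _⟩
    have h2 : (⋂ r, ⋂ (_ : r > (0:ℝ)), H (0 : Eu d) r) = {G : ClosedSubset d | (0 : Eu d) ∈ G.carrier} := by
      ext G
      simp only [mem_iInter, mem_ofPred_eq, hH]
      constructor
      · intro h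
        by_contra hn
        obtain ⟨ε, hε, hb⟩ := Metric.isOpen_iff.mp G.isClosed.isOpen_compl 0 hn
        obtain ⟨x, hx, hxb⟩ := h (ε / 2) (half_pos hε)
        exact hb (Metric.closedBall_subset_ball (by linarith) hxb) hx
      · intro h r hr
        exact ⟨0, h, Metric.mem_closedBall_self hr.le⟩
    rw [h2] at h1
    have h3 : Tendsto (fun r => μ.real (H 0 r)) (𝓝[>] 0) (𝓝 (S 0)) := by
      rw [← h0]
      exact (ENNReal.tendsto_toReal (measure_ne_top _ _)).comp h1
    have h4 := h3.sub_const (S 0)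
    simpa using h4
  have hS0 : 0 ≤ S 0 := by
    rw [← h0]
    exact measureReal_nonneg
  refine ⟨fun r => μ.real (H 0 r) - S 0, htend, ?_, ?_, ?_⟩
  · intro r r' hrr
    have h1 : μ.real (H 0 r) ≤ μ.real (H 0 r') := by
      apply measureReal_mono _ (measure_ne_top _ _)
      rintro G ⟨x, hx, hxb⟩
      exact ⟨x, hx, Metric.closedBall_subset_closedBall hrr hxb⟩
    dsimp only
    linarith
  · intro r
    have h1 : μ.real (H 0 r) ≤ 1 := measureReal_le_one
    dsimp only
    linarith
  · intro F a b c hb hT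
    -- stationarity of the hitting probabilities of balls
    have hball : ∀ (x : Eu d) (r : ℝ), μ.real (H x r) = μ.real (H 0 r) := by
      intro x r
      have h1 : μ (H x r) = μ (H 0 r) := by
        conv_lhs => rw [← hst x]
        rw [Measure.map_apply (continuous_translate_right x).measurable (hHm x r)]
        congr 1
        ext G
        simp only [mem_preimage, hH, mem_ofPred_eq, ClosedSubset.translate]
        constructor
        · rintro ⟨y, hy, hyb⟩
          refine ⟨y - x, hy, ?_⟩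
          rw [Metric.mem_closedBall, dist_zero_right, ← dist_eq_norm]
          exact hyb
        · rintro ⟨y, hy, hyb⟩
          refine ⟨y + x, ?_, ?_⟩
          · simp only [mem_ofPred_eq]; simpa using hy
          · rw [Metric.mem_closedBall, dist_eq_norm]
            rw [Metric.mem_closedBall, dist_zero_right] at hyb
            simpa using hyb
      rw [measureReal_def, measureReal_def, h1]
    have hDm : ∀ D : Finset (Eu d), MeasurableSet {G : ClosedSubset d | ∃ x ∈ D, x ∈ G.carrier} := by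
      intro D
      have : {G : ClosedSubset d | ∃ x ∈ D, x ∈ G.carrier} = ⋃ x ∈ D, {G | x ∈ G.carrier} := by
        ext G; simp
      rw [this]
      exact Finset.measurableSet_biUnion _ (fun x _ => Pool.Agent.LibRCS.measurableSet_mem x)
    have hD : ∀ D : Finset (Eu d), μ.real {G : ClosedSubset d | ∃ x ∈ D, x ∈ G.carrier}
        ≤ μ.real (H 0 (Metric.diam (D : Set (Eu d)))) := by
      intro D
      by_cases hne : D.Nonempty
      · obtain ⟨x0, hx0⟩ := hne
        rw [← hball x0]
        apply measureReal_mono _ (measure_ne_top _ _)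
        rintro G ⟨x, hxD, hxG⟩
        refine ⟨x, hxG, ?_⟩
        exact Metric.dist_le_diam_of_mem D.finite_toSet.isBounded hxD hx0
      · rw [Finset.not_nonempty_iff_eq_empty] at hne
        subst hne
        simp
    -- pointwise inequality
    set f : ClosedSubset d → ℝ := fun G => ∑ x ∈ F, ∑ y ∈ F, a x y *
        (({G : ClosedSubset d | x ∈ G.carrier ∧ y ∈ G.carrier}).indicator (fun _ => (1:ℝ)) G) +
        ∑ D ∈ F.powerset, b D * (({G : ClosedSubset d | ∃ x ∈ D, x ∈ G.carrier}).indicator (fun _ => (1:ℝ)) G)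
      with hf
    have hpt : ∀ G, c ≤ f G := by
      intro G
      set T := F.filter (fun x => x ∈ G.carrier) with hTdef
      have h1 := hT T (Finset.filter_subset _ _)
      refine h1.trans (le_of_eq ?_)
      simp only [hf]
      congr 1
      · rw [hTdef, Finset.sum_filter]
        apply Finset.sum_congr rfl
        intro x _
        by_cases hx : x ∈ G.carrier
        · rw [if_pos hx, Finset.sum_filter]
          apply Finset.sum_congr rfl
          intro y _
          by_cases hy : y ∈ G.carrier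
          · rw [if_pos hy, indicator_of_mem (show G ∈ {G : ClosedSubset d | x ∈ G.carrier ∧ y ∈ G.carrier}
              from ⟨hx, hy⟩), mul_one]
          · rw [if_neg hy, indicator_of_notMem (show G ∉ {G : ClosedSubset d | x ∈ G.carrier ∧ y ∈ G.carrier}
              from fun h => hy h.2), mul_zero]
        · rw [if_neg hx]
          symm
          apply Finset.sum_eq_zero
          intro y _
          rw [indicator_of_notMem (show G ∉ {G : ClosedSubset d | x ∈ G.carrier ∧ y ∈ G.carrier}
              from fun h => hx h.1), mul_zero]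
      · apply Finset.sum_congr rfl
        intro D hDF
        rw [Finset.mem_powerset] at hDF
        by_cases h : ∃ x ∈ D, x ∈ G.carrier
        · have h2 : T ∈ {T : Finset (Eu d) | ∃ x ∈ D, x ∈ T} := by
            obtain ⟨x, hx, hxG⟩ := h
            exact ⟨x, hx, Finset.mem_filter.mpr ⟨hDF hx, hxG⟩⟩
          rw [indicator_of_mem h2, indicator_of_mem
            (show G ∈ {G : ClosedSubset d | ∃ x ∈ D, x ∈ G.carrier} from h), mul_one]
        · have h2 : T ∉ {T : Finset (Eu d) | ∃ x ∈ D, x ∈ T} := by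
            rintro ⟨x, hx, hxT⟩
            exact h ⟨x, hx, (Finset.mem_filter.mp hxT).2⟩
          rw [indicator_of_notMem h2, indicator_of_notMem
            (show G ∉ {G : ClosedSubset d | ∃ x ∈ D, x ∈ G.carrier} from h), mul_zero]
    have hm2 : ∀ x y : Eu d, MeasurableSet {G : ClosedSubset d | x ∈ G.carrier ∧ y ∈ G.carrier} :=
      fun x y => (Pool.Agent.LibRCS.measurableSet_mem x).inter (Pool.Agent.LibRCS.measurableSet_mem y)
    have hi1 : ∀ x y, Integrable (fun G => a x y *
        (({G : ClosedSubset d | x ∈ G.carrier ∧ y ∈ G.carrier}).indicator (fun _ => (1:ℝ)) G)) μ :=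
      fun x y => ((integrable_const (1:ℝ)).indicator (hm2 x y)).const_mul _
    have hi2 : ∀ D : Finset (Eu d), Integrable (fun G => b D *
        (({G : ClosedSubset d | ∃ x ∈ D, x ∈ G.carrier}).indicator (fun _ => (1:ℝ)) G)) μ :=
      fun D => ((integrable_const (1:ℝ)).indicator (hDm D)).const_mul _
    have hI1 : Integrable (fun G => ∑ x ∈ F, ∑ y ∈ F, a x y *
        (({G : ClosedSubset d | x ∈ G.carrier ∧ y ∈ G.carrier}).indicator (fun _ => (1:ℝ)) G)) μ :=
      integrable_finsetSum _ (fun x _ => integrable_finsetSum _ (fun y _ => hi1 x y))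
    have hI2 : Integrable (fun G => ∑ D ∈ F.powerset, b D *
        (({G : ClosedSubset d | ∃ x ∈ D, x ∈ G.carrier}).indicator (fun _ => (1:ℝ)) G)) μ :=
      integrable_finsetSum _ (fun D _ => hi2 D)
    have h5 : c ≤ ∫ G, f G ∂μ := by
      have h6 : ∫ _G : ClosedSubset d, c ∂μ ≤ ∫ G, f G ∂μ :=
        integral_mono (integrable_const _) (hI1.add hI2) hpt
      simpa using h6
    refine h5.trans ?_
    simp only [hf]
    rw [integral_add hI1 hI2,
      integral_finsetSum _ (fun x _ => integrable_finsetSum _ (fun y _ => hi1 x y)),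
      integral_finsetSum _ (fun D _ => hi2 D)]
    apply add_le_add
    · apply le_of_eq
      apply Finset.sum_congr rfl
      intro x _
      rw [integral_finsetSum _ (fun y _ => hi1 x y)]
      apply Finset.sum_congr rfl
      intro y _
      rw [integral_const_mul, integral_indicator (hm2 x y), ← htp x y]
      simp [measureReal_restrict_apply]
    · apply Finset.sum_le_sum
      intro D _
      rw [integral_const_mul]
      apply mul_le_mul_of_nonneg_left _ (hb D)
      rw [integral_indicator (hDm D)]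
      simp only [integral_const, MeasurableSet.univ, measureReal_restrict_apply, univ_inter,
        smul_eq_mul, mul_one]
      have := hD D
      linarith

theorem exists_wg {d : ℕ} (S : EuclideanSpace ℝ (Fin d) → ℝ) (h : IsStationaryRCSCovariance S) :
    ∃ g, FinIneq S (wg g) := by
  obtain ⟨w, hw, hmono, hle, hfin⟩ := upp2_canonical S h
  have h1 : ∀ n : ℕ, ∃ k : ℕ, w (1 / (k + 1)) ≤ (1 / 2 : ℝ) ^ n := by
    intro n
    have h2 : ∀ᶠ r in 𝓝[>] (0 : ℝ), w r < (1 / 2 : ℝ) ^ n :=
      hw.eventually (gt_mem_nhds (by positivity))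
    have h3 : Tendsto (fun k : ℕ => (1 : ℝ) / ((k : ℝ) + 1)) atTop (𝓝[>] 0) := by
      rw [tendsto_nhdsWithin_iff]
      refine ⟨tendsto_one_div_add_atTop_nhds_zero_nat, Eventually.of_forall fun k => ?_⟩
      have h4 : (0 : ℝ) < 1 / ((k : ℝ) + 1) := by positivity
      exact h4
    obtain ⟨k, hk⟩ := (h3.eventually h2).exists
    exact ⟨k, hk.le⟩
  choose g hg using h1
  have hwg : ∀ r, w r ≤ wg g r := by
    intro r
    refine le_ciInf fun n => ?_
    have hgn : (0 : ℝ) < g n + 1 := by positivity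
    split_ifs with hr
    · refine (hmono ?_).trans (hg n)
      rwa [le_div_iff₀ hgn]
    · exact hle r
  refine ⟨g, fun F a b c hb hT => (hfin F a b c hb hT).trans ?_⟩
  refine add_le_add le_rfl (Finset.sum_le_sum fun D _ => ?_)
  exact mul_le_mul_of_nonneg_left (add_le_add le_rfl (hwg _)) (hb D)

end NB97_UPP2


section NB97_UPP3

lemma upp3_bdd (g : ℕ → ℕ) (r c : ℝ) (hc : 0 ≤ c) : BddBelow (Set.range fun n : ℕ =>
    c * (if r * (g n + 1) ≤ 1 then (1 / 2 : ℝ) ^ n else 1)) := by
  refine ⟨0, ?_⟩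
  rintro _ ⟨n, rfl⟩
  refine mul_nonneg hc ?_
  split_ifs <;> positivity

lemma upp3_usc (d : ℕ) (r c : ℝ) (hc : 0 ≤ c) : UpperSemicontinuous
    fun p : C(EuclideanSpace ℝ (Fin d), ℝ) × (ℕ → ℕ) => c * wg p.2 r := by
  have h1 : (fun p : C(EuclideanSpace ℝ (Fin d), ℝ) × (ℕ → ℕ) => c * wg p.2 r) =
      fun p => ⨅ n : ℕ, c * (if r * (p.2 n + 1) ≤ 1 then (1 / 2 : ℝ) ^ n else 1) := by
    funext p
    unfold wg
    rw [Real.mul_iInf_of_nonneg hc]
  rw [h1]
  refine upperSemicontinuous_ciInf (fun p => upp3_bdd p.2 r c hc) fun n => ?_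
  have h2 : Continuous fun p : C(EuclideanSpace ℝ (Fin d), ℝ) × (ℕ → ℕ) =>
      c * (if r * (p.2 n + 1) ≤ 1 then (1 / 2 : ℝ) ^ n else 1) := by
    have h3 : Continuous fun k : ℕ => c * (if r * (k + 1) ≤ 1 then (1 / 2 : ℝ) ^ n else 1) :=
      continuous_of_discreteTopology
    exact h3.comp ((continuous_apply n).comp continuous_snd)
  exact h2.upperSemicontinuous

/-- task UPP3 -/
theorem isClosed_finIneq (d : ℕ) :
    IsClosed {p : C(EuclideanSpace ℝ (Fin d), ℝ) × (ℕ → ℕ) | FinIneq p.1 (wg p.2)} := by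
  have h1 : {p : C(EuclideanSpace ℝ (Fin d), ℝ) × (ℕ → ℕ) | FinIneq p.1 (wg p.2)} =
      ⋂ (F : Finset (Eu d)) (a : Eu d → Eu d → ℝ) (b : Finset (Eu d) → ℝ) (c : ℝ)
        (_ : ∀ D, 0 ≤ b D) (_ : ∀ T ⊆ F, c ≤ ∑ x ∈ T, ∑ y ∈ T, a x y +
          ∑ D ∈ F.powerset, (({T : Finset (Eu d) | ∃ x ∈ D, x ∈ T}).indicator (fun _ => b D) T)),
        {p : C(EuclideanSpace ℝ (Fin d), ℝ) × (ℕ → ℕ) |
          c ≤ ∑ x ∈ F, ∑ y ∈ F, a x y * p.1 (x - y) +
            ∑ D ∈ F.powerset, b D * (p.1 0 + wg p.2 (Metric.diam (D : Set (Eu d))))} := by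
    ext p
    simp only [FinIneq, mem_iInter]
    rfl
  rw [h1]
  refine isClosed_iInter fun F => isClosed_iInter fun a => isClosed_iInter fun b =>
    isClosed_iInter fun c => isClosed_iInter fun hb => isClosed_iInter fun _ => ?_
  have hev : ∀ x : Eu d, Continuous fun p : C(EuclideanSpace ℝ (Fin d), ℝ) × (ℕ → ℕ) => p.1 x :=
    fun x => (continuous_eval_const x).comp continuous_fst
  have h2 : UpperSemicontinuous fun p : C(EuclideanSpace ℝ (Fin d), ℝ) × (ℕ → ℕ) =>
      ∑ x ∈ F, ∑ y ∈ F, a x y * p.1 (x - y) +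
        ∑ D ∈ F.powerset, b D * (p.1 0 + wg p.2 (Metric.diam (D : Set (Eu d)))) := by
    refine UpperSemicontinuous.add ?_ ?_
    · refine Continuous.upperSemicontinuous ?_
      exact continuous_finsetSum _ fun x _ => continuous_finsetSum _ fun y _ =>
        continuous_const.mul (hev _)
    · refine upperSemicontinuous_sum fun D _ => ?_
      simp only [mul_add]
      refine UpperSemicontinuous.add ?_ (upp3_usc d _ _ (hb D))
      exact (continuous_const.mul (hev 0)).upperSemicontinuous
  exact h2.isClosed_preimage c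

end NB97_UPP3

end tasks

theorem class_analytic (d : ℕ) :
    AnalyticSet {f : C(EuclideanSpace ℝ (Fin d), ℝ) | IsStationaryRCSCovariance f} := by
  have := polish_C d
  have e : {f : C(EuclideanSpace ℝ (Fin d), ℝ) | IsStationaryRCSCovariance f} =
      Prod.fst '' {p : C(EuclideanSpace ℝ (Fin d), ℝ) × (ℕ → ℕ) | FinIneq p.1 (wg p.2)} := by
    ext f
    constructor
    · intro h
      obtain ⟨g, hg⟩ := exists_wg (f : EuclideanSpace ℝ (Fin d) → ℝ) h
      exact ⟨(f, g), hg, rfl⟩
    · rintro ⟨⟨f', g⟩, hg, rfl⟩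
      exact sufficiency _ _ (wg_tendsto g) hg
  rw [e]
  exact (isClosed_finIneq d).analyticSet.image_of_continuous continuous_fst

section NB97_UPP4

theorem exists_trace (d : ℕ) (B : Set C(EuclideanSpace ℝ (Fin d), ℝ))
    (hB : MeasurableSet[borel C(EuclideanSpace ℝ (Fin d), ℝ)] B) :
    ∃ B' : Set (EuclideanSpace ℝ (Fin d) → ℝ), MeasurableSet B' ∧
      ∀ f : C(EuclideanSpace ℝ (Fin d), ℝ), ((f : EuclideanSpace ℝ (Fin d) → ℝ) ∈ B' ↔ f ∈ B) := by
  have hP : PolishSpace C(EuclideanSpace ℝ (Fin d), ℝ) := polish_C d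
  letI : MeasurableSpace C(EuclideanSpace ℝ (Fin d), ℝ) := borel _
  have : BorelSpace C(EuclideanSpace ℝ (Fin d), ℝ) := ⟨rfl⟩
  let D : ℕ → EuclideanSpace ℝ (Fin d) := TopologicalSpace.denseSeq _
  let ρ : C(EuclideanSpace ℝ (Fin d), ℝ) → (ℕ → ℝ) := fun f n => f (D n)
  have hc : Continuous ρ := continuous_pi fun n => continuous_eval_const (D n)
  have hi : Function.Injective ρ := by
    intro f g h
    have h1 : (f : EuclideanSpace ℝ (Fin d) → ℝ) = g := by
      refine Continuous.ext_on (TopologicalSpace.denseRange_denseSeq _) f.continuous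
        g.continuous ?_
      rintro _ ⟨n, rfl⟩
      exact congrFun h n
    exact DFunLike.coe_injective h1
  have he : MeasurableEmbedding ρ := hc.measurableEmbedding hi
  have hm : MeasurableSet (ρ '' B) := he.measurableSet_image.2 hB
  refine ⟨(fun g : EuclideanSpace ℝ (Fin d) → ℝ => fun n => g (D n)) ⁻¹' (ρ '' B), ?_, ?_⟩
  · exact (measurable_pi_iff.2 fun n => measurable_pi_apply (D n)) hm
  · intro f
    exact hi.mem_set_image

end NB97_UPP4

end Pool.Agent.LibNB97
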