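import Pool.Agent.LibNB97.RevMain
import Pool.Agent.LibNB97.DFwd
import Pool.Agent.LibNB97.Geo
import Pool.Agent.LibNB97.Inst
import Pool.Agent.LibNB97.Upper

/-! # The class of covariances of stationary random closed sets is not Borel -/

open MeasureTheory Set Filter Topology

namespace Pool.Agent.LibNB97

open Pool.Agent.LibRCS

theorem hardness {d : ℕ} (i0 : Fin d) {α : Type*} [TopologicalSpace α] [PolishSpace α]
    [MeasurableSpace α] [BorelSpace α] (A : Set α) (hA : AnalyticSet A) :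
    ∃ F : α → (EuclideanSpace ℝ (Fin d) → ℝ), Measurable F ∧ (∀ a, Continuous (F a)) ∧
      ∀ a, IsStationaryRCSCovariance (F a) ↔ a ∈ A := by
  obtain ⟨G⟩ := exists_geo jI nxI
  obtain ⟨t0, ht0, hl⟩ := exists_t0 next_nxI
  obtain ⟨s, hs, hiff⟩ := exists_reduction A hA
  refine ⟨fun a x => (Dsys G (t0 (s a))).cov (x i0), ?_, ?_, ?_⟩
  · exact measurable_pi_iff.mpr fun x => (measurable_cov G (x i0)).comp (ht0.comp hs)
  · intro a
    exact (Dsys G (t0 (s a))).continuous_cov.comp (by fun_prop)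
  · intro a
    rw [← hiff a]
    constructor
    · intro h
      exact reverse i0 next_nxI G (s a) (t0 (s a)) (hl _) h
    · rintro ⟨t, ht, hg⟩
      exact forward i0 next_nxI G (s a) t (t0 (s a)) ht (hl _) hg

theorem not_borel {d : ℕ} (i0 : Fin d) :
    ¬ ∃ B : Set (EuclideanSpace ℝ (Fin d) → ℝ), MeasurableSet B ∧
      ∀ S : EuclideanSpace ℝ (Fin d) → ℝ, Continuous S → (S ∈ B ↔ IsStationaryRCSCovariance S) := by
  rintro ⟨B, hB, h⟩
  obtain ⟨A, hA, hnb⟩ := exists_analytic_not_borel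
  obtain ⟨F, hF, hc, hiff⟩ := hardness i0 A hA
  apply hnb
  have e : A = F ⁻¹' B := by
    ext a
    rw [mem_preimage, h _ (hc a), hiff]
  rw [e]
  exact hF hB

/-- the covariances form a complete analytic set in the space of continuous functions -/
theorem complete_analytic {d : ℕ} (i0 : Fin d) :
    AnalyticSet {f : C(EuclideanSpace ℝ (Fin d), ℝ) | IsStationaryRCSCovariance f} ∧
    ¬ MeasurableSet[borel C(EuclideanSpace ℝ (Fin d), ℝ)]
      {f : C(EuclideanSpace ℝ (Fin d), ℝ) | IsStationaryRCSCovariance f} ∧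
    ∀ {α : Type*} [TopologicalSpace α] [PolishSpace α] (A : Set α), AnalyticSet A →
      ∃ F : α → C(EuclideanSpace ℝ (Fin d), ℝ), Measurable[borel α, borel _] F ∧
        A = F ⁻¹' {f : C(EuclideanSpace ℝ (Fin d), ℝ) | IsStationaryRCSCovariance f} := by
  refine ⟨class_analytic d, ?_, ?_⟩
  · intro hB
    obtain ⟨B', hB', h⟩ := exists_trace d _ hB
    exact not_borel i0 ⟨B', hB', fun S hS => h ⟨S, hS⟩⟩
  · intro α _ _ A hA
    borelize α
    obtain ⟨F, hF, hc, hiff⟩ := hardness i0 A hA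
    refine ⟨fun a => ⟨F a, hc a⟩, ?_, ?_⟩
    · intro B hB
      obtain ⟨B', hB', h⟩ := exists_trace d _ hB
      have e : (fun a => (⟨F a, hc a⟩ : C(EuclideanSpace ℝ (Fin d), ℝ))) ⁻¹' B = F ⁻¹' B' := by
        ext a
        rw [mem_preimage, mem_preimage]
        exact (h ⟨F a, hc a⟩).symm
      rw [e]
      exact hF hB'
    · ext a
      exact (hiff a).symm

end Pool.Agent.LibNB97
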