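import Pool.Agent.LibNB97.Win
import Pool.Agent.LibNB97.DClock

/-! # Orientation -/

open MeasureTheory Set Filter Topology
open scoped ENNReal

namespace Pool.Agent.LibNB97

variable {j : ℕ → ℕ} {nx : ℕ → Fin 2 → ℕ}

/-- interior regions -/
def inner (a : Fin 8) : Prop := a ≠ 0 ∧ a ≠ 7

/-- the point `x` lies in region `a` -/
def inB (a : Fin 8) (x : ℝ) : Prop := x - gp a ∈ Icc (0:ℝ) 1

/-- the point `x` lies in the mirror image of region `a` -/
def inM (a : Fin 8) (x : ℝ) : Prop := inB a (221 - x)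

section tasks

section NB97_ORI1

/-- task ORI1: the correlations of the design in some windows -/
theorem D_corr_zero (G : Geo j nx) (t : ℕ → Fin 2 → Bool) (k : ℤ) (s : ℝ)
    (h : ∀ a b, 1 ≤ |gp b - gp a - s|) : (Dsys G t).corr k s = 0 := by
  rw [Sys.corr_eq_integral]
  have hfin : (Set.range gp ∪ Set.range fun a => gp a + 1).Finite :=
    (Set.finite_range _).union (Set.finite_range _)
  have h0 : volume (Set.range gp ∪ Set.range fun a => gp a + 1) = 0 := hfin.measure_zero _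
  have h1 : ∀ᵐ y : ℝ, y ∉ (Set.range gp ∪ Set.range fun a => gp a + 1) :=
    measure_eq_zero_iff_ae_notMem.mp h0
  have h2 : ∀ᵐ y : ℝ, (Dsys G t).pp k y (y + s) = 0 := by
    filter_upwards [h1] with y hy
    have he : {ω | y ∈ (Dsys G t).K ω ∧ y + s ∈ (Dsys G t).K ((Dsys G t).T k ω)} = ∅ := by
      ext ω
      simp only [mem_ofPred_eq, mem_empty_iff_false, iff_false]
      rintro ⟨⟨a, ha⟩, ⟨b, hb⟩⟩
      have ha1 := FF_sub G t a ω ha
      have hb1 := FF_sub G t b _ hb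
      have hab := h a b
      have hy1 : y ≠ gp a := fun e => hy (Or.inl ⟨a, e.symm⟩)
      have hy2 : y ≠ gp a + 1 := fun e => hy (Or.inr ⟨a, e.symm⟩)
      have c1 : 0 < y - gp a := lt_of_le_of_ne ha1.1 (fun e => hy1 (by linarith))
      have c2 : y - gp a < 1 := lt_of_le_of_ne ha1.2 (fun e => hy2 (by linarith))
      have c3 := hb1.1
      have c4 := hb1.2
      have c5 : |gp b - gp a - s| < 1 := by
        rw [abs_lt]
        constructor <;> linarith
      linarith
    unfold Sys.pp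
    rw [he]
    simp
  have h3 : (fun y => (Dsys G t).pp k y (y + s)) =ᵐ[volume] fun _ => (0:ℝ) := h2
  rw [integral_congr_ae h3, integral_zero]

lemma ori1_w0 (k : ℤ) (ω : DΩ) : w0 (DT k ω) ↔ w0 ω := Iff.rfl

lemma ori1_reg1 (G : Geo j nx) (t : ℕ → Fin 2 → Bool) (ω : DΩ) (z : ℝ) :
    z ∈ (Dsys G t).reg 1 ω ↔ w0 ω ∧ z ∈ Icc (0:ℝ) 1 := by
  rw [reg_Dsys]
  change z ∈ (if w0 ω then Icc (0:ℝ) 1 else ∅) ↔ _
  by_cases hw : w0 ω <;> simp [hw]

lemma ori1_reg2 (G : Geo j nx) (t : ℕ → Fin 2 → Bool) (ω : DΩ) (z : ℝ) :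
    z ∈ (Dsys G t).reg 2 ω ↔ ¬ w0 ω ∧ z ∈ Icc (0:ℝ) 1 := by
  rw [reg_Dsys]
  change z ∈ (if w0 ω then ∅ else Icc (0:ℝ) 1) ↔ _
  by_cases hw : w0 ω <;> simp [hw]

lemma ori1_reg0 (G : Geo j nx) (t : ℕ → Fin 2 → Bool) (ω : DΩ) (z : ℝ) :
    z ∈ (Dsys G t).reg 0 ω ↔ z ∈ Icc (0:ℝ) 1 := by
  rw [reg_Dsys]
  exact Iff.rfl

lemma ori1_reg7 (G : Geo j nx) (t : ℕ → Fin 2 → Bool) (ω : DΩ) (z : ℝ) :
    z ∈ (Dsys G t).reg 7 ω ↔ z ∈ Icc (0:ℝ) 1 := by
  rw [reg_Dsys]
  exact Iff.rfl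

theorem D_corr_12 (G : Geo j nx) (t : ℕ → Fin 2 → Bool) (k : ℤ) (v : ℝ) (hv : |v| < 1) :
    (Dsys G t).corr k (gp 2 - gp 1 + v) = 0 ∧ (Dsys G t).corr k (-(gp 2 - gp 1) + v) = 0 := by
  have hT : (Dsys G t).T k = DT k := rfl
  constructor
  · rw [corr_window (Dsys G t) (isReg_Dsys G t) 1 2 (by decide) k v hv]
    unfold Sys.rc
    have : ∀ z, (Dsys G t).R 1 2 k z (z + v) = 0 := by
      intro z
      unfold Sys.R
      have he : {ω | z ∈ (Dsys G t).reg 1 ω ∧ z + v ∈ (Dsys G t).reg 2 ((Dsys G t).T k ω)} = ∅ := by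
        ext ω
        simp only [mem_ofPred_eq, mem_empty_iff_false, iff_false]
        rintro ⟨ha, hb⟩
        have h1 := ((ori1_reg1 G t ω z).mp ha).1
        have h2 := ((ori1_reg2 G t _ _).mp hb).1
        exact h2 ((ori1_w0 k ω).mpr h1)
      rw [he]
      simp
    simp [this]
  · have e : -(gp 2 - gp 1) + v = gp 1 - gp 2 + v := by ring
    rw [e, corr_window (Dsys G t) (isReg_Dsys G t) 2 1 (by decide) k v hv]
    unfold Sys.rc
    have : ∀ z, (Dsys G t).R 2 1 k z (z + v) = 0 := by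
      intro z
      unfold Sys.R
      have he : {ω | z ∈ (Dsys G t).reg 2 ω ∧ z + v ∈ (Dsys G t).reg 1 ((Dsys G t).T k ω)} = ∅ := by
        ext ω
        simp only [mem_ofPred_eq, mem_empty_iff_false, iff_false]
        rintro ⟨ha, hb⟩
        have h1 := ((ori1_reg2 G t ω z).mp ha).1
        have h2 := ((ori1_reg1 G t _ _).mp hb).1
        exact h1 ((ori1_w0 k ω).mp h2)
      rw [he]
      simp
    simp [this]

lemma ori1_integral (f : ℝ → ℝ) (c : ℝ) (h1 : ∀ z ∈ Icc (0:ℝ) 1, f z = c)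
    (h0 : ∀ z, z ∉ Icc (0:ℝ) 1 → f z = 0) : ∫ z, f z = c := by
  have e : f = (Icc (0:ℝ) 1).indicator fun _ => c := by
    funext z
    by_cases hz : z ∈ Icc (0:ℝ) 1
    · rw [indicator_of_mem hz, h1 z hz]
    · rw [indicator_of_notMem hz, h0 z hz]
  rw [e, integral_indicator measurableSet_Icc, setIntegral_const]
  simp

theorem D_corr_values (G : Geo j nx) (t : ℕ → Fin 2 → Bool) :
    (Dsys G t).corr 0 220 = 1 ∧ (Dsys G t).corr 0 (gp 1) = 1 / 4 ∧
      (Dsys G t).corr 0 (gp 2) = 3 / 4 := by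
  have g0 : gp 0 = 0 := rfl
  have g7 : gp 7 = 220 := rfl
  have hv : |(0:ℝ)| < 1 := by simp
  refine ⟨?_, ?_, ?_⟩
  · have e : (220:ℝ) = gp 7 - gp 0 + 0 := by rw [g0, g7]; ring
    rw [e, corr_window (Dsys G t) (isReg_Dsys G t) 0 7 (by decide) 0 0 hv]
    unfold Sys.rc
    apply ori1_integral
    · intro z hz
      unfold Sys.R
      have he : {ω | z ∈ (Dsys G t).reg 0 ω ∧ z + 0 ∈ (Dsys G t).reg 7 ((Dsys G t).T 0 ω)} =
          univ := by
        ext ω
        simp only [mem_ofPred_eq, mem_univ, iff_true]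
        exact ⟨(ori1_reg0 G t ω z).mpr hz, (ori1_reg7 G t _ _).mpr (by rw [add_zero]; exact hz)⟩
      rw [he]
      simp
    · intro z hz
      exact (Dsys G t).R_eq_zero 0 7 0 (Or.inl hz)
  · have e : gp 1 = gp 1 - gp 0 + 0 := by rw [g0]; ring
    rw [e, corr_window (Dsys G t) (isReg_Dsys G t) 0 1 (by decide) 0 0 hv]
    unfold Sys.rc
    apply ori1_integral
    · intro z hz
      unfold Sys.R
      have he : {ω | z ∈ (Dsys G t).reg 0 ω ∧ z + 0 ∈ (Dsys G t).reg 1 ((Dsys G t).T 0 ω)} =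
          {ω : DΩ | w0 ω} := by
        ext ω
        constructor
        · rintro ⟨_, hb⟩
          exact (ori1_w0 0 ω).mp ((ori1_reg1 G t _ _).mp hb).1
        · intro hω
          exact ⟨(ori1_reg0 G t ω z).mpr hz,
            (ori1_reg1 G t _ _).mpr ⟨(ori1_w0 0 ω).mpr hω, by rw [add_zero]; exact hz⟩⟩
      rw [he]
      exact D_w0
    · intro z hz
      exact (Dsys G t).R_eq_zero 0 1 0 (Or.inl hz)
  · have e : gp 2 = gp 2 - gp 0 + 0 := by rw [g0]; ring
    rw [e, corr_window (Dsys G t) (isReg_Dsys G t) 0 2 (by decide) 0 0 hv]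
    unfold Sys.rc
    apply ori1_integral
    · intro z hz
      unfold Sys.R
      have he : {ω | z ∈ (Dsys G t).reg 0 ω ∧ z + 0 ∈ (Dsys G t).reg 2 ((Dsys G t).T 0 ω)} =
          {ω : DΩ | w0 ω}ᶜ := by
        ext ω
        constructor
        · rintro ⟨_, hb⟩
          exact fun hω => ((ori1_reg2 G t _ _).mp hb).1 ((ori1_w0 0 ω).mpr hω)
        · intro hω
          exact ⟨(ori1_reg0 G t ω z).mpr hz,
            (ori1_reg2 G t _ _).mpr ⟨fun h => hω ((ori1_w0 0 ω).mp h),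
              by rw [add_zero]; exact hz⟩⟩
      rw [he]
      have h3 : Dμ.real {ω : DΩ | w0 ω}ᶜ = 3 / 4 := by
        rw [probReal_compl_eq_one_sub measurableSet_w0, D_w0]
        norm_num
      exact h3
    · intro z hz
      exact (Dsys G t).R_eq_zero 0 2 0 (Or.inl hz)

end NB97_ORI1



section NB97_ORI2

lemma ori2_integrable (S : Sys) (k : ℤ) (s : ℝ) : Integrable (fun y => S.pp k y (y + s)) := by
  have hm : Measurable fun y : ℝ => S.pp k y (y + s) :=
    (S.measurable_pp k).comp (measurable_id.prodMk (measurable_id.add_const s))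
  have hb : ∀ y : ℝ, S.pp k y (y + s) ≤ (Icc (0:ℝ) 221).indicator (fun _ => (1:ℝ)) y := by
    intro y
    by_cases hy : y ∈ Icc (0:ℝ) 221
    · rw [indicator_of_mem hy]
      exact measureReal_le_one
    · rw [indicator_of_notMem hy]
      have he : {ω | y ∈ S.K ω ∧ y + s ∈ S.K (S.T k ω)} = ∅ := by
        ext ω
        simp only [mem_ofPred_eq, mem_empty_iff_false, iff_false]
        rintro ⟨h1, _⟩
        exact hy (S.K_sub ω h1)
      unfold Sys.pp
      rw [he]
      simp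
  have hi : Integrable ((Icc (0:ℝ) 221).indicator (fun _ => (1:ℝ))) := by
    rw [integrable_indicator_iff measurableSet_Icc]
    exact integrableOn_const (C := (1:ℝ)) (by simp) (by simp)
  refine hi.mono' hm.aestronglyMeasurable (Eventually.of_forall fun y => ?_)
  rw [Real.norm_eq_abs, abs_of_nonneg (S.pp_nonneg k _ _)]
  exact hb y

lemma ori2_ae (S : Sys) (k : ℤ) (s : ℝ) (h : S.corr k s = 0) :
    ∀ᵐ y : ℝ, S.pp k y (y + s) = 0 := by
  rw [S.corr_eq_integral] at h
  have h1 := (integral_eq_zero_iff_of_nonneg (fun y => S.pp_nonneg k _ _)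
    (ori2_integrable S k s)).mp h
  exact h1

/-- task ORI2: zero correlations exclude pairs -/
theorem excl_of_zero (S : Sys) (k : ℤ) (U : Set ℝ) (hU : MeasurableSet U)
    (h : ∀ s ∈ U, S.corr k s = 0) :
    ∀ᵐ p : ℝ × ℝ, p.2 - p.1 ∈ U → S.pp k p.1 p.2 = 0 := by
  -- the same statement in the coordinates `(y, s)`
  have hm : MeasurableSet {q : ℝ × ℝ | q.1 ∈ U → S.pp k q.2 (q.2 + q.1) = 0} := by
    have m1 : MeasurableSet {q : ℝ × ℝ | q.1 ∈ U} := measurable_fst hU
    have m2 : MeasurableSet {q : ℝ × ℝ | S.pp k q.2 (q.2 + q.1) = 0} :=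
      ((S.measurable_pp k).comp (measurable_snd.prodMk (measurable_snd.add measurable_fst)))
        (measurableSet_singleton (0:ℝ))
    have e : {q : ℝ × ℝ | q.1 ∈ U → S.pp k q.2 (q.2 + q.1) = 0} =
        {q : ℝ × ℝ | q.1 ∈ U}ᶜ ∪ {q : ℝ × ℝ | S.pp k q.2 (q.2 + q.1) = 0} := by
      ext q
      simp only [mem_ofPred_eq, mem_union, mem_compl_iff]
      tauto
    rw [e]
    exact m1.compl.union m2
  have h1 : ∀ᵐ q : ℝ × ℝ, q.1 ∈ U → S.pp k q.2 (q.2 + q.1) = 0 := by
    refine (Measure.ae_prod_iff_ae_ae hm).mpr (Eventually.of_forall fun s => ?_)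
    by_cases hs : s ∈ U
    · filter_upwards [ori2_ae S k s (h s hs)] with y hy _
      exact hy
    · exact Eventually.of_forall fun y hh => absurd hh hs
  have mp1 : MeasurePreserving (fun z : ℝ × ℝ => (z.1, -z.1 + z.2))
      ((volume : Measure ℝ).prod volume) ((volume : Measure ℝ).prod volume) :=
    measurePreserving_prod_neg_add volume volume
  have mp2 : MeasurePreserving (Prod.swap : ℝ × ℝ → ℝ × ℝ)
      ((volume : Measure ℝ).prod volume) ((volume : Measure ℝ).prod volume) :=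
    Measure.measurePreserving_swap
  have mp3 := mp2.comp mp1
  have h2 := mp3.quasiMeasurePreserving.ae h1
  filter_upwards [h2] with p hp hpu
  simp only [Function.comp_apply, Prod.swap_prod_mk, Prod.fst, Prod.snd] at hp
  have e1 : -p.1 + p.2 = p.2 - p.1 := by ring
  have e2 : p.1 + (p.2 - p.1) = p.2 := by ring
  rw [e1, e2] at hp
  exact hp hpu

end NB97_ORI2

section NB97_ORI3

theorem ends (S : Sys) (h : S.corr 0 220 = 1) :
    ∀ᵐ x : ℝ, (inB 0 x ∨ inB 7 x) → ∀ᵐ ω ∂S.μ, x ∈ S.K ω := by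
  have hm : Measurable fun y : ℝ => S.pp 0 y (y + 220) :=
    (S.measurable_pp 0).comp (by fun_prop : Measurable fun y : ℝ => (y, y + 220))
  have hle : ∀ y, S.pp 0 y (y + 220) ≤ 1 := fun y => measureReal_le_one
  have hout : ∀ y, y ∉ Icc (0:ℝ) 1 → S.pp 0 y (y + 220) = 0 := by
    intro y hy
    unfold Sys.pp
    have e : {ω | y ∈ S.K ω ∧ y + 220 ∈ S.K (S.T 0 ω)} = ∅ := by
      ext ω
      simp only [mem_ofPred_eq, mem_empty_iff_false, iff_false, not_and]
      intro h1 h2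
      have h3 := S.K_sub _ h1
      have h4 := S.K_sub _ h2
      exact hy ⟨h3.1, by linarith [h4.2]⟩
    rw [e]
    simp
  have h1 : ∫ y in Icc (0:ℝ) 1, S.pp 0 y (y + 220) = 1 := by
    refine Eq.trans ?_ h
    rw [S.corr_eq_integral, ← integral_indicator measurableSet_Icc]
    congr 1
    funext y
    by_cases hy : y ∈ Icc (0:ℝ) 1
    · rw [indicator_of_mem hy]
    · rw [indicator_of_notMem hy, hout y hy]
  have hint2 : IntegrableOn (fun y : ℝ => S.pp 0 y (y + 220)) (Icc (0:ℝ) 1) := by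
    refine Measure.integrableOn_of_bounded (M := 1) (by simp) hm.aestronglyMeasurable
      (Eventually.of_forall fun z => ?_)
    rw [Real.norm_of_nonneg (S.pp_nonneg _ _ _)]
    exact hle z
  have hc : IntegrableOn (fun _ : ℝ => (1:ℝ)) (Icc (0:ℝ) 1) := integrableOn_const (by simp) (by simp)
  have h0 : ∫ y in Icc (0:ℝ) 1, (1 - S.pp 0 y (y + 220)) = 0 := by
    rw [integral_sub hc hint2, h1]
    simp
  have hint : IntegrableOn (fun y : ℝ => 1 - S.pp 0 y (y + 220)) (Icc (0:ℝ) 1) := hc.sub hint2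
  rw [setIntegral_eq_zero_iff_of_nonneg_ae (Eventually.of_forall fun z => by
    change (0:ℝ) ≤ 1 - S.pp 0 z (z + 220)
    linarith [hle z]) hint] at h0
  have h2 := (ae_restrict_iff' measurableSet_Icc).mp h0
  have key : ∀ᵐ y : ℝ, y ∈ Icc (0:ℝ) 1 → ∀ᵐ ω ∂S.μ, y ∈ S.K ω ∧ y + 220 ∈ S.K ω := by
    filter_upwards [h2] with y hy hy1
    have h3 : S.pp 0 y (y + 220) = 1 := by
      have := hy hy1
      simp only [Pi.zero_apply] at this
      linarith
    have hms : MeasurableSet {ω | y ∈ S.K ω ∧ y + 220 ∈ S.K (S.T 0 ω)} :=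
      (S.meas_K measurable_id measurable_const).inter (S.meas_K (S.T_meas 0) measurable_const)
    have h4 : S.μ {ω | y ∈ S.K ω ∧ y + 220 ∈ S.K (S.T 0 ω)} = 1 := by
      unfold Sys.pp at h3
      rw [measureReal_def] at h3
      exact (ENNReal.toReal_eq_one_iff _).mp h3
    have h5 := (prob_compl_eq_zero_iff hms).mpr h4
    rw [ae_iff]
    refine measure_mono_null ?_ h5
    intro ω hω
    simp only [mem_compl_iff, mem_ofPred_eq, S.T_zero] at hω ⊢
    exact hω
  have key2 : ∀ᵐ x : ℝ, x - 220 ∈ Icc (0:ℝ) 1 → ∀ᵐ ω ∂S.μ, x - 220 ∈ S.K ω ∧ x - 220 + 220 ∈ S.K ω :=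
    (measurePreserving_sub_right (volume : Measure ℝ) 220).quasiMeasurePreserving.ae key
  have g0 : gp 0 = 0 := by
    rw [gp_eq, show gz 0 = 0 by decide]
    norm_num
  have g7 : gp 7 = 220 := by
    rw [gp_eq, show gz 7 = 220 by decide]
    norm_num
  filter_upwards [key, key2] with x hx1 hx2 hx
  rcases hx with hx | hx
  · unfold inB at hx
    rw [g0, sub_zero] at hx
    filter_upwards [hx1 hx] with ω hω
    exact hω.1
  · unfold inB at hx
    rw [g7] at hx
    filter_upwards [hx2 hx] with ω hω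
    rw [sub_add_cancel] at hω
    exact hω.2

end NB97_ORI3

section NB97_ORI4

set_option maxRecDepth 100000 in
lemma ori4_dec1 : ∀ a b a' b' : Fin 8, gz b - gz a + (gz b' - gz a') = 220 →
    ∃ c, gz b - gz a = gz c ∨ gz b - gz a = 220 - gz c := by decide +kernel

set_option maxRecDepth 100000 in
lemma ori4_dec2 : ∀ a b a' b' : Fin 8, a ≠ 0 → a ≠ 7 → b ≠ 0 → b ≠ 7 →
    gz b' - gz a' + gz a + gz b ≠ 220 := by decide +kernel

lemma ori4_four (a : Fin 8) : ∃ m : ℤ, gz a = 4 * m := by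
  fin_cases a
  · exact ⟨0, rfl⟩
  · exact ⟨1, rfl⟩
  · exact ⟨17, rfl⟩
  · exact ⟨23, rfl⟩
  · exact ⟨41, rfl⟩
  · exact ⟨43, rfl⟩
  · exact ⟨51, rfl⟩
  · exact ⟨55, rfl⟩

/-- an integer multiple of `4` in the open interval `(-4, 4)` vanishes -/
lemma ori4_small (m : ℤ) (h1 : (-4 : ℝ) < ((4 * m : ℤ) : ℝ)) (h2 : ((4 * m : ℤ) : ℝ) < 4) :
    m = 0 := by
  have a1 : (-4 : ℤ) < 4 * m := by exact_mod_cast h1
  have a2 : 4 * m < (4 : ℤ) := by exact_mod_cast h2
  omega

/-- a window covering an interval of length one -/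
lemma ori4_window (c : ℝ) (σ : ℝ) (hσ : σ = 1 ∨ σ = -1)
    (h : ∀ᵐ x : ℝ, x ∈ Icc (0:ℝ) 1 → ∃ a b, |gp b - gp a - (c + σ * x)| < 1) :
    ∃ a b, ∀ x ∈ Icc (0:ℝ) 1, |gp b - gp a - (c + σ * x)| ≤ 1 := by
  -- points near the two ends
  have hd : ∀ ε : ℝ, 0 < ε → ∀ l : ℝ, 0 ≤ l → l + ε ≤ 1 →
      ∃ x ∈ Ioo l (l + ε), ∃ a b, |gp b - gp a - (c + σ * x)| < 1 := by
    intro ε hε l hl hl1
    by_contra hcon
    push Not at hcon
    have h1 : volume (Ioo l (l + ε)) = 0 := by
      refine measure_mono_null ?_ (ae_iff.mp h)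
      intro x hx
      simp only [mem_ofPred_eq]
      intro hh
      obtain ⟨a, b, hab⟩ := hh ⟨by have := hx.1; linarith, by have := hx.2; linarith⟩
      exact absurd hab (not_lt.mpr (hcon x hx a b))
    rw [Real.volume_Ioo] at h1
    have h2 : l + ε - l ≤ 0 := ENNReal.ofReal_eq_zero.mp h1
    linarith
  -- all windows agree
  have hsame : ∀ x ∈ Icc (0:ℝ) 1, ∀ x' ∈ Icc (0:ℝ) 1, ∀ a b a' b',
      |gp b - gp a - (c + σ * x)| < 1 → |gp b' - gp a' - (c + σ * x')| < 1 →
      gp b - gp a = gp b' - gp a' := by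
    intro x hx x' hx' a b a' b' h1 h2
    rw [abs_lt] at h1 h2
    obtain ⟨m1, e1⟩ := ori4_four a
    obtain ⟨m2, e2⟩ := ori4_four b
    obtain ⟨m3, e3⟩ := ori4_four a'
    obtain ⟨m4, e4⟩ := ori4_four b'
    have hx1 : |σ * x - σ * x'| ≤ 1 := by
      rw [abs_le]
      rcases hσ with e | e <;> rw [e] <;> constructor <;> nlinarith [hx.1, hx.2, hx'.1, hx'.2]
    rw [abs_le] at hx1
    have hm : m2 - m1 - (m4 - m3) = 0 := by
      apply ori4_small
      · have : ((4 * (m2 - m1 - (m4 - m3)) : ℤ) : ℝ) = (gp b - gp a) - (gp b' - gp a') := by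
          rw [gp_eq, gp_eq, gp_eq, gp_eq, e1, e2, e3, e4]
          push_cast
          ring
        rw [this]
        linarith [h1.1, h1.2, h2.1, h2.2, hx1.1, hx1.2]
      · have : ((4 * (m2 - m1 - (m4 - m3)) : ℤ) : ℝ) = (gp b - gp a) - (gp b' - gp a') := by
          rw [gp_eq, gp_eq, gp_eq, gp_eq, e1, e2, e3, e4]
          push_cast
          ring
        rw [this]
        linarith [h1.1, h1.2, h2.1, h2.2, hx1.1, hx1.2]
    rw [gp_eq, gp_eq, gp_eq, gp_eq, e1, e2, e3, e4]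
    have : m2 - m1 = m4 - m3 := by omega
    have h5 : (m2 : ℝ) - m1 = m4 - m3 := by exact_mod_cast this
    push_cast
    linarith
  obtain ⟨x0, hx0, a, b, hab⟩ := hd 1 one_pos 0 le_rfl (by norm_num)
  have hx0' : x0 ∈ Icc (0:ℝ) 1 := ⟨hx0.1.le, by have := hx0.2; linarith⟩
  -- the two ends
  have end0 : |gp b - gp a - (c + σ * 0)| ≤ 1 := by
    refine le_of_forall_pos_lt_add fun ε hε => ?_
    obtain ⟨x, hx, a', b', h'⟩ := hd (min ε 1) (lt_min hε one_pos) 0 le_rfl (by
      rw [zero_add]; exact min_le_right _ _)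
    have hx' : x ∈ Icc (0:ℝ) 1 := ⟨hx.1.le, by
      have := hx.2
      have := min_le_right ε 1
      linarith⟩
    have e := hsame x0 hx0' x hx' a b a' b' hab h'
    have hxe : x < ε := by
      have := hx.2
      have := min_le_left ε 1
      linarith
    rw [← e] at h'
    rw [abs_lt] at h' ⊢
    rcases hσ with hs | hs <;> rw [hs] at h' ⊢ <;> constructor <;> nlinarith [hx.1, h'.1, h'.2]
  have end1 : |gp b - gp a - (c + σ * 1)| ≤ 1 := by
    refine le_of_forall_pos_lt_add fun ε hε => ?_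
    have hmin : 0 < min ε 1 := lt_min hε one_pos
    have hmin1 : min ε 1 ≤ 1 := min_le_right _ _
    obtain ⟨x, hx, a', b', h'⟩ := hd (min ε 1) hmin (1 - min ε 1) (by linarith) (by linarith)
    have hx' : x ∈ Icc (0:ℝ) 1 := ⟨by have := hx.1; linarith, by have := hx.2; linarith⟩
    have e := hsame x0 hx0' x hx' a b a' b' hab h'
    have hxe : 1 - ε < x := by
      have := hx.1
      have := min_le_left ε 1
      linarith
    have hx1 : x ≤ 1 := hx'.2
    rw [← e] at h'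
    rw [abs_lt] at h' ⊢
    rcases hσ with hs | hs <;> rw [hs] at h' ⊢ <;> constructor <;> nlinarith [h'.1, h'.2]
  refine ⟨a, b, fun x hx => ?_⟩
  rw [abs_le] at end0 end1 ⊢
  rcases hσ with hs | hs <;> rw [hs] at end0 end1 ⊢ <;> constructor <;>
    nlinarith [end0.1, end0.2, end1.1, end1.2, hx.1, hx.2]

theorem ruler_support (y : ℝ) (hy : y ∈ Icc (0:ℝ) 221)
    (h1 : ∀ᵐ x : ℝ, x ∈ Icc (0:ℝ) 1 → ∃ a b, |gp b - gp a - (y - x)| < 1)
    (h2 : ∀ᵐ x : ℝ, x ∈ Icc (0:ℝ) 1 → ∃ a b, |gp b - gp a - (220 + x - y)| < 1) :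
    ∃ b, inB b y ∨ inM b y := by
  obtain ⟨a, b, hab⟩ := ori4_window y (-1) (Or.inr rfl) (by
    filter_upwards [h1] with x hx hxx
    obtain ⟨a, b, h⟩ := hx hxx
    refine ⟨a, b, ?_⟩
    have e : y + -1 * x = y - x := by ring
    rw [e]
    exact h)
  obtain ⟨a', b', hab'⟩ := ori4_window (220 - y) 1 (Or.inl rfl) (by
    filter_upwards [h2] with x hx hxx
    obtain ⟨a, b, h⟩ := hx hxx
    refine ⟨a, b, ?_⟩
    have e : 220 - y + 1 * x = 220 + x - y := by ring
    rw [e]
    exact h)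
  have p0 := hab 0 ⟨le_rfl, zero_le_one⟩
  have p1 := hab 1 ⟨zero_le_one, le_rfl⟩
  have q0 := hab' 0 ⟨le_rfl, zero_le_one⟩
  have q1 := hab' 1 ⟨zero_le_one, le_rfl⟩
  rw [abs_le] at p0 p1 q0 q1
  -- `y ∈ [d, d + 1]`, `221 - y ∈ [d', d' + 1]`
  obtain ⟨m1, e1⟩ := ori4_four a
  obtain ⟨m2, e2⟩ := ori4_four b
  obtain ⟨m3, e3⟩ := ori4_four a'
  obtain ⟨m4, e4⟩ := ori4_four b'
  have hm : m2 - m1 + (m4 - m3) - 55 = 0 := by
    have hh : ((4 * (m2 - m1 + (m4 - m3) - 55) : ℤ) : ℝ) =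
        (gp b - gp a) + (gp b' - gp a') - 220 := by
      rw [gp_eq, gp_eq, gp_eq, gp_eq, e1, e2, e3, e4]
      push_cast
      ring
    apply ori4_small
    · rw [hh]
      linarith [p0.1, p0.2, p1.1, p1.2, q0.1, q0.2, q1.1, q1.2]
    · rw [hh]
      linarith [p0.1, p0.2, p1.1, p1.2, q0.1, q0.2, q1.1, q1.2]
  have hz : gz b - gz a + (gz b' - gz a') = 220 := by
    rw [e1, e2, e3, e4]
    linarith
  obtain ⟨c, hc⟩ := ori4_dec1 a b a' b' hz
  have hz' : (gp b - gp a) + (gp b' - gp a') = 220 := by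
    rw [gp_eq, gp_eq, gp_eq, gp_eq]
    exact_mod_cast hz
  refine ⟨c, ?_⟩
  rcases hc with hc | hc
  · left
    have hc' : gp b - gp a = gp c := by
      rw [gp_eq, gp_eq, gp_eq]
      exact_mod_cast hc
    unfold inB
    constructor <;> linarith [p0.1, p0.2, p1.1, p1.2, q0.1, q0.2, q1.1, q1.2]
  · right
    have hc' : gp b - gp a = 220 - gp c := by
      rw [gp_eq, gp_eq, gp_eq]
      exact_mod_cast hc
    unfold inM inB
    constructor <;> linarith [p0.1, p0.2, p1.1, p1.2, q0.1, q0.2, q1.1, q1.2]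

theorem ruler_cross (a b : Fin 8) (ha : inner a) (hb : inner b) (x y : ℝ) (hx : inB a x)
    (hy : inM b y) : (∀ a' b', 1 ≤ |gp b' - gp a' - (y - x)|) ∧
      (∀ a' b', 1 ≤ |gp b' - gp a' - (x - y)|) := by
  have hx1 := hx.1
  have hx2 := hx.2
  have hy1 := hy.1
  have hy2 := hy.2
  obtain ⟨m1, e1⟩ := ori4_four a
  obtain ⟨m2, e2⟩ := ori4_four b
  have key : ∀ a' b' : Fin 8, 4 ≤ (gp b' - gp a' + gp a + gp b) - 220 ∨
      (gp b' - gp a' + gp a + gp b) - 220 ≤ -4 := by
    intro a' b'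
    have h0 := ori4_dec2 a b a' b' ha.1 ha.2 hb.1 hb.2
    obtain ⟨m3, e3⟩ := ori4_four a'
    obtain ⟨m4, e4⟩ := ori4_four b'
    have hne : m4 - m3 + m1 + m2 - 55 ≠ 0 := by
      intro h
      apply h0
      rw [e1, e2, e3, e4]
      linarith
    have hh : (gp b' - gp a' + gp a + gp b) - 220 =
        ((4 * (m4 - m3 + m1 + m2 - 55) : ℤ) : ℝ) := by
      rw [gp_eq, gp_eq, gp_eq, gp_eq, e1, e2, e3, e4]
      push_cast
      ring
    rw [hh]
    rcases lt_or_gt_of_ne hne with h | h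
    · right
      have : 4 * (m4 - m3 + m1 + m2 - 55) ≤ -4 := by omega
      exact_mod_cast this
    · left
      have : 4 ≤ 4 * (m4 - m3 + m1 + m2 - 55) := by omega
      exact_mod_cast this
  constructor
  · intro a' b'
    rcases key a' b' with h | h
    · rw [le_abs]
      left
      linarith
    · rw [le_abs]
      right
      linarith
  · intro a' b'
    rcases key b' a' with h | h
    · rw [le_abs]
      right
      linarith
    · rw [le_abs]
      left
      linarith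

end NB97_ORI4


section NB97_ORI5

/-- the set of differences outside all windows -/
def ori5_U : Set ℝ := {s | ∀ a b : Fin 8, 1 ≤ |gp b - gp a - s|}

lemma ori5_U_meas : MeasurableSet ori5_U := by
  have e : ori5_U = ⋂ a : Fin 8, ⋂ b : Fin 8, {s : ℝ | 1 ≤ |gp b - gp a - s|} := by
    ext s
    simp [ori5_U]
  rw [e]
  refine MeasurableSet.iInter fun a => MeasurableSet.iInter fun b => ?_
  exact (isClosed_le continuous_const (by fun_prop)).measurableSet

/-- the pairs in almost all sections -/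
lemma ori5_pairs (S : Sys) (k : ℤ) (hz : ∀ s, (∀ a b, 1 ≤ |gp b - gp a - s|) → S.corr k s = 0) :
    (∀ᵐ y : ℝ, ∀ᵐ x : ℝ, y - x ∈ ori5_U → S.pp k x y = 0) ∧
      (∀ᵐ y : ℝ, ∀ᵐ x : ℝ, x - y ∈ ori5_U → S.pp k y x = 0) := by
  have h := excl_of_zero S k ori5_U ori5_U_meas (fun s hs => hz s hs)
  constructor
  · have h2 : ∀ᵐ p : ℝ × ℝ, p.1 - p.2 ∈ ori5_U → S.pp k p.2 p.1 = 0 := by
      have hs := (Measure.measurePreserving_swap (μ := (volume : Measure ℝ))
        (ν := (volume : Measure ℝ))).quasiMeasurePreserving.ae h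
      exact hs
    exact Measure.ae_ae_of_ae_prod h2
  · exact Measure.ae_ae_of_ae_prod h

lemma ori5_zero_pp (S : Sys) (x y : ℝ) : S.pp 0 x y = S.μ.real {ω | x ∈ S.K ω ∧ y ∈ S.K ω} := by
  unfold Sys.pp
  congr 1
  ext ω
  simp only [mem_ofPred_eq]
  rw [S.T_zero]

lemma ori5_full_left (S : Sys) (x y : ℝ) (h : ∀ᵐ ω ∂S.μ, x ∈ S.K ω) :
    S.pp 0 x y = S.μ.real {ω | y ∈ S.K ω} := by
  rw [ori5_zero_pp]
  refine measureReal_congr ?_
  filter_upwards [h] with ω hω
  exact propext ⟨fun hh => hh.2, fun hh => ⟨hω, hh⟩⟩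

lemma ori5_full_right (S : Sys) (x y : ℝ) (h : ∀ᵐ ω ∂S.μ, y ∈ S.K ω) :
    S.pp 0 x y = S.μ.real {ω | x ∈ S.K ω} := by
  rw [ori5_zero_pp]
  refine measureReal_congr ?_
  filter_upwards [h] with ω hω
  exact propext ⟨fun hh => hh.1, fun hh => ⟨hh, hω⟩⟩

/-- task ORI5: the content lies in the regions or their mirror images -/
theorem support (S : Sys) (h220 : S.corr 0 220 = 1)
    (hz : ∀ s, (∀ a b, 1 ≤ |gp b - gp a - s|) → S.corr 0 s = 0) :
    ∀ᵐ y : ℝ, (∀ b, ¬ inB b y ∧ ¬ inM b y) → ∀ᵐ ω ∂S.μ, y ∉ S.K ω := by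
  obtain ⟨hp1, hp2⟩ := ori5_pairs S 0 hz
  have hends := ends S h220
  have hends2 : ∀ᵐ x : ℝ, (inB 0 (220 + x) ∨ inB 7 (220 + x)) → ∀ᵐ ω ∂S.μ, 220 + x ∈ S.K ω := by
    have hq := (measurePreserving_add_left (volume : Measure ℝ) 220).quasiMeasurePreserving
    exact hq.ae hends
  filter_upwards [hp1, hp2] with y h1 h2 hy
  by_contra hcon
  have hpos : S.μ.real {ω | y ∈ S.K ω} ≠ 0 := by
    intro h0
    apply hcon
    rw [ae_iff]
    simp only [not_not]
    exact (measureReal_eq_zero_iff (measure_ne_top _ _)).mp h0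
  have hy221 : y ∈ Icc (0:ℝ) 221 := by
    by_contra hh
    apply hcon
    exact Eventually.of_forall fun ω hω => hh (S.K_sub ω hω)
  obtain ⟨b, hb⟩ := ruler_support y hy221 (by
    filter_upwards [h1, hends] with x hx hx2 hx3
    by_contra hc
    push Not at hc
    have h5 := hx hc
    have h6 : inB 0 x := by
      have g0 : gp 0 = 0 := rfl
      unfold inB
      rw [g0, sub_zero]
      exact hx3
    rw [ori5_full_left S x y (hx2 (Or.inl h6))] at h5
    exact hpos h5) (by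
    have h2' : ∀ᵐ x : ℝ, 220 + x - y ∈ ori5_U → S.pp 0 y (220 + x) = 0 := by
      have hq := (measurePreserving_add_left (volume : Measure ℝ) 220).quasiMeasurePreserving
      exact hq.ae h2
    filter_upwards [h2', hends2] with x hx hx2 hx3
    by_contra hc
    push Not at hc
    have h5 := hx hc
    have h6 : inB 7 (220 + x) := by
      have g7 : gp 7 = 220 := rfl
      unfold inB
      rw [g7, add_sub_cancel_left]
      exact hx3
    rw [ori5_full_right S y (220 + x) (hx2 (Or.inr h6))] at h5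
    exact hpos h5)
  rcases hb with hb | hb
  · exact (hy b).1 hb
  · exact (hy b).2 hb

lemma ori5_gzdec : ∀ a a' : Fin 8, (gz a' - gz a = gz 1 → a = 0 ∧ a' = 1) ∧
    (gz a' - gz a = gz 2 → a = 0 ∧ a' = 2) := by decide +kernel

lemma ori5_four (a : Fin 8) : ∃ m : ℤ, gz a = 4 * m := by
  fin_cases a
  · exact ⟨0, rfl⟩
  · exact ⟨1, rfl⟩
  · exact ⟨17, rfl⟩
  · exact ⟨23, rfl⟩
  · exact ⟨41, rfl⟩
  · exact ⟨43, rfl⟩
  · exact ⟨51, rfl⟩
  · exact ⟨55, rfl⟩

lemma ori5_bounds (a : Fin 8) : 0 ≤ gp a ∧ gp a ≤ 220 := by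
  fin_cases a <;> norm_num [gp]

/-- two regions at distance `gp b` -/
lemma ori5_reg (b : Fin 8) (hb : b = 1 ∨ b = 2) (a a' : Fin 8) (y : ℝ) (h1 : inB a y)
    (h2 : inB a' (y + gp b)) : a = 0 ∧ a' = b := by
  have p1 := h1.1
  have p2 := h1.2
  have q1 := h2.1
  have q2 := h2.2
  obtain ⟨m1, e1⟩ := ori5_four a
  obtain ⟨m2, e2⟩ := ori5_four a'
  obtain ⟨m3, e3⟩ := ori5_four b
  have hh : ((4 * (m2 - m1 - m3) : ℤ) : ℝ) = gp a' - gp a - gp b := by
    rw [gp_eq, gp_eq, gp_eq, e1, e2, e3]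
    push_cast
    ring
  have h0 : gz a' - gz a = gz b := by
    have c1 : (-4 : ℝ) < ((4 * (m2 - m1 - m3) : ℤ) : ℝ) := by rw [hh]; linarith
    have c2 : ((4 * (m2 - m1 - m3) : ℤ) : ℝ) < 4 := by rw [hh]; linarith
    have c3 : (-4 : ℤ) < 4 * (m2 - m1 - m3) := by exact_mod_cast c1
    have c4 : 4 * (m2 - m1 - m3) < (4 : ℤ) := by exact_mod_cast c2
    rw [e1, e2, e3]
    omega
  rcases hb with rfl | rfl
  · exact (ori5_gzdec a a').1 h0
  · exact (ori5_gzdec a a').2 h0

/-- task ORI6: mass of the regions `1` and `2` with their mirror images -/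
theorem mass_ge (S : Sys) (h220 : S.corr 0 220 = 1)
    (hz : ∀ s, (∀ a b, 1 ≤ |gp b - gp a - s|) → S.corr 0 s = 0) (b : Fin 8)
    (hb : b = 1 ∨ b = 2) :
    S.corr 0 (gp b) ≤ ∫ z in Icc (0:ℝ) 1,
      (S.μ.real {ω | gp b + z ∈ S.K ω} + S.μ.real {ω | 221 - (gp b + z) ∈ S.K ω}) := by
  have g1 : gp 1 = 4 := rfl
  have g2 : gp 2 = 68 := rfl
  have hbpos : 4 ≤ gp b := by
    rcases hb with rfl | rfl
    · rw [g1]
    · rw [g2]
      norm_num
  have hble : gp b ≤ 68 := by
    rcases hb with rfl | rfl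
    · rw [g1]
      norm_num
    · rw [g2]
  set P : ℝ → ℝ := fun y => S.μ.real {ω | y ∈ S.K ω} with hP
  have hPm : Measurable P := by
    have h1 : Measurable fun y : ℝ => S.pp 0 y y :=
      (S.measurable_pp 0).comp (measurable_id.prodMk measurable_id)
    have h2 : P = fun y : ℝ => S.pp 0 y y := by
      funext y
      rw [ori5_zero_pp]
      simp only [and_self]
      rfl
    rw [h2]
    exact h1
  have hP0 : ∀ y, 0 ≤ P y := fun y => measureReal_nonneg
  have hP1 : ∀ y, P y ≤ 1 := fun y => measureReal_le_one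
  have hsupp := support S h220 hz
  have hsupp2 : ∀ᵐ y : ℝ, (∀ a, ¬ inB a (y + gp b) ∧ ¬ inM a (y + gp b)) →
      ∀ᵐ ω ∂S.μ, y + gp b ∉ S.K ω := by
    have hq := (measurePreserving_add_right (volume : Measure ℝ) (gp b)).quasiMeasurePreserving
    exact hq.ae hsupp
  -- pointwise bound
  set F1 : ℝ → ℝ := fun y => (Icc (0:ℝ) 1).indicator (fun z => P (gp b + z)) y with hF1
  set F2 : ℝ → ℝ := fun y => (Icc (0:ℝ) 1).indicator (fun z => P (221 - (gp b + z)))
    (221 - gp b - y) with hF2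
  have hbound : ∀ᵐ y : ℝ, S.pp 0 y (y + gp b) ≤ F1 y + F2 y := by
    filter_upwards [hsupp, hsupp2] with y h1 h2
    have hF1n : 0 ≤ F1 y := indicator_nonneg (fun z _ => hP0 _) _
    have hF2n : 0 ≤ F2 y := indicator_nonneg (fun z _ => hP0 _) _
    have hle1 : S.pp 0 y (y + gp b) ≤ P (gp b + y) := by
      rw [ori5_zero_pp, add_comm (gp b) y]
      exact measureReal_mono (fun ω hω => hω.2)
    have hle2 : S.pp 0 y (y + gp b) ≤ P y := by
      rw [ori5_zero_pp]
      exact measureReal_mono (fun ω hω => hω.1)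
    by_cases hzero : S.pp 0 y (y + gp b) = 0
    · rw [hzero]
      linarith
    have hy1 : ∃ a, inB a y ∨ inM a y := by
      by_contra hc
      push Not at hc
      have h3 := h1 hc
      apply hzero
      have h4 : P y = 0 := by
        have h5 : S.μ {ω | y ∈ S.K ω} = 0 := by
          have := ae_iff.mp h3
          simpa using this
        rw [hP]
        simp [measureReal_def, h5]
      exact le_antisymm (hle2.trans h4.le) (S.pp_nonneg _ _ _)
    have hy2 : ∃ a, inB a (y + gp b) ∨ inM a (y + gp b) := by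
      by_contra hc
      push Not at hc
      have h3 := h2 hc
      apply hzero
      have h4 : P (gp b + y) = 0 := by
        have h5 : S.μ {ω | y + gp b ∈ S.K ω} = 0 := by
          have := ae_iff.mp h3
          simpa using this
        rw [hP]
        rw [add_comm (gp b) y]
        simp [measureReal_def, h5]
      exact le_antisymm (hle1.trans h4.le) (S.pp_nonneg _ _ _)
    -- `y` lies in `[0, 1]` or `y + gp b` in `[220, 221]`
    have hcase : y ∈ Icc (0:ℝ) 1 ∨ 221 - gp b - y ∈ Icc (0:ℝ) 1 := by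
      obtain ⟨a, ha⟩ := hy1
      obtain ⟨a', ha'⟩ := hy2
      have g0 : gp 0 = 0 := rfl
      have g7 : gp 7 = 220 := rfl
      have ba := ori5_bounds a
      have ba' := ori5_bounds a'
      by_cases i1 : inner a
      swap
      · have h7 : a = 0 ∨ a = 7 := by
          by_contra hc
          push Not at hc
          exact i1 hc
        rcases h7 with rfl | rfl
        · rcases ha with ha | ha
          · left
            have := ha.1
            have := ha.2
            rw [g0] at *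
            constructor <;> linarith
          · exfalso
            have c1 := ha.1
            have c2 := ha.2
            rw [g0] at c1 c2
            rcases ha' with ha' | ha'
            · have := ha'.1
              have := ha'.2
              linarith
            · have := ha'.1
              have := ha'.2
              linarith
        · rcases ha with ha | ha
          · exfalso
            have c1 := ha.1
            have c2 := ha.2
            rw [g7] at c1 c2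
            rcases ha' with ha' | ha'
            · have := ha'.1
              have := ha'.2
              linarith
            · have := ha'.1
              have := ha'.2
              linarith
          · left
            have := ha.1
            have := ha.2
            rw [g7] at *
            constructor <;> linarith
      by_cases i2 : inner a'
      swap
      · have h7 : a' = 0 ∨ a' = 7 := by
          by_contra hc
          push Not at hc
          exact i2 hc
        rcases h7 with rfl | rfl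
        · rcases ha' with ha' | ha'
          · exfalso
            have c1 := ha'.1
            have c2 := ha'.2
            rw [g0] at c1 c2
            rcases ha with ha | ha
            · have := ha.1
              have := ha.2
              linarith
            · have := ha.1
              have := ha.2
              linarith
          · right
            have := ha'.1
            have := ha'.2
            rw [g0] at *
            constructor <;> linarith
        · rcases ha' with ha' | ha'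
          · right
            have := ha'.1
            have := ha'.2
            rw [g7] at *
            constructor <;> linarith
          · exfalso
            have c1 := ha'.1
            have c2 := ha'.2
            rw [g7] at c1 c2
            rcases ha with ha | ha
            · have := ha.1
              have := ha.2
              linarith
            · have := ha.1
              have := ha.2
              linarith
      rcases ha with ha | ha
      · rcases ha' with ha' | ha'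
        · obtain ⟨rfl, _⟩ := ori5_reg b hb a a' y ha ha'
          exact absurd rfl i1.1
        · exfalso
          have h5 := (ruler_cross a a' i1 i2 y (y + gp b) ha ha').1 0 b
          rw [g0] at h5
          have e : gp b - 0 - (y + gp b - y) = 0 := by ring
          rw [e, abs_zero] at h5
          linarith
      · rcases ha' with ha' | ha'
        · exfalso
          have h5 := (ruler_cross a' a i2 i1 (y + gp b) y ha' ha).2 0 b
          rw [g0] at h5
          have e : gp b - 0 - (y + gp b - y) = 0 := by ring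
          rw [e, abs_zero] at h5
          linarith
        · have ha2 : inB a' (221 - (y + gp b)) := ha'
          have ha3 : inB a ((221 - (y + gp b)) + gp b) := by
            have e : (221 - (y + gp b)) + gp b = 221 - y := by ring
            rw [e]
            exact ha
          obtain ⟨rfl, _⟩ := ori5_reg b hb a' a _ ha2 ha3
          exact absurd rfl i2.1
    rcases hcase with h | h
    · have e : F1 y = P (gp b + y) := indicator_of_mem h _
      rw [e]
      linarith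
    · have e : F2 y = P (221 - (gp b + (221 - gp b - y))) := indicator_of_mem h _
      have e2 : 221 - (gp b + (221 - gp b - y)) = y := by ring
      rw [e2] at e
      rw [e]
      linarith
  -- integrals
  have hG1i : Integrable ((Icc (0:ℝ) 1).indicator (fun z => P (gp b + z))) := by
    rw [integrable_indicator_iff measurableSet_Icc]
    refine Measure.integrableOn_of_bounded (M := 1) (by simp)
      (hPm.comp (measurable_const_add (gp b))).aestronglyMeasurable ?_
    exact Eventually.of_forall fun z => by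
      rw [Real.norm_eq_abs, abs_of_nonneg (hP0 _)]
      exact hP1 _
  have hG2i : Integrable ((Icc (0:ℝ) 1).indicator (fun z => P (221 - (gp b + z)))) := by
    rw [integrable_indicator_iff measurableSet_Icc]
    refine Measure.integrableOn_of_bounded (M := 1) (by simp)
      (hPm.comp (by fun_prop)).aestronglyMeasurable ?_
    exact Eventually.of_forall fun z => by
      rw [Real.norm_eq_abs, abs_of_nonneg (hP0 _)]
      exact hP1 _
  have hF2i : Integrable F2 := by
    exact hG2i.comp_sub_left (221 - gp b)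
  have hI2 : ∫ y, F2 y = ∫ z, (Icc (0:ℝ) 1).indicator (fun z => P (221 - (gp b + z))) z := by
    exact integral_sub_left_eq_self ((Icc (0:ℝ) 1).indicator (fun z => P (221 - (gp b + z))))
      volume (221 - gp b)
  have hsum : Integrable (fun y => F1 y + F2 y) := hG1i.add hF2i
  rw [S.corr_eq_integral]
  have hfin : ∫ y, S.pp 0 y (y + gp b) ≤ ∫ y, (F1 y + F2 y) :=
    integral_mono_of_nonneg (Eventually.of_forall fun y => S.pp_nonneg _ _ _) hsum hbound
  refine hfin.trans (le_of_eq ?_)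
  rw [integral_add hG1i hF2i, hI2, integral_indicator measurableSet_Icc,
    integral_indicator measurableSet_Icc, ← integral_add]
  · exact (integrable_indicator_iff measurableSet_Icc).mp hG1i
  · exact (integrable_indicator_iff measurableSet_Icc).mp hG2i

end NB97_ORI5


section NB97_ORI7

lemma ori7_zero_pp (S : Sys) (x y : ℝ) : S.pp 0 x y = S.μ.real {ω | x ∈ S.K ω ∧ y ∈ S.K ω} := by
  unfold Sys.pp
  congr 1
  ext ω
  simp only [mem_ofPred_eq]
  rw [S.T_zero]

/-- zero correlation at one difference -/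
lemma ori7_ae (S : Sys) (k : ℤ) (s : ℝ) (h : S.corr k s = 0) :
    ∀ᵐ y : ℝ, S.pp k y (y + s) = 0 := by
  have hm : Measurable fun y : ℝ => S.pp k y (y + s) :=
    (S.measurable_pp k).comp (measurable_id.prodMk (measurable_id.add_const s))
  have hb : ∀ y : ℝ, S.pp k y (y + s) ≤ (Icc (0:ℝ) 221).indicator (fun _ => (1:ℝ)) y := by
    intro y
    by_cases hy : y ∈ Icc (0:ℝ) 221
    · rw [indicator_of_mem hy]
      exact measureReal_le_one
    · rw [indicator_of_notMem hy]
      have he : {ω | y ∈ S.K ω ∧ y + s ∈ S.K (S.T k ω)} = ∅ := by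
        ext ω
        simp only [mem_ofPred_eq, mem_empty_iff_false, iff_false]
        rintro ⟨h1, _⟩
        exact hy (S.K_sub ω h1)
      unfold Sys.pp
      rw [he]
      simp
  have hi : Integrable ((Icc (0:ℝ) 221).indicator (fun _ => (1:ℝ))) := by
    rw [integrable_indicator_iff measurableSet_Icc]
    exact integrableOn_const (C := (1:ℝ)) (by simp) (by simp)
  have hint : Integrable (fun y => S.pp k y (y + s)) := by
    refine hi.mono' hm.aestronglyMeasurable (Eventually.of_forall fun y => ?_)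
    rw [Real.norm_eq_abs, abs_of_nonneg (S.pp_nonneg k _ _)]
    exact hb y
  rw [S.corr_eq_integral] at h
  exact (integral_eq_zero_iff_of_nonneg (fun y => S.pp_nonneg k _ _) hint).mp h

/-- the set of differences outside all windows -/
def ori7_U : Set ℝ := {s | ∀ a b : Fin 8, 1 ≤ |gp b - gp a - s|}

lemma ori7_U_meas : MeasurableSet ori7_U := by
  have e : ori7_U = ⋂ a : Fin 8, ⋂ b : Fin 8, {s : ℝ | 1 ≤ |gp b - gp a - s|} := by
    ext s
    simp [ori7_U]
  rw [e]
  refine MeasurableSet.iInter fun a => MeasurableSet.iInter fun b => ?_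
  exact (isClosed_le continuous_const (by fun_prop)).measurableSet

/-- the union of four pairwise almost disjoint events -/
lemma ori7_union {Ω : Type} [MeasurableSpace Ω] (μ : Measure Ω) [IsProbabilityMeasure μ]
    {A B C D : Set Ω} (hB : MeasurableSet B) (hC : MeasurableSet C)
    (hD : MeasurableSet D) (hAB : μ.real (A ∩ B) = 0) (hCD : μ.real (C ∩ D) = 0)
    (hAC : μ.real (A ∩ C) = 0) (hAD : μ.real (A ∩ D) = 0) (hBC : μ.real (B ∩ C) = 0)
    (hBD : μ.real (B ∩ D) = 0) :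
    μ.real (A ∪ B ∪ (C ∪ D)) = μ.real A + μ.real B + (μ.real C + μ.real D) := by
  have z : ∀ {s : Set Ω}, μ.real s = 0 → μ s = 0 := fun h =>
    (measureReal_eq_zero_iff (measure_ne_top _ _)).mp h
  have hd : AEDisjoint μ (A ∪ B) (C ∪ D) := by
    rw [AEDisjoint.union_left_iff, AEDisjoint.union_right_iff, AEDisjoint.union_right_iff]
    exact ⟨⟨z hAC, z hAD⟩, ⟨z hBC, z hBD⟩⟩
  rw [measureReal_union₀ (hC.union hD).nullMeasurableSet hd,
    measureReal_union₀ hB.nullMeasurableSet (z hAB),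
    measureReal_union₀ hD.nullMeasurableSet (z hCD)]

lemma ori7_zero {Ω : Type} [MeasurableSpace Ω] (μ : Measure Ω) {A B : Set Ω}
    (h : μ.real (A ∩ B) = 0) : μ.real (B ∩ A) = 0 := by
  rw [inter_comm]
  exact h

/-- task ORI7: four generic points -/
theorem four_points (S : Sys) (h220 : S.corr 0 220 = 1)
    (hz : ∀ k s, (∀ a b, 1 ≤ |gp b - gp a - s|) → S.corr k s = 0)
    (h12 : ∀ k v, |v| < 1 → S.corr k (gp 2 - gp 1 + v) = 0 ∧ S.corr k (-(gp 2 - gp 1) + v) = 0)
    (hv1 : S.corr 0 (gp 1) = 1 / 4) (hv2 : S.corr 0 (gp 2) = 3 / 4) :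
    ∃ x1 x2 y1 y2 : ℝ, inB 1 x1 ∧ inB 2 x2 ∧ inM 1 y1 ∧ inM 2 y2 ∧
      (∀ᵐ ω ∂S.μ, x1 ∈ S.K ω ∨ x2 ∈ S.K ω ∨ y1 ∈ S.K ω ∨ y2 ∈ S.K ω) ∧
      (∀ k, S.pp k x1 y1 = 0 ∧ S.pp k x1 y2 = 0 ∧ S.pp k x2 y1 = 0 ∧ S.pp k x2 y2 = 0) ∧
      (∀ᵐ y : ℝ, (∃ b, inner b ∧ inM b y) → S.pp 0 x1 y = 0 ∧ S.pp 0 x2 y = 0) ∧
      (∀ᵐ x : ℝ, (∃ b, inner b ∧ inB b x) → S.pp 0 x y1 = 0 ∧ S.pp 0 x y2 = 0) := by
  have i1 : inner 1 := ⟨by decide, by decide⟩
  have i2 : inner 2 := ⟨by decide, by decide⟩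
  set ν : Measure ℝ := volume.restrict (Icc (0:ℝ) 1) with hν
  have hνp : IsProbabilityMeasure ν := ⟨by rw [hν]; simp⟩
  -- quasi measure preserving maps
  have ma : ∀ i : Fin 8, MeasurePreserving (fun z : ℝ => gp i + z) volume volume :=
    fun i => measurePreserving_add_left (volume : Measure ℝ) (gp i)
  have mb : ∀ i : Fin 8, MeasurePreserving (fun w : ℝ => 221 - (gp i + w)) volume volume := by
    intro i
    have h1 := Measure.measurePreserving_sub_left (volume : Measure ℝ) (221 - gp i)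
    have e : (fun w : ℝ => 221 - gp i - w) = fun w : ℝ => 221 - (gp i + w) := by
      funext w
      ring
    rw [← e]
    exact h1
  have qa : ∀ i : Fin 8, Measure.QuasiMeasurePreserving (fun z : ℝ => gp i + z) volume volume :=
    fun i => (ma i).quasiMeasurePreserving
  have qb : ∀ i : Fin 8, Measure.QuasiMeasurePreserving (fun w : ℝ => 221 - (gp i + w))
      volume volume := fun i => (mb i).quasiMeasurePreserving
  have hac : ν.prod ν ≪ (volume : Measure (ℝ × ℝ)) := by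
    have h1 : ν ≪ (volume : Measure ℝ) := Measure.absolutelyContinuous_of_le Measure.restrict_le_self
    exact h1.prod h1
  have hac1 : ν ≪ (volume : Measure ℝ) :=
    Measure.absolutelyContinuous_of_le Measure.restrict_le_self
  -- pairs outside the windows
  have hE : ∀ᵐ p : ℝ × ℝ, ∀ k : ℤ, p.2 - p.1 ∈ ori7_U → S.pp k p.1 p.2 = 0 :=
    ae_all_iff.mpr fun k => excl_of_zero S k ori7_U ori7_U_meas (fun s hs => hz k s hs)
  have hEij : ∀ i i' : Fin 8, ∀ᵐ p : ℝ × ℝ ∂(ν.prod ν), ∀ k : ℤ,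
      (221 - (gp i' + p.2)) - (gp i + p.1) ∈ ori7_U →
        S.pp k (gp i + p.1) (221 - (gp i' + p.2)) = 0 := by
    intro i i'
    have h1 : Measure.QuasiMeasurePreserving
        (fun p : ℝ × ℝ => (gp i + p.1, 221 - (gp i' + p.2))) volume volume :=
      ((ma i).prod (mb i')).quasiMeasurePreserving
    exact hac (h1.ae hE)
  have hE0 := excl_of_zero S 0 ori7_U ori7_U_meas (fun s hs => hz 0 s hs)
  have hF1 : ∀ᵐ x : ℝ, ∀ᵐ y : ℝ, y - x ∈ ori7_U → S.pp 0 x y = 0 :=
    Measure.ae_ae_of_ae_prod hE0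
  have hF2 : ∀ᵐ y : ℝ, ∀ᵐ x : ℝ, y - x ∈ ori7_U → S.pp 0 x y = 0 := by
    have h2 : ∀ᵐ p : ℝ × ℝ, p.1 - p.2 ∈ ori7_U → S.pp 0 p.2 p.1 = 0 := by
      have hs := (Measure.measurePreserving_swap (μ := (volume : Measure ℝ))
        (ν := (volume : Measure ℝ))).quasiMeasurePreserving.ae hE0
      exact hs
    exact Measure.ae_ae_of_ae_prod h2
  have hG : ∀ᵐ x : ℝ, S.pp 0 x (x + (gp 2 - gp 1)) = 0 := by
    have h1 := (h12 0 0 (by simp)).1
    rw [add_zero] at h1
    exact ori7_ae S 0 _ h1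
  -- transfer to the square
  have lift1 : ∀ {Q : ℝ → Prop}, (∀ᵐ z : ℝ, Q z) → ∀ᵐ p : ℝ × ℝ ∂(ν.prod ν), Q p.1 := by
    intro Q hQ
    exact Measure.quasiMeasurePreserving_fst.ae (hac1 hQ)
  have lift2 : ∀ {Q : ℝ → Prop}, (∀ᵐ z : ℝ, Q z) → ∀ᵐ p : ℝ × ℝ ∂(ν.prod ν), Q p.2 := by
    intro Q hQ
    exact Measure.quasiMeasurePreserving_snd.ae (hac1 hQ)
  have hsq : ∀ᵐ p : ℝ × ℝ ∂(ν.prod ν), p.1 ∈ Icc (0:ℝ) 1 ∧ p.2 ∈ Icc (0:ℝ) 1 := by
    have h0 : ∀ᵐ z ∂ν, z ∈ Icc (0:ℝ) 1 := ae_restrict_mem measurableSet_Icc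
    have h1 : ∀ᵐ p : ℝ × ℝ ∂(ν.prod ν), p.1 ∈ Icc (0:ℝ) 1 :=
      Measure.quasiMeasurePreserving_fst.ae h0
    have h2 : ∀ᵐ p : ℝ × ℝ ∂(ν.prod ν), p.2 ∈ Icc (0:ℝ) 1 :=
      Measure.quasiMeasurePreserving_snd.ae h0
    exact h1.and h2
  -- probabilities of the points
  set P : ℝ → ℝ := fun y => S.μ.real {ω | y ∈ S.K ω} with hP
  have hPm : Measurable P := by
    have h1 : Measurable fun y : ℝ => S.pp 0 y y :=
      (S.measurable_pp 0).comp (measurable_id.prodMk measurable_id)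
    have h2 : P = fun y : ℝ => S.pp 0 y y := by
      funext y
      rw [ori7_zero_pp]
      simp only [and_self]
      rfl
    rw [h2]
    exact h1
  have hPint : ∀ g : ℝ → ℝ, Measurable g → Integrable (fun z => P (g z)) ν := by
    intro g hg
    refine Integrable.of_bound (hPm.comp hg).aestronglyMeasurable 1 (Eventually.of_forall ?_)
    intro z
    rw [Real.norm_eq_abs, abs_of_nonneg measureReal_nonneg]
    exact measureReal_le_one
  have ia : ∀ i : Fin 8, Integrable (fun z => P (gp i + z)) ν := fun i =>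
    hPint _ (by fun_prop)
  have ib : ∀ i : Fin 8, Integrable (fun z => P (221 - (gp i + z))) ν := fun i =>
    hPint _ (by fun_prop)
  have hKm : ∀ x : ℝ, MeasurableSet {ω | x ∈ S.K ω} := fun x =>
    S.meas_K measurable_id measurable_const
  have m1 := mass_ge S h220 (hz 0) 1 (Or.inl rfl)
  have m2 := mass_ge S h220 (hz 0) 2 (Or.inr rfl)
  rw [hv1] at m1
  rw [hv2] at m2
  have m1' : (1:ℝ) / 4 ≤ ∫ z, P (gp 1 + z) ∂ν + ∫ z, P (221 - (gp 1 + z)) ∂ν := by
    rw [← integral_add (ia 1) (ib 1)]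
    exact m1
  have m2' : (3:ℝ) / 4 ≤ ∫ z, P (gp 2 + z) ∂ν + ∫ z, P (221 - (gp 2 + z)) ∂ν := by
    rw [← integral_add (ia 2) (ib 2)]
    exact m2
  set f : ℝ → ℝ := fun z => P (gp 1 + z) + P (gp 2 + z) with hf
  set g : ℝ → ℝ := fun z => P (221 - (gp 1 + z)) + P (221 - (gp 2 + z)) with hg
  have hfi : Integrable f ν := (ia 1).add (ia 2)
  have hgi : Integrable g ν := (ib 1).add (ib 2)
  have hfg : 1 ≤ ∫ z, f z ∂ν + ∫ z, g z ∂ν := by
    have e1 : ∫ z, f z ∂ν = ∫ z, P (gp 1 + z) ∂ν + ∫ z, P (gp 2 + z) ∂ν :=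
      integral_add (ia 1) (ia 2)
    have e2 : ∫ z, g z ∂ν = ∫ z, P (221 - (gp 1 + z)) ∂ν + ∫ z, P (221 - (gp 2 + z)) ∂ν :=
      integral_add (ib 1) (ib 2)
    rw [e1, e2]
    linarith
  -- exclusivity
  have hexcl : ∀ᵐ p : ℝ × ℝ ∂(ν.prod ν),
      S.μ.real ({ω | gp 1 + p.1 ∈ S.K ω} ∪ {ω | gp 2 + p.1 ∈ S.K ω} ∪
        ({ω | 221 - (gp 1 + p.2) ∈ S.K ω} ∪ {ω | 221 - (gp 2 + p.2) ∈ S.K ω})) =
        f p.1 + g p.2 := by
    filter_upwards [hEij 1 1, hEij 1 2, hEij 2 1, hEij 2 2, lift1 ((qa 1).ae hG),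
      lift2 ((qb 2).ae hG), hsq] with p e11 e12 e21 e22 g1 g2 hp
    have bx1 : inB 1 (gp 1 + p.1) := by
      unfold inB
      rw [add_sub_cancel_left]
      exact hp.1
    have bx2 : inB 2 (gp 2 + p.1) := by
      unfold inB
      rw [add_sub_cancel_left]
      exact hp.1
    have by1 : inM 1 (221 - (gp 1 + p.2)) := by
      unfold inM inB
      rw [sub_sub_cancel, add_sub_cancel_left]
      exact hp.2
    have by2 : inM 2 (221 - (gp 2 + p.2)) := by
      unfold inM inB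
      rw [sub_sub_cancel, add_sub_cancel_left]
      exact hp.2
    have c11 := e11 0 (fun a' b' => (ruler_cross 1 1 i1 i1 _ _ bx1 by1).1 a' b')
    have c12 := e12 0 (fun a' b' => (ruler_cross 1 2 i1 i2 _ _ bx1 by2).1 a' b')
    have c21 := e21 0 (fun a' b' => (ruler_cross 2 1 i2 i1 _ _ bx2 by1).1 a' b')
    have c22 := e22 0 (fun a' b' => (ruler_cross 2 2 i2 i2 _ _ bx2 by2).1 a' b')
    have d1 : S.pp 0 (gp 1 + p.1) (gp 2 + p.1) = 0 := by
      have e : gp 1 + p.1 + (gp 2 - gp 1) = gp 2 + p.1 := by ring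
      rw [e] at g1
      exact g1
    have d2 : S.pp 0 (221 - (gp 2 + p.2)) (221 - (gp 1 + p.2)) = 0 := by
      have e : 221 - (gp 2 + p.2) + (gp 2 - gp 1) = 221 - (gp 1 + p.2) := by ring
      rw [e] at g2
      exact g2
    rw [ori7_zero_pp] at c11 c12 c21 c22 d1 d2
    exact ori7_union S.μ (hKm _) (hKm _) (hKm _) d1 (ori7_zero S.μ d2) c11 c12 c21 c22
  -- equality almost everywhere
  have hle : ∀ᵐ p : ℝ × ℝ ∂(ν.prod ν), 0 ≤ 1 - (f p.1 + g p.2) := by
    filter_upwards [hexcl] with p hp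
    rw [← hp]
    have : S.μ.real ({ω | gp 1 + p.1 ∈ S.K ω} ∪ {ω | gp 2 + p.1 ∈ S.K ω} ∪
        ({ω | 221 - (gp 1 + p.2) ∈ S.K ω} ∪ {ω | 221 - (gp 2 + p.2) ∈ S.K ω})) ≤ 1 :=
      measureReal_le_one
    linarith
  have hf2 : Integrable (fun p : ℝ × ℝ => f p.1) (ν.prod ν) := hfi.comp_fst ν
  have hg2 : Integrable (fun p : ℝ × ℝ => g p.2) (ν.prod ν) := hgi.comp_snd ν
  have hint : Integrable (fun p : ℝ × ℝ => 1 - (f p.1 + g p.2)) (ν.prod ν) :=
    (integrable_const 1).sub (hf2.add hg2)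
  have hfg2 : Integrable (fun p : ℝ × ℝ => f p.1 + g p.2) (ν.prod ν) := hf2.add hg2
  have hval : ∫ p : ℝ × ℝ, (1 - (f p.1 + g p.2)) ∂(ν.prod ν) =
      1 - (∫ z, f z ∂ν + ∫ z, g z ∂ν) := by
    rw [integral_sub (integrable_const 1) hfg2, integral_add hf2 hg2]
    have e1 : ∫ p : ℝ × ℝ, f p.1 ∂(ν.prod ν) = ∫ z, f z ∂ν := by
      rw [integral_fun_fst]
      simp
    have e2 : ∫ p : ℝ × ℝ, g p.2 ∂(ν.prod ν) = ∫ z, g z ∂ν := by
      rw [integral_fun_snd]
      simp
    rw [e1, e2]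
    simp
  have hzero : ∫ p : ℝ × ℝ, (1 - (f p.1 + g p.2)) ∂(ν.prod ν) = 0 := by
    apply le_antisymm
    · rw [hval]
      linarith
    · exact integral_nonneg_of_ae hle
  have heq : ∀ᵐ p : ℝ × ℝ ∂(ν.prod ν), 1 - (f p.1 + g p.2) = 0 :=
    (integral_eq_zero_iff_of_nonneg_ae hle hint).mp hzero
  -- choose a generic point
  have hall := (((((((hEij 1 1).and (hEij 1 2)).and (hEij 2 1)).and (hEij 2 2)).and
    ((lift1 ((qa 1).ae hF1)).and (lift1 ((qa 2).ae hF1)))).and
    ((lift2 ((qb 1).ae hF2)).and (lift2 ((qb 2).ae hF2)))).and (hsq.and (hexcl.and heq)))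
  have hne : (ae (ν.prod ν)).NeBot := inferInstance
  obtain ⟨p, ⟨⟨⟨⟨⟨e11, e12⟩, e21⟩, e22⟩, f1, f2⟩, l1, l2⟩, hp, hu, hone⟩ := hall.exists
  have bx1 : inB 1 (gp 1 + p.1) := by
    unfold inB
    rw [add_sub_cancel_left]
    exact hp.1
  have bx2 : inB 2 (gp 2 + p.1) := by
    unfold inB
    rw [add_sub_cancel_left]
    exact hp.1
  have by1 : inM 1 (221 - (gp 1 + p.2)) := by
    unfold inM inB
    rw [sub_sub_cancel, add_sub_cancel_left]
    exact hp.2
  have by2 : inM 2 (221 - (gp 2 + p.2)) := by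
    unfold inM inB
    rw [sub_sub_cancel, add_sub_cancel_left]
    exact hp.2
  refine ⟨gp 1 + p.1, gp 2 + p.1, 221 - (gp 1 + p.2), 221 - (gp 2 + p.2), bx1, bx2, by1, by2,
    ?_, ?_, ?_, ?_⟩
  · have h1 : S.μ.real ({ω | gp 1 + p.1 ∈ S.K ω} ∪ {ω | gp 2 + p.1 ∈ S.K ω} ∪
        ({ω | 221 - (gp 1 + p.2) ∈ S.K ω} ∪ {ω | 221 - (gp 2 + p.2) ∈ S.K ω})) = 1 := by
      rw [hu]
      linarith
    have hm : MeasurableSet ({ω | gp 1 + p.1 ∈ S.K ω} ∪ {ω | gp 2 + p.1 ∈ S.K ω} ∪
        ({ω | 221 - (gp 1 + p.2) ∈ S.K ω} ∪ {ω | 221 - (gp 2 + p.2) ∈ S.K ω})) :=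
      ((hKm _).union (hKm _)).union ((hKm _).union (hKm _))
    have h2 : S.μ.real ({ω | gp 1 + p.1 ∈ S.K ω} ∪ {ω | gp 2 + p.1 ∈ S.K ω} ∪
        ({ω | 221 - (gp 1 + p.2) ∈ S.K ω} ∪ {ω | 221 - (gp 2 + p.2) ∈ S.K ω}))ᶜ = 0 := by
      rw [probReal_compl_eq_one_sub hm, h1, sub_self]
    have h3 := (measureReal_eq_zero_iff (measure_ne_top _ _)).mp h2
    have h4 := measure_eq_zero_iff_ae_notMem.mp h3
    filter_upwards [h4] with ω hω
    have h5 := not_not.mp hω
    rcases h5 with (h5 | h5) | (h5 | h5)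
    · exact Or.inl h5
    · exact Or.inr (Or.inl h5)
    · exact Or.inr (Or.inr (Or.inl h5))
    · exact Or.inr (Or.inr (Or.inr h5))
  · intro k
    exact ⟨e11 k (fun a' b' => (ruler_cross 1 1 i1 i1 _ _ bx1 by1).1 a' b'),
      e12 k (fun a' b' => (ruler_cross 1 2 i1 i2 _ _ bx1 by2).1 a' b'),
      e21 k (fun a' b' => (ruler_cross 2 1 i2 i1 _ _ bx2 by1).1 a' b'),
      e22 k (fun a' b' => (ruler_cross 2 2 i2 i2 _ _ bx2 by2).1 a' b')⟩
  · filter_upwards [f1, f2] with y h1 h2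
    rintro ⟨b, hb, hby⟩
    exact ⟨h1 (fun a' b' => (ruler_cross 1 b i1 hb _ _ bx1 hby).1 a' b'),
      h2 (fun a' b' => (ruler_cross 2 b i2 hb _ _ bx2 hby).1 a' b')⟩
  · filter_upwards [l1, l2] with x h1 h2
    rintro ⟨b, hb, hbx⟩
    exact ⟨h1 (fun a' b' => (ruler_cross b 1 hb i1 _ _ hbx by1).1 a' b'),
      h2 (fun a' b' => (ruler_cross b 2 hb i2 _ _ hbx by2).1 a' b')⟩

end NB97_ORI7

section NB97_ORI8

open scoped Classical in
/-- gluing two measure preserving maps along an invariant set -/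
lemma ori8_glue {X : Type} [MeasurableSpace X] (μ : Measure X) {A : Set X} (hA : MeasurableSet A)
    {f g : X → X} (hf : MeasurePreserving f μ μ) (hg : MeasurePreserving g μ μ)
    (hfA : ∀ x, f x ∈ A ↔ x ∈ A) (hgA : ∀ x, g x ∈ A ↔ x ∈ A) :
    MeasurePreserving (fun x => if x ∈ A then f x else g x) μ μ := by
  have hm : Measurable (fun x => if x ∈ A then f x else g x) :=
    Measurable.ite hA hf.measurable hg.measurable
  refine ⟨hm, ?_⟩
  ext B hB
  rw [Measure.map_apply hm hB]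
  have e1 : (fun x => if x ∈ A then f x else g x) ⁻¹' B ∩ A = f ⁻¹' (B ∩ A) := by
    ext x
    simp only [mem_inter_iff, mem_preimage]
    constructor
    · rintro ⟨h1, h2⟩
      rw [if_pos h2] at h1
      exact ⟨h1, (hfA x).mpr h2⟩
    · rintro ⟨h1, h2⟩
      have h3 := (hfA x).mp h2
      rw [if_pos h3]
      exact ⟨h1, h3⟩
  have e2 : (fun x => if x ∈ A then f x else g x) ⁻¹' B \ A = g ⁻¹' (B \ A) := by
    ext x
    simp only [Set.mem_sdiff, mem_preimage]
    constructor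
    · rintro ⟨h1, h2⟩
      rw [if_neg h2] at h1
      exact ⟨h1, fun h => h2 ((hgA x).mp h)⟩
    · rintro ⟨h1, h2⟩
      have h3 : x ∉ A := fun h => h2 ((hgA x).mpr h)
      rw [if_neg h3]
      exact ⟨h1, h3⟩
  rw [← measure_inter_add_sdiff _ hA, e1, e2,
    hf.measure_preimage (hB.inter hA).nullMeasurableSet,
    hg.measure_preimage (hB.diff hA).nullMeasurableSet, measure_inter_add_sdiff _ hA]

open scoped Classical in
/-- task ORI8: reversing the orientation outside an invariant event -/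
theorem exists_flip (S : Sys) (A : Set S.Ω) (hA : MeasurableSet A)
    (hT : ∀ k ω, S.T k ω ∈ A ↔ ω ∈ A) : ∃ S' : Sys, (∀ k s, S'.corr k s = S.corr k s) ∧
      ((∀ ω, IsClosed (S.K ω)) → ∀ ω, IsClosed (S'.K ω)) ∧
      ((∀ᵐ p ∂(S.μ.prod (volume : Measure ℝ)), p.1 ∈ A → p.2 ∈ S.K p.1 → ∃ a, inB a p.2) →
        (∀ᵐ p ∂(S.μ.prod (volume : Measure ℝ)), p.1 ∉ A → p.2 ∈ S.K p.1 → ∃ a, inM a p.2) →
        S'.IsReg) := by
  set T' : ℤ → S.Ω → S.Ω := fun k ω => if ω ∈ A then S.T k ω else S.T (-k) ω with hT'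
  have T'A : ∀ k ω, ω ∈ A → T' k ω = S.T k ω := fun k ω h => if_pos h
  have T'B : ∀ k ω, ω ∉ A → T' k ω = S.T (-k) ω := fun k ω h => if_neg h
  have hz : ∀ ω, T' 0 ω = ω := by
    intro ω
    by_cases h : ω ∈ A
    · rw [T'A _ _ h, S.T_zero]
    · rw [T'B _ _ h, neg_zero, S.T_zero]
  have hadd : ∀ k l ω, T' (k + l) ω = T' k (T' l ω) := by
    intro k l ω
    by_cases h : ω ∈ A
    · rw [T'A _ _ h, T'A _ _ h, T'A _ _ ((hT l ω).mpr h), S.T_add]
    · have h2 : S.T (-l) ω ∉ A := fun hh => h ((hT _ _).mp hh)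
      rw [T'B _ _ h, T'B _ _ h, T'B _ _ h2, neg_add, S.T_add]
  have hmp : ∀ k, MeasurePreserving (T' k) S.μ S.μ := fun k =>
    ori8_glue S.μ hA (S.T_mp k) (S.T_mp (-k)) (hT k) (hT (-k))
  set K' : S.Ω → Set ℝ := fun ω => {x | if ω ∈ A then x ∈ S.K ω else 221 - x ∈ S.K ω} with hK'
  have K'A : ∀ ω x, ω ∈ A → (x ∈ K' ω ↔ x ∈ S.K ω) := by
    intro ω x h
    change (if ω ∈ A then x ∈ S.K ω else 221 - x ∈ S.K ω) ↔ _
    rw [if_pos h]
  have K'B : ∀ ω x, ω ∉ A → (x ∈ K' ω ↔ 221 - x ∈ S.K ω) := by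
    intro ω x h
    change (if ω ∈ A then x ∈ S.K ω else 221 - x ∈ S.K ω) ↔ _
    rw [if_neg h]
  have hAm : MeasurableSet {p : S.Ω × ℝ | p.1 ∈ A} := measurable_fst hA
  have hKm : MeasurableSet {p : S.Ω × ℝ | p.2 ∈ K' p.1} := by
    have e : {p : S.Ω × ℝ | p.2 ∈ K' p.1} =
        ({p : S.Ω × ℝ | p.1 ∈ A} ∩ {p : S.Ω × ℝ | p.2 ∈ S.K p.1}) ∪
          ({p : S.Ω × ℝ | p.1 ∈ A}ᶜ ∩ {p : S.Ω × ℝ | 221 - p.2 ∈ S.K p.1}) := by
      ext p
      by_cases h : p.1 ∈ A
      · simp [K'A _ _ h, h]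
      · simp [K'B _ _ h, h]
    rw [e]
    have m1 : MeasurableSet {p : S.Ω × ℝ | p.2 ∈ S.K p.1} := S.K_meas
    have m2 : MeasurableSet {p : S.Ω × ℝ | 221 - p.2 ∈ S.K p.1} :=
      S.meas_K measurable_fst (by fun_prop)
    exact (hAm.inter m1).union (hAm.compl.inter m2)
  have hKs : ∀ ω, K' ω ⊆ Icc 0 221 := by
    intro ω x hx
    by_cases h : ω ∈ A
    · exact S.K_sub ω ((K'A _ _ h).mp hx)
    · have h1 := S.K_sub ω ((K'B _ _ h).mp hx)
      exact ⟨by linarith [h1.2], by linarith [h1.1]⟩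
  set S' : Sys :=
    { Ω := S.Ω
      μ := S.μ
      T := T'
      T_zero := hz
      T_add := hadd
      T_mp := hmp
      K := K'
      K_meas := hKm
      K_sub := hKs } with hS'
  refine ⟨S', ?_, ?_, ?_⟩
  · intro k s
    -- the measure preserving change of variables
    have q1 : MeasurePreserving (fun p : S.Ω × ℝ => p) (S.μ.prod (volume : Measure ℝ))
        (S.μ.prod volume) := MeasurePreserving.id _
    have q2 : MeasurePreserving (fun p : S.Ω × ℝ => (S.T (-k) p.1, 221 - s - p.2))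
        (S.μ.prod (volume : Measure ℝ)) (S.μ.prod volume) :=
      (S.T_mp (-k)).prod (Measure.measurePreserving_sub_left (volume : Measure ℝ) (221 - s))
    have hcm : MeasurableSet {p : S.Ω × ℝ | p.2 ∈ S.K p.1 ∧ p.2 + s ∈ S.K (S.T k p.1)} :=
      (S.meas_K measurable_fst measurable_snd).inter
        (S.meas_K ((S.T_meas k).comp measurable_fst) (by fun_prop))
    have hkey : (S.μ.prod (volume : Measure ℝ)) {p : S.Ω × ℝ | p.2 ∈ K' p.1 ∧
        p.2 + s ∈ K' (T' k p.1)} =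
        (S.μ.prod (volume : Measure ℝ)) {p : S.Ω × ℝ | p.2 ∈ S.K p.1 ∧
          p.2 + s ∈ S.K (S.T k p.1)} := by
      rw [← measure_inter_add_sdiff _ hAm]
      conv_rhs => rw [← measure_inter_add_sdiff _ hAm]
      congr 1
      · congr 1
        ext p
        simp only [mem_inter_iff, mem_ofPred_eq]
        constructor
        · rintro ⟨⟨h1, h2⟩, h3⟩
          rw [T'A _ _ h3] at h2
          exact ⟨⟨(K'A _ _ h3).mp h1, (K'A _ _ ((hT k _).mpr h3)).mp h2⟩, h3⟩
        · rintro ⟨⟨h1, h2⟩, h3⟩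
          rw [T'A _ _ h3]
          exact ⟨⟨(K'A _ _ h3).mpr h1, (K'A _ _ ((hT k _).mpr h3)).mpr h2⟩, h3⟩
      · rw [← q2.measure_preimage (hcm.diff hAm).nullMeasurableSet]
        congr 1
        ext p
        simp only [Set.mem_sdiff, mem_preimage, mem_ofPred_eq]
        have e1 : S.T k (S.T (-k) p.1) = p.1 := S.T_neg' k p.1
        have e2 : 221 - s - p.2 + s = 221 - p.2 := by ring
        have e3 : 221 - s - p.2 = 221 - (p.2 + s) := by ring
        rw [e1, e2, e3, hT (-k) p.1]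
        constructor
        · rintro ⟨⟨h1, h2⟩, h3⟩
          rw [T'B _ _ h3] at h2
          have h4 : S.T (-k) p.1 ∉ A := fun hh => h3 ((hT _ _).mp hh)
          exact ⟨⟨(K'B _ _ h4).mp h2, (K'B _ _ h3).mp h1⟩, h3⟩
        · rintro ⟨⟨h1, h2⟩, h3⟩
          rw [T'B _ _ h3]
          have h4 : S.T (-k) p.1 ∉ A := fun hh => h3 ((hT _ _).mp hh)
          exact ⟨⟨(K'B _ _ h3).mpr h2, (K'B _ _ h4).mpr h1⟩, h3⟩
    unfold Sys.corr
    unfold Measure.real
    exact congrArg ENNReal.toReal hkey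
  · intro hcl ω
    change IsClosed (K' ω)
    by_cases h : ω ∈ A
    · have e : K' ω = S.K ω := by
        ext x
        exact K'A _ _ h
      rw [e]
      exact hcl ω
    · have e : K' ω = (fun x : ℝ => 221 - x) ⁻¹' S.K ω := by
        ext x
        exact K'B _ _ h
      rw [e]
      exact (hcl ω).preimage (by fun_prop)
  · intro h1 h2
    change ∀ᵐ p ∂(S.μ.prod (volume : Measure ℝ)), p.2 ∈ K' p.1 → ∃ a, p.2 - gp a ∈ Icc (0:ℝ) 1
    have q3 : MeasurePreserving (fun p : S.Ω × ℝ => (p.1, 221 - p.2))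
        (S.μ.prod (volume : Measure ℝ)) (S.μ.prod volume) :=
      (MeasurePreserving.id S.μ).prod (Measure.measurePreserving_sub_left (volume : Measure ℝ) 221)
    have h3 := q3.quasiMeasurePreserving.ae h2
    filter_upwards [h1, h3] with p hp1 hp3 hp
    by_cases h : p.1 ∈ A
    · exact hp1 h ((K'A _ _ h).mp hp)
    · obtain ⟨a, ha⟩ := hp3 h ((K'B _ _ h).mp hp)
      refine ⟨a, ?_⟩
      have e : 221 - (221 - p.2) = p.2 := by ring
      have ha' : inB a (221 - (221 - p.2)) := ha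
      rw [e] at ha'
      exact ha'

end NB97_ORI8

end tasks

section NB97_ORI9

lemma ori9_prod {Ω : Type*} [MeasurableSpace Ω] (μ : Measure Ω) [SFinite μ] {P : Ω → ℝ → Prop}
    (hm : MeasurableSet {p : Ω × ℝ | P p.1 p.2}) (h : ∀ᵐ z : ℝ, ∀ᵐ ω ∂μ, P ω z) :
    ∀ᵐ p ∂(μ.prod (volume : Measure ℝ)), P p.1 p.2 := by
  have h3 : ∀ᵐ p ∂((volume : Measure ℝ).prod μ), P p.2 p.1 :=
    (Measure.ae_prod_iff_ae_ae (hm.preimage measurable_swap)).mpr h
  have h5 := (Measure.measurePreserving_swap (μ := μ) (ν := (volume : Measure ℝ))).quasiMeasurePreserving.ae h3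
  simpa using h5

lemma ori9_pp (S : Sys) (k : ℤ) (x y : ℝ) (h : S.pp k x y = 0) :
    ∀ᵐ ω ∂S.μ, ¬ (x ∈ S.K ω ∧ y ∈ S.K (S.T k ω)) := by
  unfold Sys.pp at h
  rw [measureReal_eq_zero_iff] at h
  rw [ae_iff]
  simpa using h

lemma ori9_meas (S : Sys) (C : Set S.Ω) (hC : MeasurableSet C) (f : Fin 8 → ℝ → Prop)
    (hf : ∀ a, MeasurableSet {y : ℝ | f a y}) :
    MeasurableSet {p : S.Ω × ℝ | p.1 ∈ C → p.2 ∈ S.K p.1 → ∃ a, f a p.2} := by
  have e : {p : S.Ω × ℝ | p.1 ∈ C → p.2 ∈ S.K p.1 → ∃ a, f a p.2} =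
      {p : S.Ω × ℝ | p.1 ∈ C}ᶜ ∪ ({p : S.Ω × ℝ | p.2 ∈ S.K p.1}ᶜ ∪ ⋃ a, {p : S.Ω × ℝ | f a p.2}) := by
    ext p
    simp only [mem_ofPred_eq, mem_union, mem_compl_iff, mem_iUnion]
    tauto
  rw [e]
  exact (measurable_fst hC).compl.union ((S.meas_K measurable_fst measurable_snd).compl.union
    (MeasurableSet.iUnion fun a => measurable_snd (hf a)))

theorem orient (G : Geo j nx) (t : ℕ → Fin 2 → Bool) (S : Sys) (hcl : ∀ ω, IsClosed (S.K ω))
    (h : ∀ k s, S.corr k s = (Dsys G t).corr k s) :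
    ∃ S' : Sys, S'.IsReg ∧ (∀ ω, IsClosed (S'.K ω)) ∧
      ∀ k s, S'.corr k s = (Dsys G t).corr k s := by
  obtain ⟨v220, v1, v2⟩ := D_corr_values G t
  have h220 : S.corr 0 220 = 1 := by rw [h]; exact v220
  have hz : ∀ k s, (∀ a b, 1 ≤ |gp b - gp a - s|) → S.corr k s = 0 := by
    intro k s hs
    rw [h]
    exact D_corr_zero G t k s hs
  have h12 : ∀ k v, |v| < 1 → S.corr k (gp 2 - gp 1 + v) = 0 ∧ S.corr k (-(gp 2 - gp 1) + v) = 0 := by
    intro k v hv
    rw [h, h]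
    exact D_corr_12 G t k v hv
  obtain ⟨x1, x2, y1, y2, -, -, -, -, hone, hex, hM, hB⟩ := four_points S h220 hz h12
    (by rw [h]; exact v1) (by rw [h]; exact v2)
  have hsup := support S h220 (hz 0)
  set A : Set S.Ω := {ω | ∀ k : ℤ, x1 ∈ S.K (S.T k ω) ∨ x2 ∈ S.K (S.T k ω)} with hA
  have hAm : MeasurableSet A := by
    have e : A = ⋂ k : ℤ, ({ω | x1 ∈ S.K (S.T k ω)} ∪ {ω | x2 ∈ S.K (S.T k ω)}) := by
      ext ω
      simp [hA]
    rw [e]
    exact MeasurableSet.iInter fun k => (S.meas_K (S.T_meas k) measurable_const).union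
      (S.meas_K (S.T_meas k) measurable_const)
  have hAT : ∀ k ω, S.T k ω ∈ A ↔ ω ∈ A := by
    intro k ω
    constructor
    · intro hh l
      have := hh (l - k)
      rwa [← S.T_add, sub_add_cancel] at this
    · intro hh l
      rw [← S.T_add]
      exact hh (l + k)
  have hin : ∀ᵐ ω ∂S.μ, ω ∈ A → x1 ∈ S.K ω ∨ x2 ∈ S.K ω := by
    refine Eventually.of_forall fun ω hω => ?_
    have := hω 0
    rwa [S.T_zero] at this
  have hout : ∀ᵐ ω ∂S.μ, ω ∉ A → y1 ∈ S.K ω ∨ y2 ∈ S.K ω := by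
    have h1 : ∀ᵐ ω ∂S.μ, ∀ k : ℤ, x1 ∈ S.K (S.T k ω) ∨ x2 ∈ S.K (S.T k ω) ∨ y1 ∈ S.K (S.T k ω) ∨
        y2 ∈ S.K (S.T k ω) := by
      rw [ae_all_iff]
      intro k
      exact (S.T_mp k).quasiMeasurePreserving.ae hone
    have h2 : ∀ᵐ ω ∂S.μ, ∀ k : ℤ, ¬ (x1 ∈ S.K ω ∧ y1 ∈ S.K (S.T k ω)) ∧ ¬ (x1 ∈ S.K ω ∧ y2 ∈ S.K (S.T k ω)) ∧
        ¬ (x2 ∈ S.K ω ∧ y1 ∈ S.K (S.T k ω)) ∧ ¬ (x2 ∈ S.K ω ∧ y2 ∈ S.K (S.T k ω)) := by
      rw [ae_all_iff]
      intro k
      obtain ⟨p1, p2, p3, p4⟩ := hex k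
      filter_upwards [ori9_pp S k _ _ p1, ori9_pp S k _ _ p2, ori9_pp S k _ _ p3, ori9_pp S k _ _ p4]
        with ω q1 q2 q3 q4
      exact ⟨q1, q2, q3, q4⟩
    filter_upwards [h1, h2] with ω a b hω
    simp only [hA, mem_ofPred_eq, not_forall, not_or] at hω
    obtain ⟨k, hk1, hk2⟩ := hω
    have ak := a k
    have a0 := a 0
    rw [S.T_zero] at a0
    obtain ⟨b1, b2, b3, b4⟩ := b k
    rcases a0 with c | c | c | c
    · exfalso
      rcases ak with d | d | d | d
      · exact hk1 d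
      · exact hk2 d
      · exact b1 ⟨c, d⟩
      · exact b2 ⟨c, d⟩
    · exfalso
      rcases ak with d | d | d | d
      · exact hk1 d
      · exact hk2 d
      · exact b3 ⟨c, d⟩
      · exact b4 ⟨c, d⟩
    · exact Or.inl c
    · exact Or.inr c
  have hcase : ∀ b : Fin 8, ¬ inner b → b = 0 ∨ b = 7 := by
    intro b hb
    unfold inner at hb
    tauto
  have g0 : gp 0 = 0 := by simp [gp]
  have g7 : gp 7 = 220 := by
    rw [gp_eq, show gz 7 = 220 by decide]
    norm_num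
  have hMB : ∀ (b : Fin 8) (y : ℝ), ¬ inner b → inM b y → ∃ a, inB a y := by
    intro b y hb hy
    rcases hcase b hb with rfl | rfl
    · refine ⟨7, ?_⟩
      unfold inM inB at hy
      unfold inB
      rw [g0] at hy
      rw [g7]
      constructor <;> linarith [hy.1, hy.2]
    · refine ⟨0, ?_⟩
      unfold inM inB at hy
      unfold inB
      rw [g7] at hy
      rw [g0]
      constructor <;> linarith [hy.1, hy.2]
  have hBM : ∀ (b : Fin 8) (y : ℝ), ¬ inner b → inB b y → ∃ a, inM a y := by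
    intro b y hb hy
    rcases hcase b hb with rfl | rfl
    · refine ⟨7, ?_⟩
      unfold inB at hy
      unfold inM inB
      rw [g0] at hy
      rw [g7]
      constructor <;> linarith [hy.1, hy.2]
    · refine ⟨0, ?_⟩
      unfold inB at hy
      unfold inM inB
      rw [g7] at hy
      rw [g0]
      constructor <;> linarith [hy.1, hy.2]
  have c1 : ∀ᵐ p ∂(S.μ.prod (volume : Measure ℝ)), p.1 ∈ A → p.2 ∈ S.K p.1 → ∃ a, inB a p.2 := by
    refine ori9_prod S.μ (P := fun ω y => ω ∈ A → y ∈ S.K ω → ∃ a, inB a y)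
      (ori9_meas S A hAm inB fun a => ?_) ?_
    · exact (measurable_id.sub_const (gp a)) measurableSet_Icc
    · filter_upwards [hsup, hM] with y hy1 hy2
      by_cases hb : ∃ a, inB a y
      · exact Eventually.of_forall fun ω _ _ => hb
      · by_cases hm : ∃ a, inM a y
        · obtain ⟨a, ha⟩ := hm
          by_cases hai : inner a
          · obtain ⟨p1, p2⟩ := hy2 ⟨a, hai, ha⟩
            filter_upwards [hin, ori9_pp S 0 _ _ p1, ori9_pp S 0 _ _ p2] with ω q0 q1 q2 hω hyK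
            exfalso
            rw [S.T_zero] at q1 q2
            rcases q0 hω with q | q
            · exact q1 ⟨q, hyK⟩
            · exact q2 ⟨q, hyK⟩
          · exact absurd (hMB a y hai ha) hb
        · push Not at hb hm
          filter_upwards [hy1 fun b => ⟨hb b, hm b⟩] with ω hω _ hyK
          exact absurd hyK hω
  have c2 : ∀ᵐ p ∂(S.μ.prod (volume : Measure ℝ)), p.1 ∉ A → p.2 ∈ S.K p.1 → ∃ a, inM a p.2 := by
    refine ori9_prod S.μ (P := fun ω y => ω ∉ A → y ∈ S.K ω → ∃ a, inM a y)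
      (ori9_meas S Aᶜ hAm.compl inM fun a => ?_) ?_
    · have : Measurable fun y : ℝ => 221 - y - gp a := by fun_prop
      exact this measurableSet_Icc
    · filter_upwards [hsup, hB] with y hy1 hy2
      by_cases hm : ∃ a, inM a y
      · exact Eventually.of_forall fun ω _ _ => hm
      · by_cases hb : ∃ a, inB a y
        · obtain ⟨a, ha⟩ := hb
          by_cases hai : inner a
          · obtain ⟨p1, p2⟩ := hy2 ⟨a, hai, ha⟩
            filter_upwards [hout, ori9_pp S 0 _ _ p1, ori9_pp S 0 _ _ p2] with ω q0 q1 q2 hω hyK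
            exfalso
            rw [S.T_zero] at q1 q2
            rcases q0 hω with q | q
            · exact q1 ⟨hyK, q⟩
            · exact q2 ⟨hyK, q⟩
          · exact absurd (hBM a y hai ha) hm
        · push Not at hb hm
          filter_upwards [hy1 fun b => ⟨hb b, hm b⟩] with ω hω _ hyK
          exact absurd hyK hω
  obtain ⟨S', e1, e2, e3⟩ := exists_flip S A hAm hAT
  exact ⟨S', e3 c1 c2, e2 hcl, fun k s => (e1 k s).trans (h k s)⟩

end NB97_ORI9

end Pool.Agent.LibNB97
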