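import Pool.Agent.LibNB97.RevDef
import Pool.Agent.LibNB97.Dict
import Pool.Agent.LibNB97.Comp
import Pool.Agent.LibNB97.Core

/-! # A system which matches the design is rigid -/

open MeasureTheory Set Filter Topology
open scoped ENNReal

namespace Pool.Agent.LibNB97

variable {j : ℕ → ℕ} {nx : ℕ → Fin 2 → ℕ}

/-- first structural information on a system which matches the design -/
structure Data (G : Geo j nx) (t : ℕ → Fin 2 → Bool) (S : Sys) (A : Set S.Ω) : Prop where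
  inv : Inv S A
  quarter : S.μ.real A = 1 / 4
  eqA : ∀ b, (b = 3 ∨ b = 4 ∨ b = 5 ∨ b = 6) → ∀ᵐ y : ℝ, EqA S (Dsys G t) A {ω : DΩ | w0 ω} b y
  white : ∀ᵐ z : ℝ, (∃ i, z ∈ G.W i) → CompB S (Dsys G t) A {ω : DΩ | w0 ω} 3 z ∧
    CompB S (Dsys G t) A {ω : DΩ | w0 ω} 4 z
  zeroJ : ∀ᵐ z : ℝ, (∀ i, z ∉ G.W i) → (∀ κ r, z ∉ G.O κ r) → ZeroB S (Dsys G t) 3 z ∧
    ZeroB S (Dsys G t) 4 z
  zeroC : ∀ᵐ z : ℝ, (∀ σ, z ∉ G.C σ) → ZeroB S (Dsys G t) 5 z ∧ ZeroB S (Dsys G t) 6 z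
  twin : ∀ᵐ z : ℝ, ∀ᵐ ω ∂S.μ, (z ∈ S.reg 3 ω ↔ z ∈ S.reg 4 ω)
  full : ∀ᵐ z : ℝ, z ∈ Icc (0:ℝ) 1 → ∀ᵐ ω ∂S.μ, z ∈ S.reg 0 ω ∧ z ∈ S.reg 7 ω
  q1 : ∀ᵐ z : ℝ, z ∈ Icc (0:ℝ) 1 → ∀ᵐ ω ∂S.μ, (z ∈ S.reg 1 ω ↔ ω ∈ A)
  q2 : ∀ᵐ z : ℝ, z ∈ Icc (0:ℝ) 1 → ∀ᵐ ω ∂S.μ, (z ∈ S.reg 2 ω ↔ ω ∉ A)

section tasks

variable (G : Geo j nx) (t : ℕ → Fin 2 → Bool) (S : Sys)

section NB97_REV6

section tasks

variable (G : Geo j nx) (t : ℕ → Fin 2 → Bool) (S : Sys)

theorem rev6_reg0 (ω : DΩ) : (Dsys G t).reg 0 ω = Icc 0 1 := reg_Dsys G t 0 ω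

theorem rev6_reg7 (ω : DΩ) : (Dsys G t).reg 7 ω = Icc 0 1 := reg_Dsys G t 7 ω

theorem rev6_reg1 {z : ℝ} (hz : z ∈ Icc (0:ℝ) 1) (ω : DΩ) : z ∈ (Dsys G t).reg 1 ω ↔ w0 ω := by
  rw [reg_Dsys]
  change z ∈ (if w0 ω then Icc (0:ℝ) 1 else ∅) ↔ w0 ω
  by_cases h : w0 ω
  · rw [if_pos h]; exact ⟨fun _ => h, fun _ => hz⟩
  · rw [if_neg h]; exact ⟨fun h' => h'.elim, fun h' => (h h').elim⟩

theorem rev6_reg1' {z : ℝ} (ω : DΩ) (hz : z ∈ (Dsys G t).reg 1 ω) : w0 ω := by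
  rw [reg_Dsys] at hz
  change z ∈ (if w0 ω then Icc (0:ℝ) 1 else ∅) at hz
  by_contra h
  rw [if_neg h] at hz
  exact hz

theorem rev6_reg2 {z : ℝ} (hz : z ∈ Icc (0:ℝ) 1) (ω : DΩ) : z ∈ (Dsys G t).reg 2 ω ↔ ¬ w0 ω := by
  rw [reg_Dsys]
  change z ∈ (if w0 ω then ∅ else Icc (0:ℝ) 1) ↔ ¬ w0 ω
  by_cases h : w0 ω
  · rw [if_pos h]; exact ⟨fun h' => h'.elim, fun h' => (h' h).elim⟩
  · rw [if_neg h]; exact ⟨fun _ => h, fun _ => hz⟩

theorem rev6_reg2' {z : ℝ} (ω : DΩ) (hz : z ∈ (Dsys G t).reg 2 ω) : ¬ w0 ω := by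
  rw [reg_Dsys] at hz
  change z ∈ (if w0 ω then ∅ else Icc (0:ℝ) 1) at hz
  intro h
  rw [if_pos h] at hz
  exact hz

theorem rev6_nw0 : Dμ.real {ω : DΩ | ¬ w0 ω} = 3 / 4 := by
  have h1 : {ω : DΩ | ¬ w0 ω} = {ω : DΩ | w0 ω}ᶜ := rfl
  rw [h1, probReal_compl_eq_one_sub measurableSet_w0, D_w0]
  norm_num

theorem rev6_12 (k : ℤ) (v : ℝ) : (Dsys G t).rc 1 2 k v = 0 := by
  unfold Sys.rc
  have h1 : ∀ z : ℝ, (Dsys G t).R 1 2 k z (z + v) = 0 := by
    intro z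
    unfold Sys.R
    have h2 : {ω | z ∈ (Dsys G t).reg 1 ω ∧ z + v ∈ (Dsys G t).reg 2 ((Dsys G t).T k ω)} = ∅ := by
      ext ω
      constructor
      · rintro ⟨ha, hb⟩
        have h3 := rev6_reg1' G t ω ha
        have h4 : ¬ w0 (DT k ω) := rev6_reg2' G t _ hb
        exact h4 h3
      · intro h; exact h.elim
    rw [h2, measureReal_empty]
  simp only [h1, integral_zero]

/-- task REV6 -/
theorem exists_data (hM : Match S (Dsys G t)) : ∃ A, Data G t S A := by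
  have hfull := ends_full S (Dsys G t) (hM.off 0 7 (by decide) 0 0)
    (fun ω => ⟨rev6_reg0 G t ω, rev6_reg7 G t ω⟩)
  -- one point probabilities
  have hone : ∀ b : Fin 8, b ≠ 0 → ∀ᵐ y : ℝ, S.μ.real {ω | y ∈ S.reg b ω} =
      (Dsys G t).μ.real {ω | y ∈ (Dsys G t).reg b ω} := by
    intro b hb
    have h1 := const_region S (Dsys G t) 0 b univ univ MeasurableSet.univ MeasurableSet.univ
      (by
        filter_upwards [hfull] with z hz hz1
        filter_upwards [hz hz1] with ω hω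
        exact ⟨fun _ => mem_univ _, fun _ => hω.1⟩)
      (Eventually.of_forall fun z hz => Eventually.of_forall fun ω =>
        ⟨fun _ => mem_univ _, fun _ => (Set.ext_iff.1 (rev6_reg0 G t ω) z).2 hz⟩)
      (fun v => hM.off 0 b (Ne.symm hb) 0 v)
    filter_upwards [h1] with y hy
    simpa using hy
  have hm1 : ∀ᵐ z : ℝ, z ∈ Icc (0:ℝ) 1 → S.μ.real {ω | z ∈ S.reg 1 ω} = 1 / 4 := by
    filter_upwards [hone 1 (by decide)] with z hz hz1
    rw [hz, ← D_w0]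
    congr 1
    ext ω
    exact rev6_reg1 G t hz1 ω
  have hm2 : ∀ᵐ z : ℝ, z ∈ Icc (0:ℝ) 1 → S.μ.real {ω | z ∈ S.reg 2 ω} = 3 / 4 := by
    filter_upwards [hone 2 (by decide)] with z hz hz1
    rw [hz, ← rev6_nw0]
    congr 1
    ext ω
    exact rev6_reg2 G t hz1 ω
  obtain ⟨A, hA, hA4, hq1, hq2⟩ := exists_A S hm1 hm2 fun k v => by
    rw [hM.off 1 2 (by decide) k v]
    exact rev6_12 G t k v
  -- probabilities inside the hidden event
  have htwo : ∀ b : Fin 8, b ≠ 1 → ∀ᵐ y : ℝ, S.μ.real {ω | ω ∈ A ∧ y ∈ S.reg b ω} =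
      (Dsys G t).μ.real {ω | ω ∈ {ω : DΩ | w0 ω} ∧ y ∈ (Dsys G t).reg b ω} := by
    intro b hb
    exact const_region S (Dsys G t) 1 b A {ω : DΩ | w0 ω} hA.1 measurableSet_w0 hq1
      (Eventually.of_forall fun z hz => Eventually.of_forall fun ω => rev6_reg1 G t hz ω)
      (fun v => hM.off 1 b (Ne.symm hb) 0 v)
  have heq : ∀ b : Fin 8, b ≠ 0 → b ≠ 1 → ∀ᵐ y : ℝ, EqA S (Dsys G t) A {ω : DΩ | w0 ω} b y := by
    intro b hb0 hb1
    filter_upwards [hone b hb0, htwo b hb1] with y h1 h2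
    exact ⟨h1, h2⟩
  -- the points of the white parts
  have hwhite : ∀ b : Fin 8, b ≠ 0 → b ≠ 1 → (∀ ω : DΩ, (Dsys G t).reg b ω = JF G t ω) →
      ∀ᵐ z : ℝ, (∃ i, z ∈ G.W i) → CompB S (Dsys G t) A {ω : DΩ | w0 ω} b z := by
    intro b hb0 hb1 hb
    filter_upwards [heq b hb0 hb1] with z hz hzW
    obtain ⟨i, hi⟩ := hzW
    have hD : ∀ ω : DΩ, z ∈ (Dsys G t).reg b ω ↔ ¬ w0 ω := by
      intro ω
      rw [hb ω]
      exact mem_JF_of_W G t hi ω
    refine ⟨comp_of_eq S A hA hA4 b z ?_ ?_, Eventually.of_forall fun ω => hD ω⟩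
    · rw [hz.1, ← rev6_nw0]
      congr 1
      ext ω
      exact hD ω
    · rw [hz.2]
      have h3 : ∀ s : Set DΩ, s = ∅ → Dμ.real s = 0 := by
        rintro s rfl
        exact measureReal_empty
      refine h3 _ ?_
      ext ω
      constructor
      · rintro ⟨ha, hb'⟩
        exact (hD ω).1 hb' ha
      · intro h; exact h.elim
  -- points which are never covered
  have hzero : ∀ b : Fin 8, b ≠ 0 → b ≠ 1 → ∀ᵐ z : ℝ, (∀ ω : DΩ, z ∉ (Dsys G t).reg b ω) →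
      ZeroB S (Dsys G t) b z := by
    intro b hb0 hb1
    filter_upwards [heq b hb0 hb1] with z hz hzn
    refine ⟨?_, Eventually.of_forall hzn⟩
    have h1 : S.μ.real {ω | z ∈ S.reg b ω} = 0 := by
      rw [hz.1]
      have h2 : {ω | z ∈ (Dsys G t).reg b ω} = ∅ := by
        ext ω
        exact ⟨fun h => (hzn ω h).elim, fun h => h.elim⟩
      rw [h2, measureReal_empty]
    rw [measureReal_eq_zero_iff] at h1
    rw [ae_iff]
    simpa using h1
  have hr3 : ∀ ω : DΩ, (Dsys G t).reg 3 ω = JF G t ω := fun ω => reg_Dsys G t 3 ω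
  have hr4 : ∀ ω : DΩ, (Dsys G t).reg 4 ω = JF G t ω := fun ω => reg_Dsys G t 4 ω
  have hr5 : ∀ ω : DΩ, (Dsys G t).reg 5 ω = CF G t 0 ω := fun ω => reg_Dsys G t 5 ω
  have hr6 : ∀ ω : DΩ, (Dsys G t).reg 6 ω = CF G t 1 ω := fun ω => reg_Dsys G t 6 ω
  have hne0 : ∀ᵐ z : ℝ, z ≠ 0 := by
    rw [ae_iff]
    simp
  refine ⟨A, ?_⟩
  exact
    { inv := hA
      quarter := hA4
      eqA := by
        rintro b (rfl | rfl | rfl | rfl)
        · exact heq 3 (by decide) (by decide)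
        · exact heq 4 (by decide) (by decide)
        · exact heq 5 (by decide) (by decide)
        · exact heq 6 (by decide) (by decide)
      white := by
        filter_upwards [hwhite 3 (by decide) (by decide) hr3,
          hwhite 4 (by decide) (by decide) hr4] with z h3 h4 hz
        exact ⟨h3 hz, h4 hz⟩
      zeroJ := by
        filter_upwards [hzero 3 (by decide) (by decide), hzero 4 (by decide) (by decide),
          hne0] with z h3 h4 h0 hW hO
        refine ⟨h3 fun ω => ?_, h4 fun ω => ?_⟩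
        · rw [hr3]
          exact mem_JF_of_not G t h0 hW hO ω
        · rw [hr4]
          exact mem_JF_of_not G t h0 hW hO ω
      zeroC := by
        filter_upwards [hzero 5 (by decide) (by decide), hzero 6 (by decide) (by decide),
          hne0] with z h3 h4 h0 hC
        refine ⟨h3 fun ω => ?_, h4 fun ω => ?_⟩
        · rw [hr5]
          exact mem_CF_of_not G t h0 hC 0 ω
        · rw [hr6]
          exact mem_CF_of_not G t h0 hC 1 ω
      twin := by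
        refine twins S 3 4 ?_ ?_
        · filter_upwards [hone 3 (by decide), hone 4 (by decide)] with z h3 h4
          rw [h3, h4]
          congr 1
          ext ω
          exact (Set.ext_iff.1 (hr3 ω) z).trans (Set.ext_iff.1 (hr4 ω) z).symm
        · rw [hM.off 3 4 (by decide) 0 0]
          unfold Sys.rc
          refine integral_congr_ae ?_
          filter_upwards [hone 3 (by decide)] with z h3
          rw [h3]
          unfold Sys.R
          congr 1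
          ext ω
          change (z ∈ (Dsys G t).reg 3 ω ∧ z + 0 ∈ (Dsys G t).reg 4 ((Dsys G t).T 0 ω)) ↔
            z ∈ (Dsys G t).reg 3 ω
          rw [(Dsys G t).T_zero, add_zero]
          exact ⟨fun h => h.1, fun h =>
            ⟨h, (Set.ext_iff.1 (hr4 ω) z).2 ((Set.ext_iff.1 (hr3 ω) z).1 h)⟩⟩
      full := hfull
      q1 := hq1
      q2 := hq2 }

end tasks

end NB97_REV6

variable {G t S} {A : Set S.Ω}

section NB97_REV7

theorem rev7_int (S : Sys) (a b : Fin 8) (k : ℤ) : Integrable (fun z => S.R a b k z z) := by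
  have hsupp : Function.support (fun z => S.R a b k z z) ⊆ Icc (0:ℝ) 1 := by
    intro z hz
    by_contra hcon
    exact hz (S.R_eq_zero a b k (Or.inl hcon))
  rw [← integrableOn_iff_integrable_of_support_subset hsupp]
  have hmeas : Measurable (fun z => S.R a b k z z) :=
    (S.measurable_R a b k).comp (measurable_id.prodMk measurable_id)
  refine Measure.integrableOn_of_bounded (M := 1) ?_ hmeas.aestronglyMeasurable ?_
  · rw [Real.volume_Icc]
    exact ENNReal.ofReal_ne_top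
  · refine Eventually.of_forall fun z => ?_
    rw [Real.norm_eq_abs, abs_of_nonneg (S.R_nonneg a b k z z)]
    exact S.R_le_one a b k z z

theorem rev7_inv (G : Geo j nx) (t : ℕ → Fin 2 → Bool) : Inv (Dsys G t) {ω : DΩ | w0 ω} :=
  ⟨measurableSet_w0, fun _ _ => Iff.rfl⟩

section

variable (G : Geo j nx) (t : ℕ → Fin 2 → Bool) (S : Sys)

variable {G t S} {A : Set S.Ω}

/-- task REV7: the points of the gadget cells are clocks -/
theorem clocks_J (hd : Data G t S A) (hM : Match S (Dsys G t)) (κ r : ℕ) :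
    ∀ᵐ z : ℝ, z ∈ G.O κ r → S.IsClock 3 z (md (qs κ)) ∧ S.IsClock 4 z (md (qs κ)) := by
  classical
  set D := Dsys G t with hD
  -- the union of the cells
  set OO : Set ℝ := ⋃ p : ℕ × ℕ, G.O p.1 p.2 with hOO
  have hOOm : MeasurableSet OO := MeasurableSet.iUnion fun p => (G.O_closed p.1 p.2).measurableSet
  have hOOs : OO ⊆ Ioc 0 1 := iUnion_subset fun p => G.O_sub p.1 p.2
  have hOOfin : volume OO < ∞ := lt_of_le_of_lt (measure_mono hOOs) (by
    rw [Real.volume_Ioc]; exact ENNReal.ofReal_lt_top)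
  have : IsFiniteMeasure ((volume : Measure ℝ).restrict OO) := ⟨by
    rw [Measure.restrict_apply_univ]; exact hOOfin⟩
  -- the class function
  set c : ℝ → ℕ := fun z => if h : ∃ κ r, z ∈ G.O κ r then h.choose else 0 with hc
  have hcv : ∀ κ r z, z ∈ G.O κ r → c z = κ := by
    intro κ r z hz
    have h : ∃ κ r, z ∈ G.O κ r := ⟨κ, r, hz⟩
    have h1 : c z = h.choose := dif_pos h
    obtain ⟨r', hr'⟩ := h.choose_spec
    rw [h1]
    by_contra hne
    have h2 : (h.choose, r') ≠ (κ, r) := fun h3 => hne (congrArg Prod.fst h3)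
    exact disjoint_left.1 (G.O_disj _ _ h2) hr' hz
  have hcm : Measurable c := by
    refine measurable_to_countable' fun i => ?_
    have hU : ∀ κ, MeasurableSet (⋃ r, G.O κ r) := fun κ =>
      MeasurableSet.iUnion fun r => (G.O_closed κ r).measurableSet
    by_cases hi : i = 0
    · have e : c ⁻¹' {i} = (⋃ κ ∈ {κ : ℕ | κ ≠ 0}, ⋃ r, G.O κ r)ᶜ := by
        ext z
        simp only [mem_preimage, mem_singleton_iff, mem_compl_iff, mem_iUnion, mem_ofPred_eq,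
          not_exists]
        constructor
        · intro h κ hκ r hz
          exact hκ (by rw [← hcv κ r z hz, h, hi])
        · intro h
          by_cases h1 : ∃ κ r, z ∈ G.O κ r
          · obtain ⟨κ, r, hz⟩ := h1
            rw [hcv κ r z hz, hi]
            by_contra hκ
            exact h κ hκ r hz
          · rw [hi]
            exact dif_neg h1
      rw [e]
      exact (MeasurableSet.biUnion (to_countable _) fun κ _ => hU κ).compl
    · have e : c ⁻¹' {i} = ⋃ r, G.O i r := by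
        ext z
        simp only [mem_preimage, mem_singleton_iff, mem_iUnion]
        constructor
        · intro h
          by_cases h1 : ∃ κ r, z ∈ G.O κ r
          · obtain ⟨κ, r, hz⟩ := h1
            have h2 := hcv κ r z hz
            rw [h] at h2
            rw [h2]
            exact ⟨r, hz⟩
          · have h2 : c z = 0 := dif_neg h1
            rw [h] at h2
            exact absurd h2 hi
        · rintro ⟨r, hz⟩
          exact hcv i r z hz
      rw [e]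
      exact hU i
  -- the set `F`
  set F : Set (ℝ × S.Ω) := {p | p.1 ∈ S.reg 3 p.2} with hF
  have hFm : MeasurableSet F := S.meas_reg 3 measurable_snd measurable_fst
  have hqs : ∀ κ, (qs κ).Nonempty := fun κ => ⟨4 * κ, by simp [qs]⟩
  have hN2 : ∀ κ, 2 ≤ md (qs κ) := fun κ => two_le_md (hqs κ)
  have hco : ∀ κ κ', κ ≠ κ' → (md (qs κ)).Coprime (md (qs κ')) := fun κ κ' h =>
    coprime_md (qs_inter κ κ' h)
  -- the mean
  have hm : ∀ᵐ z ∂((volume : Measure ℝ).restrict OO),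
      S.μ.real (sec F z) = ((md (qs (c z)) : ℝ))⁻¹ := by
    rw [ae_restrict_iff' hOOm]
    filter_upwards [hd.eqA 3 (Or.inl rfl)] with z hz hzO
    obtain ⟨⟨κ', r'⟩, hz'⟩ := mem_iUnion.1 hzO
    have h1 : S.μ.real (sec F z) = D.μ.real {ω | z ∈ D.reg 3 ω} := hz.1
    rw [h1, hcv κ' r' z hz']
    have h2 := clock_mean D 3 z (md_pos (qs κ')) (Dclk_O G t hz').1 univ MeasurableSet.univ
      (fun _ _ => Iff.rfl) 0
    have h3 : {ω | ω ∈ (univ : Set D.Ω) ∧ z ∈ D.reg 3 (D.T 0 ω)} = {ω | z ∈ D.reg 3 ω} := by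
      ext ω
      simp [D.T_zero]
    rw [h3] at h2
    rw [h2, measureReal_def, measure_univ, ENNReal.toReal_one, one_div]
  -- the correlations
  have hcor : ∀ k : ℕ, ∫ z, S.μ.real {ω | ω ∈ sec F z ∧ S.T k ω ∈ sec F z}
        ∂((volume : Measure ℝ).restrict OO) =
      ∫ z, (if md (qs (c z)) ∣ k then ((md (qs (c z)) : ℝ))⁻¹ else 0)
        ∂((volume : Measure ℝ).restrict OO) := by
    intro k
    have h1 : ∫ z in OO, S.μ.real {ω | ω ∈ sec F z ∧ S.T k ω ∈ sec F z} =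
        ∫ z in OO, S.R 3 4 k z z := by
      refine setIntegral_congr_ae hOOm ?_
      filter_upwards [hd.twin] with z hz _
      refine measureReal_congr ?_
      filter_upwards [ae_all_T S hz] with ω hω
      have h2 : z ∈ S.reg 3 (S.T k ω) ↔ z ∈ S.reg 4 (S.T k ω) := hω k
      have h3 : (z ∈ S.reg 3 ω ∧ z ∈ S.reg 3 (S.T k ω)) ↔
          (z ∈ S.reg 3 ω ∧ z ∈ S.reg 4 (S.T k ω)) := by rw [h2]
      exact propext h3
    have h2 : ∫ z in OOᶜ, S.R 3 4 k z z = ∫ z in OOᶜ, D.R 3 4 k z z := by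
      refine setIntegral_congr_ae hOOm.compl ?_
      filter_upwards [hd.white, hd.zeroJ, hd.eqA 4 (Or.inr (Or.inl rfl))] with z hw hz0 he hzO
      have hnO : ∀ κ r, z ∉ G.O κ r := fun κ r h => hzO (mem_iUnion.2 ⟨(κ, r), h⟩)
      refine R_eq_of_known_left S D A {ω : DΩ | w0 ω} hd.inv (rev7_inv G t) 3 4 z z ?_ he k
      by_cases hwz : ∃ i, z ∈ G.W i
      · exact Or.inr (hw hwz).1
      · exact Or.inl (hz0 (fun i hi => hwz ⟨i, hi⟩) hnO).1
    have h3 : ∫ z, S.R 3 4 k z z = ∫ z, D.R 3 4 k z z := by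
      have h4 := hM.off 3 4 (by decide) k 0
      unfold Sys.rc at h4
      simpa using h4
    rw [← integral_add_compl hOOm (rev7_int S 3 4 k), ← integral_add_compl hOOm (rev7_int D 3 4 k),
      h2] at h3
    have h4 : ∫ z in OO, S.R 3 4 k z z = ∫ z in OO, D.R 3 4 k z z := add_right_cancel h3
    rw [h1, h4]
    refine setIntegral_congr_fun hOOm ?_
    intro z hzO
    obtain ⟨⟨κ', r'⟩, hz'⟩ := mem_iUnion.1 hzO
    have h5 : D.R 3 4 k z z = D.R 3 3 k z z := by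
      have h6 : ∀ ω : D.Ω, D.reg 4 ω = D.reg 3 ω := fun ω =>
        (reg_Dsys G t 4 ω).trans (reg_Dsys G t 3 ω).symm
      unfold Sys.R
      congr 1
      ext ω
      have h7 := h6 (D.T k ω)
      simp only [mem_ofPred_eq]
      rw [h7]
    have h6 := clock_self D 3 z (md_pos (qs κ')) (Dclk_O G t hz').1 k
    simp only
    rw [h5, h6, hcv κ' r' z hz']
    simp only [Int.natCast_dvd_natCast]
  have hdict := dict S.μ ((volume : Measure ℝ).restrict OO) S.T_zero S.T_add S.T_mp hFm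
    (fun κ => md (qs κ)) hN2 hco c hcm hm hcor
  rw [ae_restrict_iff' hOOm] at hdict
  filter_upwards [hdict, hd.twin] with z hz htw hzO
  have h1 := hz (mem_iUnion.2 ⟨(κ, r), hzO⟩)
  rw [hcv κ r z hzO] at h1
  constructor
  · exact h1
  · filter_upwards [h1, ae_all_T S htw] with ω ⟨p, hp⟩ hω
    exact ⟨p, fun k => (hω k).symm.trans (hp k)⟩

end

end NB97_REV7

section NB97_REV8

/-- a point whose covering is an invariant event -/
lemma rev8_inv (S : Sys) (B : Set S.Ω) (hB : Inv S B) (a : Fin 8) (z : ℝ)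
    (h : ∀ᵐ ω ∂S.μ, (z ∈ S.reg a ω ↔ ω ∈ B)) (k : ℤ) : S.R a a k z z = S.μ.real B := by
  unfold Sys.R
  refine measureReal_congr ?_
  filter_upwards [ae_all_T S h] with ω hω
  apply propext
  change (z ∈ S.reg a ω ∧ z ∈ S.reg a (S.T k ω)) ↔ ω ∈ B
  have h0 := hω 0
  rw [S.T_zero] at h0
  rw [h0, hω k, hB.2 k ω, and_self]

lemma rev8_rc (S : Sys) (a b : Fin 8) (k : ℤ) : S.rc a b k 0 = ∫ z, S.R a b k z z := by
  unfold Sys.rc
  simp only [add_zero]

lemma rev8_meas (S : Sys) (a b : Fin 8) (k : ℤ) : Measurable fun z => S.R a b k z z :=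
  (S.measurable_R a b k).comp (measurable_id.prodMk measurable_id)

lemma rev8_int (S : Sys) (a b : Fin 8) (k : ℤ) : Integrable fun z => S.R a b k z z := by
  have h1 : Integrable ((Icc (0:ℝ) 1).indicator fun _ => (1:ℝ)) := by
    rw [integrable_indicator_iff measurableSet_Icc]
    exact integrableOn_const (by simp)
  refine h1.mono' (rev8_meas S a b k).aestronglyMeasurable (Eventually.of_forall fun z => ?_)
  rw [Real.norm_of_nonneg (S.R_nonneg a b k z z)]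
  by_cases hz : z ∈ Icc (0:ℝ) 1
  · rw [indicator_of_mem hz]
    exact S.R_le_one a b k z z
  · rw [indicator_of_notMem hz, S.R_eq_zero a b k (Or.inl hz)]

lemma rev8_rc_eq (S D : Sys) (a : Fin 8) (k : ℤ)
    (h : ∀ᵐ z : ℝ, z ∈ Icc (0:ℝ) 1 → S.R a a k z z = D.R a a k z z) :
    S.rc a a k 0 = D.rc a a k 0 := by
  rw [rev8_rc, rev8_rc]
  refine integral_congr_ae ?_
  filter_upwards [h] with z hz
  by_cases hz' : z ∈ Icc (0:ℝ) 1
  · exact hz hz'
  · rw [S.R_eq_zero a a k (Or.inl hz'), D.R_eq_zero a a k (Or.inl hz')]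

lemma rev8_univ (S : Sys) : Inv S univ := ⟨MeasurableSet.univ, fun _ _ => by simp⟩

lemma rev8_compl {S : Sys} {A : Set S.Ω} (h : Inv S A) : Inv S Aᶜ :=
  ⟨h.1.compl, fun k ω => by simp only [mem_compl_iff, h.2 k ω]⟩

lemma rev8_w0 (G : Geo j nx) (t : ℕ → Fin 2 → Bool) :
    Inv (Dsys G t) {ω : DΩ | w0 ω} := ⟨measurableSet_w0, fun _ _ => Iff.rfl⟩

lemma rev8_full (S D : Sys) (a : Fin 8) (k : ℤ)
    (h : ∀ᵐ z : ℝ, z ∈ Icc (0:ℝ) 1 → ∀ᵐ ω ∂S.μ, z ∈ S.reg a ω)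
    (hD : ∀ ω, D.reg a ω = Icc 0 1) : S.rc a a k 0 = D.rc a a k 0 := by
  apply rev8_rc_eq
  filter_upwards [h] with z hz hz'
  rw [rev8_inv S univ (rev8_univ S) a z, rev8_inv D univ (rev8_univ D) a z, probReal_univ,
    probReal_univ]
  · exact Eventually.of_forall fun ω => by simp only [hD, hz', mem_univ]
  · filter_upwards [hz hz'] with ω hω
    simp only [hω, mem_univ]

section

variable {G : Geo j nx} {t : ℕ → Fin 2 → Bool} {S : Sys} {A : Set S.Ω}

lemma rev8_rc1 (hd : Data G t S A) (k : ℤ) : S.rc 1 1 k 0 = (Dsys G t).rc 1 1 k 0 := by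
  apply rev8_rc_eq
  filter_upwards [hd.q1] with z hz hz'
  rw [rev8_inv S A hd.inv 1 z (hz hz'), rev8_inv (Dsys G t) {ω : DΩ | w0 ω} (rev8_w0 G t) 1 z,
    hd.quarter]
  · exact D_w0.symm
  · refine Eventually.of_forall fun ω => ?_
    rw [reg_Dsys]
    change z ∈ (if w0 ω then Icc (0:ℝ) 1 else ∅) ↔ w0 ω
    by_cases hw : w0 ω
    · simp only [hw, if_true, hz']
    · simp only [hw, if_false, mem_empty_iff_false]

lemma rev8_rc2 (hd : Data G t S A) (k : ℤ) : S.rc 2 2 k 0 = (Dsys G t).rc 2 2 k 0 := by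
  apply rev8_rc_eq
  filter_upwards [hd.q2] with z hz hz'
  rw [rev8_inv S Aᶜ (rev8_compl hd.inv) 2 z (hz hz'),
    rev8_inv (Dsys G t) {ω : DΩ | w0 ω}ᶜ (rev8_compl (rev8_w0 G t)) 2 z]
  · have h1 : S.μ.real Aᶜ = 1 - S.μ.real A := probReal_compl_eq_one_sub hd.inv.1
    have h2 : (Dsys G t).μ.real {ω : DΩ | w0 ω}ᶜ = 1 - (Dsys G t).μ.real {ω : DΩ | w0 ω} :=
      probReal_compl_eq_one_sub measurableSet_w0
    rw [h1, h2, hd.quarter]
    have h3 : (Dsys G t).μ.real {ω : DΩ | w0 ω} = 1 / 4 := D_w0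
    rw [h3]
  · refine Eventually.of_forall fun ω => ?_
    rw [reg_Dsys]
    change z ∈ (if w0 ω then ∅ else Icc (0:ℝ) 1) ↔ ¬ w0 ω
    by_cases hw : w0 ω
    · simp only [hw, if_true, mem_empty_iff_false, not_true]
    · simp only [hw, if_false, hz', not_false_eq_true]

lemma rev8_tw (S : Sys) (h : ∀ᵐ z : ℝ, ∀ᵐ ω ∂S.μ, (z ∈ S.reg 3 ω ↔ z ∈ S.reg 4 ω)) (k : ℤ) :
    S.rc 3 3 k 0 = S.rc 3 4 k 0 ∧ S.rc 4 4 k 0 = S.rc 3 4 k 0 := by
  constructor
  · rw [rev8_rc, rev8_rc]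
    refine integral_congr_ae ?_
    filter_upwards [h] with z hz
    refine measureReal_congr ?_
    filter_upwards [ae_all_T S hz] with ω hω
    apply propext
    change (z ∈ S.reg 3 ω ∧ z ∈ S.reg 3 (S.T k ω)) ↔ (z ∈ S.reg 3 ω ∧ z ∈ S.reg 4 (S.T k ω))
    rw [hω k]
  · rw [rev8_rc, rev8_rc]
    refine integral_congr_ae ?_
    filter_upwards [h] with z hz
    refine measureReal_congr ?_
    filter_upwards [ae_all_T S hz] with ω hω
    have h0 := hω 0
    rw [S.T_zero] at h0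
    apply propext
    change (z ∈ S.reg 4 ω ∧ z ∈ S.reg 4 (S.T k ω)) ↔ (z ∈ S.reg 3 ω ∧ z ∈ S.reg 4 (S.T k ω))
    rw [h0]

/-- the diagonal correlations of the link regions agree -/
lemma rev8_diag (hd : Data G t S A) (hM : Match S (Dsys G t)) (k : ℤ) :
    S.rc 5 5 k 0 + S.rc 6 6 k 0 = (Dsys G t).rc 5 5 k 0 + (Dsys G t).rc 6 6 k 0 := by
  have h0 : S.rc 0 0 k 0 = (Dsys G t).rc 0 0 k 0 := by
    refine rev8_full S (Dsys G t) 0 k ?_ fun ω => by rw [reg_Dsys]; rfl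
    filter_upwards [hd.full] with z hz hz'
    filter_upwards [hz hz'] with ω hω
    exact hω.1
  have h7 : S.rc 7 7 k 0 = (Dsys G t).rc 7 7 k 0 := by
    refine rev8_full S (Dsys G t) 7 k ?_ fun ω => by rw [reg_Dsys]; rfl
    filter_upwards [hd.full] with z hz hz'
    filter_upwards [hz hz'] with ω hω
    exact hω.2
  have h1 := rev8_rc1 hd k
  have h2 := rev8_rc2 hd k
  have h3 := rev8_tw S hd.twin k
  have h4 := rev8_tw (Dsys G t) (Eventually.of_forall fun z => Eventually.of_forall fun ω => by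
    rw [reg_Dsys, reg_Dsys]; rfl) k
  have h5 := hM.off 3 4 (by decide) k 0
  have h6 := hM.diag k
  simp only [Fin.sum_univ_eight] at h6
  linarith [h3.1, h3.2, h4.1, h4.2]

/-- the union of the link cells -/
def rev8_U (G : Geo j nx) : Set ℝ := ⋃ σ, G.C σ

lemma rev8_U_meas (G : Geo j nx) : MeasurableSet (rev8_U G) :=
  MeasurableSet.iUnion fun σ => (G.C_closed σ).measurableSet

lemma rev8_U_sub (G : Geo j nx) : rev8_U G ⊆ Icc 0 1 :=
  iUnion_subset fun σ => (G.C_sub σ).trans Ioc_subset_Icc_self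

/-- the region of a flag -/
def rev8_a (b : Bool) : Fin 8 := if b then 6 else 5

lemma rev8_rest (S : Sys) (U : Set ℝ) (a : Fin 8) (k : ℤ)
    (h : ∀ᵐ z : ℝ, z ∉ U → ∀ᵐ ω ∂S.μ, z ∉ S.reg a ω) :
    ∫ z in U, S.R a a k z z = S.rc a a k 0 := by
  rw [rev8_rc]
  refine setIntegral_eq_integral_of_ae_compl_eq_zero ?_
  filter_upwards [h] with z hz hz'
  have h1 : S.R a a k z z = S.μ.real (∅ : Set S.Ω) := by
    refine measureReal_congr ?_
    filter_upwards [hz hz'] with ω hω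
    apply propext
    change (z ∈ S.reg a ω ∧ z ∈ S.reg a (S.T k ω)) ↔ False
    simp [hω]
  rw [h1, measureReal_empty]

open scoped Classical in
/-- the slot of a point of a link cell -/
noncomputable def rev8_c (G : Geo j nx) (z : ℝ) : ℕ × Fin 2 :=
  if h : ∃ σ, z ∈ G.C σ then h.choose else (0, 0)

lemma rev8_c_eq (G : Geo j nx) {z : ℝ} {σ : ℕ × Fin 2} (h : z ∈ G.C σ) : rev8_c G z = σ := by
  have h1 : ∃ σ, z ∈ G.C σ := ⟨σ, h⟩
  unfold rev8_c
  rw [dif_pos h1]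
  by_contra hne
  exact Set.disjoint_left.1 (G.C_disj _ _ hne) h1.choose_spec h

lemma rev8_c_meas (G : Geo j nx) : Measurable (rev8_c G) := by
  refine measurable_to_countable' fun σ => ?_
  have e : rev8_c G ⁻¹' {σ} = G.C σ ∪ ((rev8_U G)ᶜ ∩ {_z | (0, 0) = σ}) := by
    ext z
    simp only [mem_preimage, mem_singleton_iff, mem_union, mem_inter_iff, mem_compl_iff,
      mem_ofPred_eq, rev8_U, mem_iUnion]
    by_cases h : ∃ σ', z ∈ G.C σ'
    · obtain ⟨σ', hσ'⟩ := h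
      rw [rev8_c_eq G hσ']
      constructor
      · rintro rfl
        exact Or.inl hσ'
      · rintro (h2 | h2)
        · rw [← rev8_c_eq G hσ', rev8_c_eq G h2]
        · exact absurd ⟨σ', hσ'⟩ h2.1
    · have h1 : rev8_c G z = (0, 0) := by
        unfold rev8_c
        rw [dif_neg h]
      rw [h1]
      constructor
      · intro h2
        exact Or.inr ⟨h, h2⟩
      · rintro (h2 | h2)
        · exact absurd ⟨σ, h2⟩ h
        · exact h2.2
  rw [e]
  exact (G.C_closed σ).measurableSet.union ((rev8_U_meas G).compl.inter (MeasurableSet.const _))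

/-- the space `{5, 6} × ℝ` with the volume on the link cells -/
noncomputable def rev8_ν (G : Geo j nx) : Measure (Bool × ℝ) :=
  (volume.restrict (rev8_U G)).map (Prod.mk false) + (volume.restrict (rev8_U G)).map (Prod.mk true)

lemma rev8_emb (b : Bool) : MeasurableEmbedding (Prod.mk b : ℝ → Bool × ℝ) :=
  measurableEmbedding_prodMk_left b

lemma rev8_fin (G : Geo j nx) : IsFiniteMeasure (volume.restrict (rev8_U G)) := by
  refine ⟨?_⟩
  rw [Measure.restrict_apply_univ]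
  exact (measure_mono (rev8_U_sub G)).trans_lt (by simp)

lemma rev8_ν_fin (G : Geo j nx) : IsFiniteMeasure (rev8_ν G) := by
  have := rev8_fin G
  unfold rev8_ν
  infer_instance

lemma rev8_ae (G : Geo j nx) {P : Bool × ℝ → Prop} :
    (∀ᵐ p ∂(rev8_ν G), P p) ↔ ∀ b : Bool, ∀ᵐ z : ℝ, z ∈ rev8_U G → P (b, z) := by
  unfold rev8_ν
  rw [ae_add_measure_iff, (rev8_emb false).ae_map_iff, (rev8_emb true).ae_map_iff,
    ae_restrict_iff' (rev8_U_meas G), ae_restrict_iff' (rev8_U_meas G)]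
  constructor
  · rintro ⟨h1, h2⟩ b
    cases b
    · exact h1
    · exact h2
  · intro h
    exact ⟨h false, h true⟩

lemma rev8_integral (G : Geo j nx) (f : Bool × ℝ → ℝ) (hf : Integrable f (rev8_ν G)) :
    ∫ p, f p ∂(rev8_ν G) = (∫ z in rev8_U G, f (false, z)) + ∫ z in rev8_U G, f (true, z) := by
  unfold rev8_ν at hf ⊢
  rw [integrable_add_measure] at hf
  rw [integral_add_measure hf.1 hf.2, (rev8_emb false).integral_map, (rev8_emb true).integral_map]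

/-- the covering of the points of the link cells -/
def rev8_F (S : Sys) : Set ((Bool × ℝ) × S.Ω) := {q | q.1.2 ∈ S.reg (rev8_a q.1.1) q.2}

lemma rev8_F_meas (S : Sys) : MeasurableSet (rev8_F S) := by
  have e : rev8_F S = ⋃ b : Bool, ({q | q.1.1 = b} ∩ {q | q.1.2 ∈ S.reg (rev8_a b) q.2}) := by
    ext q
    simp only [rev8_F, mem_ofPred_eq, mem_iUnion, mem_inter_iff]
    constructor
    · intro h
      exact ⟨q.1.1, rfl, h⟩
    · rintro ⟨b, rfl, h⟩
      exact h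
  rw [e]
  refine MeasurableSet.iUnion fun b => ?_
  have m1 : Measurable fun q : (Bool × ℝ) × S.Ω => q.1.1 := measurable_fst.comp measurable_fst
  have m2 : Measurable fun q : (Bool × ℝ) × S.Ω => q.1.2 := measurable_snd.comp measurable_fst
  exact (m1 (measurableSet_singleton b)).inter (S.meas_reg (rev8_a b) measurable_snd m2)

lemma rev8_mean (G : Geo j nx) (t : ℕ → Fin 2 → Bool) {σ : ℕ × Fin 2} {z : ℝ} (hz : z ∈ G.C σ)
    (b : Bool) : (Dsys G t).μ.real {ω | z ∈ (Dsys G t).reg (rev8_a b) ω} =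
      ((md (lk nx σ) : ℝ))⁻¹ := by
  have h1 : (Dsys G t).IsClock (rev8_a b) z (md (lk nx σ)) := by
    have h2 := Dclk_C G t hz
    cases b
    · exact h2.1
    · exact h2.2
  have h3 := clock_mean (Dsys G t) (rev8_a b) z (md_pos _) h1 univ MeasurableSet.univ
    (fun _ _ => by simp) 0
  rw [probReal_univ, one_div] at h3
  rw [← h3]
  congr 1
  ext ω
  simp only [mem_ofPred_eq, mem_univ, true_and]
  rw [(Dsys G t).T_zero]

lemma rev8_self (G : Geo j nx) (t : ℕ → Fin 2 → Bool) {σ : ℕ × Fin 2} {z : ℝ} (hz : z ∈ G.C σ)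
    (b : Bool) (k : ℤ) : (Dsys G t).R (rev8_a b) (rev8_a b) k z z =
      if ((md (lk nx σ) : ℕ) : ℤ) ∣ k then ((md (lk nx σ) : ℝ))⁻¹ else 0 := by
  have h1 : (Dsys G t).IsClock (rev8_a b) z (md (lk nx σ)) := by
    have h2 := Dclk_C G t hz
    cases b
    · exact h2.1
    · exact h2.2
  exact clock_self (Dsys G t) (rev8_a b) z (md_pos _) h1 k

/-- task REV8: the points of the link cells are clocks -/
theorem clocks_L (hnx : Next nx) (hd : Data G t S A) (hM : Match S (Dsys G t))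
    (σ : ℕ × Fin 2) :
    ∀ᵐ z : ℝ, z ∈ G.C σ → S.IsClock 5 z (md (lk nx σ)) ∧ S.IsClock 6 z (md (lk nx σ)) := by
  have hν := rev8_ν_fin G
  have hkey := dict S.μ (rev8_ν G) S.T_zero S.T_add S.T_mp (rev8_F_meas S)
    (fun σ : ℕ × Fin 2 => md (lk nx σ))
    (fun σ => two_le_md ⟨qB σ, by simp [lk]⟩)
    (fun σ σ' h => coprime_md (lk_inter hnx σ σ' h))
    (fun p : Bool × ℝ => rev8_c G p.2) ((rev8_c_meas G).comp measurable_snd) ?_ ?_
  · rw [rev8_ae] at hkey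
    filter_upwards [hkey false, hkey true] with z h1 h2 hz
    have hU : z ∈ rev8_U G := mem_iUnion.2 ⟨σ, hz⟩
    have h1' := h1 hU
    have h2' := h2 hU
    simp only [rev8_c_eq G hz] at h1' h2'
    exact ⟨h1', h2'⟩
  · rw [rev8_ae]
    intro b
    have hb : ∀ᵐ y : ℝ, EqA S (Dsys G t) A {ω : DΩ | w0 ω} (rev8_a b) y := by
      cases b
      · exact hd.eqA 5 (by simp)
      · exact hd.eqA 6 (by simp)
    filter_upwards [hb] with z hz hU
    obtain ⟨τ, hτ⟩ := mem_iUnion.1 hU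
    change S.μ.real {ω | z ∈ S.reg (rev8_a b) ω} = ((md (lk nx (rev8_c G z)) : ℝ))⁻¹
    rw [rev8_c_eq G hτ, hz.1, rev8_mean G t hτ b]
  · intro k
    have e1 : ∀ p : Bool × ℝ, S.μ.real {ω | ω ∈ sec (rev8_F S) p ∧ S.T k ω ∈ sec (rev8_F S) p} =
        S.R (rev8_a p.1) (rev8_a p.1) k p.2 p.2 := fun p => rfl
    have m1 : Measurable fun p : Bool × ℝ => S.R (rev8_a p.1) (rev8_a p.1) k p.2 p.2 :=
      measurable_from_prod_countable_right fun b => rev8_meas S (rev8_a b) (rev8_a b) k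
    have i1 : Integrable (fun p : Bool × ℝ => S.R (rev8_a p.1) (rev8_a p.1) k p.2 p.2)
        (rev8_ν G) := by
      refine Integrable.of_bound m1.aestronglyMeasurable 1 (Eventually.of_forall fun p => ?_)
      rw [Real.norm_of_nonneg (S.R_nonneg _ _ _ _ _)]
      exact S.R_le_one _ _ _ _ _
    have m2 : Measurable fun p : Bool × ℝ =>
        (if md (lk nx (rev8_c G p.2)) ∣ k then ((md (lk nx (rev8_c G p.2)) : ℝ))⁻¹ else 0) := by
      have h1 : Measurable fun σ : ℕ × Fin 2 =>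
          (if md (lk nx σ) ∣ k then ((md (lk nx σ) : ℝ))⁻¹ else 0) :=
        Measurable.of_discrete
      exact h1.comp ((rev8_c_meas G).comp measurable_snd)
    have i2 : Integrable (fun p : Bool × ℝ =>
        (if md (lk nx (rev8_c G p.2)) ∣ k then ((md (lk nx (rev8_c G p.2)) : ℝ))⁻¹ else 0))
        (rev8_ν G) := by
      refine Integrable.of_bound m2.aestronglyMeasurable 1 (Eventually.of_forall fun p => ?_)
      split_ifs
      · rw [Real.norm_of_nonneg (by positivity)]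
        exact inv_le_one_of_one_le₀ (by exact_mod_cast md_pos _)
      · simp
    have e2 : ∀ b : Bool, ∫ z in rev8_U G, (if md (lk nx (rev8_c G z)) ∣ k then
        ((md (lk nx (rev8_c G z)) : ℝ))⁻¹ else 0) =
        ∫ z in rev8_U G, (Dsys G t).R (rev8_a b) (rev8_a b) k z z := by
      intro b
      refine setIntegral_congr_fun (rev8_U_meas G) fun z hz => ?_
      obtain ⟨τ, hτ⟩ := mem_iUnion.1 hz
      rw [rev8_self G t hτ b, rev8_c_eq G hτ]
      simp only [Int.natCast_dvd_natCast]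
    have z5 : ∀ᵐ z : ℝ, z ∉ rev8_U G → ZeroB S (Dsys G t) 5 z ∧ ZeroB S (Dsys G t) 6 z := by
      filter_upwards [hd.zeroC] with z hz hU
      exact hz fun σ hσ => hU (mem_iUnion.2 ⟨σ, hσ⟩)
    have r5 := rev8_rest S (rev8_U G) 5 k (z5.mono fun z hz hU => (hz hU).1.1)
    have r6 := rev8_rest S (rev8_U G) 6 k (z5.mono fun z hz hU => (hz hU).2.1)
    have q5 := rev8_rest (Dsys G t) (rev8_U G) 5 k (z5.mono fun z hz hU => (hz hU).1.2)
    have q6 := rev8_rest (Dsys G t) (rev8_U G) 6 k (z5.mono fun z hz hU => (hz hU).2.2)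
    have hdiag := rev8_diag hd hM k
    calc ∫ p, S.μ.real {ω | ω ∈ sec (rev8_F S) p ∧ S.T k ω ∈ sec (rev8_F S) p} ∂(rev8_ν G)
        = ∫ p : Bool × ℝ, S.R (rev8_a p.1) (rev8_a p.1) k p.2 p.2 ∂(rev8_ν G) := rfl
      _ = (∫ z in rev8_U G, S.R 5 5 k z z) + ∫ z in rev8_U G, S.R 6 6 k z z :=
        rev8_integral G _ i1
      _ = (∫ z in rev8_U G, (Dsys G t).R 5 5 k z z) + ∫ z in rev8_U G, (Dsys G t).R 6 6 k z z := by
        rw [r5, r6, q5, q6, hdiag]
      _ = ∫ p : Bool × ℝ, (if md (lk nx (rev8_c G p.2)) ∣ k then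
          ((md (lk nx (rev8_c G p.2)) : ℝ))⁻¹ else 0) ∂(rev8_ν G) := by
        rw [rev8_integral G _ i2]
        congr 1
        · exact (e2 false).symm
        · exact (e2 true).symm

end

end NB97_REV8

section NB97_REV9

open scoped Classical in
/-- class function of a countable family of disjoint measurable sets -/
lemma rev9_cls {ι : Type*} [Countable ι] (Z : ι → Set ℝ) (hZ : ∀ i, MeasurableSet (Z i))
    (hd : ∀ i i', i ≠ i' → Disjoint (Z i) (Z i')) (f : ι → Finset ℕ) :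
    ∃ c : ℝ → Option (Finset ℕ), (∀ o, MeasurableSet {z | c z = o}) ∧
      (∀ z Q, c z = some Q ↔ ∃ i, Q = f i ∧ z ∈ Z i) ∧ (∀ z, c z = none ↔ ∀ i, z ∉ Z i) := by
  set c : ℝ → Option (Finset ℕ) := fun z => if h : ∃ i, z ∈ Z i then some (f h.choose) else none with hc
  have h1 : ∀ z Q, c z = some Q ↔ ∃ i, Q = f i ∧ z ∈ Z i := by
    intro z Q
    by_cases h : ∃ i, z ∈ Z i
    · have e : c z = some (f h.choose) := by simp only [hc]; rw [dif_pos h]
      rw [e]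
      constructor
      · intro h2
        exact ⟨h.choose, (Option.some.inj h2).symm, h.choose_spec⟩
      · rintro ⟨i, rfl, hi⟩
        have : i = h.choose := by
          by_contra hne
          exact (Set.disjoint_left.mp (hd _ _ hne) hi) h.choose_spec
        rw [← this]
    · have e : c z = none := by simp only [hc]; rw [dif_neg h]
      rw [e]
      constructor
      · intro h2
        exact absurd h2 (by simp)
      · rintro ⟨i, _, hi⟩
        exact absurd ⟨i, hi⟩ h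
  have h2 : ∀ z, c z = none ↔ ∀ i, z ∉ Z i := by
    intro z
    by_cases h : ∃ i, z ∈ Z i
    · have e : c z = some (f h.choose) := by simp only [hc]; rw [dif_pos h]
      rw [e]
      constructor
      · intro h2
        exact absurd h2 (by simp)
      · intro h2
        exact absurd h.choose_spec (h2 _)
    · have e : c z = none := by simp only [hc]; rw [dif_neg h]
      rw [e]
      push Not at h
      exact ⟨fun _ => h, fun _ => rfl⟩
  refine ⟨c, ?_, h1, h2⟩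
  intro o
  rcases o with _ | Q
  · have e : {z | c z = none} = ⋂ i, (Z i)ᶜ := by
      ext z
      simp only [mem_ofPred_eq, h2, mem_iInter, mem_compl_iff]
    rw [e]
    exact MeasurableSet.iInter fun i => (hZ i).compl
  · have e : {z | c z = some Q} = ⋃ i, ⋃ _ : Q = f i, Z i := by
      ext z
      simp only [mem_ofPred_eq, h1, mem_iUnion, exists_prop]
    rw [e]
    exact MeasurableSet.iUnion fun i => MeasurableSet.iUnion fun _ => hZ i

theorem exists_clsO (G : Geo j nx) : ∃ c : ℝ → Option (Finset ℕ),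
    (∀ o, MeasurableSet {z | c z = o}) ∧
    (∀ z Q, c z = some Q ↔ ∃ κ r, Q = qs κ ∧ z ∈ G.O κ r) ∧
    (∀ z, c z = none ↔ ∀ κ r, z ∉ G.O κ r) := by
  obtain ⟨c, h1, h2, h3⟩ := rev9_cls (fun p : ℕ × ℕ => G.O p.1 p.2)
    (fun p => (G.O_closed p.1 p.2).measurableSet) G.O_disj (fun p => qs p.1)
  refine ⟨c, h1, ?_, ?_⟩
  · intro z Q
    rw [h2]
    constructor
    · rintro ⟨⟨κ, r⟩, a, b⟩
      exact ⟨κ, r, a, b⟩
    · rintro ⟨κ, r, a, b⟩
      exact ⟨⟨κ, r⟩, a, b⟩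
  · intro z
    rw [h3]
    constructor
    · intro h κ r
      exact h (κ, r)
    · intro h p
      exact h p.1 p.2

theorem exists_clsC (hnx : Next nx) (G : Geo j nx) : ∃ c : ℝ → Option (Finset ℕ),
    (∀ o, MeasurableSet {z | c z = o}) ∧
    (∀ z Q, c z = some Q ↔ ∃ σ, Q = lk nx σ ∧ z ∈ G.C σ) ∧
    (∀ z, c z = none ↔ ∀ σ, z ∉ G.C σ) :=
  rev9_cls (fun σ : ℕ × Fin 2 => G.C σ) (fun σ => (G.C_closed σ).measurableSet) G.C_disj
    (fun σ => lk nx σ)

variable {G : Geo j nx} {t : ℕ → Fin 2 → Bool} {S : Sys} {A : Set S.Ω}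

lemma rev10_fst {P : ℝ → Prop} (h : ∀ᵐ z : ℝ, P z) : ∀ᵐ p : ℝ × ℝ, P p.1 := by
  rw [Measure.volume_eq_prod]
  exact Measure.quasiMeasurePreserving_fst.ae h

lemma rev10_snd {P : ℝ → Prop} (h : ∀ᵐ z : ℝ, P z) : ∀ᵐ p : ℝ × ℝ, P p.2 := by
  rw [Measure.volume_eq_prod]
  exact Measure.quasiMeasurePreserving_snd.ae h

lemma rev10_invD (G : Geo j nx) (t : ℕ → Fin 2 → Bool) : Inv (Dsys G t) {ω : DΩ | w0 ω} :=
  ⟨measurableSet_w0, fun k ω => Iff.rfl⟩

/-- a point of the regions `3` and `4` outside the cells is known -/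
lemma rev10_J (hd : Data G t S A) : ∀ᵐ z : ℝ, (∀ κ r, z ∉ G.O κ r) →
    (ZeroB S (Dsys G t) 3 z ∨ CompB S (Dsys G t) A {ω : DΩ | w0 ω} 3 z) ∧
    (ZeroB S (Dsys G t) 4 z ∨ CompB S (Dsys G t) A {ω : DΩ | w0 ω} 4 z) := by
  filter_upwards [hd.white, hd.zeroJ] with z h1 h2 hO
  by_cases hW : ∃ i, z ∈ G.W i
  · exact ⟨Or.inr (h1 hW).1, Or.inr (h1 hW).2⟩
  · push Not at hW
    exact ⟨Or.inl (h2 hW hO).1, Or.inl (h2 hW hO).2⟩

theorem known_OO (hd : Data G t S A) : ∀ᵐ p : ℝ × ℝ,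
    ((∀ κ r, p.1 ∉ G.O κ r) ∨ (∀ κ r, p.2 ∉ G.O κ r)) → ∀ k,
      S.R 3 4 k p.1 p.2 = (Dsys G t).R 3 4 k p.1 p.2 := by
  filter_upwards [rev10_fst (rev10_J hd), rev10_snd (rev10_J hd),
    rev10_fst (hd.eqA 3 (by simp)), rev10_snd (hd.eqA 4 (by simp))] with p h1 h2 h3 h4 h k
  rcases h with h | h
  · exact R_eq_of_known_left S _ A _ hd.inv (rev10_invD G t) 3 4 p.1 p.2 (h1 h).1 h4 k
  · exact R_eq_of_known_right S _ A _ hd.inv (rev10_invD G t) 3 4 p.1 p.2 (h2 h).2 h3 k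

theorem known_OC (hd : Data G t S A) (b : Fin 8) (hb : b = 5 ∨ b = 6) : ∀ᵐ p : ℝ × ℝ,
    ((∀ κ r, p.1 ∉ G.O κ r) ∨ (∀ σ, p.2 ∉ G.C σ)) → ∀ k,
      S.R 3 b k p.1 p.2 = (Dsys G t).R 3 b k p.1 p.2 := by
  have hb' : b = 3 ∨ b = 4 ∨ b = 5 ∨ b = 6 := by tauto
  filter_upwards [rev10_fst (rev10_J hd), rev10_snd hd.zeroC,
    rev10_fst (hd.eqA 3 (by simp)), rev10_snd (hd.eqA b hb')] with p h1 h2 h3 h4 h k
  rcases h with h | h
  · exact R_eq_of_known_left S _ A _ hd.inv (rev10_invD G t) 3 b p.1 p.2 (h1 h).1 h4 k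
  · refine R_eq_of_known_right S _ A _ hd.inv (rev10_invD G t) 3 b p.1 p.2 (Or.inl ?_) h3 k
    rcases hb with rfl | rfl
    · exact (h2 h).1
    · exact (h2 h).2

theorem known_CC (hd : Data G t S A) : ∀ᵐ p : ℝ × ℝ,
    ((∀ σ, p.1 ∉ G.C σ) ∨ (∀ σ, p.2 ∉ G.C σ)) → ∀ k,
      S.R 5 6 k p.1 p.2 = (Dsys G t).R 5 6 k p.1 p.2 := by
  filter_upwards [rev10_fst hd.zeroC, rev10_snd hd.zeroC,
    rev10_fst (hd.eqA 5 (by simp)), rev10_snd (hd.eqA 6 (by simp))] with p h1 h2 h3 h4 h k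
  rcases h with h | h
  · exact R_eq_of_known_left S _ A _ hd.inv (rev10_invD G t) 5 6 p.1 p.2 (Or.inl (h1 h).1) h4 k
  · exact R_eq_of_known_right S _ A _ hd.inv (rev10_invD G t) 5 6 p.1 p.2 (Or.inl (h2 h).2) h3 k

end NB97_REV9





section NB97_REV11

section tasks

variable {G : Geo j nx} {t : ℕ → Fin 2 → Bool} {S : Sys} {A : Set S.Ω}

theorem rev_pairO (hnx : Next nx) (hd : Data G t S A) (hM : Match S (Dsys G t)) (κ r r' : ℕ) :
    ∀ᵐ p : ℝ × ℝ, p.1 ∈ G.O κ r → p.2 ∈ G.O κ r' → ∀ k : ℤ,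
    (¬ ∃ η : Fin 2 → Bool, ∀ q ∈ qs κ, (u q : ℤ) ∣ k + ((r' : ℤ) - r) * b2i (η (col q))) →
      S.R 3 3 k p.1 p.2 = 0 := by
  obtain ⟨c, hcm, hcs, hcn⟩ := exists_clsO G
  have hclk : ∀ᵐ z : ℝ, ∀ κ r, z ∈ G.O κ r → S.IsClock 3 z (md (qs κ)) ∧
      S.IsClock 4 z (md (qs κ)) :=
    ae_all_iff.mpr fun κ => ae_all_iff.mpr fun r => clocks_J hd hM κ r
  have hclO : ∀ z Q, c z = some Q → ∃ κ, Q = qs κ := fun z Q h => by
    obtain ⟨κ, r, h1, -⟩ := (hcs z Q).mp h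
    exact ⟨κ, h1⟩
  have hw := window_cmp S (Dsys G t) 3 4 c c hcm hcm
    (by
      filter_upwards [hclk] with z hz Q hQ
      obtain ⟨κ, r, rfl, hzO⟩ := (hcs z Q).mp hQ
      exact ⟨Ioc_subset_Icc_self (G.O_sub _ _ hzO), (hz κ r hzO).1, (Dclk_O G t hzO).1⟩)
    (by
      filter_upwards [hclk] with z hz Q hQ
      obtain ⟨κ, r, rfl, hzO⟩ := (hcs z Q).mp hQ
      exact ⟨Ioc_subset_Icc_self (G.O_sub _ _ hzO), (hz κ r hzO).2, (Dclk_O G t hzO).2⟩)
    (by
      filter_upwards [known_OO hd] with p hp h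
      exact hp (h.imp (hcn _).mp (hcn _).mp))
    (by
      intro z y z' y' Q Q' P P' h1 h2 h3 h4 hne
      obtain ⟨κ₁, rfl⟩ := hclO _ _ h1
      obtain ⟨κ₂, rfl⟩ := hclO _ _ h2
      obtain ⟨κ₃, rfl⟩ := hclO _ _ h3
      obtain ⟨κ₄, rfl⟩ := hclO _ _ h4
      rcases eq_or_ne κ₁ κ₂ with e | e
      · rcases eq_or_ne κ₃ κ₄ with e' | e'
        · have hne' : κ₁ ≠ κ₃ := by
            rintro rfl
            exact hne (by rw [← e, ← e'])
          exact Finset.disjoint_of_subset_left Finset.inter_subset_left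
            (Finset.disjoint_of_subset_right Finset.inter_subset_left (qs_inter _ _ hne'))
        · rw [Finset.disjoint_iff_inter_eq_empty.mp (qs_inter _ _ e')]
          exact Finset.disjoint_empty_right _
      · rw [Finset.disjoint_iff_inter_eq_empty.mp (qs_inter _ _ e)]
        exact Finset.disjoint_empty_left _)
    (hM.off 3 4 (by decide)) (qs κ) (qs κ)
  have hz := zero_transfer S (Dsys G t) 3 4 c c hcm hcm (qs κ) (qs κ) hw
  have htw : ∀ᵐ p : ℝ × ℝ, ∀ᵐ ω ∂S.μ, (p.2 ∈ S.reg 3 ω ↔ p.2 ∈ S.reg 4 ω) :=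
    (Measure.quasiMeasurePreserving_snd (μ := (volume : Measure ℝ)) (ν := (volume : Measure ℝ))).ae
      hd.twin
  filter_upwards [hz, htw] with p hp htw' h1 h2 k hk
  have e1 : S.R 3 3 k p.1 p.2 = S.R 3 4 k p.1 p.2 := by
    unfold Sys.R
    refine measureReal_congr ?_
    filter_upwards [ae_all_T S htw'] with ω hω
    apply propext
    show (p.1 ∈ S.reg 3 ω ∧ p.2 ∈ S.reg 3 (S.T k ω)) ↔ (p.1 ∈ S.reg 3 ω ∧ p.2 ∈ S.reg 4 (S.T k ω))
    rw [hω k]
  rw [e1]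
  refine hp ((hcs _ _).mpr ⟨κ, r, rfl, h1⟩) ((hcs _ _).mpr ⟨κ, r', rfl, h2⟩) k ?_
  intro z' y' hz' hy' hdiff
  obtain ⟨κ₁, r₁, e1, hz1⟩ := (hcs _ _).mp hz'
  obtain ⟨κ₂, r₁', e2, hy1⟩ := (hcs _ _).mp hy'
  have e1' := qs_inj e1
  have e2' := qs_inj e2
  subst e1'
  subst e2'
  have h3 := G.diffO κ r₁ r₁' r r' z' y' p.1 p.2 hz1 hy1 h1 h2 hdiff
  refine D_zero_O G t hz1 hy1 k ?_
  rw [h3]
  exact hk

end tasks

end NB97_REV11

section NB97_REV12

section tasks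

variable {G : Geo j nx} {t : ℕ → Fin 2 → Bool} {S : Sys} {A : Set S.Ω}

theorem rev_pairC0 (hnx : Next nx) (hd : Data G t S A) (hM : Match S (Dsys G t))
    (σ : ℕ × Fin 2) (κ q : ℕ)
    (hq : (κ = σ.1 ∧ q = qB σ) ∨ (κ = nx σ.1 σ.2 ∧ q = qA nx σ)) :
    ∀ᵐ p : ℝ × ℝ, p.1 ∈ G.O κ 0 → p.2 ∈ G.C σ → ∀ k : ℤ, ¬ (u q : ℤ) ∣ k →
      S.R 3 5 k p.1 p.2 = 0 := by
  obtain ⟨c, hcm, hcs, hcn⟩ := exists_clsO G
  obtain ⟨c', hcm', hcs', hcn'⟩ := exists_clsC hnx G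
  have hclk : ∀ᵐ z : ℝ, ∀ κ r, z ∈ G.O κ r → S.IsClock 3 z (md (qs κ)) ∧
      S.IsClock 4 z (md (qs κ)) :=
    ae_all_iff.mpr fun κ => ae_all_iff.mpr fun r => clocks_J hd hM κ r
  have hclk' : ∀ᵐ z : ℝ, ∀ σ, z ∈ G.C σ → S.IsClock 5 z (md (lk nx σ)) ∧
      S.IsClock 6 z (md (lk nx σ)) := ae_all_iff.mpr fun σ => clocks_L hnx hd hM σ
  have hw := window_cmp S (Dsys G t) 3 5 c c' hcm hcm'
    (by
      filter_upwards [hclk] with z hz Q hQ
      obtain ⟨κ, r, rfl, hzO⟩ := (hcs z Q).mp hQ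
      exact ⟨Ioc_subset_Icc_self (G.O_sub _ _ hzO), (hz κ r hzO).1, (Dclk_O G t hzO).1⟩)
    (by
      filter_upwards [hclk'] with z hz Q hQ
      obtain ⟨σ, rfl, hzO⟩ := (hcs' z Q).mp hQ
      exact ⟨Ioc_subset_Icc_self (G.C_sub _ hzO), (hz σ hzO).1, (Dclk_C G t hzO).1⟩)
    (by
      filter_upwards [known_OC hd 5 (Or.inl rfl)] with p hp h
      exact hp (h.imp (hcn _).mp (hcn' _).mp))
    (by
      intro z y z' y' Q Q' P P' h1 h2 h3 h4 hne
      obtain ⟨κ₁, r₁, rfl, -⟩ := (hcs _ _).mp h1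
      obtain ⟨σ₂, rfl, -⟩ := (hcs' _ _).mp h2
      obtain ⟨κ₃, r₃, rfl, -⟩ := (hcs _ _).mp h3
      obtain ⟨σ₄, rfl, -⟩ := (hcs' _ _).mp h4
      exact inter_qs_lk hnx _ _ _ _ hne)
    (hM.off 3 5 (by decide)) (qs κ) (lk nx σ)
  have hz := zero_transfer S (Dsys G t) 3 5 c c' hcm hcm' (qs κ) (lk nx σ) hw
  have hκ : κ = σ.1 ∨ κ = nx σ.1 σ.2 := hq.imp (fun h => h.1) (fun h => h.1)
  filter_upwards [hz] with p hp h1 h2 k hk
  refine hp ((hcs _ _).mpr ⟨κ, 0, rfl, h1⟩) ((hcs' _ _).mpr ⟨σ, rfl, h2⟩) k ?_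
  intro z' y' hz' hy' hdiff
  obtain ⟨κ₁, r₁, e1, hz1⟩ := (hcs _ _).mp hz'
  obtain ⟨σ₂, e2, hy1⟩ := (hcs' _ _).mp hy'
  have e1' := qs_inj e1
  have e2' := lk_inj hnx e2
  subst e1'
  subst e2'
  have h3 := G.diffC σ κ hκ r₁ 0 z' p.1 y' p.2 hz1 h1 hy1 h2 hdiff
  subst h3
  exact D_zero_C0 G t σ κ q hq hz1 hy1 k hk

theorem rev_pairC1 (hnx : Next nx) (hd : Data G t S A) (hM : Match S (Dsys G t))
    (σ : ℕ × Fin 2) (κ q : ℕ)
    (hq : (κ = σ.1 ∧ q = qB σ) ∨ (κ = nx σ.1 σ.2 ∧ q = qA nx σ)) :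
    ∀ᵐ p : ℝ × ℝ, p.1 ∈ G.O κ 1 → p.2 ∈ G.C σ → ∀ k : ℤ, ¬ (u q : ℤ) ∣ k →
      S.R 3 6 k p.1 p.2 = 0 := by
  obtain ⟨c, hcm, hcs, hcn⟩ := exists_clsO G
  obtain ⟨c', hcm', hcs', hcn'⟩ := exists_clsC hnx G
  have hclk : ∀ᵐ z : ℝ, ∀ κ r, z ∈ G.O κ r → S.IsClock 3 z (md (qs κ)) ∧
      S.IsClock 4 z (md (qs κ)) :=
    ae_all_iff.mpr fun κ => ae_all_iff.mpr fun r => clocks_J hd hM κ r
  have hclk' : ∀ᵐ z : ℝ, ∀ σ, z ∈ G.C σ → S.IsClock 5 z (md (lk nx σ)) ∧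
      S.IsClock 6 z (md (lk nx σ)) := ae_all_iff.mpr fun σ => clocks_L hnx hd hM σ
  have hw := window_cmp S (Dsys G t) 3 6 c c' hcm hcm'
    (by
      filter_upwards [hclk] with z hz Q hQ
      obtain ⟨κ, r, rfl, hzO⟩ := (hcs z Q).mp hQ
      exact ⟨Ioc_subset_Icc_self (G.O_sub _ _ hzO), (hz κ r hzO).1, (Dclk_O G t hzO).1⟩)
    (by
      filter_upwards [hclk'] with z hz Q hQ
      obtain ⟨σ, rfl, hzO⟩ := (hcs' z Q).mp hQ
      exact ⟨Ioc_subset_Icc_self (G.C_sub _ hzO), (hz σ hzO).2, (Dclk_C G t hzO).2⟩)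
    (by
      filter_upwards [known_OC hd 6 (Or.inr rfl)] with p hp h
      exact hp (h.imp (hcn _).mp (hcn' _).mp))
    (by
      intro z y z' y' Q Q' P P' h1 h2 h3 h4 hne
      obtain ⟨κ₁, r₁, rfl, -⟩ := (hcs _ _).mp h1
      obtain ⟨σ₂, rfl, -⟩ := (hcs' _ _).mp h2
      obtain ⟨κ₃, r₃, rfl, -⟩ := (hcs _ _).mp h3
      obtain ⟨σ₄, rfl, -⟩ := (hcs' _ _).mp h4
      exact inter_qs_lk hnx _ _ _ _ hne)
    (hM.off 3 6 (by decide)) (qs κ) (lk nx σ)
  have hz := zero_transfer S (Dsys G t) 3 6 c c' hcm hcm' (qs κ) (lk nx σ) hw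
  have hκ : κ = σ.1 ∨ κ = nx σ.1 σ.2 := hq.imp (fun h => h.1) (fun h => h.1)
  filter_upwards [hz] with p hp h1 h2 k hk
  refine hp ((hcs _ _).mpr ⟨κ, 1, rfl, h1⟩) ((hcs' _ _).mpr ⟨σ, rfl, h2⟩) k ?_
  intro z' y' hz' hy' hdiff
  obtain ⟨κ₁, r₁, e1, hz1⟩ := (hcs _ _).mp hz'
  obtain ⟨σ₂, e2, hy1⟩ := (hcs' _ _).mp hy'
  have e1' := qs_inj e1
  have e2' := lk_inj hnx e2
  subst e1'
  subst e2'
  have h3 := G.diffC σ κ hκ r₁ 1 z' p.1 y' p.2 hz1 h1 hy1 h2 hdiff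
  subst h3
  exact D_zero_C1 G t σ κ q hq hz1 hy1 k hk

theorem rev_pairCC (hnx : Next nx) (s : ℕ → Fin 2 → Bool) (ht : Links nx s t)
    (hd : Data G t S A) (hM : Match S (Dsys G t)) (σ : ℕ × Fin 2) :
    ∀ᵐ p : ℝ × ℝ, p.1 ∈ G.C σ → p.2 ∈ G.C σ → ∀ k : ℤ,
    (¬ ∃ η : Bool, (u (qB σ) : ℤ) ∣ k + b2i η ∧
      (u (qA nx σ) : ℤ) ∣ k + b2i (xor η (s σ.1 σ.2))) → S.R 5 6 k p.1 p.2 = 0 := by
  obtain ⟨c', hcm', hcs', hcn'⟩ := exists_clsC hnx G
  have hclk' : ∀ᵐ z : ℝ, ∀ σ, z ∈ G.C σ → S.IsClock 5 z (md (lk nx σ)) ∧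
      S.IsClock 6 z (md (lk nx σ)) := ae_all_iff.mpr fun σ => clocks_L hnx hd hM σ
  have hclO : ∀ z Q, c' z = some Q → ∃ σ, Q = lk nx σ := fun z Q h => by
    obtain ⟨σ, h1, -⟩ := (hcs' z Q).mp h
    exact ⟨σ, h1⟩
  have hw := window_cmp S (Dsys G t) 5 6 c' c' hcm' hcm'
    (by
      filter_upwards [hclk'] with z hz Q hQ
      obtain ⟨σ, rfl, hzO⟩ := (hcs' z Q).mp hQ
      exact ⟨Ioc_subset_Icc_self (G.C_sub _ hzO), (hz σ hzO).1, (Dclk_C G t hzO).1⟩)
    (by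
      filter_upwards [hclk'] with z hz Q hQ
      obtain ⟨σ, rfl, hzO⟩ := (hcs' z Q).mp hQ
      exact ⟨Ioc_subset_Icc_self (G.C_sub _ hzO), (hz σ hzO).2, (Dclk_C G t hzO).2⟩)
    (by
      filter_upwards [known_CC hd] with p hp h
      exact hp (h.imp (hcn' _).mp (hcn' _).mp))
    (by
      intro z y z' y' Q Q' P P' h1 h2 h3 h4 hne
      obtain ⟨κ₁, rfl⟩ := hclO _ _ h1
      obtain ⟨κ₂, rfl⟩ := hclO _ _ h2
      obtain ⟨κ₃, rfl⟩ := hclO _ _ h3
      obtain ⟨κ₄, rfl⟩ := hclO _ _ h4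
      rcases eq_or_ne κ₁ κ₂ with e | e
      · rcases eq_or_ne κ₃ κ₄ with e' | e'
        · have hne' : κ₁ ≠ κ₃ := by
            rintro rfl
            exact hne (by rw [← e, ← e'])
          exact Finset.disjoint_of_subset_left Finset.inter_subset_left
            (Finset.disjoint_of_subset_right Finset.inter_subset_left (lk_inter hnx _ _ hne'))
        · rw [Finset.disjoint_iff_inter_eq_empty.mp (lk_inter hnx _ _ e')]
          exact Finset.disjoint_empty_right _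
      · rw [Finset.disjoint_iff_inter_eq_empty.mp (lk_inter hnx _ _ e)]
        exact Finset.disjoint_empty_left _)
    (hM.off 5 6 (by decide)) (lk nx σ) (lk nx σ)
  have hz := zero_transfer S (Dsys G t) 5 6 c' c' hcm' hcm' (lk nx σ) (lk nx σ) hw
  filter_upwards [hz] with p hp h1 h2 k hk
  refine hp ((hcs' _ _).mpr ⟨σ, rfl, h1⟩) ((hcs' _ _).mpr ⟨σ, rfl, h2⟩) k ?_
  intro z' y' hz' hy' hdiff
  obtain ⟨σ₁, e1, hz1⟩ := (hcs' _ _).mp hz'
  obtain ⟨σ₂, e2, hy1⟩ := (hcs' _ _).mp hy'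
  have e1' := lk_inj hnx e1
  have e2' := lk_inj hnx e2
  subst e1'
  subst e2'
  exact D_zero_CC G s t ht σ hz1 hy1 k hk

end tasks

end NB97_REV12



end tasks

theorem rigid_of_match (hnx : Next nx) (G : Geo j nx) (s t : ℕ → Fin 2 → Bool)
    (ht : Links nx s t) (S : Sys) (hM : Match S (Dsys G t)) : ∃ A, Rigid G s S A := by
  obtain ⟨A, hd⟩ := exists_data G t S hM
  refine ⟨A, ?_⟩
  exact
    { A_meas := hd.inv.1
      A_pos := by
        have h1 := hd.quarter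
        by_contra h0
        have h2 : S.μ A = 0 := le_antisymm (not_lt.mp h0) bot_le
        rw [measureReal_def, h2] at h1
        norm_num at h1
      white := by
        intro i
        filter_upwards [hd.white] with z hz hzi
        filter_upwards [(hz ⟨i, hzi⟩).1.1] with ω hω ha hh
        exact (hω.mp hh) ha
      clockO := by
        intro κ r
        filter_upwards [clocks_J hd hM κ r] with z hz hz'
        exact (hz hz').1
      clockC := clocks_L hnx hd hM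
      pairO := rev_pairO hnx hd hM
      pairC0 := rev_pairC0 hnx hd hM
      pairC1 := rev_pairC1 hnx hd hM
      pairCC := rev_pairCC hnx s ht hd hM }

theorem good_of_match (hnx : Next nx) (G : Geo j nx) (s t : ℕ → Fin 2 → Bool)
    (ht : Links nx s t) (S : Sys) (hcl : ∀ ω, IsClosed (S.K ω)) (hM : Match S (Dsys G t)) :
    ∃ t', Links nx s t' ∧ Good j t' := by
  obtain ⟨A, hA⟩ := rigid_of_match hnx G s t ht S hM
  exact core G s S hcl A hA

end Pool.Agent.LibNB97
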