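import Pool.Agent.LibNB97.Win
import Pool.Agent.LibNB97.DClock

/-! # Reading off the structure of a system which matches the design -/

open MeasureTheory Set Filter Topology
open scoped ENNReal

namespace Pool.Agent.LibNB97

variable {j : ℕ → ℕ} {nx : ℕ → Fin 2 → ℕ}

/-- the covering probabilities of the point `y` of region `b` agree, also inside the invariant
events `A` and `B` -/
def EqA (S D : Sys) (A : Set S.Ω) (B : Set D.Ω) (b : Fin 8) (y : ℝ) : Prop :=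
  S.μ.real {ω | y ∈ S.reg b ω} = D.μ.real {ω | y ∈ D.reg b ω} ∧
  S.μ.real {ω | ω ∈ A ∧ y ∈ S.reg b ω} = D.μ.real {ω | ω ∈ B ∧ y ∈ D.reg b ω}

/-- the point `z` of region `a` is almost surely not covered, in both systems -/
def ZeroB (S D : Sys) (a : Fin 8) (z : ℝ) : Prop :=
  (∀ᵐ ω ∂S.μ, z ∉ S.reg a ω) ∧ (∀ᵐ ω ∂D.μ, z ∉ D.reg a ω)

/-- the point `z` of region `a` is covered exactly outside `A` resp. `B` -/
def CompB (S D : Sys) (A : Set S.Ω) (B : Set D.Ω) (a : Fin 8) (z : ℝ) : Prop :=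
  (∀ᵐ ω ∂S.μ, (z ∈ S.reg a ω ↔ ω ∉ A)) ∧ (∀ᵐ ω ∂D.μ, (z ∈ D.reg a ω ↔ ω ∉ B))

/-- an event which is invariant under the action -/
def Inv (S : Sys) (A : Set S.Ω) : Prop := MeasurableSet A ∧ ∀ k ω, S.T k ω ∈ A ↔ ω ∈ A

section tasks

section NB97_REV1

lemma rev1_int {f : ℝ → ℝ} (hf : Measurable f) (h0 : ∀ y, 0 ≤ f y) (h1 : ∀ y, f y ≤ 1)
    (hz : ∀ y, y ∉ Icc (0:ℝ) 1 → f y = 0) : Integrable f := by
  have h2 : Integrable (indicator (Icc (0:ℝ) 1) fun _ : ℝ => (1:ℝ)) := by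
    rw [integrable_indicator_iff measurableSet_Icc]
    exact integrableOn_const (by simp) (by simp)
  refine h2.mono' hf.aestronglyMeasurable (Eventually.of_forall fun y => ?_)
  rw [Real.norm_of_nonneg (h0 y)]
  by_cases hy : y ∈ Icc (0:ℝ) 1
  · rw [indicator_of_mem hy]
    exact h1 y
  · rw [indicator_of_notMem hy, hz y hy]

lemma rev1_Iic {f : ℝ → ℝ} (hz : ∀ y, y ∉ Icc (0:ℝ) 1 → f y = 0) (c : ℝ) :
    (c < 0 ∧ ∫ y in Iic c, f y = 0) ∨ ∃ v, v = min c 1 - 1 ∧ ∫ y in Iic c, f y = ∫ y in Icc v (v + 1), f y := by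
  rcases lt_or_ge c 0 with hc | hc
  · left
    refine ⟨hc, ?_⟩
    rw [setIntegral_eq_zero_of_forall_eq_zero]
    intro y hy
    apply hz
    intro h
    exact absurd (h.1.trans hy) (not_le.mpr hc)
  · right
    refine ⟨min c 1 - 1, rfl, ?_⟩
    rw [← integral_indicator measurableSet_Iic, ← integral_indicator measurableSet_Icc]
    congr 1
    funext y
    by_cases hy : y ∈ Icc (0:ℝ) 1
    · by_cases hyc : y ≤ c
      · rw [indicator_of_mem (show y ∈ Iic c from hyc), indicator_of_mem]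
        constructor
        · have : min c 1 ≤ 1 := min_le_right _ _
          linarith [hy.1]
        · rw [sub_add_cancel]
          exact le_min hyc hy.2
      · rw [indicator_of_notMem (show y ∉ Iic c from hyc), indicator_of_notMem]
        rintro ⟨_, h2⟩
        rw [sub_add_cancel] at h2
        exact hyc (h2.trans (min_le_left _ _))
    · have e := hz y hy
      simp only [indicator, e, ite_self]

lemma rev1_ae {f g : ℝ → ℝ} (hf : Measurable f) (hg : Measurable g) (hf0 : ∀ y, 0 ≤ f y)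
    (hf1 : ∀ y, f y ≤ 1) (hg0 : ∀ y, 0 ≤ g y) (hg1 : ∀ y, g y ≤ 1)
    (hfz : ∀ y, y ∉ Icc (0:ℝ) 1 → f y = 0) (hgz : ∀ y, y ∉ Icc (0:ℝ) 1 → g y = 0)
    (h : ∀ v, ∫ y in Icc v (v + 1), f y = ∫ y in Icc v (v + 1), g y) : ∀ᵐ y : ℝ, f y = g y := by
  have hfi := rev1_int hf hf0 hf1 hfz
  have hgi := rev1_int hg hg0 hg1 hgz
  have key : ∀ c, ∫ y in Iic c, f y = ∫ y in Iic c, g y := by
    intro c
    rcases rev1_Iic hfz c with ⟨hc, h1⟩ | ⟨v, hv, h1⟩
    · rcases rev1_Iic hgz c with ⟨_, h2⟩ | ⟨v, hv, h2⟩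
      · rw [h1, h2]
      · have : ∫ y in Iic c, g y = 0 := by
          rw [setIntegral_eq_zero_of_forall_eq_zero]
          intro y hy
          apply hgz
          intro h
          exact absurd (h.1.trans hy) (not_le.mpr hc)
        rw [h1, this]
    · rcases rev1_Iic hgz c with ⟨hc, h2⟩ | ⟨v', hv', h2⟩
      · have : ∫ y in Iic c, f y = 0 := by
          rw [setIntegral_eq_zero_of_forall_eq_zero]
          intro y hy
          apply hfz
          intro h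
          exact absurd (h.1.trans hy) (not_le.mpr hc)
        rw [h2, this]
      · rw [h1, h2, hv, hv', h]
  set α : Measure ℝ := volume.withDensity fun y => ENNReal.ofReal (f y) with hα
  set β : Measure ℝ := volume.withDensity fun y => ENNReal.ofReal (g y) with hβ
  have hαf : IsFiniteMeasure α := isFiniteMeasure_withDensity_ofReal hfi.2
  have hβf : IsFiniteMeasure β := isFiniteMeasure_withDensity_ofReal hgi.2
  have hαβ : α = β := by
    refine Measure.ext_of_Iic α β fun c => ?_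
    rw [hα, hβ, withDensity_apply _ measurableSet_Iic, withDensity_apply _ measurableSet_Iic,
      ← ofReal_integral_eq_lintegral_ofReal hfi.integrableOn (Eventually.of_forall hf0),
      ← ofReal_integral_eq_lintegral_ofReal hgi.integrableOn (Eventually.of_forall hg0), key]
  have h3 := (withDensity_eq_iff (μ := (volume : Measure ℝ)) (f := fun y => ENNReal.ofReal (f y))
    (g := fun y => ENNReal.ofReal (g y)) hf.ennreal_ofReal.aemeasurable hg.ennreal_ofReal.aemeasurable (by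
      rw [← ofReal_integral_eq_lintegral_ofReal hfi (Eventually.of_forall hf0)]
      exact ENNReal.ofReal_ne_top)).mp hαβ
  filter_upwards [h3] with y hy
  have := congrArg ENNReal.toReal hy
  rwa [ENNReal.toReal_ofReal (hf0 y), ENNReal.toReal_ofReal (hg0 y)] at this

/-- probability of the event `A` together with `y` covered in region `b` -/
lemma rev1_meas (S : Sys) (b : Fin 8) (A : Set S.Ω) (hA : MeasurableSet A) :
    Measurable fun y => S.μ.real {ω | ω ∈ A ∧ y ∈ S.reg b ω} := by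
  have h : MeasurableSet {q : ℝ × S.Ω | q.2 ∈ A ∧ q.1 ∈ S.reg b q.2} :=
    (measurable_snd hA).inter (S.meas_reg b measurable_snd measurable_fst)
  exact (measurable_measure_prodMk_left h).ennreal_toReal

lemma rev1_rc (S : Sys) (a b : Fin 8) (A : Set S.Ω) (hA : MeasurableSet A)
    (hSA : ∀ᵐ z : ℝ, z ∈ Icc (0:ℝ) 1 → ∀ᵐ ω ∂S.μ, (z ∈ S.reg a ω ↔ ω ∈ A)) (v : ℝ) :
    S.rc a b 0 v = ∫ y in Icc v (v + 1), S.μ.real {ω | ω ∈ A ∧ y ∈ S.reg b ω} := by
  unfold Sys.rc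
  have h1 : ∀ᵐ z : ℝ, S.R a b 0 z (z + v) =
      indicator (Icc v (v + 1)) (fun y => S.μ.real {ω | ω ∈ A ∧ y ∈ S.reg b ω}) (z + v) := by
    filter_upwards [hSA] with z hz
    by_cases hz1 : z ∈ Icc (0:ℝ) 1
    · rw [indicator_of_mem (show z + v ∈ Icc v (v + 1) from ⟨by linarith [hz1.1], by linarith [hz1.2]⟩)]
      unfold Sys.R
      rw [measureReal_def, measureReal_def]
      congr 1
      apply measure_congr
      filter_upwards [hz hz1] with ω hω
      apply propext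
      change (z ∈ S.reg a ω ∧ z + v ∈ S.reg b (S.T 0 ω)) ↔ (ω ∈ A ∧ z + v ∈ S.reg b ω)
      rw [S.T_zero, hω]
    · rw [indicator_of_notMem, S.R_eq_zero a b 0 (Or.inl hz1)]
      rintro ⟨h2, h3⟩
      exact hz1 ⟨by linarith, by linarith⟩
  rw [integral_congr_ae h1, integral_add_right_eq_self
    (fun y => indicator (Icc v (v + 1)) (fun y => S.μ.real {ω | ω ∈ A ∧ y ∈ S.reg b ω}) y) v,
    integral_indicator measurableSet_Icc]

theorem const_region (S D : Sys) (a b : Fin 8) (A : Set S.Ω) (B : Set D.Ω)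
    (hA : MeasurableSet A) (hB : MeasurableSet B)
    (hSA : ∀ᵐ z : ℝ, z ∈ Icc (0:ℝ) 1 → ∀ᵐ ω ∂S.μ, (z ∈ S.reg a ω ↔ ω ∈ A))
    (hDB : ∀ᵐ z : ℝ, z ∈ Icc (0:ℝ) 1 → ∀ᵐ ω ∂D.μ, (z ∈ D.reg a ω ↔ ω ∈ B))
    (h : ∀ v, S.rc a b 0 v = D.rc a b 0 v) :
    ∀ᵐ y : ℝ, S.μ.real {ω | ω ∈ A ∧ y ∈ S.reg b ω} = D.μ.real {ω | ω ∈ B ∧ y ∈ D.reg b ω} := by
  have hz : ∀ (S : Sys) (A : Set S.Ω) (y : ℝ), y ∉ Icc (0:ℝ) 1 →
      S.μ.real {ω | ω ∈ A ∧ y ∈ S.reg b ω} = 0 := by
    intro S A y hy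
    have e : {ω | ω ∈ A ∧ y ∈ S.reg b ω} = ∅ := by
      ext ω
      simp only [mem_ofPred_eq, mem_empty_iff_false, iff_false, not_and]
      intro _ h2
      exact hy h2.1
    rw [e]
    simp
  refine rev1_ae (rev1_meas S b A hA) (rev1_meas D b B hB) (fun _ => measureReal_nonneg)
    (fun _ => measureReal_le_one) (fun _ => measureReal_nonneg) (fun _ => measureReal_le_one)
    (hz S A) (hz D B) fun v => ?_
  rw [← rev1_rc S a b A hA hSA, ← rev1_rc D a b B hB hDB, h]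

theorem ends_full (S D : Sys) (h : S.rc 0 7 0 0 = D.rc 0 7 0 0)
    (hD : ∀ ω, D.reg 0 ω = Icc 0 1 ∧ D.reg 7 ω = Icc 0 1) :
    ∀ᵐ z : ℝ, z ∈ Icc (0:ℝ) 1 → ∀ᵐ ω ∂S.μ, z ∈ S.reg 0 ω ∧ z ∈ S.reg 7 ω := by
  have hind : ∀ (S : Sys), (fun z : ℝ => S.R 0 7 0 z (z + 0)) =
      indicator (Icc (0:ℝ) 1) fun z => S.R 0 7 0 z z := by
    intro S
    funext z
    by_cases hz : z ∈ Icc (0:ℝ) 1
    · rw [indicator_of_mem hz, add_zero]
    · rw [indicator_of_notMem hz, add_zero, S.R_eq_zero 0 7 0 (Or.inl hz)]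
  have hDv : D.rc 0 7 0 0 = 1 := by
    unfold Sys.rc
    rw [hind D, integral_indicator measurableSet_Icc]
    have h1 : ∀ z ∈ Icc (0:ℝ) 1, D.R 0 7 0 z z = 1 := by
      intro z hz
      unfold Sys.R
      have e : {ω | z ∈ D.reg 0 ω ∧ z ∈ D.reg 7 (D.T 0 ω)} = univ := by
        ext ω
        simp only [mem_ofPred_eq, mem_univ, iff_true]
        rw [(hD ω).1, (hD _).2]
        exact ⟨hz, hz⟩
      rw [e]
      simp
    rw [setIntegral_congr_fun measurableSet_Icc h1]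
    simp
  have hSv : ∫ z in Icc (0:ℝ) 1, S.R 0 7 0 z z = 1 := by
    rw [← integral_indicator measurableSet_Icc, ← hind S]
    exact h.trans hDv
  have hm : Measurable fun z : ℝ => S.R 0 7 0 z z :=
    (S.measurable_R 0 7 0).comp (by fun_prop : Measurable fun z : ℝ => (z, z))
  have hint : IntegrableOn (fun z : ℝ => 1 - S.R 0 7 0 z z) (Icc (0:ℝ) 1) := by
    refine Measure.integrableOn_of_bounded (M := 1) (by simp) (measurable_const.sub hm).aestronglyMeasurable (Eventually.of_forall fun z => ?_)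
    rw [Real.norm_of_nonneg (by linarith [S.R_le_one 0 7 0 z z])]
    linarith [S.R_nonneg 0 7 0 z z]
  have hint2 : IntegrableOn (fun z : ℝ => S.R 0 7 0 z z) (Icc (0:ℝ) 1) := by
    refine Measure.integrableOn_of_bounded (M := 1) (by simp) hm.aestronglyMeasurable (Eventually.of_forall fun z => ?_)
    rw [Real.norm_of_nonneg (S.R_nonneg 0 7 0 z z)]
    exact S.R_le_one 0 7 0 z z
  have h0 : ∫ z in Icc (0:ℝ) 1, (1 - S.R 0 7 0 z z) = 0 := by
    have hc : IntegrableOn (fun _ : ℝ => (1:ℝ)) (Icc (0:ℝ) 1) :=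
      integrableOn_const (by simp) (by simp)
    rw [integral_sub hc hint2, hSv]
    simp
  rw [setIntegral_eq_zero_iff_of_nonneg_ae (Eventually.of_forall fun z => by
    change (0:ℝ) ≤ 1 - S.R 0 7 0 z z
    linarith [S.R_le_one 0 7 0 z z]) hint] at h0
  have h1 := (ae_restrict_iff' measurableSet_Icc).mp h0
  filter_upwards [h1] with z hz hz1
  have h2 : S.R 0 7 0 z z = 1 := by
    have := hz hz1
    simp only [Pi.zero_apply] at this
    linarith
  unfold Sys.R at h2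
  have hms : MeasurableSet {ω | z ∈ S.reg 0 ω ∧ z ∈ S.reg 7 (S.T 0 ω)} :=
    (S.meas_reg 0 measurable_id measurable_const).inter
      (S.meas_reg 7 (S.T_meas 0) measurable_const)
  have h3 : S.μ {ω | z ∈ S.reg 0 ω ∧ z ∈ S.reg 7 (S.T 0 ω)} = 1 := by
    rw [measureReal_def] at h2
    have := ENNReal.toReal_eq_one_iff _ |>.mp h2
    exact this
  have h4 := (prob_compl_eq_zero_iff hms).mpr h3
  rw [ae_iff]
  refine measure_mono_null ?_ h4
  intro ω hω
  simp only [mem_compl_iff, mem_ofPred_eq, S.T_zero] at hω ⊢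
  exact hω

end NB97_REV1


section NB97_REV3

/-- almost every pair, through almost every difference -/
lemma ae_pair_of_diff {P : ℝ × ℝ → Prop} (hm : MeasurableSet {p | P p})
    (h : ∀ᵐ v : ℝ, ∀ᵐ z : ℝ, P (z, z + v)) : ∀ᵐ p : ℝ × ℝ, P p := by
  have mp : MeasurePreserving (fun q : ℝ × ℝ => (q.1, q.1 + q.2))
      ((volume : Measure ℝ).prod volume) ((volume : Measure ℝ).prod volume) :=
    measurePreserving_prod_add (volume : Measure ℝ) volume
  have h1 : ∀ᵐ q ∂((volume : Measure ℝ).prod (volume : Measure ℝ)), P (q.2, q.2 + q.1) := by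
    refine (Measure.ae_prod_iff_ae_ae ?_).mpr h
    exact hm.preimage (by fun_prop : Measurable fun q : ℝ × ℝ => (q.2, q.2 + q.1))
  have h2 : ∀ᵐ q ∂((volume : Measure ℝ).prod (volume : Measure ℝ)), P (q.1, q.1 + q.2) := by
    have h5 := (Measure.measurePreserving_swap (μ := (volume : Measure ℝ)) (ν := (volume : Measure ℝ))).quasiMeasurePreserving.ae h1
    simpa using h5
  rw [Measure.volume_eq_prod, ae_iff]
  have h3 := mp.measure_preimage (hm.compl).nullMeasurableSet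
  rw [ae_iff] at h2
  rw [← h2]
  exact h3.symm

lemma rev3_rc_zero (S : Sys) (a b : Fin 8) (k : ℤ) (h : ∀ v, S.rc a b k v = 0) :
    ∀ᵐ p : ℝ × ℝ, S.R a b k p.1 p.2 = 0 := by
  have hm : MeasurableSet {p : ℝ × ℝ | S.R a b k p.1 p.2 = 0} :=
    (S.measurable_R a b k) (measurableSet_singleton 0)
  refine ae_pair_of_diff hm (Eventually.of_forall fun v => ?_)
  have h1 := h v
  unfold Sys.rc at h1
  have hi : Integrable fun z : ℝ => S.R a b k z (z + v) := by
    have h2 : Integrable (indicator (Icc (0:ℝ) 1) fun _ : ℝ => (1:ℝ)) := by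
      rw [integrable_indicator_iff measurableSet_Icc]
      exact integrableOn_const (by simp) (by simp)
    refine h2.mono' ((S.measurable_R a b k).comp (by fun_prop : Measurable fun z : ℝ => (z, z + v))).aestronglyMeasurable
      (Eventually.of_forall fun z => ?_)
    rw [Real.norm_of_nonneg (S.R_nonneg _ _ _ _ _)]
    by_cases hz : z ∈ Icc (0:ℝ) 1
    · rw [indicator_of_mem hz]
      exact S.R_le_one _ _ _ _ _
    · rw [indicator_of_notMem hz, S.R_eq_zero a b k (Or.inl hz)]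
  exact (integral_eq_zero_iff_of_nonneg (fun z => S.R_nonneg _ _ _ _ _) hi).mp h1

lemma rev3_pick {A : Set ℝ} (hA : 0 < volume A) {P : ℝ → Prop} (h : ∀ᵐ z : ℝ, z ∈ A → P z) :
    ∃ z, z ∈ A ∧ P z := by
  by_contra hno
  push Not at hno
  refine hA.ne' (measure_mono_null ?_ (ae_iff.mp h))
  intro z hz
  simp only [mem_ofPred_eq]
  intro hcon
  exact hno z hz (hcon hz)

/-- disjoint events of total mass one are complementary -/
lemma rev3_compl {Ω : Type*} [MeasurableSpace Ω] (μ : Measure Ω) [IsProbabilityMeasure μ]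
    {E F : Set Ω} (hE : MeasurableSet E) (hF : MeasurableSet F) (h0 : μ.real (E ∩ F) = 0)
    (h1 : μ.real E + μ.real F = 1) : ∀ᵐ ω ∂μ, (ω ∈ E ↔ ω ∉ F) := by
  have h2 : μ.real (E ∪ F) = 1 := by
    have := measureReal_union_add_inter (μ := μ) (s := E) (t := F) hF
    rw [h0, add_zero] at this
    rw [this, h1]
  have h3 : μ (E ∪ F)ᶜ = 0 := by
    rw [prob_compl_eq_zero_iff (hE.union hF)]
    rw [measureReal_def] at h2
    exact (ENNReal.toReal_eq_one_iff _).mp h2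
  have h4 : μ (E ∩ F) = 0 := (measureReal_eq_zero_iff).mp h0
  have h5 : ∀ᵐ ω ∂μ, ω ∈ E ∪ F := by
    rw [ae_iff]
    exact h3
  have h6 : ∀ᵐ ω ∂μ, ω ∉ E ∩ F := by
    rw [ae_iff]
    simpa using h4
  filter_upwards [h5, h6] with ω a b
  constructor
  · intro h hh
    exact b ⟨h, hh⟩
  · intro h
    rcases a with h' | h'
    · exact h'
    · exact absurd h' h

theorem exists_A (S : Sys)
    (h1 : ∀ᵐ z : ℝ, z ∈ Icc (0:ℝ) 1 → S.μ.real {ω | z ∈ S.reg 1 ω} = 1 / 4)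
    (h2 : ∀ᵐ z : ℝ, z ∈ Icc (0:ℝ) 1 → S.μ.real {ω | z ∈ S.reg 2 ω} = 3 / 4)
    (h12 : ∀ k v, S.rc 1 2 k v = 0) :
    ∃ A : Set S.Ω, Inv S A ∧ S.μ.real A = 1 / 4 ∧
      (∀ᵐ z : ℝ, z ∈ Icc (0:ℝ) 1 → ∀ᵐ ω ∂S.μ, (z ∈ S.reg 1 ω ↔ ω ∈ A)) ∧
      (∀ᵐ z : ℝ, z ∈ Icc (0:ℝ) 1 → ∀ᵐ ω ∂S.μ, (z ∈ S.reg 2 ω ↔ ω ∉ A)) := by
  have hpair : ∀ᵐ p : ℝ × ℝ, ∀ k, S.R 1 2 k p.1 p.2 = 0 := by
    rw [ae_all_iff]
    intro k
    exact rev3_rc_zero S 1 2 k (h12 k)
  rw [Measure.volume_eq_prod] at hpair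
  have hzy : ∀ᵐ z : ℝ, ∀ᵐ y : ℝ, ∀ k, S.R 1 2 k z y = 0 := Measure.ae_ae_of_ae_prod hpair
  have hyz : ∀ᵐ y : ℝ, ∀ᵐ z : ℝ, ∀ k, S.R 1 2 k z y = 0 := by
    have h5 := (Measure.measurePreserving_swap (μ := (volume : Measure ℝ)) (ν := (volume : Measure ℝ))).quasiMeasurePreserving.ae hpair
    have h6 : ∀ᵐ p ∂((volume : Measure ℝ).prod (volume : Measure ℝ)), ∀ k, S.R 1 2 k p.2 p.1 = 0 := by
      simpa using h5
    exact Measure.ae_ae_of_ae_prod h6
  have hpos : 0 < volume (Icc (0:ℝ) 1) := by simp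
  have hmS : ∀ b y k, MeasurableSet {ω | y ∈ S.reg b (S.T k ω)} := fun b y k =>
    S.meas_reg b (S.T_meas k) measurable_const
  have hmS0 : ∀ b y, MeasurableSet {ω | y ∈ S.reg b ω} := fun b y =>
    S.meas_reg b measurable_id measurable_const
  -- complementarity
  have hcomp : ∀ z y : ℝ, S.μ.real {ω | z ∈ S.reg 1 ω} = 1 / 4 → S.μ.real {ω | y ∈ S.reg 2 ω} = 3 / 4 →
      ∀ k, S.R 1 2 k z y = 0 → ∀ᵐ ω ∂S.μ, (z ∈ S.reg 1 ω ↔ ¬ y ∈ S.reg 2 (S.T k ω)) := by
    intro z y hz hy k hk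
    refine rev3_compl S.μ (E := {ω | z ∈ S.reg 1 ω}) (F := {ω | y ∈ S.reg 2 (S.T k ω)}) (hmS0 1 z)
      (hmS 2 y k) hk ?_
    have e : S.μ.real {ω | y ∈ S.reg 2 (S.T k ω)} = S.μ.real {ω | y ∈ S.reg 2 ω} :=
      (S.T_mp k).measureReal_preimage (hmS0 2 y).nullMeasurableSet
    rw [hz, e, hy]
    norm_num
  -- the generic points
  obtain ⟨y, hy, hy2, hyz'⟩ := rev3_pick hpos (P := fun y => S.μ.real {ω | y ∈ S.reg 2 ω} = 3 / 4 ∧
      ∀ᵐ z : ℝ, ∀ k, S.R 1 2 k z y = 0) (by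
    filter_upwards [h2, hyz] with y ha hb hc
    exact ⟨ha hc, hb⟩)
  obtain ⟨z, hz, hz1, hzy', hzy0⟩ := rev3_pick hpos (P := fun z => S.μ.real {ω | z ∈ S.reg 1 ω} = 1 / 4 ∧
      (∀ᵐ y : ℝ, ∀ k, S.R 1 2 k z y = 0) ∧ ∀ k, S.R 1 2 k z y = 0) (by
    filter_upwards [h1, hzy, hyz'] with z ha hb hc hd
    exact ⟨ha hd, hb, hc⟩)
  set A : Set S.Ω := {ω | ∀ k : ℤ, y ∉ S.reg 2 (S.T k ω)} with hA
  have hAm : MeasurableSet A := by
    have e : A = ⋂ k : ℤ, {ω | y ∈ S.reg 2 (S.T k ω)}ᶜ := by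
      ext ω
      simp [hA]
    rw [e]
    exact MeasurableSet.iInter fun k => (hmS 2 y k).compl
  have hzA : ∀ᵐ ω ∂S.μ, (z ∈ S.reg 1 ω ↔ ω ∈ A) := by
    have h3 : ∀ᵐ ω ∂S.μ, ∀ k, (z ∈ S.reg 1 ω ↔ ¬ y ∈ S.reg 2 (S.T k ω)) := by
      rw [ae_all_iff]
      intro k
      exact hcomp z y hz1 hy2 k (hzy0 k)
    filter_upwards [h3] with ω hω
    constructor
    · intro h k
      exact (hω k).mp h
    · intro h
      exact (hω 0).mpr (h 0)
  have hyA : ∀ᵐ ω ∂S.μ, (¬ y ∈ S.reg 2 ω ↔ ω ∈ A) := by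
    have h3 := hcomp z y hz1 hy2 0 (hzy0 0)
    filter_upwards [h3, hzA] with ω ha hb
    rw [S.T_zero] at ha
    rw [← ha, hb]
  refine ⟨A, ⟨hAm, ?_⟩, ?_, ?_, ?_⟩
  · intro k ω
    constructor
    · intro h l
      have := h (l - k)
      rwa [← S.T_add, sub_add_cancel] at this
    · intro h l
      rw [← S.T_add]
      exact h (l + k)
  · rw [← hz1, measureReal_def, measureReal_def]
    congr 1
    apply measure_congr
    filter_upwards [hzA] with ω hω
    apply propext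
    exact hω.symm
  · filter_upwards [h1, hyz'] with z' ha hb hc
    have h3 := hcomp z' y (ha hc) hy2 0 (hb 0)
    filter_upwards [h3, hyA] with ω hd he
    rw [S.T_zero] at hd
    rw [hd, he]
  · filter_upwards [h2, hzy'] with y' ha hb hc
    have h3 := hcomp z y' hz1 (ha hc) 0 (hb 0)
    filter_upwards [h3, hzA] with ω hd he
    rw [S.T_zero] at hd
    rw [← he, hd, not_not]

end NB97_REV3

section NB97_REV4

theorem comp_of_eq (S : Sys) (A : Set S.Ω) (hA : Inv S A) (hA4 : S.μ.real A = 1 / 4) (b : Fin 8)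
    (y : ℝ) (h1 : S.μ.real {ω | y ∈ S.reg b ω} = 3 / 4)
    (h2 : S.μ.real {ω | ω ∈ A ∧ y ∈ S.reg b ω} = 0) : ∀ᵐ ω ∂S.μ, (y ∈ S.reg b ω ↔ ω ∉ A) := by
  have hm : MeasurableSet {ω | y ∈ S.reg b ω} := S.meas_reg b measurable_id measurable_const
  refine rev3_compl S.μ (E := {ω | y ∈ S.reg b ω}) (F := A) hm hA.1 ?_ ?_
  · rw [← h2]
    congr 1
    ext ω
    simp only [mem_inter_iff, mem_ofPred_eq]
    tauto
  · rw [h1, hA4]
    norm_num

/-- measure of the complement part -/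
lemma rev4_split (S : Sys) (A : Set S.Ω) (hA : Inv S A) (b : Fin 8) (y : ℝ) :
    S.μ.real {ω | ω ∉ A ∧ y ∈ S.reg b ω} =
      S.μ.real {ω | y ∈ S.reg b ω} - S.μ.real {ω | ω ∈ A ∧ y ∈ S.reg b ω} := by
  have hm : MeasurableSet {ω | y ∈ S.reg b ω} := S.meas_reg b measurable_id measurable_const
  have h1 := measureReal_inter_add_sdiff (μ := S.μ) (s := {ω | y ∈ S.reg b ω}) (t := A) hA.1
  have e1 : {ω | y ∈ S.reg b ω} ∩ A = {ω | ω ∈ A ∧ y ∈ S.reg b ω} := by
    ext ω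
    simp only [mem_inter_iff, mem_ofPred_eq]
    tauto
  have e2 : {ω | y ∈ S.reg b ω} \ A = {ω | ω ∉ A ∧ y ∈ S.reg b ω} := by
    ext ω
    simp only [Set.mem_sdiff, mem_ofPred_eq]
    tauto
  rw [e1, e2] at h1
  linarith

/-- pair probability with a known left point, one system -/
lemma rev4_left (S : Sys) (A : Set S.Ω) (hA : Inv S A) (a b : Fin 8) (z y : ℝ) (k : ℤ)
    (h : ∀ᵐ ω ∂S.μ, (z ∈ S.reg a ω ↔ ω ∉ A)) :
    S.R a b k z y = S.μ.real {ω | ω ∉ A ∧ y ∈ S.reg b ω} := by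
  have hm : MeasurableSet {ω | ω ∉ A ∧ y ∈ S.reg b ω} :=
    hA.1.compl.inter (S.meas_reg b measurable_id measurable_const)
  rw [← (S.T_mp k).measureReal_preimage hm.nullMeasurableSet]
  unfold Sys.R
  rw [measureReal_def, measureReal_def]
  congr 1
  apply measure_congr
  filter_upwards [h] with ω hω
  apply propext
  change (z ∈ S.reg a ω ∧ y ∈ S.reg b (S.T k ω)) ↔ (S.T k ω ∉ A ∧ y ∈ S.reg b (S.T k ω))
  rw [hω, hA.2 k ω]

lemma rev4_right (S : Sys) (A : Set S.Ω) (hA : Inv S A) (a b : Fin 8) (z y : ℝ) (k : ℤ)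
    (h : ∀ᵐ ω ∂S.μ, (y ∈ S.reg b ω ↔ ω ∉ A)) :
    S.R a b k z y = S.μ.real {ω | ω ∉ A ∧ z ∈ S.reg a ω} := by
  have h' := (S.T_mp k).quasiMeasurePreserving.ae h
  unfold Sys.R
  rw [measureReal_def, measureReal_def]
  congr 1
  apply measure_congr
  filter_upwards [h'] with ω hω
  apply propext
  change (z ∈ S.reg a ω ∧ y ∈ S.reg b (S.T k ω)) ↔ (ω ∉ A ∧ z ∈ S.reg a ω)
  rw [hω, hA.2 k ω]
  tauto

lemma rev4_zero_left (S : Sys) (a b : Fin 8) (z y : ℝ) (k : ℤ)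
    (h : ∀ᵐ ω ∂S.μ, z ∉ S.reg a ω) : S.R a b k z y = 0 := by
  unfold Sys.R
  rw [measureReal_eq_zero_iff]
  refine measure_mono_null ?_ (ae_iff.mp h)
  intro ω hω
  simp only [mem_ofPred_eq, not_not]
  exact hω.1

lemma rev4_zero_right (S : Sys) (a b : Fin 8) (z y : ℝ) (k : ℤ)
    (h : ∀ᵐ ω ∂S.μ, y ∉ S.reg b ω) : S.R a b k z y = 0 := by
  have h' := (S.T_mp k).quasiMeasurePreserving.ae h
  unfold Sys.R
  rw [measureReal_eq_zero_iff]
  refine measure_mono_null ?_ (ae_iff.mp h')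
  intro ω hω
  simp only [mem_ofPred_eq, not_not]
  exact hω.2

theorem R_eq_of_known_left (S D : Sys) (A : Set S.Ω) (B : Set D.Ω) (hA : Inv S A) (hB : Inv D B)
    (a b : Fin 8) (z y : ℝ) (hz : ZeroB S D a z ∨ CompB S D A B a z) (hy : EqA S D A B b y)
    (k : ℤ) : S.R a b k z y = D.R a b k z y := by
  rcases hz with hz | hz
  · rw [rev4_zero_left S a b z y k hz.1, rev4_zero_left D a b z y k hz.2]
  · rw [rev4_left S A hA a b z y k hz.1, rev4_left D B hB a b z y k hz.2, rev4_split S A hA,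
      rev4_split D B hB, hy.1, hy.2]

theorem R_eq_of_known_right (S D : Sys) (A : Set S.Ω) (B : Set D.Ω) (hA : Inv S A) (hB : Inv D B)
    (a b : Fin 8) (z y : ℝ) (hy : ZeroB S D b y ∨ CompB S D A B b y) (hz : EqA S D A B a z)
    (k : ℤ) : S.R a b k z y = D.R a b k z y := by
  rcases hy with hy | hy
  · rw [rev4_zero_right S a b z y k hy.1, rev4_zero_right D a b z y k hy.2]
  · rw [rev4_right S A hA a b z y k hy.1, rev4_right D B hB a b z y k hy.2, rev4_split S A hA,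
      rev4_split D B hB, hz.1, hz.2]

lemma rev4_subset_ae (S : Sys) (E F : Set S.Ω) (hE : MeasurableSet E) (hF : MeasurableSet F)
    (h : S.μ.real (E ∩ F) = S.μ.real E) (h' : S.μ.real E = S.μ.real F) :
    ∀ᵐ ω ∂S.μ, (ω ∈ E ↔ ω ∈ F) := by
  have h1 : (E ∩ F : Set S.Ω) =ᵐ[S.μ] E := by
    refine ae_eq_of_subset_of_measure_ge inter_subset_left ?_ (hE.inter hF).nullMeasurableSet (measure_ne_top _ _)
    have := (ENNReal.toReal_eq_toReal_iff' (measure_ne_top _ _) (measure_ne_top _ _)).mp h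
    exact this.ge
  have h2 : (E ∩ F : Set S.Ω) =ᵐ[S.μ] F := by
    refine ae_eq_of_subset_of_measure_ge inter_subset_right ?_ (hE.inter hF).nullMeasurableSet (measure_ne_top _ _)
    have := (ENNReal.toReal_eq_toReal_iff' (measure_ne_top _ _) (measure_ne_top _ _)).mp (h.trans h')
    exact this.ge
  filter_upwards [h1, h2] with ω a b
  have a' : (ω ∈ E ∩ F) = (ω ∈ E) := a
  have b' : (ω ∈ E ∩ F) = (ω ∈ F) := b
  rw [← a', b']

theorem twins (S : Sys) (a b : Fin 8)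
    (h1 : ∀ᵐ z : ℝ, S.μ.real {ω | z ∈ S.reg a ω} = S.μ.real {ω | z ∈ S.reg b ω})
    (h2 : S.rc a b 0 0 = ∫ z, S.μ.real {ω | z ∈ S.reg a ω}) :
    ∀ᵐ z : ℝ, ∀ᵐ ω ∂S.μ, (z ∈ S.reg a ω ↔ z ∈ S.reg b ω) := by
  have hm1 : ∀ a z, MeasurableSet {ω | z ∈ S.reg a ω} := fun a z =>
    S.meas_reg a measurable_id measurable_const
  have hR : ∀ z, S.R a b 0 z (z + 0) = S.μ.real ({ω | z ∈ S.reg a ω} ∩ {ω | z ∈ S.reg b ω}) := by
    intro z
    unfold Sys.R
    congr 1
    ext ω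
    simp only [mem_ofPred_eq, mem_inter_iff, S.T_zero, add_zero]
  have hle : ∀ z, S.R a b 0 z (z + 0) ≤ S.μ.real {ω | z ∈ S.reg a ω} := by
    intro z
    rw [hR]
    exact measureReal_mono inter_subset_left
  have hmf : Measurable fun z => S.μ.real {ω | z ∈ S.reg a ω} := by
    have h : MeasurableSet {q : ℝ × S.Ω | q.1 ∈ S.reg a q.2} :=
      S.meas_reg a measurable_snd measurable_fst
    exact (measurable_measure_prodMk_left h).ennreal_toReal
  have hif : Integrable fun z => S.μ.real {ω | z ∈ S.reg a ω} := by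
    refine rev1_int hmf (fun _ => measureReal_nonneg) (fun _ => measureReal_le_one) fun y hy => ?_
    have e : {ω | y ∈ S.reg a ω} = ∅ := by
      ext ω
      simp only [mem_ofPred_eq, mem_empty_iff_false, iff_false]
      exact fun h => hy h.1
    rw [e]
    simp
  have hig : Integrable fun z => S.R a b 0 z (z + 0) := by
    refine hif.mono' ((S.measurable_R a b 0).comp (by fun_prop : Measurable fun z : ℝ => (z, z + 0))).aestronglyMeasurable
      (Eventually.of_forall fun z => ?_)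
    rw [Real.norm_of_nonneg (S.R_nonneg _ _ _ _ _)]
    exact hle z
  have h3 : ∫ z, (S.μ.real {ω | z ∈ S.reg a ω} - S.R a b 0 z (z + 0)) = 0 := by
    rw [integral_sub hif hig, ← h2]
    unfold Sys.rc
    ring
  have h4 := (integral_eq_zero_iff_of_nonneg (fun z => sub_nonneg.mpr (hle z)) (hif.sub hig)).mp h3
  filter_upwards [h4, h1] with z hz hz1
  refine rev4_subset_ae S {ω | z ∈ S.reg a ω} {ω | z ∈ S.reg b ω} (hm1 a z) (hm1 b z) ?_ hz1
  rw [← hR]
  simp only [Pi.zero_apply] at hz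
  linarith

end NB97_REV4




/-- almost sure statements may be used in all blocks -/
theorem ae_all_T (S : Sys) {P : S.Ω → Prop} (h : ∀ᵐ ω ∂S.μ, P ω) :
    ∀ᵐ ω ∂S.μ, ∀ k, P (S.T k ω) :=
  ae_all_iff.mpr fun k => (S.T_mp k).quasiMeasurePreserving.ae h

end tasks

end Pool.Agent.LibNB97
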