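import Pool.Agent.LibNB97.Rev
import Pool.Agent.LibNB97.Loc
import Pool.Agent.LibNB97.Orient
import Pool.Agent.LibRCS.Avg

/-! # Reverse direction: a covariance determines a good assignment -/

open MeasureTheory Set Filter Topology
open scoped ENNReal

namespace Pool.Agent.LibNB97

open Pool.Agent.LibRCS

variable {j : ℕ → ℕ} {nx : ℕ → Fin 2 → ℕ}

theorem reverse {d : ℕ} (i0 : Fin d) (hnx : Next nx) (G : Geo j nx) (s t : ℕ → Fin 2 → Bool)
    (ht : Links nx s t)
    (h : IsStationaryRCSCovariance (fun x : EuclideanSpace ℝ (Fin d) => (Dsys G t).cov (x i0))) :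
    ∃ t', Links nx s t' ∧ Good j t' := by
  obtain ⟨μ, hμ, hst, h2⟩ := h
  set ax : ℝ → EuclideanSpace ℝ (Fin d) := fun y => EuclideanSpace.single i0 y with hax
  have hax_cont : Continuous ax := by
    have h1 : ax = fun y => y • EuclideanSpace.single i0 (1:ℝ) := by
      funext y
      ext i
      simp [hax, PiLp.single_apply]
    rw [h1]
    fun_prop
  have hax_add : ∀ y z, ax (y + z) = ax y + ax z := by
    intro y z
    ext i
    simp only [hax, PiLp.single_apply, PiLp.add_apply]
    split_ifs <;> simp
  set T : ℤ → ClosedSubset d → ClosedSubset d := fun k => ClosedSubset.translate (ax (-(884 * k)))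
    with hT
  have T_zero : ∀ ω, T 0 ω = ω := by
    intro ω
    simp only [hT]
    have h0 : ax (-(884 * ((0:ℤ):ℝ))) = 0 := by
      ext i
      simp [hax]
    rw [h0]
    cases ω
    simp [ClosedSubset.translate]
  have T_add : ∀ k l ω, T (k + l) ω = T k (T l ω) := by
    intro k l ω
    simp only [hT]
    rw [LibRCS.translate_translate, ← hax_add]
    congr 2
    push_cast
    ring
  have T_mp : ∀ k, MeasurePreserving (T k) μ μ := by
    intro k
    exact ⟨(continuous_translate_right _).measurable, hst _⟩
  set X : ClosedSubset d → Set ℝ := fun F => {y | ax y ∈ F.carrier} with hX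
  have hcl : ∀ ω, IsClosed (X ω) := fun ω => ω.isClosed.preimage hax_cont
  have hm : MeasurableSet {p : ClosedSubset d × ℝ | p.2 ∈ X p.1} := by
    have h1 : MeasurableSet {p : ClosedSubset d × EuclideanSpace ℝ (Fin d) | p.2 ∈ p.1.carrier} :=
      measurableSet_graph
    exact h1.preimage (measurable_fst.prodMk (hax_cont.measurable.comp measurable_snd))
  have hXT : ∀ k ω y, y ∈ X (T k ω) ↔ y + 884 * k ∈ X ω := by
    intro k ω y
    simp only [hX, hT, ClosedSubset.translate, mem_ofPred_eq]
    have e : ax y - ax (-(884 * (k:ℝ))) = ax (y + 884 * k) := by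
      rw [sub_eq_iff_eq_add, ← hax_add]
      congr 1
      ring
    rw [e]
  have hcov : ∀ x v, μ.real {ω | x ∈ X ω ∧ x + v ∈ X ω} = (Dsys G t).cov v := by
    intro x v
    have h3 := h2 (ax (x + v)) (ax x)
    have e1 : (ax (x + v) - ax x) i0 = v := by
      rw [hax_add]
      simp [hax]
    simp only at h3
    rw [e1] at h3
    rw [← h3]
    congr 1
    ext ω
    simp only [hX, mem_ofPred_eq]
    tauto
  obtain ⟨S, hScl, hS⟩ := locate μ T T_zero T_add T_mp X hcl hm hXT (Dsys G t) hcov
  obtain ⟨S', hreg, hScl', hS'⟩ := orient G t S hScl hS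
  exact good_of_match hnx G s t ht S' hScl' (match_of_corr S' _ hreg (isReg_Dsys G t) hS')

end Pool.Agent.LibNB97
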