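import Pool.Agent.LibNB97.Basic

/-! # Windows: the correlation of a regular system -/

open MeasureTheory Set Filter Topology
open scoped ENNReal

namespace Pool.Agent.LibNB97

section NB97_WIN1

lemma win1_dec : ∀ a b a' b' : Fin 8, a ≠ b → |(gz b - gz a) - (gz b' - gz a')| < 4 →
    a = a' ∧ b = b' := by
  decide

lemma win1_dec2 : ∀ a b : Fin 8, |gz b - gz a| < 4 → a = b := by
  decide

theorem gp_sub_inj (a b a' b' : Fin 8) (hab : a ≠ b) (v : ℝ)
    (h1 : |gp b - gp a - v| < 1) (h2 : |gp b' - gp a' - v| ≤ 1) : a = a' ∧ b = b' := by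
  apply win1_dec a b a' b' hab
  have h3 : |((gz b - gz a - (gz b' - gz a') : ℤ) : ℝ)| < 4 := by
    push_cast
    rw [← gp_eq, ← gp_eq, ← gp_eq, ← gp_eq]
    rw [abs_lt] at h1 ⊢
    rw [abs_le] at h2
    constructor <;> linarith [h1.1, h1.2, h2.1, h2.2]
  exact_mod_cast h3

theorem gp_diag (a b : Fin 8) (v : ℝ) (h1 : |v| < 1) (h2 : |gp b - gp a - v| ≤ 1) : a = b := by
  apply win1_dec2 a b
  have h3 : |((gz b - gz a : ℤ) : ℝ)| < 4 := by
    push_cast
    rw [← gp_eq, ← gp_eq]
    rw [abs_lt] at h1 ⊢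
    rw [abs_le] at h2
    constructor <;> linarith [h1.1, h1.2, h2.1, h2.2]
  exact_mod_cast h3

lemma win1_reg_sub (S : Sys) (a : Fin 8) (ω : S.Ω) {z : ℝ} (h : z ∈ S.reg a ω) : z ∈ Icc (0:ℝ) 1 := h.1

/-- almost surely, in every block, almost all points of the content are in the regions -/
lemma win1_ae (S : Sys) (h : S.IsReg) (k : ℤ) (s : ℝ) :
    ∀ᵐ y : ℝ, ∀ᵐ ω ∂S.μ, (y ∈ S.K ω → ∃ a, y - gp a ∈ Icc (0:ℝ) 1) ∧
      (y + s ∈ S.K (S.T k ω) → ∃ a, y + s - gp a ∈ Icc (0:ℝ) 1) := by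
  have m0 : MeasurableSet {p : S.Ω × ℝ | p.2 ∈ S.K p.1 → ∃ a, p.2 - gp a ∈ Icc (0:ℝ) 1} := by
    have e : {p : S.Ω × ℝ | p.2 ∈ S.K p.1 → ∃ a, p.2 - gp a ∈ Icc (0:ℝ) 1} =
        {p : S.Ω × ℝ | p.2 ∈ S.K p.1}ᶜ ∪ ⋃ a : Fin 8, {p : S.Ω × ℝ | p.2 - gp a ∈ Icc (0:ℝ) 1} := by
      ext p
      simp only [mem_ofPred_eq, mem_union, mem_compl_iff, mem_iUnion]
      tauto
    rw [e]
    refine (S.meas_K measurable_fst measurable_snd).compl.union (MeasurableSet.iUnion fun a => ?_)
    exact (measurable_snd.sub_const (gp a)) measurableSet_Icc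
  have h1 : ∀ᵐ p ∂((volume : Measure ℝ).prod S.μ), p.1 ∈ S.K p.2 → ∃ a, p.1 - gp a ∈ Icc (0:ℝ) 1 := by
    have h5 := (Measure.measurePreserving_swap (μ := (volume : Measure ℝ)) (ν := S.μ)).quasiMeasurePreserving.ae h
    simpa using h5
  have h2 : ∀ᵐ y : ℝ, ∀ᵐ ω ∂S.μ, y ∈ S.K ω → ∃ a, y - gp a ∈ Icc (0:ℝ) 1 :=
    Measure.ae_ae_of_ae_prod h1
  have h3 : ∀ᵐ y : ℝ, ∀ᵐ ω ∂S.μ, y + s ∈ S.K ω → ∃ a, y + s - gp a ∈ Icc (0:ℝ) 1 := by
    have h6 := (measurePreserving_add_right (volume : Measure ℝ) s).quasiMeasurePreserving.ae h2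
    exact h6
  filter_upwards [h2, h3] with y hy1 hy2
  have h4 := (S.T_mp k).quasiMeasurePreserving.ae hy2
  filter_upwards [hy1, h4] with ω hω1 hω2
  exact ⟨hω1, hω2⟩

/-- the correlation as a sum over all pairs of regions -/
lemma win1_pp (S : Sys) (h : S.IsReg) (k : ℤ) (s : ℝ) :
    ∀ᵐ y : ℝ, S.pp k y (y + s) = ∑ a, ∑ b, S.R a b k (y - gp a) (y + s - gp b) := by
  filter_upwards [win1_ae S h k s] with y hy
  -- at most one a and one b contribute
  have hR : ∀ a b, S.R a b k (y - gp a) (y + s - gp b) =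
      if (y - gp a ∈ Icc (0:ℝ) 1 ∧ y + s - gp b ∈ Icc (0:ℝ) 1) then S.pp k y (y + s) else 0 := by
    intro a b
    split_ifs with hc
    · rw [S.R_eq_pp a b k hc.1 hc.2]
      congr 1 <;> ring
    · apply S.R_eq_zero
      by_contra hcon
      push Not at hcon
      exact hc hcon
  have uniq : ∀ (x : ℝ) (a a' : Fin 8), x - gp a ∈ Icc (0:ℝ) 1 → x - gp a' ∈ Icc (0:ℝ) 1 → a = a' := by
    intro x a a' h1 h2
    apply gp_diag a a' 0 (by simp)
    rw [sub_zero, abs_le]
    constructor <;> linarith [h1.1, h1.2, h2.1, h2.2]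
  by_cases hA : ∃ a, y - gp a ∈ Icc (0:ℝ) 1
  · by_cases hB : ∃ b, y + s - gp b ∈ Icc (0:ℝ) 1
    · obtain ⟨a, ha⟩ := hA
      obtain ⟨b, hb⟩ := hB
      rw [Finset.sum_eq_single a, Finset.sum_eq_single b]
      · rw [hR, if_pos ⟨ha, hb⟩]
      · intro b' _ hb'
        rw [hR, if_neg]
        rintro ⟨_, h2⟩
        exact hb' (uniq _ _ _ h2 hb)
      · simp
      · intro a' _ ha'
        apply Finset.sum_eq_zero
        intro b' _
        rw [hR, if_neg]
        rintro ⟨h1, _⟩
        exact ha' (uniq _ _ _ h1 ha)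
      · simp
    · have h0 : S.pp k y (y + s) = 0 := by
        unfold Sys.pp
        rw [measureReal_eq_zero_iff]
        have := hy
        rw [← nonpos_iff_eq_zero]
        refine le_of_le_of_eq (measure_mono ?_) (ae_iff.mp hy)
        intro ω hω hcon
        exact hB (hcon.2 hω.2)
      rw [h0]
      symm
      apply Finset.sum_eq_zero
      intro a _
      apply Finset.sum_eq_zero
      intro b _
      rw [hR, if_neg]
      rintro ⟨_, h2⟩
      exact hB ⟨b, h2⟩
  · have h0 : S.pp k y (y + s) = 0 := by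
      unfold Sys.pp
      rw [measureReal_eq_zero_iff, ← nonpos_iff_eq_zero]
      refine le_of_le_of_eq (measure_mono ?_) (ae_iff.mp hy)
      intro ω hω hcon
      exact hA (hcon.1 hω.1)
    rw [h0]
    symm
    apply Finset.sum_eq_zero
    intro a _
    apply Finset.sum_eq_zero
    intro b _
    rw [hR, if_neg]
    rintro ⟨h1, _⟩
    exact hA ⟨a, h1⟩

lemma win1_int (S : Sys) (a b : Fin 8) (k : ℤ) (s : ℝ) :
    Integrable fun y : ℝ => S.R a b k (y - gp a) (y + s - gp b) := by
  have hm : Measurable fun y : ℝ => S.R a b k (y - gp a) (y + s - gp b) :=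
    (S.measurable_R a b k).comp (by fun_prop : Measurable fun y : ℝ => (y - gp a, y + s - gp b))
  have h1 : Integrable (indicator (Icc (gp a) (gp a + 1)) fun _ : ℝ => (1:ℝ)) := by
    rw [integrable_indicator_iff measurableSet_Icc]
    exact integrableOn_const (by simp) (by simp)
  refine h1.mono' hm.aestronglyMeasurable (Eventually.of_forall fun y => ?_)
  rw [Real.norm_of_nonneg (S.R_nonneg _ _ _ _ _)]
  by_cases hy : y ∈ Icc (gp a) (gp a + 1)
  · rw [indicator_of_mem hy]
    exact S.R_le_one _ _ _ _ _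
  · rw [indicator_of_notMem hy]
    apply le_of_eq
    apply S.R_eq_zero
    left
    intro h2
    exact hy ⟨by linarith [h2.1], by linarith [h2.2]⟩

lemma win1_corr (S : Sys) (h : S.IsReg) (k : ℤ) (s : ℝ) :
    S.corr k s = ∑ a, ∑ b, S.rc a b k (s - (gp b - gp a)) := by
  rw [S.corr_eq_integral, integral_congr_ae (win1_pp S h k s),
    integral_finsetSum _ (fun a _ => integrable_finsetSum _ fun b _ => win1_int S a b k s)]
  refine Finset.sum_congr rfl fun a _ => ?_
  rw [integral_finsetSum _ (fun b _ => win1_int S a b k s)]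
  refine Finset.sum_congr rfl fun b _ => ?_
  unfold Sys.rc
  have h1 := integral_sub_right_eq_self (fun z : ℝ => S.R a b k z (z + (s - (gp b - gp a)))) (μ := volume) (gp a)
  rw [← h1]
  congr 1
  funext y
  congr 1
  ring

theorem rc_eq_zero (S : Sys) (a b : Fin 8) (k : ℤ) (v : ℝ) (hv : 1 ≤ |v|) :
    S.rc a b k v = 0 := by
  unfold Sys.rc
  have h1 : ∀ᵐ z : ℝ, S.R a b k z (z + v) = 0 := by
    have h2 : ∀ᵐ z : ℝ, z ≠ 0 ∧ z ≠ 1 := by
      have := (measure_eq_zero_iff_ae_notMem (μ := (volume : Measure ℝ)) (s := {0, 1})).mp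
        ((Set.toFinite ({0, 1} : Set ℝ)).measure_zero _)
      filter_upwards [this] with z hz
      simp only [mem_insert_iff, mem_singleton_iff, not_or] at hz
      exact hz
    filter_upwards [h2] with z hz
    apply S.R_eq_zero
    by_contra hcon
    push Not at hcon
    obtain ⟨h3, h4⟩ := hcon
    rcases le_abs.mp hv with h | h
    · exact hz.1 (le_antisymm (by linarith [h4.2]) h3.1)
    · exact hz.2 (le_antisymm h3.2 (by linarith [h4.1]))
  rw [integral_congr_ae h1]
  simp

theorem corr_window (S : Sys) (h : S.IsReg) (a b : Fin 8) (hab : a ≠ b) (k : ℤ) (v : ℝ)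
    (hv : |v| < 1) : S.corr k (gp b - gp a + v) = S.rc a b k v := by
  rw [win1_corr S h, Finset.sum_eq_single a, Finset.sum_eq_single b]
  · congr 1
    ring
  · intro b' _ hb'
    apply rc_eq_zero
    by_contra hcon
    push Not at hcon
    have := gp_sub_inj a b a b' hab (gp b - gp a + v) (by
      rw [show gp b - gp a - (gp b - gp a + v) = -v by ring, abs_neg]; exact hv) (by
      rw [abs_sub_comm]
      exact hcon.le)
    exact hb' this.2.symm
  · simp
  · intro a' _ ha'
    apply Finset.sum_eq_zero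
    intro b' _
    apply rc_eq_zero
    by_contra hcon
    push Not at hcon
    have := gp_sub_inj a b a' b' hab (gp b - gp a + v) (by
      rw [show gp b - gp a - (gp b - gp a + v) = -v by ring, abs_neg]; exact hv) (by
      rw [abs_sub_comm]
      exact hcon.le)
    exact ha' this.1.symm
  · simp

theorem corr_diag (S : Sys) (h : S.IsReg) (k : ℤ) (v : ℝ) (hv : |v| < 1) :
    S.corr k v = ∑ a, S.rc a a k v := by
  rw [win1_corr S h]
  refine Finset.sum_congr rfl fun a _ => ?_
  rw [Finset.sum_eq_single a]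
  · congr 1
    ring
  · intro b' _ hb'
    apply rc_eq_zero
    by_contra hcon
    push Not at hcon
    have := gp_diag a b' v hv (by
      rw [abs_sub_comm]
      exact hcon.le)
    exact hb' this.symm
  · simp

end NB97_WIN1





/-- two systems with the same region correlations -/
structure Match (S D : Sys) : Prop where
  off : ∀ a b, a ≠ b → ∀ k v, S.rc a b k v = D.rc a b k v
  diag : ∀ k, ∑ a, S.rc a a k 0 = ∑ a, D.rc a a k 0

theorem match_of_corr (S D : Sys) (hS : S.IsReg) (hD : D.IsReg)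
    (h : ∀ k s, S.corr k s = D.corr k s) : Match S D where
  off a b hab k v := by
    by_cases hv : |v| < 1
    · rw [← corr_window S hS a b hab k v hv, ← corr_window D hD a b hab k v hv, h]
    · rw [rc_eq_zero S a b k v (not_lt.mp hv), rc_eq_zero D a b k v (not_lt.mp hv)]
  diag k := by
    have h0 : |(0:ℝ)| < 1 := by simp
    rw [← corr_diag S hS k 0 h0, ← corr_diag D hD k 0 h0, h]

end Pool.Agent.LibNB97
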